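import Pool.Agent.HetCyc.Stmts

/-!
# Elementary facts on the functions of the model
-/

namespace HetCyc

open Filter Topology Set Real

noncomputable section

lemma two_pi_pos : 0 < 2 * π := by positivity

lemma cs_zero : cs 0 = 1 := by simp [cs]
lemma sn_zero : sn 0 = 0 := by simp [sn]
lemma cs_half : cs (1 / 2) = -1 := by
  rw [cs, show 2 * π * (1 / 2) = π by ring, cos_pi]
lemma sn_half : sn (1 / 2) = 0 := by
  rw [sn, show 2 * π * (1 / 2) = π by ring, sin_pi]; simp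
lemma cs_neg (t : ℝ) : cs (-t) = cs t := by simp [cs]
lemma sn_neg (t : ℝ) : sn (-t) = - sn t := by simp [sn, neg_div]
lemma cs_le_one (t : ℝ) : cs t ≤ 1 := cos_le_one _
lemma neg_one_le_cs (t : ℝ) : -1 ≤ cs t := neg_one_le_cos _

lemma cs_add_int (t : ℝ) (k : ℤ) : cs (t + k) = cs t := by
  rw [cs, show 2 * π * (t + k) = 2 * π * t + k * (2 * π) by ring, cos_add_int_mul_two_pi, cs]
lemma sn_add_int (t : ℝ) (k : ℤ) : sn (t + k) = sn t := by
  rw [sn, show 2 * π * (t + k) = 2 * π * t + k * (2 * π) by ring, sin_add_int_mul_two_pi, sn]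
lemma cs_add_one (t : ℝ) : cs (t + 1) = cs t := by simpa using cs_add_int t 1
lemma sn_add_one (t : ℝ) : sn (t + 1) = sn t := by simpa using sn_add_int t 1
lemma cs_sub_one (t : ℝ) : cs (t - 1) = cs t := by
  simpa [sub_eq_add_neg] using cs_add_int t (-1)
lemma sn_sub_one (t : ℝ) : sn (t - 1) = sn t := by
  simpa [sub_eq_add_neg] using sn_add_int t (-1)
lemma cs_sub_int (t : ℝ) (k : ℤ) : cs (t - k) = cs t := by
  have := cs_add_int (t - k) k; rw [sub_add_cancel] at this; exact this.symm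
lemma cs_one_sub (t : ℝ) : cs (1 - t) = cs t := by
  rw [← cs_neg, show -(1 - t) = t - 1 by ring, cs_sub_one]
lemma sn_one_sub (t : ℝ) : sn (1 - t) = - sn t := by
  rw [show (1 - t) = -(t - 1) by ring, sn_neg, sn_sub_one]

lemma hasDerivAt_lin (t : ℝ) : HasDerivAt (fun x : ℝ => 2 * π * x) (2 * π) t := by
  simpa using (hasDerivAt_id t).const_mul (2 * π)
lemma hasDerivAt_cs (t : ℝ) : HasDerivAt cs (-(2 * π * Real.sin (2 * π * t))) t := by
  have h := (hasDerivAt_lin t).cos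
  exact h.congr_deriv (by ring)
lemma hasDerivAt_sn (t : ℝ) : HasDerivAt sn (cs t) t := by
  have h := ((hasDerivAt_lin t).sin).div_const (2 * π)
  exact h.congr_deriv (by unfold cs; have := two_pi_pos; field_simp)
lemma hasDerivAt_cc (t : ℝ) : HasDerivAt cc (-(π * Real.sin (2 * π * t))) t := by
  have h := ((hasDerivAt_cs t).const_add 1).div_const 2
  exact h.congr_deriv (by ring)

lemma contDiff_cs {n : WithTop ℕ∞} : ContDiff ℝ n cs := by unfold cs; fun_prop
lemma contDiff_sn {n : WithTop ℕ∞} : ContDiff ℝ n sn := by unfold sn; fun_prop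
lemma contDiff_cc {n : WithTop ℕ∞} : ContDiff ℝ n cc := by
  unfold cc; exact (contDiff_const.add contDiff_cs).div_const 2
lemma continuous_cs : Continuous cs := (contDiff_cs (n := 0)).continuous
lemma continuous_sn : Continuous sn := (contDiff_sn (n := 0)).continuous
lemma continuous_cc : Continuous cc := (contDiff_cc (n := 0)).continuous

lemma cc_zero : cc 0 = 1 := by simp [cc, cs_zero]
lemma cc_half : cc (1 / 2) = 0 := by rw [cc, cs_half]; norm_num
lemma cc_nonneg (t : ℝ) : 0 ≤ cc t := by unfold cc; linarith [neg_one_le_cs t]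
lemma cc_le_one (t : ℝ) : cc t ≤ 1 := by unfold cc; linarith [cs_le_one t]

/-! ## comparison -/

lemma cs_lt_cs {a b : ℝ} (ha : 0 ≤ a) (hb : b ≤ 1 / 2) (hab : a < b) : cs b < cs a := by
  unfold cs
  apply strictAntiOn_cos ⟨by positivity, ?_⟩ ⟨by have := ha.trans hab.le; positivity, ?_⟩
  · have := pi_pos; nlinarith
  · have := pi_pos; nlinarith
  · have := pi_pos; nlinarith

lemma cs_le_cs {a b : ℝ} (ha : 0 ≤ a) (hb : b ≤ 1 / 2) (hab : a ≤ b) : cs b ≤ cs a := by
  rcases hab.eq_or_lt with h | h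
  · rw [h]
  · exact (cs_lt_cs ha hb h).le

lemma cs_abs (t : ℝ) : cs |t| = cs t := by
  rcases abs_cases t with ⟨h, _⟩ | ⟨h, _⟩ <;> rw [h]
  exact cs_neg t

/-- `cs t < cs a` iff `a < |t|`, for `|t| ≤ 1/2` and `0 ≤ a ≤ 1/2` -/
lemma cs_lt_iff {t a : ℝ} (ht : |t| ≤ 1 / 2) (ha : 0 ≤ a) (ha' : a ≤ 1 / 2) :
    cs t < cs a ↔ a < |t| := by
  rw [← cs_abs t]
  constructor
  · intro h
    by_contra h'
    push Not at h'
    exact absurd (cs_le_cs (abs_nonneg t) ha' h') (not_le.mpr h)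
  · intro h
    exact cs_lt_cs ha ht h

lemma cs_le_iff {t a : ℝ} (ht : |t| ≤ 1 / 2) (ha : 0 ≤ a) (ha' : a ≤ 1 / 2) :
    cs a ≤ cs t ↔ |t| ≤ a := by
  rw [← not_lt, cs_lt_iff ht ha ha', not_lt]

lemma cs_lt_iff' {t a : ℝ} (ht : |t| ≤ 1 / 2) (ha : 0 ≤ a) (ha' : a ≤ 1 / 2) :
    cs a < cs t ↔ |t| < a := by
  rw [← cs_abs t]
  constructor
  · intro h
    by_contra h'
    push Not at h'
    exact absurd (cs_le_cs ha ht h') (not_le.mpr h)
  · intro h
    exact cs_lt_cs (abs_nonneg t) ha' h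

lemma sn_pos {t : ℝ} (h0 : 0 < t) (h1 : t < 1 / 2) : 0 < sn t := by
  unfold sn
  apply div_pos _ two_pi_pos
  apply sin_pos_of_pos_of_lt_pi (by positivity)
  have := pi_pos; nlinarith

lemma sn_nonneg {t : ℝ} (h0 : 0 ≤ t) (h1 : t ≤ 1 / 2) : 0 ≤ sn t := by
  unfold sn
  apply div_nonneg _ two_pi_pos.le
  apply sin_nonneg_of_nonneg_of_le_pi (by positivity)
  have := pi_pos; nlinarith

lemma sn_le_self {t : ℝ} (h0 : 0 ≤ t) : sn t ≤ t := by
  unfold sn
  rw [div_le_iff₀ two_pi_pos]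
  have := sin_le (show (0:ℝ) ≤ 2 * π * t by positivity)
  linarith

lemma abs_sn_le (t : ℝ) : |sn t| ≤ |t| := by
  rcases le_total 0 t with h | h
  · have h1 := sn_le_self h
    rw [abs_of_nonneg h, abs_le]
    refine ⟨?_, h1⟩
    have h2 : -(2 * π * t) ≤ Real.sin (2 * π * t) := by
      have := (abs_le.mp (Real.abs_sin_le_abs (x := 2 * π * t))).1
      rw [abs_of_nonneg (show (0:ℝ) ≤ 2 * π * t by positivity)] at this
      exact this
    unfold sn; rw [le_div_iff₀ two_pi_pos]; linarith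
  · have h' : 0 ≤ -t := by linarith
    have h1 := sn_le_self h'
    rw [abs_of_nonpos h, ← abs_neg, ← sn_neg, abs_le]
    refine ⟨?_, h1⟩
    have h2 : -(2 * π * (-t)) ≤ Real.sin (2 * π * (-t)) := by
      have := (abs_le.mp (Real.abs_sin_le_abs (x := 2 * π * (-t)))).1
      rw [abs_of_nonneg (show (0:ℝ) ≤ 2 * π * (-t) by positivity)] at this
      exact this
    unfold sn; rw [le_div_iff₀ two_pi_pos]; linarith

/-! ## numerical values -/

lemma sqrt2_bounds : (1414 / 1000 : ℝ) < √2 ∧ √2 < 1415 / 1000 := by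
  constructor
  · rw [lt_sqrt (by norm_num)]; norm_num
  · rw [sqrt_lt' (by norm_num)]; norm_num

lemma cs_eighth : cs (1 / 8) = √2 / 2 := by
  rw [cs, show 2 * π * (1 / 8) = π / 4 by ring, cos_pi_div_four]

lemma sin_eighth : Real.sin (2 * π * (1 / 8)) = √2 / 2 := by
  rw [show 2 * π * (1 / 8) = π / 4 by ring, sin_pi_div_four]

/-- for `|t| ≤ 1/8` the derivative of `sn` is at least `7/10` -/
lemma cs_ge_of_le {t : ℝ} (h : |t| ≤ 1 / 8) : 7 / 10 ≤ cs t := by
  have h1 : cs (1 / 8) ≤ cs t := by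
    rw [cs_le_iff (h.trans (by norm_num)) (by norm_num) (by norm_num)]; exact h
  rw [cs_eighth] at h1
  linarith [sqrt2_bounds.1]

lemma sqrt5_bounds : (2236 / 1000 : ℝ) < √5 ∧ √5 < 2237 / 1000 := by
  constructor
  · rw [lt_sqrt (by norm_num)]; norm_num
  · rw [sqrt_lt' (by norm_num)]; norm_num

lemma cs_fifth : cs (1 / 5) = (√5 - 1) / 4 := by
  rw [cs, show 2 * π * (1 / 5) = 2 * (π / 5) by ring, cos_two_mul, cos_pi_div_five]
  have h : √5 ^ 2 = 5 := sq_sqrt (by norm_num)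
  nlinarith [h]

lemma cs_fifth_bounds : 309 / 1000 ≤ cs (1 / 5) ∧ cs (1 / 5) ≤ 310 / 1000 := by
  rw [cs_fifth]; constructor <;> linarith [sqrt5_bounds.1, sqrt5_bounds.2]

lemma cs_three_twentieth : 11 / 20 ≤ cs (3 / 20) := by
  have h1 : cs (3 / 20) = Real.sin (π / 5) := by
    rw [cs, show 2 * π * (3 / 20) = π / 2 - π / 5 by ring, cos_pi_div_two_sub]
  have h2 : 0 ≤ Real.sin (π / 5) := sin_nonneg_of_nonneg_of_le_pi (by positivity) (by
    have := pi_pos; linarith)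
  have h3 := sin_sq_add_cos_sq (π / 5)
  rw [cos_pi_div_five] at h3
  have h : √5 ^ 2 = 5 := sq_sqrt (by norm_num)
  rw [h1]
  have h4 : (11 / 20) ^ 2 ≤ Real.sin (π / 5) ^ 2 := by
    nlinarith [h, h3, sqrt5_bounds.1, sqrt5_bounds.2]
  exact (sq_le_sq₀ (by norm_num) h2).mp h4

lemma cos_pi_div_eight_bounds :
    92 / 100 ≤ Real.cos (π / 8) ∧ Real.cos (π / 8) ≤ 93 / 100 := by
  have h : Real.cos (π / 8) = √(2 + √2) / 2 := cos_pi_div_eight
  have h1 : (184 / 100 : ℝ) ≤ √(2 + √2) := by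
    apply le_sqrt_of_sq_le; nlinarith [sqrt2_bounds.1]
  have h2 : √(2 + √2) ≤ (186 / 100 : ℝ) := by
    rw [sqrt_le_left (by norm_num)]; nlinarith [sqrt2_bounds.2]
  rw [h]; constructor <;> linarith

lemma pi_bounds : (314 / 100 : ℝ) < π ∧ π < 315 / 100 := by
  constructor
  · have := pi_gt_d2; norm_num at this ⊢; linarith
  · have := pi_lt_d2; norm_num at this ⊢; linarith

/-- `phi (1/8)` is between `3/16` and `1/4` -/
lemma phi_eighth : 3 / 16 < phi (1 / 8) ∧ phi (1 / 8) < 1 / 4 := by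
  have h : phi (1 / 8) = 1 / 8 + 4 / 5 * (√2 / 2 / (2 * π)) := by
    rw [phi, sn, sin_eighth]
  obtain ⟨p1, p2⟩ := pi_bounds
  obtain ⟨s1, s2⟩ := sqrt2_bounds
  rw [h]
  constructor
  · have : (1 / 10 : ℝ) < √2 / 2 / (2 * π) := by
      rw [lt_div_iff₀ two_pi_pos]; nlinarith
    linarith
  · have : √2 / 2 / (2 * π) < (12 / 100 : ℝ) := by
      rw [div_lt_iff₀ two_pi_pos]; nlinarith
    linarith

/-- `phi (3/16)` is between `0.304` and `0.306` -/
lemma phi_b : 304 / 1000 < phi (3 / 16) ∧ phi (3 / 16) < 306 / 1000 := by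
  have e : Real.sin (2 * π * (3 / 16)) = Real.cos (π / 8) := by
    rw [show 2 * π * (3 / 16) = π / 2 - π / 8 by ring, sin_pi_div_two_sub]
  have h : phi (3 / 16) = 3 / 16 + 4 / 5 * (Real.cos (π / 8) / (2 * π)) := by
    rw [phi, sn, e]
  obtain ⟨p1, p2⟩ := pi_bounds
  obtain ⟨s1, s2⟩ := cos_pi_div_eight_bounds
  rw [h]
  constructor
  · have : (1457 / 10000 : ℝ) < Real.cos (π / 8) / (2 * π) := by
      rw [lt_div_iff₀ two_pi_pos]; nlinarith
    linarith
  · have : Real.cos (π / 8) / (2 * π) < (1481 / 10000 : ℝ) := by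
      rw [div_lt_iff₀ two_pi_pos]; nlinarith
    linarith

/-! ## smoothness -/

lemma contDiff_sT {n : ℕ∞} : ContDiff ℝ n Real.smoothTransition := Real.smoothTransition.contDiff
lemma contDiff_eg {n : ℕ∞} : ContDiff ℝ n expNegInvGlue := expNegInvGlue.contDiff

lemma contDiff_phi {n : WithTop ℕ∞} : ContDiff ℝ n phi := by
  unfold phi; exact contDiff_id.add (contDiff_const.mul contDiff_sn)
lemma contDiff_tau {n : ℕ∞} : ContDiff ℝ n tau := by
  unfold tau
  exact contDiff_sT.comp (contDiff_const.sub (contDiff_const.mul contDiff_cs))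
lemma contDiff_lam {n : ℕ∞} : ContDiff ℝ n lam := by
  unfold lam; exact contDiff_const.add contDiff_tau
lemma contDiff_mu {n : ℕ∞} : ContDiff ℝ n mu := by
  unfold mu; exact contDiff_const.add (contDiff_const.mul contDiff_tau)
lemma contDiff_cs_sub {n : WithTop ℕ∞} (a : ℝ) : ContDiff ℝ n (fun y => cs (y - a)) :=
  contDiff_cs.comp (contDiff_id.sub contDiff_const)
lemma contDiff_om {n : ℕ∞} : ContDiff ℝ n om := by
  unfold om
  exact contDiff_eg.comp ((contDiff_cs_sub (3 / 16)).sub contDiff_const)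
lemma contDiff_om2 {n : ℕ∞} : ContDiff ℝ n om2 := by
  unfold om2
  exact contDiff_sT.comp (contDiff_const.mul ((contDiff_cs_sub (3 / 4)).sub contDiff_const))
lemma contDiff_k1 {n : ℕ∞} : ContDiff ℝ n k1 := by
  unfold k1
  exact (contDiff_const.mul (contDiff_const.sub (contDiff_cs_sub (3 / 16)))).mul contDiff_om
lemma contDiff_k2 {n : ℕ∞} : ContDiff ℝ n k2 := by
  unfold k2
  refine contDiff_const.mul (ContDiff.add (ContDiff.mul ?_ contDiff_om) contDiff_om2)
  exact Real.contDiff_sin.comp (contDiff_const.mul (contDiff_id.sub contDiff_const))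
lemma contDiff_ee {n : ℕ∞} : ContDiff ℝ n ee := by
  unfold ee
  exact contDiff_sT.comp ((contDiff_cs.sub contDiff_const).div_const _)
lemma contDiff_hh {n : ℕ∞} : ContDiff ℝ n (fun q : ℝ × ℝ => hh q.1 q.2) := by
  unfold hh
  have a1 : ContDiff ℝ n (fun q : ℝ × ℝ => q.1 - 2 / 25) := contDiff_fst.sub contDiff_const
  refine contDiff_const.mul (ContDiff.mul (ContDiff.mul ?_ ?_) (ContDiff.mul ?_ ?_))
  · exact contDiff_cc.comp a1
  · exact contDiff_ee.comp a1
  · exact contDiff_cc.comp contDiff_snd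
  · exact contDiff_ee.comp contDiff_snd
lemma contDiff_ax {n : ℕ∞} : ContDiff ℝ n (fun q : ℝ × ℝ => ax q.1 q.2) := by
  unfold ax
  exact (contDiff_snd.add ((contDiff_lam.comp contDiff_fst).mul
    (contDiff_sn.comp contDiff_snd))).add
    ((contDiff_k1.comp contDiff_fst).mul (contDiff_cc.comp contDiff_snd))
lemma contDiff_bz {n : ℕ∞} : ContDiff ℝ n (fun q : ℝ × ℝ => bz q.1 q.2) := by
  unfold bz
  exact (contDiff_snd.add ((contDiff_mu.comp contDiff_fst).mul
    (contDiff_sn.comp contDiff_snd))).add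
    ((contDiff_k2.comp contDiff_fst).mul (contDiff_cc.comp contDiff_snd))

lemma contDiff_apply3 {n : WithTop ℕ∞} (i : Fin 3) : ContDiff ℝ n (fun p : E 3 => p i) :=
  contDiff_apply ℝ ℝ i

lemma contDiff_fx {n : ℕ∞} : ContDiff ℝ n (fun p : E 3 => ax (p 1) (p 0)) := by
  have h : ContDiff ℝ n (fun p : E 3 => ((p 1, p 0) : ℝ × ℝ)) :=
    (contDiff_apply3 1).prodMk (contDiff_apply3 0)
  exact (contDiff_ax (n := n)).comp h
lemma contDiff_fz {n : ℕ∞} : ContDiff ℝ n (fun p : E 3 => bz (p 1) (p 2)) := by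
  have h : ContDiff ℝ n (fun p : E 3 => ((p 1, p 2) : ℝ × ℝ)) :=
    (contDiff_apply3 1).prodMk (contDiff_apply3 2)
  exact (contDiff_bz (n := n)).comp h
lemma contDiff_fh {n : ℕ∞} :
    ContDiff ℝ n (fun p : E 3 => hh (ax (p 1) (p 0)) (bz (p 1) (p 2))) := by
  have h : ContDiff ℝ n (fun p : E 3 => ((ax (p 1) (p 0), bz (p 1) (p 2)) : ℝ × ℝ)) :=
    contDiff_fx.prodMk contDiff_fz
  have h2 := ContDiff.comp (g := fun q : ℝ × ℝ => hh q.1 q.2) contDiff_hh h
  simpa only [Function.comp_def] using h2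
lemma contDiff_fy {n : ℕ∞} :
    ContDiff ℝ n (fun p : E 3 => phi (p 1) + hh (ax (p 1) (p 0)) (bz (p 1) (p 2))) := by
  have h : ContDiff ℝ n (fun p : E 3 => phi (p 1)) := contDiff_phi.comp (contDiff_apply3 1)
  exact h.add contDiff_fh

lemma fmap_zero (p : E 3) : fmap p 0 = ax (p 1) (p 0) := rfl
lemma fmap_one (p : E 3) :
    fmap p 1 = phi (p 1) + hh (ax (p 1) (p 0)) (bz (p 1) (p 2)) := rfl
lemma fmap_two (p : E 3) : fmap p 2 = bz (p 1) (p 2) := rfl

lemma contDiff_fmap {n : ℕ∞} : ContDiff ℝ n fmap := by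
  rw [contDiff_pi]
  intro i
  fin_cases i
  · simpa [fmap_zero] using contDiff_fx (n := n)
  · simpa [fmap_one] using contDiff_fy (n := n)
  · simpa [fmap_two] using contDiff_fz (n := n)

lemma continuous_fmap : Continuous fmap := (contDiff_fmap (n := 0)).continuous

end

end HetCyc
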