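import Pool.Agent.HetCyc.Basic

/-!
# Elementary facts on the functions of the model, second part
-/

namespace HetCyc

open Filter Topology Set Real

noncomputable section

/-! ## mean value inequalities for `sn` -/

/-- a difference quotient of `sn` is a value of `cs` -/
lemma sn_sub_eq (s t : ℝ) : ∃ u, min s t ≤ u ∧ u ≤ max s t ∧ sn t - sn s = cs u * (t - s) := by
  rcases lt_trichotomy s t with h | h | h
  · obtain ⟨u, hu, he⟩ := exists_hasDerivAt_eq_slope sn cs h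
      continuous_sn.continuousOn (fun x _ => hasDerivAt_sn x)
    refine ⟨u, by rw [min_eq_left h.le]; exact hu.1.le, by rw [max_eq_right h.le]; exact hu.2.le, ?_⟩
    rw [he]; have := sub_ne_zero.mpr h.ne'; field_simp
  · subst h; exact ⟨s, by simp, by simp, by simp⟩
  · obtain ⟨u, hu, he⟩ := exists_hasDerivAt_eq_slope sn cs h
      continuous_sn.continuousOn (fun x _ => hasDerivAt_sn x)
    refine ⟨u, by rw [min_eq_right h.le]; exact hu.1.le, by rw [max_eq_left h.le]; exact hu.2.le, ?_⟩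
    rw [he]; have := sub_ne_zero.mpr h.ne'; field_simp; ring

/-- on `|t| ≤ 1/8` the difference quotients of `sn` are in `[7/10, 1]` -/
lemma sn_sub_eq' {s t : ℝ} (hs : |s| ≤ 1 / 8) (ht : |t| ≤ 1 / 8) :
    ∃ θ, 7 / 10 ≤ θ ∧ θ ≤ 1 ∧ sn t - sn s = θ * (t - s) := by
  obtain ⟨u, h1, h2, h3⟩ := sn_sub_eq s t
  refine ⟨cs u, cs_ge_of_le ?_, cs_le_one u, h3⟩
  rw [abs_le] at hs ht ⊢
  constructor
  · exact le_trans (le_min hs.1 ht.1) h1
  · exact h2.trans (max_le hs.2 ht.2)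

lemma sn_eq_mul {t : ℝ} (ht : |t| ≤ 1 / 8) : ∃ θ, 7 / 10 ≤ θ ∧ θ ≤ 1 ∧ sn t = θ * t := by
  obtain ⟨θ, h1, h2, h3⟩ := sn_sub_eq' (s := 0) (by norm_num) ht
  exact ⟨θ, h1, h2, by simpa [sn_zero] using h3⟩

/-! ## periodicity -/

lemma phi_add_int (y : ℝ) (k : ℤ) : phi (y + k) = phi y + k := by
  unfold phi; rw [sn_add_int]; ring
lemma tau_add_int (y : ℝ) (k : ℤ) : tau (y + k) = tau y := by
  unfold tau; rw [cs_add_int]
lemma lam_add_int (y : ℝ) (k : ℤ) : lam (y + k) = lam y := by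
  unfold lam; rw [tau_add_int]
lemma mu_add_int (y : ℝ) (k : ℤ) : mu (y + k) = mu y := by
  unfold mu; rw [tau_add_int]
lemma cs_add_int_sub (y a : ℝ) (k : ℤ) : cs (y + k - a) = cs (y - a) := by
  rw [show y + k - a = y - a + k by ring, cs_add_int]
lemma om_add_int (y : ℝ) (k : ℤ) : om (y + k) = om y := by
  unfold om; rw [cs_add_int_sub]
lemma om2_add_int (y : ℝ) (k : ℤ) : om2 (y + k) = om2 y := by
  unfold om2; rw [cs_add_int_sub]
lemma k1_add_int (y : ℝ) (k : ℤ) : k1 (y + k) = k1 y := by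
  unfold k1; rw [cs_add_int_sub, om_add_int]
lemma k2_add_int (y : ℝ) (k : ℤ) : k2 (y + k) = k2 y := by
  unfold k2
  rw [om_add_int, om2_add_int,
    show 2 * π * (y + k - 3 / 16) = 2 * π * (y - 3 / 16) + k * (2 * π) by ring,
    sin_add_int_mul_two_pi]
lemma cc_add_int (t : ℝ) (k : ℤ) : cc (t + k) = cc t := by unfold cc; rw [cs_add_int]
lemma ee_add_int (t : ℝ) (k : ℤ) : ee (t + k) = ee t := by unfold ee; rw [cs_add_int]
lemma hh_add_int (x z : ℝ) (k l : ℤ) : hh (x + k) (z + l) = hh x z := by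
  unfold hh
  rw [show x + k - 2 / 25 = x - 2 / 25 + k by ring, cc_add_int, cc_add_int, ee_add_int,
    ee_add_int]
lemma ax_add_int (y x : ℝ) (k l : ℤ) : ax (y + k) (x + l) = ax y x + l := by
  unfold ax; rw [lam_add_int, k1_add_int, sn_add_int, cc_add_int]; ring
lemma bz_add_int (y z : ℝ) (k l : ℤ) : bz (y + k) (z + l) = bz y z + l := by
  unfold bz; rw [mu_add_int, k2_add_int, sn_add_int, cc_add_int]; ring

lemma fmap_add_int (p : E 3) (k : Fin 3 → ℤ) : fmap (p + intVec k) = fmap p + intVec k := by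
  have h0 : (p + intVec k) 0 = p 0 + (k 0 : ℝ) := rfl
  have h1 : (p + intVec k) 1 = p 1 + (k 1 : ℝ) := rfl
  have h2 : (p + intVec k) 2 = p 2 + (k 2 : ℝ) := rfl
  ext i
  fin_cases i
  · show ax ((p + intVec k) 1) ((p + intVec k) 0) = ax (p 1) (p 0) + (k 0 : ℝ)
    rw [h0, h1, ax_add_int]
  · show phi ((p + intVec k) 1) +
        hh (ax ((p + intVec k) 1) ((p + intVec k) 0)) (bz ((p + intVec k) 1) ((p + intVec k) 2)) =
      phi (p 1) + hh (ax (p 1) (p 0)) (bz (p 1) (p 2)) + (k 1 : ℝ)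
    rw [h0, h1, h2, ax_add_int, bz_add_int, hh_add_int, phi_add_int]; ring
  · show bz ((p + intVec k) 1) ((p + intVec k) 2) = bz (p 1) (p 2) + (k 2 : ℝ)
    rw [h1, h2, bz_add_int]

/-! ## the values of `tau`, `om`, `om2` -/

lemma tau_nonneg (y : ℝ) : 0 ≤ tau y := smoothTransition.nonneg _
lemma tau_le_one (y : ℝ) : tau y ≤ 1 := smoothTransition.le_one _
lemma tau_eq_zero {y : ℝ} (h : 1 / 4 ≤ cs y) : tau y = 0 :=
  smoothTransition.zero_of_nonpos (by linarith)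
lemma tau_eq_one {y : ℝ} (h : cs y ≤ -(1 / 4)) : tau y = 1 :=
  smoothTransition.one_of_one_le (by linarith)
lemma abs_lam_le (y : ℝ) : |lam y| ≤ 1 / 2 := by
  unfold lam; rw [abs_le]; constructor <;> linarith [tau_nonneg y, tau_le_one y]
lemma abs_mu_le (y : ℝ) : |mu y| ≤ 4 / 5 := by
  unfold mu; rw [abs_le]; constructor <;> linarith [tau_nonneg y, tau_le_one y]

lemma eg_nonneg (x : ℝ) : 0 ≤ expNegInvGlue x := expNegInvGlue.nonneg x
lemma eg_le_one (x : ℝ) : expNegInvGlue x ≤ 1 := by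
  unfold expNegInvGlue
  split_ifs with h
  · norm_num
  · rw [exp_le_one_iff]
    push Not at h
    have := inv_pos.mpr h; linarith
lemma om_nonneg (y : ℝ) : 0 ≤ om y := eg_nonneg _
lemma om_le_one (y : ℝ) : om y ≤ 1 := eg_le_one _
lemma om2_nonneg (y : ℝ) : 0 ≤ om2 y := smoothTransition.nonneg _
lemma om2_le_one (y : ℝ) : om2 y ≤ 1 := smoothTransition.le_one _

lemma cos_pi_div_eight_eq : Real.cos (π / 8) = cs (1 / 16) := by
  unfold cs; congr 1; ring

/-- `om` vanishes at distance at least `1/16` of `3/16` -/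
lemma om_eq_zero {y : ℝ} (h1 : 1 / 16 ≤ |y - 3 / 16|) (h2 : |y - 3 / 16| ≤ 1 / 2) : om y = 0 := by
  apply expNegInvGlue.zero_of_nonpos
  rw [cos_pi_div_eight_eq, sub_nonpos, ← cs_abs]
  exact cs_le_cs (by norm_num) h2 h1
lemma om_pos {y : ℝ} (h1 : |y - 3 / 16| < 1 / 16) : 0 < om y := by
  apply expNegInvGlue.pos_of_pos
  rw [cos_pi_div_eight_eq, sub_pos, ← cs_abs (y - 3 / 16)]
  exact cs_lt_cs (abs_nonneg _) (by norm_num) h1

/-- `om` vanishes on `[-5/16, 1/8]` and on `[1/4, 9/8]` -/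
lemma om_eq_zero_left {y : ℝ} (h1 : -(5 / 16) ≤ y) (h2 : y ≤ 1 / 8) : om y = 0 := by
  apply om_eq_zero
  · rw [abs_of_nonpos (by linarith)]; linarith
  · rw [abs_of_nonpos (by linarith)]; linarith
lemma om_eq_zero_right {y : ℝ} (h1 : 1 / 4 ≤ y) (h2 : y ≤ 9 / 8) : om y = 0 := by
  rcases le_total y (11 / 16) with h | h
  · apply om_eq_zero
    · rw [abs_of_nonneg (by linarith)]; linarith
    · rw [abs_of_nonneg (by linarith)]; linarith
  · have := om_add_int (y - 1) 1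
    simp only [Int.cast_one, sub_add_cancel] at this
    rw [this]
    exact om_eq_zero_left (by linarith) (by linarith)

/-- `om2 = 1` on the window `[3/5, 9/10]` -/
lemma om2_eq_one {y : ℝ} (h1 : 3 / 5 ≤ y) (h2 : y ≤ 9 / 10) : om2 y = 1 := by
  apply smoothTransition.one_of_one_le
  have h3 : |y - 3 / 4| ≤ 3 / 20 := by rw [abs_le]; constructor <;> linarith
  have h4 : cs (3 / 20) ≤ cs (y - 3 / 4) := by
    rw [cs_le_iff (h3.trans (by norm_num)) (by norm_num) (by norm_num)]; exact h3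
  linarith [cs_three_twentieth]
/-- `om2 = 0` on `[-1/20, 11/20]` -/
lemma om2_eq_zero {y : ℝ} (h1 : -(1 / 20) ≤ y) (h2 : y ≤ 11 / 20) : om2 y = 0 := by
  apply smoothTransition.zero_of_nonpos
  have key : cs (y - 3 / 4) ≤ cs (1 / 5) := by
    rcases le_total (1 / 4) y with h | h
    · rw [← cs_abs (y - 3 / 4)]
      apply cs_le_cs (by norm_num)
      · rw [abs_of_nonpos (by linarith)]; linarith
      · rw [abs_of_nonpos (by linarith)]; linarith
    · rw [← cs_add_one, ← cs_abs (y - 3 / 4 + 1)]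
      apply cs_le_cs (by norm_num)
      · rw [abs_of_nonneg (by linarith)]; linarith
      · rw [abs_of_nonneg (by linarith)]; linarith
  linarith [cs_fifth_bounds.2]

/-- type `Q`: `|y| ≤ 1/5` -/
lemma cs_ge_quarter {y : ℝ} (h : |y| ≤ 1 / 5) : 1 / 4 ≤ cs y := by
  have : cs (1 / 5) ≤ cs y := by
    rw [cs_le_iff (h.trans (by norm_num)) (by norm_num) (by norm_num)]; exact h
  linarith [cs_fifth_bounds.1]
/-- type `P`: `3/10 ≤ y ≤ 7/10` -/
lemma cs_le_neg {y : ℝ} (h1 : 3 / 10 ≤ y) (h2 : y ≤ 7 / 10) : cs y ≤ -(309 / 1000) := by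
  have e : cs y = - cs (y - 1 / 2) := by
    unfold cs
    rw [show 2 * π * (y - 1 / 2) = 2 * π * y - π by ring, cos_sub_pi, neg_neg]
  have h3 : |y - 1 / 2| ≤ 1 / 5 := by rw [abs_le]; constructor <;> linarith
  have : cs (1 / 5) ≤ cs (y - 1 / 2) := by
    rw [cs_le_iff (h3.trans (by norm_num)) (by norm_num) (by norm_num)]; exact h3
  linarith [cs_fifth_bounds.1]
lemma tau_Q {y : ℝ} (h : |y| ≤ 1 / 5) : tau y = 0 := tau_eq_zero (cs_ge_quarter h)
lemma tau_P {y : ℝ} (h1 : 3 / 10 ≤ y) (h2 : y ≤ 7 / 10) : tau y = 1 :=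
  tau_eq_one (by linarith [cs_le_neg h1 h2])
/-- type `Q` at the end of the circle -/
lemma tau_Q' {y : ℝ} (h1 : 4 / 5 ≤ y) (h2 : y ≤ 6 / 5) : tau y = 0 := by
  have := tau_add_int (y - 1) 1
  simp only [Int.cast_one, sub_add_cancel] at this
  rw [this]
  exact tau_Q (by rw [abs_le]; constructor <;> linarith)

lemma k1_nonpos (y : ℝ) : k1 y ≤ 0 := by
  unfold k1
  have h1 := cs_le_one (y - 3 / 16)
  have h2 := om_nonneg y
  have := mul_nonneg (sub_nonneg.mpr h1) h2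
  linarith
lemma abs_k1_le (y : ℝ) : |k1 y| ≤ 1 / 10 := by
  rw [abs_of_nonpos (k1_nonpos y)]
  unfold k1
  have h1 := cs_le_one (y - 3 / 16)
  have h1' := neg_one_le_cs (y - 3 / 16)
  have h2 := om_nonneg y
  have h3 := om_le_one y
  nlinarith [mul_le_mul (show 1 - cs (y - 3 / 16) ≤ 2 by linarith) h3 h2 (by norm_num)]
lemma k1_eq_zero {y : ℝ} (h : om y = 0) : k1 y = 0 := by simp [k1, h]
lemma k2_eq_zero {y : ℝ} (h : om y = 0) (h' : om2 y = 0) : k2 y = 0 := by simp [k2, h, h']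
lemma k1_b : k1 (3 / 16) = 0 := by simp [k1, cs_zero]
lemma k2_b : k2 (3 / 16) = 0 := by
  have : om2 (3 / 16) = 0 := om2_eq_zero (by norm_num) (by norm_num)
  simp [k2, this]
/-- `k1 < 0` on the support of `om` except at `3/16` -/
lemma k1_neg {y : ℝ} (h1 : |y - 3 / 16| < 1 / 16) (h2 : y ≠ 3 / 16) : k1 y < 0 := by
  have h3 := om_pos h1
  have h4 : cs (y - 3 / 16) < 1 := by
    rw [← cs_zero, ← cs_abs (y - 3 / 16)]
    exact cs_lt_cs le_rfl (by linarith) (abs_pos.mpr (sub_ne_zero.mpr h2))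
  unfold k1
  have := mul_pos (sub_pos.mpr h4) h3
  linarith
lemma om_mul_om2 (y : ℝ) (h1 : 0 ≤ y) (h2 : y < 1) : om y = 0 ∨ om2 y = 0 := by
  rcases le_total y (1 / 4) with h | h
  · right; exact om2_eq_zero (by linarith) (by linarith)
  · left; exact om_eq_zero_right h (by linarith)
lemma abs_k2_le (y : ℝ) : |k2 y| ≤ 1 / 40 := by
  have e : k2 y = k2 (Int.fract y) := by
    have := k2_add_int (Int.fract y) ⌊y⌋
    rw [Int.fract_add_floor] at this; exact this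
  rw [e]
  set t := Int.fract y with ht
  have hs : |Real.sin (2 * π * (t - 3 / 16))| ≤ 1 := abs_sin_le_one _
  rcases om_mul_om2 t (Int.fract_nonneg y) (Int.fract_lt_one y) with h | h
  · unfold k2; rw [h, mul_zero, zero_add, abs_mul, abs_of_nonneg (om2_nonneg t)]
    rw [abs_of_pos (by norm_num)]
    nlinarith [om2_le_one t]
  · unfold k2; rw [h, add_zero, abs_mul, abs_mul, abs_of_nonneg (om_nonneg t)]
    rw [abs_of_pos (by norm_num)]
    nlinarith [om_le_one t, om_nonneg t, mul_le_mul hs (om_le_one t) (om_nonneg t) zero_le_one]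
/-- `k2 = 1/40` on the window -/
lemma k2_window {y : ℝ} (h1 : 3 / 5 ≤ y) (h2 : y ≤ 9 / 10) : k2 y = 1 / 40 := by
  unfold k2; rw [om_eq_zero_right (by linarith) (by linarith), om2_eq_one h1 h2]; norm_num
/-- `k2 ≥ 0` in zone `U` -/
lemma k2_nonneg_U {y : ℝ} (h1 : 1 / 4 ≤ y) (h2 : y ≤ 9 / 8) : 0 ≤ k2 y := by
  unfold k2; rw [om_eq_zero_right h1 h2]
  have := om2_nonneg y; linarith
lemma k1_U {y : ℝ} (h1 : 1 / 4 ≤ y) (h2 : y ≤ 9 / 8) : k1 y = 0 :=
  k1_eq_zero (om_eq_zero_right h1 h2)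

/-! ## the circle maps `ax y`, `bz y` -/

lemma hasDerivAt_ax (y x : ℝ) :
    HasDerivAt (ax y) (1 + lam y * cs x + k1 y * (-(π * Real.sin (2 * π * x)))) x := by
  unfold ax
  exact ((hasDerivAt_id x).add ((hasDerivAt_sn x).const_mul (lam y))).add
    ((hasDerivAt_cc x).const_mul (k1 y))
lemma hasDerivAt_bz (y z : ℝ) :
    HasDerivAt (bz y) (1 + mu y * cs z + k2 y * (-(π * Real.sin (2 * π * z)))) z := by
  unfold bz
  exact ((hasDerivAt_id z).add ((hasDerivAt_sn z).const_mul (mu y))).add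
    ((hasDerivAt_cc z).const_mul (k2 y))
lemma abs_term_le (a t : ℝ) (c : ℝ) (h : |a| ≤ c) :
    |a * (-(π * Real.sin t))| ≤ c * π := by
  rw [abs_mul, abs_neg, abs_mul, abs_of_pos pi_pos]
  have h1 := abs_sin_le_one t
  have h2 : π * |Real.sin t| ≤ π := by nlinarith [pi_pos]
  exact mul_le_mul h h2 (by positivity) ((abs_nonneg a).trans h)
lemma ax_deriv_pos (y x : ℝ) :
    1 / 10 ≤ 1 + lam y * cs x + k1 y * (-(π * Real.sin (2 * π * x))) := by
  have h1 : |lam y * cs x| ≤ 1 / 2 := by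
    rw [abs_mul]
    have := abs_lam_le y
    have h2 : |cs x| ≤ 1 := abs_le.mpr ⟨neg_one_le_cs x, cs_le_one x⟩
    nlinarith [abs_nonneg (lam y), abs_nonneg (cs x)]
  have h3 := abs_term_le (k1 y) (2 * π * x) (1 / 10) (abs_k1_le y)
  have := pi_bounds.2
  rw [abs_le] at h1 h3
  linarith [h1.1, h3.1]
lemma bz_deriv_pos (y z : ℝ) :
    1 / 10 ≤ 1 + mu y * cs z + k2 y * (-(π * Real.sin (2 * π * z))) := by
  have h1 : |mu y * cs z| ≤ 4 / 5 := by
    rw [abs_mul]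
    have := abs_mu_le y
    have h2 : |cs z| ≤ 1 := abs_le.mpr ⟨neg_one_le_cs z, cs_le_one z⟩
    nlinarith [abs_nonneg (mu y), abs_nonneg (cs z)]
  have h3 := abs_term_le (k2 y) (2 * π * z) (1 / 40) (abs_k2_le y)
  have := pi_bounds.2
  rw [abs_le] at h1 h3
  linarith [h1.1, h3.1]
lemma strictMono_ax (y : ℝ) : StrictMono (ax y) :=
  strictMono_of_hasDerivAt_pos (fun x => hasDerivAt_ax y x)
    (fun x => by linarith [ax_deriv_pos y x])
lemma strictMono_bz (y : ℝ) : StrictMono (bz y) :=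
  strictMono_of_hasDerivAt_pos (fun x => hasDerivAt_bz y x)
    (fun x => by linarith [bz_deriv_pos y x])
lemma hasDerivAt_phi (y : ℝ) : HasDerivAt phi (1 + 4 / 5 * cs y) y := by
  unfold phi
  exact (hasDerivAt_id y).add ((hasDerivAt_sn y).const_mul (4 / 5))
lemma phi_deriv_pos (y : ℝ) : 1 / 5 ≤ 1 + 4 / 5 * cs y := by linarith [neg_one_le_cs y]
lemma strictMono_phi : StrictMono phi :=
  strictMono_of_hasDerivAt_pos hasDerivAt_phi (fun x => by linarith [phi_deriv_pos x])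

lemma ax_zero (y : ℝ) : ax y 0 = k1 y := by simp [ax, sn_zero, cc_zero]
lemma bz_zero (y : ℝ) : bz y 0 = k2 y := by simp [bz, sn_zero, cc_zero]
lemma ax_half (y : ℝ) : ax y (1 / 2) = 1 / 2 := by
  unfold ax; rw [sn_half, cc_half]; ring
lemma bz_half (y : ℝ) : bz y (1 / 2) = 1 / 2 := by
  unfold bz; rw [sn_half, cc_half]; ring
lemma ax_neg_half (y : ℝ) : ax y (-(1 / 2)) = -(1 / 2) := by
  have h := ax_add_int y (1 / 2) 0 (-1)
  simp only [Int.cast_zero, add_zero, Int.cast_neg, Int.cast_one] at h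
  rw [show (1 / 2 : ℝ) + -1 = -(1 / 2) by norm_num, ax_half] at h
  rw [h]; norm_num
lemma bz_neg_half (y : ℝ) : bz y (-(1 / 2)) = -(1 / 2) := by
  have h := bz_add_int y (1 / 2) 0 (-1)
  simp only [Int.cast_zero, add_zero, Int.cast_neg, Int.cast_one] at h
  rw [show (1 / 2 : ℝ) + -1 = -(1 / 2) by norm_num, bz_half] at h
  rw [h]; norm_num
lemma phi_zero : phi 0 = 0 := by simp [phi, sn_zero]
lemma phi_half : phi (1 / 2) = 1 / 2 := by unfold phi; rw [sn_half]; ring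
lemma phi_one : phi 1 = 1 := by
  have := phi_add_int 0 1; simpa [phi_zero] using this
/-- `[-1/2, 1/2]` is invariant -/
lemma abs_ax_le {y x : ℝ} (h : |x| ≤ 1 / 2) : |ax y x| ≤ 1 / 2 := by
  rw [abs_le] at h ⊢
  have h1 := (strictMono_ax y).monotone h.1
  have h2 := (strictMono_ax y).monotone h.2
  rw [ax_neg_half] at h1; rw [ax_half] at h2
  exact ⟨h1, h2⟩
lemma abs_bz_le {y z : ℝ} (h : |z| ≤ 1 / 2) : |bz y z| ≤ 1 / 2 := by
  rw [abs_le] at h ⊢
  have h1 := (strictMono_bz y).monotone h.1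
  have h2 := (strictMono_bz y).monotone h.2
  rw [bz_neg_half] at h1; rw [bz_half] at h2
  exact ⟨h1, h2⟩
/-- zone `L` moves up -/
lemma phi_gt {y : ℝ} (h0 : 0 < y) (h1 : y < 1 / 2) : y < phi y ∧ phi y < 1 / 2 := by
  constructor
  · unfold phi; linarith [sn_pos h0 h1]
  · have := strictMono_phi h1; rwa [phi_half] at this
/-- zone `U` moves down -/
lemma phi_lt {y : ℝ} (h0 : 1 / 2 < y) (h1 : y < 1) : 1 / 2 < phi y ∧ phi y < y := by
  constructor
  · have := strictMono_phi h0; rwa [phi_half] at this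
  · unfold phi
    have := sn_pos (show 0 < 1 - y by linarith) (show 1 - y < 1 / 2 by linarith)
    rw [sn_one_sub] at this; linarith
/-- one step of `phi` is less than `13/100` -/
lemma abs_phi_sub_le (y : ℝ) : |phi y - y| ≤ 13 / 100 := by
  unfold phi
  rw [add_sub_cancel_left, abs_mul, abs_of_pos (by norm_num : (0:ℝ) < 4 / 5)]
  have : |sn y| ≤ 16 / 100 := by
    unfold sn
    rw [abs_div, abs_of_pos two_pi_pos, div_le_iff₀ two_pi_pos]
    have := abs_sin_le_one (2 * π * y)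
    have := pi_bounds.1
    nlinarith
  linarith

/-! ## type `P` and type `Q` -/

lemma ax_P {y : ℝ} (h1 : 3 / 10 ≤ y) (h2 : y ≤ 7 / 10) (x : ℝ) : ax y x = aP x := by
  unfold ax aP lam
  rw [tau_P h1 h2, k1_U (by linarith) (by linarith)]; ring
lemma ax_Q {y : ℝ} (h1 : -(1 / 5) ≤ y) (h2 : y ≤ 1 / 8) (x : ℝ) : ax y x = aQ x := by
  unfold ax aQ lam
  rw [tau_Q (abs_le.mpr ⟨h1, by linarith⟩), k1_eq_zero (om_eq_zero_left (by linarith) h2)]; ring
lemma ax_Q' {y : ℝ} (h1 : 4 / 5 ≤ y) (h2 : y ≤ 9 / 8) (x : ℝ) : ax y x = aQ x := by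
  unfold ax aQ lam
  rw [tau_Q' h1 (by linarith), k1_U (by linarith) h2]; ring
lemma bz_P {y : ℝ} (h1 : 3 / 10 ≤ y) (h2 : y ≤ 11 / 20) (z : ℝ) : bz y z = bP z := by
  unfold bz bP mu
  rw [tau_P h1 (by linarith), k2_eq_zero (om_eq_zero_right (by linarith) (by linarith))
    (om2_eq_zero (by linarith) h2)]; ring
lemma bz_Q {y : ℝ} (h1 : -(1 / 20) ≤ y) (h2 : y ≤ 1 / 8) (z : ℝ) : bz y z = bQ z := by
  unfold bz bQ mu
  rw [tau_Q (abs_le.mpr ⟨by linarith, by linarith⟩),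
    k2_eq_zero (om_eq_zero_left (by linarith) h2) (om2_eq_zero h1 (by linarith))]; ring

lemma strictMono_aP : StrictMono aP := by
  have h : ax (1 / 2) = aP := funext (ax_P (by norm_num) (by norm_num))
  rw [← h]; exact strictMono_ax _
lemma strictMono_aQ : StrictMono aQ := by
  have h : ax 0 = aQ := funext (ax_Q (by norm_num) (by norm_num))
  rw [← h]; exact strictMono_ax _
lemma strictMono_bP : StrictMono bP := by
  have h : bz (1 / 2) = bP := funext (bz_P (by norm_num) (by norm_num))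
  rw [← h]; exact strictMono_bz _
lemma strictMono_bQ : StrictMono bQ := by
  have h : bz 0 = bQ := funext (bz_Q (by norm_num) (by norm_num))
  rw [← h]; exact strictMono_bz _
lemma aP_zero : aP 0 = 0 := by simp [aP, sn_zero]
lemma aQ_zero : aQ 0 = 0 := by simp [aQ, sn_zero]
lemma bP_zero : bP 0 = 0 := by simp [bP, sn_zero]
lemma bQ_zero : bQ 0 = 0 := by simp [bQ, sn_zero]
lemma aP_half : aP (1 / 2) = 1 / 2 := by unfold aP; rw [sn_half]; ring
lemma aQ_half : aQ (1 / 2) = 1 / 2 := by unfold aQ; rw [sn_half]; ring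
lemma bP_half : bP (1 / 2) = 1 / 2 := by unfold bP; rw [sn_half]; ring
lemma bQ_half : bQ (1 / 2) = 1 / 2 := by unfold bQ; rw [sn_half]; ring
lemma aP_neg (x : ℝ) : aP (-x) = - aP x := by unfold aP; rw [sn_neg]; ring
lemma aQ_neg (x : ℝ) : aQ (-x) = - aQ x := by unfold aQ; rw [sn_neg]; ring
lemma bP_neg (x : ℝ) : bP (-x) = - bP x := by unfold bP; rw [sn_neg]; ring
lemma bQ_neg (x : ℝ) : bQ (-x) = - bQ x := by unfold bQ; rw [sn_neg]; ring

/-- difference quotients of `aP`, `aQ`, `bP`, `bQ` on `|t| ≤ 1/8` -/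
lemma aP_sub {s t : ℝ} (hs : |s| ≤ 1 / 8) (ht : |t| ≤ 1 / 8) :
    ∃ θ, 27 / 20 ≤ θ ∧ θ ≤ 3 / 2 ∧ aP t - aP s = θ * (t - s) := by
  obtain ⟨θ, h1, h2, h3⟩ := sn_sub_eq' hs ht
  refine ⟨1 + 1 / 2 * θ, by linarith, by linarith, ?_⟩
  unfold aP; linear_combination (1 / 2) * h3
lemma aQ_sub {s t : ℝ} (hs : |s| ≤ 1 / 8) (ht : |t| ≤ 1 / 8) :
    ∃ θ, 1 / 2 ≤ θ ∧ θ ≤ 13 / 20 ∧ aQ t - aQ s = θ * (t - s) := by
  obtain ⟨θ, h1, h2, h3⟩ := sn_sub_eq' hs ht
  refine ⟨1 - 1 / 2 * θ, by linarith, by linarith, ?_⟩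
  unfold aQ; linear_combination -(1 / 2) * h3
lemma bP_sub {s t : ℝ} (hs : |s| ≤ 1 / 8) (ht : |t| ≤ 1 / 8) :
    ∃ θ, 39 / 25 ≤ θ ∧ θ ≤ 9 / 5 ∧ bP t - bP s = θ * (t - s) := by
  obtain ⟨θ, h1, h2, h3⟩ := sn_sub_eq' hs ht
  refine ⟨1 + 4 / 5 * θ, by linarith, by linarith, ?_⟩
  unfold bP; linear_combination (4 / 5) * h3
lemma bQ_sub {s t : ℝ} (hs : |s| ≤ 1 / 8) (ht : |t| ≤ 1 / 8) :
    ∃ θ, 1 / 5 ≤ θ ∧ θ ≤ 11 / 25 ∧ bQ t - bQ s = θ * (t - s) := by
  obtain ⟨θ, h1, h2, h3⟩ := sn_sub_eq' hs ht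
  refine ⟨1 - 4 / 5 * θ, by linarith, by linarith, ?_⟩
  unfold bQ; linear_combination -(4 / 5) * h3

/-! ## the lift function -/

lemma cs_small_lt_one : cs (1 / 250) < 1 := by
  have h := cs_lt_cs (a := 0) (b := 1 / 250) le_rfl (by norm_num) (by norm_num)
  rwa [cs_zero] at h
lemma ee_nonneg (t : ℝ) : 0 ≤ ee t := smoothTransition.nonneg _
lemma ee_le_one (t : ℝ) : ee t ≤ 1 := smoothTransition.le_one _
lemma ee_eq_zero {t : ℝ} (h : cs t ≤ cs (1 / 250)) : ee t = 0 := by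
  apply smoothTransition.zero_of_nonpos
  apply div_nonpos_of_nonpos_of_nonneg (by linarith)
  linarith [cs_small_lt_one]
lemma hh_nonneg (x z : ℝ) : 0 ≤ hh x z := by
  unfold hh
  have := mul_nonneg (mul_nonneg (cc_nonneg (x - 2 / 25)) (ee_nonneg (x - 2 / 25)))
    (mul_nonneg (cc_nonneg z) (ee_nonneg z))
  linarith
lemma ccee_le_one (t : ℝ) : cc t * ee t ≤ 1 := by
  have := mul_le_mul (cc_le_one t) (ee_le_one t) (ee_nonneg t) zero_le_one
  linarith
lemma ccee_nonneg (t : ℝ) : 0 ≤ cc t * ee t := mul_nonneg (cc_nonneg t) (ee_nonneg t)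
lemma hh_le_half (x z : ℝ) : hh x z ≤ 1 / 2 := by
  unfold hh
  have := mul_le_mul (ccee_le_one (x - 2 / 25)) (ccee_le_one z) (ccee_nonneg z) zero_le_one
  linarith
/-- the lift function vanishes unless `(x, z)` is near `(2/25, 0)` -/
lemma hh_eq_zero {x z : ℝ} (h : cs (x - 2 / 25) ≤ cs (1 / 250) ∨ cs z ≤ cs (1 / 250)) :
    hh x z = 0 := by
  rcases h with h | h
  · simp [hh, ee_eq_zero h]
  · simp [hh, ee_eq_zero h]
lemma hh_eq_zero_x {x z : ℝ} (h1 : |x| ≤ 1 / 2) (h2 : 1 / 250 ≤ |x - 2 / 25|) : hh x z = 0 := by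
  apply hh_eq_zero; left
  rcases le_total (x - 2 / 25) (-(1 / 2)) with h | h
  · rw [← cs_add_one, ← cs_abs]
    rw [abs_le] at h1
    apply cs_le_cs (by norm_num)
    · rw [abs_le]; constructor <;> linarith
    · rw [abs_of_nonneg (by linarith)]; linarith
  · rw [← cs_abs (x - 2 / 25)]
    rw [abs_le] at h1
    apply cs_le_cs (by norm_num) _ h2
    rw [abs_le]; constructor <;> linarith
lemma hh_eq_zero_z {x z : ℝ} (h1 : |z| ≤ 1 / 2) (h2 : 1 / 250 ≤ |z|) : hh x z = 0 := by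
  apply hh_eq_zero; right
  rw [← cs_abs z]
  exact cs_le_cs (by norm_num) h1 h2
lemma hh_ne_zero {x z : ℝ} (hx : |x| ≤ 1 / 2) (hz : |z| ≤ 1 / 2) (h : hh x z ≠ 0) :
    |x - 2 / 25| < 1 / 250 ∧ |z| < 1 / 250 := by
  constructor
  · by_contra h'; push Not at h'; exact h (hh_eq_zero_x hx h')
  · by_contra h'; push Not at h'; exact h (hh_eq_zero_z hz h')
lemma cc_lt_one {t : ℝ} (h : |t| ≤ 1 / 2) (h0 : t ≠ 0) : cc t < 1 := by
  have : cs t < 1 := by
    rw [← cs_zero, ← cs_abs t]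
    exact cs_lt_cs le_rfl h (abs_pos.mpr h0)
  unfold cc; linarith
/-- `hh = 1/2` only at `(2/25, 0)` -/
lemma hh_eq_half {x z : ℝ} (hx : |x| ≤ 1 / 2) (hz : |z| ≤ 1 / 2) (h : hh x z = 1 / 2) :
    x = 2 / 25 ∧ z = 0 := by
  have h0 : hh x z ≠ 0 := by rw [h]; norm_num
  obtain ⟨h1, h2⟩ := hh_ne_zero hx hz h0
  have e1 := ccee_le_one (x - 2 / 25)
  have e2 := ccee_le_one z
  have n1 := ccee_nonneg (x - 2 / 25)
  have n2 := ccee_nonneg z
  have hprod : (cc (x - 2 / 25) * ee (x - 2 / 25)) * (cc z * ee z) = 1 := by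
    unfold hh at h; linarith
  have f1 : cc (x - 2 / 25) * ee (x - 2 / 25) = 1 := by nlinarith
  have f2 : cc z * ee z = 1 := by nlinarith
  constructor
  · by_contra hne
    have hlt := cc_lt_one (t := x - 2 / 25) (by linarith) (sub_ne_zero.mpr hne)
    nlinarith [ee_le_one (x - 2 / 25), ee_nonneg (x - 2 / 25), cc_nonneg (x - 2 / 25)]
  · by_contra hne
    have hlt := cc_lt_one (t := z) hz hne
    nlinarith [ee_le_one z, ee_nonneg z, cc_nonneg z]
lemma ee_zero : ee 0 = 1 := by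
  apply smoothTransition.one_of_one_le
  rw [cs_zero, div_self (by linarith [cs_small_lt_one])]
lemma hh_X : hh (2 / 25) 0 = 1 / 2 := by
  simp [hh, cc_zero, ee_zero]

end

end HetCyc
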