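import Pool.Agent.HetCyc.Stmts

/-! # Module Close: `C^1` closeness and Lipschitz closeness -/

namespace HetCyc

open Filter Topology Set

theorem close_norm_zero (f : E 3 → E 3) (p : E 3) :
    ‖iteratedFDeriv ℝ 0 f p‖ = ‖f p‖ := by
  rw [norm_iteratedFDeriv_zero]

theorem close_norm_one (f : E 3 → E 3) (p : E 3) :
    ‖iteratedFDeriv ℝ 1 f p‖ = ‖fderiv ℝ f p‖ := by
  rw [norm_iteratedFDeriv_one]

theorem close : S_Close := by
  intro F g g' ε hF hFd hg hg'
  have hFc : ContDiff ℝ 1 (F : E 3 → E 3) := hFd.contDiff.of_le (by exact_mod_cast le_top)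
  have hgc : ContDiff ℝ 1 (g : E 3 → E 3) := hg.contDiff
  have hgc' : ContDiff ℝ 1 (g' : E 3 → E 3) := hg'.contDiff
  refine ⟨fun h => ⟨hg.map_add, ?_, ?_⟩, fun h1 h2 => ?_, fun hε k => ?_⟩
  · intro p
    have := h 0 (by norm_num) p
    rw [close_norm_zero] at this
    rw [← hF p]
    exact this.le
  · intro p q
    have hd : ∀ x ∈ (univ : Set (E 3)), DifferentiableAt ℝ (fun q => g q - F q) x := fun x _ =>
      ((hgc.sub hFc).differentiable (by norm_num)) x
    have hb : ∀ x ∈ (univ : Set (E 3)), ‖fderiv ℝ (fun q => g q - F q) x‖ ≤ ε := by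
      intro x _
      have := h 1 le_rfl x
      rw [close_norm_one] at this
      exact this.le
    have := Convex.norm_image_sub_le_of_norm_fderiv_le hd hb convex_univ (mem_univ q) (mem_univ p)
    simpa [hF] using this
  · intro j hj p
    have e : (fun q => g' q - F q) = (fun q => g' q - g q) + (fun q => g q - F q) := by
      funext q
      simp
    have hj1 : ((j : ℕ∞) : WithTop ℕ∞) ≤ 1 := by exact_mod_cast hj
    rw [e, iteratedFDeriv_add_apply ((hgc'.sub hgc).contDiffAt.of_le hj1)
      ((hgc.sub hFc).contDiffAt.of_le hj1)]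
    have a := h1 j hj p
    have b := h2 j hj p
    refine (norm_add_le _ _).trans_lt ?_
    linarith
  · intro j _ p
    have e : (fun q => g q - g q) = (fun _ : E 3 => (0 : E 3)) := by
      funext q
      simp
    rw [e, iteratedFDeriv_fun_zero]
    simpa using hε

end HetCyc
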