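import Pool.Agent.HetCyc.Stmts

/-!
# Module Compact
-/

namespace HetCyc

open Filter Topology Set

namespace CompactAux

theorem cont_sn : Continuous sn := by
  unfold sn
  fun_prop

theorem cont_cs : Continuous cs := by
  unfold cs
  fun_prop

theorem cont_cc : Continuous cc := by
  have := cont_cs
  unfold cc
  fun_prop

theorem cont_glue : Continuous expNegInvGlue :=
  (expNegInvGlue.contDiff (n := 0)).continuous

theorem cont_smooth : Continuous Real.smoothTransition := Real.smoothTransition.continuous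

theorem cont_tau : Continuous tau := by
  have := cont_cs
  unfold tau
  exact cont_smooth.comp (by fun_prop)

theorem cont_lam : Continuous lam := by
  have := cont_tau
  unfold lam
  fun_prop

theorem cont_mu : Continuous mu := by
  have := cont_tau
  unfold mu
  fun_prop

theorem cont_om : Continuous om := by
  have := cont_cs
  unfold om
  exact cont_glue.comp (by fun_prop)

theorem cont_om2 : Continuous om2 := by
  have := cont_cs
  unfold om2
  exact cont_smooth.comp (by fun_prop)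

theorem cont_k1 : Continuous k1 := by
  have := cont_cs
  have := cont_om
  unfold k1
  fun_prop

theorem cont_k2 : Continuous k2 := by
  have := cont_om
  have := cont_om2
  unfold k2
  fun_prop

theorem cont_ee : Continuous ee := by
  have := cont_cs
  unfold ee
  exact cont_smooth.comp (by fun_prop)

theorem cont_phi : Continuous phi := by
  have := cont_sn
  unfold phi
  fun_prop

theorem cont_ax : Continuous (fun q : ℝ × ℝ => ax q.1 q.2) := by
  have := cont_sn
  have := cont_cc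
  have := cont_lam
  have := cont_k1
  unfold ax
  fun_prop

theorem cont_bz : Continuous (fun q : ℝ × ℝ => bz q.1 q.2) := by
  have := cont_sn
  have := cont_cc
  have := cont_mu
  have := cont_k2
  unfold bz
  fun_prop

theorem cont_hh : Continuous (fun q : ℝ × ℝ => hh q.1 q.2) := by
  have := cont_cc
  have := cont_ee
  unfold hh
  fun_prop

theorem fmap_zero' (p : E 3) : fmap p 0 = ax (p 1) (p 0) := rfl

theorem fmap_one' (p : E 3) :
    fmap p 1 = phi (p 1) + hh (ax (p 1) (p 0)) (bz (p 1) (p 2)) := rfl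

theorem fmap_two' (p : E 3) : fmap p 2 = bz (p 1) (p 2) := rfl

theorem cont_fmap : Continuous fmap := by
  have hA : Continuous (fun p : E 3 => ax (p 1) (p 0)) :=
    cont_ax.comp (f := fun p : E 3 => (p 1, p 0)) (by fun_prop)
  have hB : Continuous (fun p : E 3 => bz (p 1) (p 2)) :=
    cont_bz.comp (f := fun p : E 3 => (p 1, p 2)) (by fun_prop)
  have hH : Continuous (fun p : E 3 => hh (ax (p 1) (p 0)) (bz (p 1) (p 2))) :=
    cont_hh.comp (f := fun p : E 3 => (ax (p 1) (p 0), bz (p 1) (p 2))) (hA.prodMk hB)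
  have hP : Continuous (fun p : E 3 => phi (p 1)) := cont_phi.comp (by fun_prop)
  have h0 : Continuous (fun p : E 3 => fmap p 0) := by
    simp only [fmap_zero']
    exact hA
  have h1 : Continuous (fun p : E 3 => fmap p 1) := by
    simp only [fmap_one']
    exact hP.add hH
  have h2 : Continuous (fun p : E 3 => fmap p 2) := by
    simp only [fmap_two']
    exact hB
  refine continuous_pi fun i => ?_
  fin_cases i
  · exact h0
  · exact h1
  · exact h2

/-! ### bounds -/

theorem abs_sn_le (t : ℝ) : |sn t| ≤ 1 := by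
  unfold sn
  have h1 : (1 : ℝ) ≤ 2 * Real.pi := by
    have := Real.pi_gt_three
    linarith
  have h0 : (0 : ℝ) < 2 * Real.pi := by linarith
  rw [abs_div, abs_of_pos h0, div_le_one h0]
  exact (Real.abs_sin_le_one _).trans h1

theorem abs_cs_le (t : ℝ) : |cs t| ≤ 1 := Real.abs_cos_le_one _

theorem cc_mem (t : ℝ) : 0 ≤ cc t ∧ cc t ≤ 1 := by
  have := abs_le.1 (abs_cs_le t)
  unfold cc
  constructor <;> linarith

theorem om_mem (t : ℝ) : 0 ≤ om t ∧ om t ≤ 1 := by
  unfold om expNegInvGlue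
  split_ifs with h
  · norm_num
  · refine ⟨(Real.exp_pos _).le, ?_⟩
    rw [Real.exp_le_one_iff]
    have := inv_pos.2 (not_le.1 h)
    linarith

theorem abs_lam_le (t : ℝ) : |lam t| ≤ 1 := by
  have h1 := Real.smoothTransition.nonneg (1 / 2 - 2 * cs t)
  have h2 := Real.smoothTransition.le_one (1 / 2 - 2 * cs t)
  unfold lam tau
  rw [abs_le]
  constructor <;> linarith

theorem abs_mu_le (t : ℝ) : |mu t| ≤ 1 := by
  have h1 := Real.smoothTransition.nonneg (1 / 2 - 2 * cs t)
  have h2 := Real.smoothTransition.le_one (1 / 2 - 2 * cs t)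
  unfold mu tau
  rw [abs_le]
  constructor <;> linarith

theorem abs_k1_le (t : ℝ) : |k1 t| ≤ 1 := by
  have h1 := abs_le.1 (abs_cs_le (t - 3 / 16))
  obtain ⟨h2, h3⟩ := om_mem t
  unfold k1
  rw [abs_le]
  constructor <;> nlinarith

theorem abs_k2_le (t : ℝ) : |k2 t| ≤ 1 := by
  have h1 := Real.abs_sin_le_one (2 * Real.pi * (t - 3 / 16))
  obtain ⟨h2, h3⟩ := om_mem t
  have h4 := Real.smoothTransition.nonneg (5 * (cs (t - 3 / 4) - 7 / 20))
  have h5 := Real.smoothTransition.le_one (5 * (cs (t - 3 / 4) - 7 / 20))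
  have h6 : |Real.sin (2 * Real.pi * (t - 3 / 16)) * om t| ≤ 1 := by
    rw [abs_mul, abs_of_nonneg h2]
    have := abs_nonneg (Real.sin (2 * Real.pi * (t - 3 / 16)))
    nlinarith
  have h7 := abs_le.1 h6
  unfold k2 om2
  rw [abs_le]
  constructor <;> linarith

theorem hh_mem (x z : ℝ) : |hh x z| ≤ 1 := by
  obtain ⟨a1, a2⟩ := cc_mem (x - 2 / 25)
  obtain ⟨b1, b2⟩ := cc_mem z
  have c1 : 0 ≤ ee (x - 2 / 25) := Real.smoothTransition.nonneg _
  have c2 : ee (x - 2 / 25) ≤ 1 := Real.smoothTransition.le_one _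
  have d1 : 0 ≤ ee z := Real.smoothTransition.nonneg _
  have d2 : ee z ≤ 1 := Real.smoothTransition.le_one _
  have e1 : 0 ≤ cc (x - 2 / 25) * ee (x - 2 / 25) := mul_nonneg a1 c1
  have e2 : cc (x - 2 / 25) * ee (x - 2 / 25) ≤ 1 := mul_le_one₀ a2 c1 c2
  have f1 : 0 ≤ cc z * ee z := mul_nonneg b1 d1
  have f2 : cc z * ee z ≤ 1 := mul_le_one₀ b2 d1 d2
  have g1 := mul_nonneg e1 f1
  have g2 := mul_le_one₀ e2 f1 f2
  unfold hh
  rw [abs_le]
  constructor <;> linarith

theorem prod_le {a b : ℝ} (ha : |a| ≤ 1) (hb : |b| ≤ 1) : |a * b| ≤ 1 := by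
  rw [abs_mul]
  exact mul_le_one₀ ha (abs_nonneg b) hb

theorem cc_abs (t : ℝ) : |cc t| ≤ 1 := by
  obtain ⟨h1, h2⟩ := cc_mem t
  rw [abs_of_nonneg h1]
  exact h2

theorem fmap_sub_le (p : E 3) : ‖fmap p - p‖ ≤ 3 := by
  rw [pi_norm_le_iff_of_nonneg (by norm_num)]
  intro i
  rw [Real.norm_eq_abs]
  have h1 := abs_le.1 (prod_le (abs_lam_le (p 1)) (abs_sn_le (p 0)))
  have h2 := abs_le.1 (prod_le (abs_k1_le (p 1)) (cc_abs (p 0)))
  have h3 := abs_le.1 (prod_le (abs_mu_le (p 1)) (abs_sn_le (p 2)))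
  have h4 := abs_le.1 (prod_le (abs_k2_le (p 1)) (cc_abs (p 2)))
  have h5 := abs_le.1 (hh_mem (ax (p 1) (p 0)) (bz (p 1) (p 2)))
  have h6 := abs_le.1 (abs_sn_le (p 1))
  fin_cases i
  · show |ax (p 1) (p 0) - p 0| ≤ 3
    unfold ax
    rw [abs_le]
    constructor <;> linarith
  · show |phi (p 1) + hh (ax (p 1) (p 0)) (bz (p 1) (p 2)) - p 1| ≤ 3
    unfold phi
    rw [abs_le]
    constructor <;> linarith
  · show |bz (p 1) (p 2) - p 2| ≤ 3
    unfold bz
    rw [abs_le]
    constructor <;> linarith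

/-! ### the set `KK` -/

theorem cs_add_int (t : ℝ) (k : ℤ) : cs (t + k) = cs t := by
  unfold cs
  have : 2 * Real.pi * (t + k) = 2 * Real.pi * t + k * (2 * Real.pi) := by ring
  rw [this, Real.cos_add_int_mul_two_pi]

theorem far_add (p : E 3) (k : Fin 3 → ℤ) : Far (p + intVec k) ↔ Far p := by
  unfold Far
  show cs (p 0 + (k 0 : ℝ)) < _ ∨ cs (p 2 + (k 2 : ℝ)) < _ ↔ _
  rw [cs_add_int, cs_add_int]

theorem KK_add (p : E 3) (k : Fin 3 → ℤ) : p + intVec k ∈ KK ↔ p ∈ KK := by
  have h1 : p + intVec k ∈ TT ↔ p ∈ TT := by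
    unfold TT
    show (cs (p 1 + (k 1 : ℝ)) < _ ∧ Far (p + intVec k)) ↔ (_ ∧ Far p)
    rw [cs_add_int, far_add]
  have h2 : p + intVec k ∈ RR ↔ p ∈ RR := by
    unfold RR
    show (_ < cs (p 1 + (k 1 : ℝ)) ∧ Far (p + intVec k)) ↔ (_ ∧ Far p)
    rw [cs_add_int, far_add]
  unfold KK
  show (p + intVec k ∉ TT ∧ p + intVec k ∉ RR) ↔ (p ∉ TT ∧ p ∉ RR)
  rw [h1, h2]

theorem isOpen_far : IsOpen {p : E 3 | Far p} := by
  have := cont_cs
  unfold Far
  apply IsOpen.union
  · exact isOpen_lt (this.comp (continuous_apply 0)) continuous_const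
  · exact isOpen_lt (this.comp (continuous_apply 2)) continuous_const

theorem isClosed_KK : IsClosed KK := by
  have hc := cont_cs
  have h1 : IsOpen TT := by
    unfold TT
    exact (isOpen_lt (hc.comp (continuous_apply 1)) continuous_const).inter isOpen_far
  have h2 : IsOpen RR := by
    unfold RR
    exact (isOpen_lt continuous_const (hc.comp (continuous_apply 1))).inter isOpen_far
  exact h1.isClosed_compl.inter h2.isClosed_compl

/-! ### orbits are bounded -/

theorem orbit_bound {g : E 3 ≃ E 3} {ε : ℝ} (hg : LipClose ε g) (hε : ε ≤ 1) {u : ℤ → E 3}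
    (hu : ∀ n, g (u n) = u (n + 1)) (n : ℤ) : ‖u (n + 1) - u n‖ ≤ 4 := by
  rw [← hu n]
  have h1 := hg.dist_le (u n)
  have h2 := fmap_sub_le (u n)
  calc ‖g (u n) - u n‖ = ‖(g (u n) - fmap (u n)) + (fmap (u n) - u n)‖ := by
        congr 1
        abel
    _ ≤ ‖g (u n) - fmap (u n)‖ + ‖fmap (u n) - u n‖ := norm_add_le _ _
    _ ≤ 4 := by linarith

theorem orbit_bound_nat {u : ℤ → E 3} (hu : ∀ n, ‖u (n + 1) - u n‖ ≤ 4) (m : ℕ) :
    ‖u m - u 0‖ ≤ 4 * m ∧ ‖u (-(m : ℤ)) - u 0‖ ≤ 4 * m := by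
  induction m with
  | zero => simp
  | succ m ih =>
    obtain ⟨h1, h2⟩ := ih
    constructor
    · have h3 := hu m
      push_cast
      calc ‖u ((m : ℤ) + 1) - u 0‖ = ‖(u ((m : ℤ) + 1) - u m) + (u m - u 0)‖ := by
            congr 1
            abel
        _ ≤ ‖u ((m : ℤ) + 1) - u m‖ + ‖u m - u 0‖ := norm_add_le _ _
        _ ≤ 4 * (m + 1) := by linarith
    · have h3 := hu (-((m : ℤ) + 1))
      rw [show -((m : ℤ) + 1) + 1 = -(m : ℤ) by ring] at h3
      push_cast
      calc ‖u (-((m : ℤ) + 1)) - u 0‖ =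
            ‖(u (-(m : ℤ)) - u 0) - (u (-(m : ℤ)) - u (-((m : ℤ) + 1)))‖ := by
            congr 1
            abel
        _ ≤ ‖u (-(m : ℤ)) - u 0‖ + ‖u (-(m : ℤ)) - u (-((m : ℤ) + 1))‖ := norm_sub_le _ _
        _ ≤ 4 * (m + 1) := by linarith

theorem orbit_bound_int {u : ℤ → E 3} (hu : ∀ n, ‖u (n + 1) - u n‖ ≤ 4) (n : ℤ) :
    ‖u n - u 0‖ ≤ 4 * n.natAbs := by
  rcases Int.natAbs_eq n with h | h
  · have := (orbit_bound_nat hu n.natAbs).1
    rwa [← h] at this
  · have := (orbit_bound_nat hu n.natAbs).2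
    rwa [← h] at this

end CompactAux

open CompactAux in
theorem compact (hG : S_Global) : S_Compact := by
  intro ρ hρ
  by_contra hcon
  push Not at hcon
  have hm : ∀ m : ℕ, ∃ (g : E 3 ≃ E 3) (w : ℤ → E 3), LipClose (1 / ((m : ℝ) + 1)) g ∧
      IsKOrbit g w ∧ ‖w 0‖ ≤ 1 ∧ ∀ k, ∀ c ∈ CP ∪ CQ, ρ ≤ ‖w 0 + intVec k - c‖ := by
    intro m
    obtain ⟨g, hg, u, hu, n, hn⟩ := hcon (1 / ((m : ℝ) + 1)) (by positivity)
    set k₀ : Fin 3 → ℤ := fun i => -⌊u n i⌋ with hk₀
    refine ⟨g, fun j => u (n + j) + intVec k₀, hg, ⟨?_, ?_⟩, ?_, ?_⟩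
    · intro j
      show g (u (n + j) + intVec k₀) = u (n + (j + 1)) + intVec k₀
      rw [hg.map_add, hu.step, add_assoc]
    · intro j
      show u (n + j) + intVec k₀ ∈ KK
      rw [KK_add]
      exact hu.mem _
    · show ‖u (n + 0) + intVec k₀‖ ≤ 1
      rw [add_zero, pi_norm_le_iff_of_nonneg (by norm_num)]
      intro i
      show ‖u n i + ((k₀ i : ℤ) : ℝ)‖ ≤ 1
      rw [hk₀, Real.norm_eq_abs, abs_le]
      push_cast
      have h1 := Int.floor_le (u n i)
      have h2 := Int.lt_floor_add_one (u n i)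
      constructor <;> linarith
    · intro k c hc
      show ρ ≤ ‖u (n + 0) + intVec k₀ + intVec k - c‖
      have h1 := hn (k₀ + k) c hc
      have h2 : (intVec (k₀ + k) : E 3) = intVec k₀ + intVec k := by
        funext i
        show (((k₀ + k) i : ℤ) : ℝ) = (k₀ i : ℝ) + (k i : ℝ)
        rw [Pi.add_apply]
        push_cast
        ring
      rw [h2, ← add_assoc] at h1
      rwa [add_zero]
  choose g w hg hw hw0 hfar using hm
  have hbd : ∀ m n, ‖w m n‖ ≤ 1 + 4 * (n.natAbs : ℝ) := by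
    intro m n
    have h1 : (1 : ℝ) / ((m : ℝ) + 1) ≤ 1 := by
      rw [div_le_one (by positivity)]
      have : (0 : ℝ) ≤ m := Nat.cast_nonneg m
      linarith
    have h2 := orbit_bound_int (orbit_bound (hg m) h1 (hw m).step) n
    calc ‖w m n‖ = ‖(w m n - w m 0) + w m 0‖ := by
          congr 1
          abel
      _ ≤ ‖w m n - w m 0‖ + ‖w m 0‖ := norm_add_le _ _
      _ ≤ 1 + 4 * (n.natAbs : ℝ) := by linarith [hw0 m]
  have hK : IsCompact (Set.pi Set.univ fun n : ℤ =>
      Metric.closedBall (0 : E 3) (1 + 4 * (n.natAbs : ℝ))) :=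
    isCompact_univ_pi fun n => isCompact_closedBall _ _
  obtain ⟨v, -, φ, hφ, hlim⟩ := hK.tendsto_subseq (x := w) (by
    intro m
    rw [Set.mem_univ_pi]
    intro n
    rw [mem_closedBall_zero_iff]
    exact hbd m n)
  rw [tendsto_pi_nhds] at hlim
  have horb : IsKOrbit fmap v := by
    refine ⟨?_, ?_⟩
    · intro n
      have h1 : Tendsto (fun m => fmap (w (φ m) n)) atTop (𝓝 (fmap (v n))) :=
        (cont_fmap.tendsto _).comp (hlim n)
      have h2 : Tendsto (fun m => w (φ m) (n + 1)) atTop (𝓝 (v (n + 1))) := hlim (n + 1)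
      have h3 : Tendsto (fun m => w (φ m) (n + 1) - fmap (w (φ m) n)) atTop (𝓝 0) := by
        have h4 : Tendsto (fun m : ℕ => 1 / (((φ m : ℕ) : ℝ) + 1)) atTop (𝓝 0) :=
          tendsto_one_div_add_atTop_nhds_zero_nat.comp hφ.tendsto_atTop
        refine squeeze_zero_norm (fun m => ?_) h4
        rw [← (hw (φ m)).step n]
        exact (hg (φ m)).dist_le _
      have h5 := tendsto_nhds_unique h3 (h2.sub h1)
      exact (sub_eq_zero.1 h5.symm).symm
    · intro n
      exact isClosed_KK.mem_of_tendsto (hlim n) (Eventually.of_forall fun m => (hw (φ m)).mem n)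
  obtain ⟨k, hk⟩ := hG v horb 0
  have h1 : Tendsto (fun m => ‖w (φ m) 0 + intVec k - (v 0 + intVec k)‖) atTop
      (𝓝 ‖v 0 + intVec k - (v 0 + intVec k)‖) :=
    (((hlim 0).add tendsto_const_nhds).sub tendsto_const_nhds).norm
  rw [sub_self, norm_zero] at h1
  have h2 := ge_of_tendsto h1 (Eventually.of_forall fun m => hfar (φ m) k _ hk)
  linarith

end HetCyc
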