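import Pool.Agent.HetCyc.Basic2

/-!
# The two saddles of the model are hyperbolic fixed points
-/

namespace HetCyc

open Filter Topology Set

noncomputable section

namespace CycleHypAux

/-! ## the orbit of a fixed point -/

lemma closed_orb (P : E 3) : IsClosed (orb P) := by
  have h : orb P = (fun q : E 3 => q - P) ⁻¹'
      (Set.pi Set.univ (fun _ : Fin 3 => Set.range (Int.cast : ℤ → ℝ))) := by
    ext q
    constructor
    · rintro ⟨k, rfl⟩ i _
      exact ⟨k i, by simp [intVec]⟩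
    · intro hq
      choose k hk using fun i => hq i (Set.mem_univ i)
      refine ⟨k, ?_⟩
      ext i
      have := hk i
      simp only [Pi.sub_apply] at this
      simp only [Pi.add_apply, intVec]
      linarith
  rw [h]
  apply IsClosed.preimage (by fun_prop)
  apply isClosed_set_pi
  intro i _
  exact Int.isClosedEmbedding_coe_real.isClosed_range

lemma transitive_orb (g : E 3 ≃ E 3) (P : E 3) : IsTransitive g (orb P) := by
  rintro U V - - ⟨p, hpU, k1, hk1⟩ ⟨q, hqV, k2, hk2⟩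
  refine ⟨p, ⟨hpU, k1, hk1⟩, 0, k2 - k1, ?_⟩
  have : (⇑g)^[0] p + intVec (k2 - k1) = q := by
    rw [Function.iterate_zero, id, hk1, hk2]
    ext i
    simp [intVec]
  rw [this]; exact hqV

/-! ## diagonal maps -/

/-- the diagonal linear map -/
def D (d : Fin 3 → ℝ) : E 3 →L[ℝ] E 3 :=
  ContinuousLinearMap.pi (fun i => d i • ContinuousLinearMap.proj i)

lemma D_apply (d : Fin 3 → ℝ) (v : E 3) (i : Fin 3) : D d v i = d i * v i := by
  simp [D]

lemma D_mul (d e : Fin 3 → ℝ) : D d * D e = D (fun i => d i * e i) := by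
  ext v i
  simp [D_apply, mul_assoc]

lemma D_pow (d : Fin 3 → ℝ) (n : ℕ) : D d ^ n = D (fun i => d i ^ n) := by
  induction n with
  | zero => ext v i; simp [D_apply]
  | succ n ih =>
    rw [pow_succ, ih, D_mul]
    rfl

/-- the coordinate subspace of the vectors supported on `I` -/
def Sub (I : Set (Fin 3)) : Submodule ℝ (E 3) where
  carrier := {v | ∀ i ∉ I, v i = 0}
  add_mem' := by
    intro a b ha hb i hi
    simp [ha i hi, hb i hi]
  zero_mem' := by intro i _; rfl
  smul_mem' := by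
    intro c x hx i hi
    simp [hx i hi]

lemma mem_Sub {I : Set (Fin 3)} {v : E 3} : v ∈ Sub I ↔ ∀ i ∉ I, v i = 0 := Iff.rfl

lemma isCompl_Sub (I : Set (Fin 3)) : IsCompl (Sub I) (Sub Iᶜ) := by
  classical
  constructor
  · rw [Submodule.disjoint_def]
    intro v h1 h2
    ext i
    by_cases hi : i ∈ I
    · exact h2 i (by simpa using hi)
    · exact h1 i hi
  · rw [codisjoint_iff, eq_top_iff]
    intro v _
    rw [Submodule.mem_sup]
    refine ⟨fun i => if i ∈ I then v i else 0, ?_, fun i => if i ∈ I then 0 else v i, ?_, ?_⟩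
    · intro i hi; simp [hi]
    · intro i hi
      have : i ∈ I := by simpa using hi
      simp [this]
    · ext i
      by_cases hi : i ∈ I <;> simp [hi]

lemma map_Sub (d : Fin 3 → ℝ) (hd : ∀ i, d i ≠ 0) (I : Set (Fin 3)) :
    (Sub I).map (D d : E 3 →ₗ[ℝ] E 3) = Sub I := by
  ext w
  rw [Submodule.mem_map]
  constructor
  · rintro ⟨v, hv, rfl⟩ i hi
    show D d v i = 0
    rw [D_apply, hv i hi, mul_zero]
  · intro hw
    refine ⟨fun i => (d i)⁻¹ * w i, ?_, ?_⟩
    · intro i hi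
      show (d i)⁻¹ * w i = 0
      rw [hw i hi, mul_zero]
    · ext i
      show D d (fun i => (d i)⁻¹ * w i) i = w i
      rw [D_apply, ← mul_assoc, mul_inv_cancel₀ (hd i), one_mul]

lemma norm_D_le (d : Fin 3 → ℝ) (I : Set (Fin 3)) (μ : ℝ) (hμ : 0 ≤ μ)
    (hd : ∀ i ∈ I, |d i| ≤ μ) (v : E 3) (hv : v ∈ Sub I) : ‖D d v‖ ≤ μ * ‖v‖ := by
  rw [pi_norm_le_iff_of_nonneg (by positivity)]
  intro i
  rw [D_apply, Real.norm_eq_abs, abs_mul]
  by_cases hi : i ∈ I
  · exact mul_le_mul (hd i hi) (norm_le_pi_norm v i) (abs_nonneg _) hμ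
  · rw [hv i hi, abs_zero, mul_zero]; positivity

lemma norm_D_pow_le (d : Fin 3 → ℝ) (I : Set (Fin 3)) (μ : ℝ) (hμ : 0 ≤ μ)
    (hd : ∀ i ∈ I, |d i| ≤ μ) (v : E 3) (hv : v ∈ Sub I) (n : ℕ) :
    ‖(D d ^ n) v‖ ≤ 1 * μ ^ n * ‖v‖ := by
  rw [D_pow, one_mul]
  apply norm_D_le _ I _ (by positivity) _ v hv
  intro i hi
  rw [abs_pow]
  exact pow_le_pow_left₀ (abs_nonneg _) (hd i hi) n

/-! ## a fixed point with diagonal derivative is hyperbolic -/

lemma fixed_translate {g : E 3 ≃ E 3} (hg : ∀ p k, g (p + intVec k) = g p + intVec k)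
    {P : E 3} (hP : g P = P) {p : E 3} (hp : p ∈ orb P) : g p = p := by
  obtain ⟨k, rfl⟩ := hp
  rw [hg, hP]

lemma hasFDerivAt_translate {g : E 3 ≃ E 3} (hg : ∀ p k, g (p + intVec k) = g p + intVec k)
    {P : E 3} {L : E 3 →L[ℝ] E 3} (hL : HasFDerivAt g L P) {p : E 3} (hp : p ∈ orb P) :
    HasFDerivAt g L p := by
  obtain ⟨k, rfl⟩ := hp
  have h1 : (g : E 3 → E 3) = fun q => g (q - intVec k) + intVec k := by
    ext1 q
    rw [← hg, sub_add_cancel]
  rw [h1]
  have h2 : HasFDerivAt (fun q : E 3 => q - intVec k) (ContinuousLinearMap.id ℝ (E 3))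
      (P + intVec k) := (hasFDerivAt_id _).sub_const _
  have h3 : HasFDerivAt g L ((fun q : E 3 => q - intVec k) (P + intVec k)) := by
    simpa using hL
  have h4 := (HasFDerivAt.comp (g := g) (f := fun q : E 3 => q - intVec k) (P + intVec k)
    h3 h2).add_const (intVec k)
  simpa [Function.comp_def] using h4

lemma hasFDerivAt_symm {g : E 3 ≃ E 3} (hs : Differentiable ℝ g.symm) {d : Fin 3 → ℝ}
    (hd : ∀ i, d i ≠ 0) {p : E 3} (hp : g p = p) (hL : HasFDerivAt g (D d) p) :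
    HasFDerivAt g.symm (D (fun i => (d i)⁻¹)) p := by
  have h1 : HasFDerivAt g.symm (fderiv ℝ g.symm p) (g p) := by
    rw [hp]; exact (hs p).hasFDerivAt
  have h2 := h1.comp p hL
  have h3 : (g.symm ∘ g : E 3 → E 3) = id := by ext1 q; simp
  rw [h3] at h2
  have h4 := h2.unique (hasFDerivAt_id p)
  have h5 : fderiv ℝ g.symm p = D (fun i => (d i)⁻¹) := by
    ext1 v
    have h6 : v = D d (D (fun i => (d i)⁻¹) v) := by
      ext i
      rw [D_apply, D_apply, ← mul_assoc, mul_inv_cancel₀ (hd i), one_mul]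
    conv_lhs => rw [h6]
    have := congrArg (fun L : E 3 →L[ℝ] E 3 => L (D (fun i => (d i)⁻¹) v)) h4
    simpa using this
  rw [← h5]; exact (hs p).hasFDerivAt

lemma isHypSet_orb {g : E 3 ≃ E 3} (hg : IsTorusDiffeo ⊤ g) {P : E 3} (hP : g P = P)
    {d : Fin 3 → ℝ} (hL : HasFDerivAt g (D d) P) (I : Set (Fin 3)) {m : ℕ}
    (hI : Module.finrank ℝ (Sub I) = m)
    (h1 : ∀ i ∈ I, 0 < d i ∧ d i ≤ 2 / 3) (h2 : ∀ i ∉ I, 3 / 2 ≤ d i) :
    IsHypSet g (orb P) m := by
  have hd : ∀ i, d i ≠ 0 := by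
    intro i
    by_cases hi : i ∈ I
    · exact (h1 i hi).1.ne'
    · have := h2 i hi; linarith
  have hs : Differentiable ℝ g.symm := hg.contDiff_symm.differentiable (by simp)
  refine ⟨⟨P, 0, by ext i; simp [intVec]⟩, closed_orb P, ?_, ?_, ?_⟩
  · rintro p ⟨k, rfl⟩ l
    refine ⟨k + l, ?_⟩
    ext i; simp [intVec, add_assoc]
  · ext q
    constructor
    · rintro ⟨p, hp, rfl⟩
      rw [fixed_translate hg.map_add hP hp]; exact hp
    · intro hq
      exact ⟨q, hq, fixed_translate hg.map_add hP hq⟩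
  · refine ⟨fun _ => Sub I, fun _ => Sub Iᶜ, 1, 2 / 3, by norm_num, by norm_num, by norm_num, ?_⟩
    intro p hp
    have hfix := fixed_translate hg.map_add hP hp
    have hLp := hasFDerivAt_translate hg.map_add hL hp
    have hLs := hasFDerivAt_symm hs hd hfix hLp
    have hfix' : g.symm p = p := by
      rw [Equiv.symm_apply_eq]; exact hfix.symm
    refine ⟨isCompl_Sub I, hI, ?_, ?_, ?_, ?_⟩
    · rw [hLp.fderiv]; exact map_Sub d hd I
    · rw [hLp.fderiv]; exact map_Sub d hd Iᶜ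
    · intro v hv n
      rw [(hLp.iterate hfix n).fderiv]
      apply norm_D_pow_le d I (2 / 3) (by norm_num) _ v hv n
      intro i hi
      rw [abs_of_pos (h1 i hi).1]; exact (h1 i hi).2
    · intro v hv n
      rw [(hLs.iterate hfix' n).fderiv]
      apply norm_D_pow_le _ Iᶜ (2 / 3) (by norm_num) _ v hv n
      intro i hi
      have h3 := h2 i hi
      have h4 : 0 < d i := by linarith
      rw [abs_of_pos (inv_pos.mpr h4), inv_le_comm₀ h4 (by norm_num)]
      linarith

/-! ## the dimensions of the coordinate subspaces -/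

lemma finrank_Sub (I : Set (Fin 3)) [DecidablePred (· ∈ I)] [DecidablePred (· ∈ Iᶜ)] :
    Module.finrank ℝ (Sub I) = Fintype.card I := by
  have h : Sub I = ⨅ i ∈ Iᶜ, LinearMap.ker
      (LinearMap.proj i : ((j : Fin 3) → (fun _ => ℝ) j) →ₗ[ℝ] ℝ) := by
    ext v
    simp only [mem_Sub, Submodule.mem_iInf, LinearMap.mem_ker, LinearMap.proj_apply,
      Set.mem_compl_iff]
  rw [h]
  have e := LinearMap.iInfKerProjEquiv ℝ (fun _ : Fin 3 => ℝ) (I := I) (J := Iᶜ)
    disjoint_compl_right (by simp)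
  rw [e.finrank_eq, Module.finrank_pi]

/-! ## the derivatives at the two saddles -/

lemma eventually_P : ∀ᶠ p in 𝓝 Pt, fmap p = ![aP (p 0), phi (p 1), bP (p 2)] := by
  have c0 : Continuous (fun p : E 3 => p 0) := continuous_apply 0
  have c1 : Continuous (fun p : E 3 => p 1) := continuous_apply 1
  have ca : Continuous (fun p : E 3 => aP (p 0)) := by
    unfold aP
    exact c0.add (continuous_const.mul (continuous_sn.comp c0))
  have P0 : Pt 0 = 0 := rfl
  have P1 : Pt 1 = 1 / 2 := rfl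
  have h1 : ∀ᶠ p in 𝓝 Pt, (3 / 10 : ℝ) < p 1 :=
    c1.continuousAt.eventually (lt_mem_nhds (by beta_reduce; rw [P1]; norm_num))
  have h2 : ∀ᶠ p in 𝓝 Pt, p 1 < (11 / 20 : ℝ) :=
    c1.continuousAt.eventually (gt_mem_nhds (by beta_reduce; rw [P1]; norm_num))
  have h3 : ∀ᶠ p in 𝓝 Pt, (-(1 / 100) : ℝ) < aP (p 0) :=
    ca.continuousAt.eventually (lt_mem_nhds (by beta_reduce; rw [P0, aP_zero]; norm_num))
  have h4 : ∀ᶠ p in 𝓝 Pt, aP (p 0) < (1 / 100 : ℝ) :=
    ca.continuousAt.eventually (gt_mem_nhds (by beta_reduce; rw [P0, aP_zero]; norm_num))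
  filter_upwards [h1, h2, h3, h4] with p p1 p2 p3 p4
  unfold fmap
  rw [ax_P (by linarith) (by linarith), bz_P (by linarith) (by linarith),
    hh_eq_zero_x (by rw [abs_le]; constructor <;> linarith)
      (by rw [abs_of_nonpos (by linarith)]; linarith), add_zero]

lemma eventually_Q : ∀ᶠ p in 𝓝 Qt, fmap p = ![aQ (p 0), phi (p 1), bQ (p 2)] := by
  have c0 : Continuous (fun p : E 3 => p 0) := continuous_apply 0
  have c1 : Continuous (fun p : E 3 => p 1) := continuous_apply 1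
  have ca : Continuous (fun p : E 3 => aQ (p 0)) := by
    unfold aQ
    exact c0.sub (continuous_const.mul (continuous_sn.comp c0))
  have P0 : Qt 0 = 0 := rfl
  have P1 : Qt 1 = 0 := rfl
  have h1 : ∀ᶠ p in 𝓝 Qt, (-(1 / 20) : ℝ) < p 1 :=
    c1.continuousAt.eventually (lt_mem_nhds (by beta_reduce; rw [P1]; norm_num))
  have h2 : ∀ᶠ p in 𝓝 Qt, p 1 < (1 / 8 : ℝ) :=
    c1.continuousAt.eventually (gt_mem_nhds (by beta_reduce; rw [P1]; norm_num))
  have h3 : ∀ᶠ p in 𝓝 Qt, (-(1 / 100) : ℝ) < aQ (p 0) :=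
    ca.continuousAt.eventually (lt_mem_nhds (by beta_reduce; rw [P0, aQ_zero]; norm_num))
  have h4 : ∀ᶠ p in 𝓝 Qt, aQ (p 0) < (1 / 100 : ℝ) :=
    ca.continuousAt.eventually (gt_mem_nhds (by beta_reduce; rw [P0, aQ_zero]; norm_num))
  filter_upwards [h1, h2, h3, h4] with p p1 p2 p3 p4
  unfold fmap
  rw [ax_Q (by linarith) (by linarith), bz_Q (by linarith) (by linarith),
    hh_eq_zero_x (by rw [abs_le]; constructor <;> linarith)
      (by rw [abs_of_nonpos (by linarith)]; linarith), add_zero]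

lemma hasFDerivAt_prod {a b c : ℝ → ℝ} {p : E 3} {d : Fin 3 → ℝ}
    (ha : HasDerivAt a (d 0) (p 0)) (hb : HasDerivAt b (d 1) (p 1))
    (hc : HasDerivAt c (d 2) (p 2)) :
    HasFDerivAt (fun q : E 3 => (![a (q 0), b (q 1), c (q 2)] : E 3)) (D d) p := by
  rw [hasFDerivAt_pi']
  have key : ∀ (i : Fin 3) (f : ℝ → ℝ), HasDerivAt f (d i) (p i) →
      HasFDerivAt (fun q : E 3 => f (q i)) ((ContinuousLinearMap.proj i).comp (D d)) p := by
    intro i f hf
    have h1 := hf.comp_hasFDerivAt p (hasFDerivAt_apply (𝕜 := ℝ) i p)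
    have h2 : d i • (ContinuousLinearMap.proj i : E 3 →L[ℝ] ℝ) =
        (ContinuousLinearMap.proj i).comp (D d) := by
      ext v; simp [D_apply]
    rw [← h2]
    exact h1
  intro i
  fin_cases i
  · exact key 0 a ha
  · exact key 1 b hb
  · exact key 2 c hc

lemma hasDerivAt_aP : HasDerivAt aP (3 / 2) 0 := by
  have h := (hasDerivAt_id (0 : ℝ)).add ((hasDerivAt_sn 0).const_mul (1 / 2))
  rw [cs_zero] at h
  exact h.congr_deriv (by norm_num)
lemma hasDerivAt_aQ : HasDerivAt aQ (1 / 2) 0 := by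
  have h := (hasDerivAt_id (0 : ℝ)).sub ((hasDerivAt_sn 0).const_mul (1 / 2))
  rw [cs_zero] at h
  exact h.congr_deriv (by norm_num)
lemma hasDerivAt_bP : HasDerivAt bP (9 / 5) 0 := by
  have h := (hasDerivAt_id (0 : ℝ)).add ((hasDerivAt_sn 0).const_mul (4 / 5))
  rw [cs_zero] at h
  exact h.congr_deriv (by norm_num)
lemma hasDerivAt_bQ : HasDerivAt bQ (1 / 5) 0 := by
  have h := (hasDerivAt_id (0 : ℝ)).sub ((hasDerivAt_sn 0).const_mul (4 / 5))
  rw [cs_zero] at h
  exact h.congr_deriv (by norm_num)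

lemma hasFDerivAt_P : HasFDerivAt fmap (D ![3 / 2, 1 / 5, 9 / 5]) Pt := by
  have h : HasFDerivAt (fun q : E 3 => (![aP (q 0), phi (q 1), bP (q 2)] : E 3))
      (D ![3 / 2, 1 / 5, 9 / 5]) Pt := by
    apply hasFDerivAt_prod
    · exact hasDerivAt_aP
    · have := hasDerivAt_phi (1 / 2)
      rw [cs_half] at this
      exact this.congr_deriv (by norm_num)
    · exact hasDerivAt_bP
  exact h.congr_of_eventuallyEq eventually_P

lemma hasFDerivAt_Q : HasFDerivAt fmap (D ![1 / 2, 9 / 5, 1 / 5]) Qt := by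
  have h : HasFDerivAt (fun q : E 3 => (![aQ (q 0), phi (q 1), bQ (q 2)] : E 3))
      (D ![1 / 2, 9 / 5, 1 / 5]) Qt := by
    apply hasFDerivAt_prod
    · exact hasDerivAt_aQ
    · have := hasDerivAt_phi 0
      rw [cs_zero] at this
      exact this.congr_deriv (by norm_num)
    · exact hasDerivAt_bQ
  exact h.congr_of_eventuallyEq eventually_Q

lemma fmap_P : fmap Pt = Pt := by
  rw [eventually_P.self_of_nhds]
  show (![aP 0, phi (1 / 2), bP 0] : E 3) = _
  rw [aP_zero, phi_half, bP_zero]; rfl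

lemma fmap_Q : fmap Qt = Qt := by
  rw [eventually_Q.self_of_nhds]
  show (![aQ 0, phi 0, bQ 0] : E 3) = _
  rw [aQ_zero, phi_zero, bQ_zero]; rfl

end CycleHypAux

open CycleHypAux in
theorem cycleHyp : S_CycleHyp := by
  intro F hF hFf
  have hFe : (F : E 3 → E 3) = fmap := funext hFf
  have hP : F Pt = Pt := by rw [hFf, fmap_P]
  have hQ : F Qt = Qt := by rw [hFf, fmap_Q]
  have hdP : HasFDerivAt F (D ![3 / 2, 1 / 5, 9 / 5]) Pt := by rw [hFe]; exact hasFDerivAt_P
  have hdQ : HasFDerivAt F (D ![1 / 2, 9 / 5, 1 / 5]) Qt := by rw [hFe]; exact hasFDerivAt_Q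
  refine ⟨hP, hQ, ?_, ?_, transitive_orb F Pt, transitive_orb F Qt⟩
  · apply isHypSet_orb hF hP hdP {1}
    · classical
      rw [finrank_Sub]; simp
    · intro i hi
      have : i = 1 := hi
      subst this
      norm_num
    · intro i hi
      fin_cases i
      · norm_num
      · exact absurd rfl hi
      · norm_num
  · apply isHypSet_orb hF hQ hdQ {0, 2}
    · classical
      rw [finrank_Sub, ← Nat.card_eq_fintype_card, Nat.card_coe_set_eq]
      exact Set.ncard_pair (by decide)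
    · intro i hi
      rcases hi with rfl | rfl
      · norm_num
      · show (0 : ℝ) < 1 / 5 ∧ (1 / 5 : ℝ) ≤ 2 / 3
        norm_num
    · intro i hi
      fin_cases i
      · exact absurd (Or.inl rfl) hi
      · norm_num
      · exact absurd (Or.inr rfl) hi

end

end HetCyc
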