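import Pool.Agent.HetCyc.Basic2

/-!
# Module CycleTan: the connecting points and the tangency
-/

namespace HetCyc

open Filter Topology Set Real

noncomputable section

namespace CycleTanAux

/-! ## the circle map `phi` -/

lemma phi_surj : Function.Surjective phi := by
  have hc : Continuous phi := (contDiff_phi (n := 0)).continuous
  have hb : ∀ y, |phi y - y| ≤ 13 / 100 := abs_phi_sub_le
  apply hc.surjective
  · refine tendsto_atTop_mono (f := fun y : ℝ => y - 13 / 100) (fun y => ?_) ?_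
    · have := (abs_le.mp (hb y)).1; linarith
    · exact tendsto_atTop_add_const_right _ _ tendsto_id
  · refine tendsto_atBot_mono (f := fun y : ℝ => y + 13 / 100) (fun y => ?_) ?_
    · have := (abs_le.mp (hb y)).2; linarith
    · exact tendsto_atBot_add_const_right _ _ tendsto_id

lemma aP_surj : Function.Surjective aP := by
  have hc : Continuous aP := by unfold aP; exact continuous_id.add (continuous_sn.const_mul _)
  have hb : ∀ y, |aP y - y| ≤ 1 := by
    intro y
    unfold aP
    rw [add_sub_cancel_left, abs_mul, abs_of_pos (by norm_num : (0:ℝ) < 1 / 2)]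
    have h := abs_phi_sub_le y
    unfold phi at h
    rw [add_sub_cancel_left, abs_mul, abs_of_pos (by norm_num : (0:ℝ) < 4 / 5)] at h
    linarith
  apply hc.surjective
  · refine tendsto_atTop_mono (f := fun y : ℝ => y - 1) (fun y => ?_) ?_
    · have := (abs_le.mp (hb y)).1; linarith
    · exact tendsto_atTop_add_const_right _ _ tendsto_id
  · refine tendsto_atBot_mono (f := fun y : ℝ => y + 1) (fun y => ?_) ?_
    · have := (abs_le.mp (hb y)).2; linarith
    · exact tendsto_atBot_add_const_right _ _ tendsto_id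

/-- the inverse of `phi` -/
def psi : ℝ → ℝ := Function.invFun phi
lemma phi_psi (y : ℝ) : phi (psi y) = y := Function.invFun_eq (phi_surj y)
/-- the inverse of `aP` -/
def qP : ℝ → ℝ := Function.invFun aP
lemma aP_qP (y : ℝ) : aP (qP y) = y := Function.invFun_eq (aP_surj y)
lemma aP_xm : aP xm = 2 / 25 := aP_qP _

lemma psi_mem {y : ℝ} (h0 : 0 ≤ y) (h1 : y ≤ 3 / 16) :
    0 ≤ psi y ∧ psi y ≤ y ∧ psi y ≤ 1 / 8 := by
  have hp := phi_psi y
  have a1 : 0 ≤ psi y := by
    by_contra h
    push Not at h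
    have := strictMono_phi h
    rw [hp, phi_zero] at this
    linarith
  have a2 : psi y ≤ 1 / 8 := by
    by_contra h
    push Not at h
    have := strictMono_phi h
    rw [hp] at this
    linarith [phi_eighth.1]
  refine ⟨a1, ?_, a2⟩
  have h3 := sn_nonneg a1 (by linarith)
  unfold phi at hp
  linarith

lemma psi_iter_mem (n : ℕ) : 0 ≤ psi^[n] (3 / 16) ∧ psi^[n] (3 / 16) ≤ 3 / 16 := by
  induction n with
  | zero => norm_num
  | succ n ih =>
    rw [Function.iterate_succ_apply']
    have h := psi_mem ih.1 ih.2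
    exact ⟨h.1, h.2.1.trans ih.2⟩

lemma psi_tendsto : Tendsto (fun n : ℕ => psi^[n] (3 / 16)) atTop (𝓝 0) := by
  have hanti : Antitone (fun n : ℕ => psi^[n] (3 / 16)) := by
    apply antitone_nat_of_succ_le
    intro n
    rw [Function.iterate_succ_apply']
    exact (psi_mem (psi_iter_mem n).1 (psi_iter_mem n).2).2.1
  have hbdd : BddBelow (Set.range (fun n : ℕ => psi^[n] (3 / 16))) :=
    ⟨0, by rintro _ ⟨n, rfl⟩; exact (psi_iter_mem n).1⟩
  have hlim := tendsto_atTop_ciInf hanti hbdd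
  set L := ⨅ n : ℕ, psi^[n] (3 / 16) with hL
  have h0 : 0 ≤ L := ge_of_tendsto' hlim fun n => (psi_iter_mem n).1
  have h1 : L ≤ 3 / 16 := le_of_tendsto' hlim fun n => (psi_iter_mem n).2
  have hc : Continuous phi := (contDiff_phi (n := 0)).continuous
  have h2 : Tendsto (fun n : ℕ => phi (psi^[n + 1] (3 / 16))) atTop (𝓝 (phi L)) :=
    (hc.tendsto L).comp ((tendsto_add_atTop_iff_nat 1).mpr hlim)
  have h3 : (fun n : ℕ => phi (psi^[n + 1] (3 / 16))) = fun n : ℕ => psi^[n] (3 / 16) := by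
    funext n
    rw [Function.iterate_succ_apply', phi_psi]
  rw [h3] at h2
  have h4 : phi L = L := tendsto_nhds_unique h2 hlim
  have h5 : L = 0 := by
    by_contra hne
    have h6 : 0 < L := lt_of_le_of_ne h0 (Ne.symm hne)
    have := (phi_gt h6 (by linarith)).1
    linarith
  rw [h5] at hlim
  exact hlim

lemma phi_iter_mem (n : ℕ) :
    3 / 16 ≤ phi^[n] (3 / 16) ∧ phi^[n] (3 / 16) < 1 / 2 := by
  induction n with
  | zero => norm_num
  | succ n ih =>
    rw [Function.iterate_succ_apply']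
    have h := phi_gt (y := phi^[n] (3 / 16)) (by linarith [ih.1]) ih.2
    exact ⟨by linarith [ih.1, h.1], h.2⟩

lemma phi_iter_mem' (n : ℕ) : 3 / 10 ≤ phi^[n + 1] (3 / 16) := by
  rw [Function.iterate_succ_apply']
  have h := strictMono_phi.monotone (phi_iter_mem n).1
  linarith [phi_b.1]

lemma phi_tendsto : Tendsto (fun n : ℕ => phi^[n] (3 / 16)) atTop (𝓝 (1 / 2)) := by
  have hmono : Monotone (fun n : ℕ => phi^[n] (3 / 16)) := by
    apply monotone_nat_of_le_succ
    intro n
    rw [Function.iterate_succ_apply']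
    exact (phi_gt (by linarith [(phi_iter_mem n).1]) (phi_iter_mem n).2).1.le
  have hbdd : BddAbove (Set.range (fun n : ℕ => phi^[n] (3 / 16))) :=
    ⟨1 / 2, by rintro _ ⟨n, rfl⟩; exact (phi_iter_mem n).2.le⟩
  have hlim := tendsto_atTop_ciSup hmono hbdd
  set L := ⨆ n : ℕ, phi^[n] (3 / 16) with hL
  have h0 : 3 / 16 ≤ L := ge_of_tendsto' hlim fun n => (phi_iter_mem n).1
  have h1 : L ≤ 1 / 2 := le_of_tendsto' hlim fun n => (phi_iter_mem n).2.le
  have hc : Continuous phi := (contDiff_phi (n := 0)).continuous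
  have h4 : phi L = L := isFixedPt_of_tendsto_iterate hlim hc.continuousAt
  have h5 : L = 1 / 2 := by
    by_contra hne
    have h6 : L < 1 / 2 := lt_of_le_of_ne h1 hne
    have := (phi_gt (by linarith) h6).1
    linarith
  rw [h5] at hlim
  exact hlim

/-! ## the circle maps `aP`, `aQ` -/

lemma aP_ge {x : ℝ} (h0 : 0 ≤ x) (h1 : x ≤ 1 / 8) : 27 / 20 * x ≤ aP x := by
  obtain ⟨θ, h2, _, h4⟩ := aP_sub (s := 0) (t := x) (by norm_num) (by rw [abs_of_nonneg h0]; exact h1)
  rw [aP_zero, sub_zero, sub_zero] at h4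
  rw [h4]; nlinarith

lemma aQ_mem {x : ℝ} (h0 : 0 ≤ x) (h1 : x ≤ 1 / 8) : 0 ≤ aQ x ∧ aQ x ≤ 13 / 20 * x := by
  obtain ⟨θ, h2, h3, h4⟩ := aQ_sub (s := 0) (t := x) (by norm_num) (by rw [abs_of_nonneg h0]; exact h1)
  rw [aQ_zero, sub_zero, sub_zero] at h4
  rw [h4]; constructor <;> nlinarith

lemma qP_mem {x : ℝ} (h0 : 0 ≤ x) (h1 : x ≤ 2 / 25) : 0 ≤ qP x ∧ qP x ≤ 20 / 27 * x := by
  have hp := aP_qP x
  have a1 : 0 ≤ qP x := by
    by_contra h
    push Not at h
    have := strictMono_aP h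
    rw [hp, aP_zero] at this
    linarith
  have a2 : qP x ≤ 1 / 8 := by
    by_contra h
    push Not at h
    have := strictMono_aP h
    rw [hp] at this
    have := aP_ge (x := 1 / 8) (by norm_num) le_rfl
    linarith
  have a3 := aP_ge a1 a2
  rw [hp] at a3
  exact ⟨a1, by linarith⟩

lemma qP_iter (n : ℕ) :
    0 ≤ qP^[n] (2 / 25) ∧ qP^[n] (2 / 25) ≤ (20 / 27) ^ n * (2 / 25) := by
  induction n with
  | zero => norm_num
  | succ n ih =>
    have h1 : ((20 : ℝ) / 27) ^ n ≤ 1 := pow_le_one₀ (by norm_num) (by norm_num)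
    rw [Function.iterate_succ_apply']
    have h := qP_mem ih.1 (by linarith [ih.2])
    refine ⟨h.1, h.2.trans ?_⟩
    rw [pow_succ]
    linarith [ih.2]

lemma qP_iter_le (n : ℕ) : qP^[n + 1] (2 / 25) ≤ 3 / 50 := by
  have h := (qP_iter (n + 1)).2
  have h1 : ((20 : ℝ) / 27) ^ n ≤ 1 := pow_le_one₀ (by norm_num) (by norm_num)
  rw [pow_succ] at h
  linarith

lemma aQ_iter (n : ℕ) :
    0 ≤ aQ^[n] (2 / 25) ∧ aQ^[n] (2 / 25) ≤ (13 / 20) ^ n * (2 / 25) := by
  induction n with
  | zero => norm_num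
  | succ n ih =>
    have h1 : ((13 : ℝ) / 20) ^ n ≤ 1 := pow_le_one₀ (by norm_num) (by norm_num)
    rw [Function.iterate_succ_apply']
    have h := aQ_mem ih.1 (by linarith [ih.2])
    refine ⟨h.1, h.2.trans ?_⟩
    rw [pow_succ]
    linarith [ih.2]

lemma aQ_iter_le (n : ℕ) : aQ^[n] (2 / 25) ≤ 2 / 25 := by
  have h := (aQ_iter n).2
  have h1 : ((13 : ℝ) / 20) ^ n ≤ 1 := pow_le_one₀ (by norm_num) (by norm_num)
  linarith

lemma aQ_iter_le' (n : ℕ) : aQ^[n + 1] (2 / 25) ≤ 3 / 50 := by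
  have h := (aQ_iter (n + 1)).2
  have h1 : ((13 : ℝ) / 20) ^ n ≤ 1 := pow_le_one₀ (by norm_num) (by norm_num)
  rw [pow_succ] at h
  linarith

lemma qP_tendsto : Tendsto (fun n : ℕ => qP^[n] (2 / 25)) atTop (𝓝 0) := by
  refine squeeze_zero (fun n => (qP_iter n).1) (fun n => (qP_iter n).2) ?_
  have := (tendsto_pow_atTop_nhds_zero_of_lt_one (r := (20:ℝ) / 27) (by norm_num)
    (by norm_num)).mul_const (2 / 25)
  simpa using this

lemma aQ_tendsto : Tendsto (fun n : ℕ => aQ^[n] (2 / 25)) atTop (𝓝 0) := by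
  refine squeeze_zero (fun n => (aQ_iter n).1) (fun n => (aQ_iter n).2) ?_
  have := (tendsto_pow_atTop_nhds_zero_of_lt_one (r := (13:ℝ) / 20) (by norm_num)
    (by norm_num)).mul_const (2 / 25)
  simpa using this

/-! ## values of the map -/

lemma hh_zero_of_le {x : ℝ} (h0 : 0 ≤ x) (h1 : x ≤ 3 / 50) : hh x 0 = 0 := by
  apply hh_eq_zero_x
  · rw [abs_of_nonneg h0]; linarith
  · rw [abs_of_nonpos (by linarith)]; linarith

lemma fmap_of_k {y : ℝ} (h1 : k1 y = 0) (h2 : k2 y = 0) : fmap ![0, y, 0] = ![0, phi y, 0] := by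
  ext i
  fin_cases i
  · show ax y 0 = 0
    rw [ax_zero, h1]
  · show phi y + hh (ax y 0) (bz y 0) = phi y
    rw [ax_zero, h1, bz_zero, h2, hh_zero_of_le le_rfl (by norm_num), add_zero]
  · show bz y 0 = 0
    rw [bz_zero, h2]

lemma fmap_low {y : ℝ} (h0 : 0 ≤ y) (h1 : y ≤ 1 / 8) : fmap ![0, y, 0] = ![0, phi y, 0] :=
  fmap_of_k (k1_eq_zero (om_eq_zero_left (by linarith) h1))
    (k2_eq_zero (om_eq_zero_left (by linarith) h1) (om2_eq_zero (by linarith) (by linarith)))

lemma fmap_high {y : ℝ} (h0 : 1 / 4 ≤ y) (h1 : y ≤ 11 / 20) : fmap ![0, y, 0] = ![0, phi y, 0] :=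
  fmap_of_k (k1_eq_zero (om_eq_zero_right h0 (by linarith)))
    (k2_eq_zero (om_eq_zero_right h0 (by linarith)) (om2_eq_zero (by linarith) h1))

lemma fmap_bt : fmap ![0, 3 / 16, 0] = ![0, phi (3 / 16), 0] := fmap_of_k k1_b k2_b

lemma bz_half_zero : bz (1 / 2) 0 = 0 := by
  rw [bz_P (by norm_num) (by norm_num), bP_zero]

lemma fmap_half (x : ℝ) : fmap ![x, 1 / 2, 0] = ![aP x, 1 / 2 + hh (aP x) 0, 0] := by
  have hax : ax (1 / 2) x = aP x := ax_P (by norm_num) (by norm_num) x
  ext i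
  fin_cases i
  · exact hax
  · show phi (1 / 2) + hh (ax (1 / 2) x) (bz (1 / 2) 0) = 1 / 2 + hh (aP x) 0
    rw [hax, bz_half_zero, phi_half]
  · exact bz_half_zero

lemma om_one : om 1 = 0 := om_eq_zero_right (by norm_num) (by norm_num)
lemma om2_one : om2 1 = 0 := by
  have := om2_add_int 0 1
  simp only [Int.cast_one, zero_add] at this
  rw [this]
  exact om2_eq_zero (by norm_num) (by norm_num)
lemma k1_one : k1 1 = 0 := k1_eq_zero om_one
lemma k2_one : k2 1 = 0 := k2_eq_zero om_one om2_one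
lemma tau_one : tau 1 = 0 := tau_Q' (by norm_num) (by norm_num)
lemma lam_one : lam 1 = -(1 / 2) := by unfold lam; rw [tau_one]; ring
lemma mu_one : mu 1 = -(4 / 5) := by unfold mu; rw [tau_one]; ring
lemma om_hf : om (1 / 2) = 0 := om_eq_zero_right (by norm_num) (by norm_num)
lemma om2_hf : om2 (1 / 2) = 0 := om2_eq_zero (by norm_num) (by norm_num)
lemma k1_hf : k1 (1 / 2) = 0 := k1_eq_zero om_hf
lemma k2_hf : k2 (1 / 2) = 0 := k2_eq_zero om_hf om2_hf
lemma tau_hf : tau (1 / 2) = 1 := tau_P (by norm_num) (by norm_num)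
lemma lam_hf : lam (1 / 2) = 1 / 2 := by unfold lam; rw [tau_hf]; ring
lemma mu_hf : mu (1 / 2) = 4 / 5 := by unfold mu; rw [tau_hf]; ring

lemma bz_one_zero : bz 1 0 = 0 := by rw [bz_zero, k2_one]

lemma fmap_one' (x : ℝ) : fmap ![x, 1, 0] = ![aQ x, 1 + hh (aQ x) 0, 0] := by
  have hax : ax 1 x = aQ x := ax_Q' (by norm_num) (by norm_num) x
  ext i
  fin_cases i
  · exact hax
  · show phi 1 + hh (ax 1 x) (bz 1 0) = 1 + hh (aQ x) 0
    rw [hax, bz_one_zero, phi_one]
  · exact bz_one_zero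

/-! ## the derivative on the vectors with `v 1 = 0` -/

/-- the derivative in the direction `x` -/
def alp (p : E 3) : ℝ := 1 + lam (p 1) * cs (p 0) + k1 (p 1) * (-(π * Real.sin (2 * π * p 0)))
/-- the derivative in the direction `z` -/
def bet (p : E 3) : ℝ := 1 + mu (p 1) * cs (p 2) + k2 (p 1) * (-(π * Real.sin (2 * π * p 2)))

lemma alp_pos (p : E 3) : 0 < alp p := by
  have := ax_deriv_pos (p 1) (p 0)
  unfold alp; linarith
lemma bet_pos (p : E 3) : 0 < bet p := by
  have := bz_deriv_pos (p 1) (p 2)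
  unfold bet; linarith

lemma fderiv_plane {F : E 3 ≃ E 3} (hF : IsTorusDiffeo ⊤ F) (hf : ∀ p, F p = fmap p) (p v : E 3)
    (hp : hh (ax (p 1) (p 0)) (bz (p 1) (p 2)) = 0 ∨ hh (ax (p 1) (p 0)) (bz (p 1) (p 2)) = 1 / 2)
    (hv : v 1 = 0) :
    fderiv ℝ F p v = ![alp p * v 0, 0, bet p * v 2] := by
  have hd : DifferentiableAt ℝ F p :=
    (hF.contDiff.differentiable (by simp)).differentiableAt
  have hline : HasDerivAt (fun t : ℝ => p + t • v) v 0 := by
    have h1 : HasDerivAt (fun t : ℝ => t • v) ((1 : ℝ) • v) 0 := (hasDerivAt_id (0 : ℝ)).smul_const v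
    rw [one_smul] at h1
    exact h1.const_add p
  have hcomp : HasDerivAt (fun t : ℝ => F (p + t • v)) (fderiv ℝ F p v) 0 := by
    have h1 : HasFDerivAt F (fderiv ℝ F p) (p + (0 : ℝ) • v) := by
      rw [zero_smul, add_zero]; exact hd.hasFDerivAt
    exact h1.comp_hasDerivAt (0 : ℝ) hline
  rw [hasDerivAt_pi] at hcomp
  have e1 : ∀ t : ℝ, (p + t • v) 1 = p 1 := by intro t; simp [hv]
  have e0 : ∀ t : ℝ, (p + t • v) 0 = p 0 + t * v 0 := by intro t; simp
  have e2 : ∀ t : ℝ, (p + t • v) 2 = p 2 + t * v 2 := by intro t; simp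
  have hl : ∀ a b : ℝ, HasDerivAt (fun t : ℝ => a + t * b) b 0 := by
    intro a b
    have := ((hasDerivAt_id (0 : ℝ)).mul_const b).const_add a
    simpa using this
  ext i
  fin_cases i
  · show fderiv ℝ F p v 0 = alp p * v 0
    have h := hcomp 0
    have h' : (fun t : ℝ => F (p + t • v) 0) = fun t : ℝ => ax (p 1) (p 0 + t * v 0) := by
      funext t
      rw [hf, fmap_zero, e1, e0]
    rw [h'] at h
    have h2 : HasDerivAt (ax (p 1)) (alp p) (p 0 + 0 * v 0) := by
      rw [zero_mul, add_zero]; exact hasDerivAt_ax (p 1) (p 0)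
    have h3 : HasDerivAt (fun t : ℝ => ax (p 1) (p 0 + t * v 0)) (alp p * v 0) 0 :=
      HasDerivAt.comp (h := fun t : ℝ => p 0 + t * v 0) (h₂ := ax (p 1)) (0 : ℝ) h2
        (hl (p 0) (v 0))
    exact h.unique h3
  · show fderiv ℝ F p v 1 = 0
    have h := hcomp 1
    have h' : (fun t : ℝ => F (p + t • v) 1) =
        fun t : ℝ => phi (p 1) + hh (ax (p 1) (p 0 + t * v 0)) (bz (p 1) (p 2 + t * v 2)) := by
      funext t
      rw [hf, HetCyc.fmap_one, e1, e0, e2]
    rw [h'] at h
    have hext : IsLocalExtr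
        (fun t : ℝ => phi (p 1) + hh (ax (p 1) (p 0 + t * v 0)) (bz (p 1) (p 2 + t * v 2))) 0 := by
      rcases hp with hp | hp
      · left
        refine Eventually.of_forall fun t => ?_
        show phi (p 1) + hh (ax (p 1) (p 0 + 0 * v 0)) (bz (p 1) (p 2 + 0 * v 2)) ≤ _
        rw [zero_mul, zero_mul, add_zero, add_zero, hp]
        have := hh_nonneg (ax (p 1) (p 0 + t * v 0)) (bz (p 1) (p 2 + t * v 2))
        linarith
      · right
        refine Eventually.of_forall fun t => ?_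
        show _ ≤ phi (p 1) + hh (ax (p 1) (p 0 + 0 * v 0)) (bz (p 1) (p 2 + 0 * v 2))
        rw [zero_mul, zero_mul, add_zero, add_zero, hp]
        have := hh_le_half (ax (p 1) (p 0 + t * v 0)) (bz (p 1) (p 2 + t * v 2))
        linarith
    exact hext.hasDerivAt_eq_zero h
  · show fderiv ℝ F p v 2 = bet p * v 2
    have h := hcomp 2
    have h' : (fun t : ℝ => F (p + t • v) 2) = fun t : ℝ => bz (p 1) (p 2 + t * v 2) := by
      funext t
      rw [hf, fmap_two, e1, e2]
    rw [h'] at h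
    have h2 : HasDerivAt (bz (p 1)) (bet p) (p 2 + 0 * v 2) := by
      rw [zero_mul, add_zero]; exact hasDerivAt_bz (p 1) (p 2)
    have h3 : HasDerivAt (fun t : ℝ => bz (p 1) (p 2 + t * v 2)) (bet p * v 2) 0 :=
      HasDerivAt.comp (h := fun t : ℝ => p 2 + t * v 2) (h₂ := bz (p 1)) (0 : ℝ) h2
        (hl (p 2) (v 2))
    exact h.unique h3

lemma fderiv_symm_plane {F : E 3 ≃ E 3} (hF : IsTorusDiffeo ⊤ F) (hf : ∀ p, F p = fmap p)
    (p w : E 3)
    (hp : hh (ax (p 1) (p 0)) (bz (p 1) (p 2)) = 0 ∨ hh (ax (p 1) (p 0)) (bz (p 1) (p 2)) = 1 / 2)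
    (hw : w 1 = 0) :
    fderiv ℝ F.symm (F p) w = ![w 0 / alp p, 0, w 2 / bet p] := by
  have ha := alp_pos p
  have hb := bet_pos p
  have h1 := fderiv_plane hF hf p ![w 0 / alp p, 0, w 2 / bet p] hp rfl
  have h2 : ![alp p * (![w 0 / alp p, 0, w 2 / bet p] : E 3) 0, 0,
      bet p * (![w 0 / alp p, 0, w 2 / bet p] : E 3) 2] = w := by
    ext i
    fin_cases i
    · show alp p * (w 0 / alp p) = w 0
      field_simp
    · exact hw.symm
    · show bet p * (w 2 / bet p) = w 2
      field_simp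
  rw [h2] at h1
  have hd : DifferentiableAt ℝ F p :=
    (hF.contDiff.differentiable (by simp)).differentiableAt
  have hd' : DifferentiableAt ℝ F.symm (F p) :=
    (hF.contDiff_symm.differentiable (by simp)).differentiableAt
  have h3 : fderiv ℝ (F.symm ∘ F) p = (fderiv ℝ F.symm (F p)).comp (fderiv ℝ F p) :=
    fderiv_comp p hd' hd
  rw [show (F.symm : E 3 → E 3) ∘ F = id from funext fun q => F.symm_apply_apply q, fderiv_id] at h3
  have h4 := congrArg (fun T : E 3 →L[ℝ] E 3 => T ![w 0 / alp p, 0, w 2 / bet p]) h3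
  simp only [ContinuousLinearMap.coe_id', id_eq, ContinuousLinearMap.coe_comp,
    Function.comp_apply] at h4
  rw [h1] at h4
  exact h4.symm

lemma tendsto_vec3 {a b c : ℕ → ℝ} {x y z : ℝ} (ha : Tendsto a atTop (𝓝 x))
    (hb : Tendsto b atTop (𝓝 y)) (hc : Tendsto c atTop (𝓝 z)) :
    Tendsto (fun n => (![a n, b n, c n] : E 3)) atTop (𝓝 ![x, y, z]) := by
  rw [tendsto_pi_nhds]
  intro i
  fin_cases i
  · exact ha
  · exact hb
  · exact hc

end CycleTanAux

open CycleTanAux

theorem cycleTan : S_CycleTan := by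
  intro F hF hf
  have hQ : F Qt = Qt := by
    rw [hf]
    show fmap ![0, 0, 0] = ![0, 0, 0]
    rw [fmap_low le_rfl (by norm_num), phi_zero]
  have hP : F Pt = Pt := by
    rw [hf]
    show fmap ![0, 1 / 2, 0] = ![0, 1 / 2, 0]
    rw [fmap_high (by norm_num) (by norm_num), phi_half]
  have hQs : ∀ n : ℕ, (⇑F.symm)^[n] Qt = Qt := fun n =>
    Function.iterate_fixed (by rw [Equiv.symm_apply_eq]; exact hQ.symm) n
  have hPs : ∀ n : ℕ, (⇑F.symm)^[n] Pt = Pt := fun n =>
    Function.iterate_fixed (by rw [Equiv.symm_apply_eq]; exact hP.symm) n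
  have hPn : ∀ n : ℕ, (⇑F)^[n] Pt = Pt := fun n => Function.iterate_fixed hP n
  -- the orbit of `bt`
  have hb1 : ∀ n : ℕ, (⇑F.symm)^[n] bt = ![0, psi^[n] (3 / 16), 0] := by
    intro n
    induction n with
    | zero => rfl
    | succ n ih =>
      rw [Function.iterate_succ_apply', ih, Equiv.symm_apply_eq, hf,
        Function.iterate_succ_apply' psi]
      have h := psi_mem (psi_iter_mem n).1 (psi_iter_mem n).2
      rw [fmap_low h.1 h.2.2, phi_psi]
  have hb2 : ∀ n : ℕ, (⇑F)^[n] bt = ![0, phi^[n] (3 / 16), 0] := by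
    intro n
    induction n with
    | zero => rfl
    | succ n ih =>
      rw [Function.iterate_succ_apply', ih, hf, Function.iterate_succ_apply' phi]
      rcases n with _ | n
      · exact fmap_bt
      · exact fmap_high (by linarith [phi_iter_mem' n]) (by linarith [(phi_iter_mem (n + 1)).2])
  have hself : ∀ p : E 3, p ∈ orb p := fun p => ⟨0, by ext i; simp [intVec]⟩
  have hXe : Xt + ey = ![2 / 25, 1, 0] := by
    ext i; fin_cases i <;> simp [Xt, ey]
  have hQe : Qt + ey = ![0, 1, 0] := by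
    ext i; fin_cases i <;> simp [Qt, ey]
  -- the backward orbit of the tangency
  have hX1 : ∀ n : ℕ, (⇑F.symm)^[n + 1] (Xt + ey) = ![qP^[n + 1] (2 / 25), 1 / 2, 0] := by
    intro n
    induction n with
    | zero =>
      rw [Function.iterate_one, Function.iterate_one, Equiv.symm_apply_eq, hf, fmap_half, aP_qP,
        hh_X, hXe]
      norm_num
    | succ n ih =>
      rw [Function.iterate_succ_apply', ih, Equiv.symm_apply_eq, hf,
        Function.iterate_succ_apply' qP (n + 1), fmap_half, aP_qP,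
        hh_zero_of_le (qP_iter (n + 1)).1 (qP_iter_le n), add_zero]
  -- the forward orbit of the tangency
  have hX2 : ∀ n : ℕ, (⇑F)^[n] (Xt + ey) = ![aQ^[n] (2 / 25), 1, 0] := by
    intro n
    induction n with
    | zero => exact hXe
    | succ n ih =>
      rw [Function.iterate_succ_apply', ih, hf, fmap_one', ← Function.iterate_succ_apply' aQ,
        hh_zero_of_le (aQ_iter (n + 1)).1 (aQ_iter_le' n), add_zero]
  have hQ2 : ∀ n : ℕ, (⇑F)^[n] (Qt + ey) = ![0, 1, 0] := by
    intro n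
    induction n with
    | zero => exact hQe
    | succ n ih =>
      rw [Function.iterate_succ_apply', ih, hf, fmap_one', aQ_zero,
        hh_zero_of_le le_rfl (by norm_num), add_zero]
  refine ⟨⟨⟨Qt, hself Qt, ?_⟩, ⟨Pt, hself Pt, ?_⟩⟩, ⟨⟨⟨Pt, hself Pt, ?_⟩, ⟨Qt + ey, ?_, ?_⟩⟩, ?_⟩⟩
  · -- `bt ∈ Wu (orb Qt)`
    have h := (tendsto_vec3 (tendsto_const_nhds (x := (0:ℝ))) psi_tendsto
      (tendsto_const_nhds (x := (0:ℝ)))).sub (tendsto_const_nhds (x := Qt))
    have e : (![0, 0, 0] : E 3) - Qt = 0 := sub_self _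
    rw [e] at h
    refine h.congr fun n => ?_
    rw [hb1, hQs]
  · -- `bt ∈ Ws (orb Pt)`
    have h := (tendsto_vec3 (tendsto_const_nhds (x := (0:ℝ))) phi_tendsto
      (tendsto_const_nhds (x := (0:ℝ)))).sub (tendsto_const_nhds (x := Pt))
    have e : (![0, 1 / 2, 0] : E 3) - Pt = 0 := sub_self _
    rw [e] at h
    refine h.congr fun n => ?_
    rw [hb2, hPn]
  · -- `Xt + ey ∈ Wu (orb Pt)`
    have h := (tendsto_vec3 ((tendsto_add_atTop_iff_nat 1).mpr qP_tendsto)
      (tendsto_const_nhds (x := (1 / 2:ℝ)))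
      (tendsto_const_nhds (x := (0:ℝ)))).sub (tendsto_const_nhds (x := Pt))
    have e : (![0, 1 / 2, 0] : E 3) - Pt = 0 := sub_self _
    rw [e] at h
    refine (tendsto_add_atTop_iff_nat 1).mp (h.congr fun n => ?_)
    rw [hX1, hPs]
  · -- `Qt + ey ∈ orb Qt`
    refine ⟨![0, 1, 0], ?_⟩
    ext i; fin_cases i <;> simp [Qt, ey, intVec]
  · -- `Xt + ey ∈ Ws (orb Qt)`
    have h := (tendsto_vec3 aQ_tendsto (tendsto_const_nhds (x := (1:ℝ)))
      (tendsto_const_nhds (x := (0:ℝ)))).sub (tendsto_const_nhds (x := (![0, 1, 0] : E 3)))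
    rw [sub_self] at h
    refine h.congr fun n => ?_
    rw [hX2, hQ2]
  · -- the tangency
    have hdF : ∀ p, DifferentiableAt ℝ F p := fun p =>
      (hF.contDiff.differentiable (by simp)).differentiableAt
    have hdFs : ∀ p, DifferentiableAt ℝ F.symm p := fun p =>
      (hF.contDiff_symm.differentiable (by simp)).differentiableAt
    have hdFn : ∀ (n : ℕ) (p : E 3), DifferentiableAt ℝ ((⇑F)^[n]) p := fun n p =>
      ((hF.contDiff.differentiable (by simp)).iterate n).differentiableAt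
    have hdFsn : ∀ (n : ℕ) (p : E 3), DifferentiableAt ℝ ((⇑F.symm)^[n]) p := fun n p =>
      ((hF.contDiff_symm.differentiable (by simp)).iterate n).differentiableAt
    set X : E 3 := Xt + ey with hX
    -- contraction by the forward iterates
    have hEs : ∀ v : E 3, v 1 = 0 → v ∈ Es F X := by
      intro v hv
      have key : ∀ n : ℕ, (fderiv ℝ ((⇑F)^[n]) X v) 1 = 0 ∧
          |(fderiv ℝ ((⇑F)^[n]) X v) 0| ≤ (13 / 20) ^ n * |v 0| ∧
          |(fderiv ℝ ((⇑F)^[n]) X v) 2| ≤ (13 / 20) ^ n * |v 2| := by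
        intro n
        induction n with
        | zero =>
          rw [Function.iterate_zero, fderiv_id]
          simp [hv]
        | succ n ih =>
          obtain ⟨i1, i0, i2⟩ := ih
          set w : E 3 := fderiv ℝ ((⇑F)^[n]) X v with hw
          have h1 : fderiv ℝ ((⇑F)^[n + 1]) X v = fderiv ℝ F ((⇑F)^[n] X) w := by
            rw [Function.iterate_succ', fderiv_comp X (hdF _) (hdFn n X)]
            rfl
          rw [h1, fderiv_plane hF hf _ _ ?_ i1]
          · have e1 : ((⇑F)^[n] X) 1 = 1 := by rw [hX2]; rfl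
            have e0 : ((⇑F)^[n] X) 0 = aQ^[n] (2 / 25) := by rw [hX2]; rfl
            have e2 : ((⇑F)^[n] X) 2 = 0 := by rw [hX2]; rfl
            have ea : alp ((⇑F)^[n] X) = 1 - 1 / 2 * cs (aQ^[n] (2 / 25)) := by
              unfold alp; rw [e1, e0, k1_one, lam_one]; ring
            have eb : bet ((⇑F)^[n] X) = 1 / 5 := by
              unfold bet; rw [e1, e2, k2_one, mu_one, cs_zero]; ring
            have hcs : 7 / 10 ≤ cs (aQ^[n] (2 / 25)) := by
              apply cs_ge_of_le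
              rw [abs_of_nonneg (aQ_iter n).1]
              linarith [aQ_iter_le n]
            have hcs' := cs_le_one (aQ^[n] (2 / 25))
            refine ⟨rfl, ?_, ?_⟩
            · show |alp ((⇑F)^[n] X) * w 0| ≤ (13 / 20) ^ (n + 1) * |v 0|
              rw [ea, abs_mul, abs_of_nonneg (by linarith), pow_succ]
              nlinarith [abs_nonneg (w 0)]
            · show |bet ((⇑F)^[n] X) * w 2| ≤ (13 / 20) ^ (n + 1) * |v 2|
              rw [eb, abs_mul, abs_of_nonneg (by norm_num), pow_succ]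
              nlinarith [abs_nonneg (w 2)]
          · left
            rw [hX2]
            show hh (ax 1 (aQ^[n] (2 / 25))) (bz 1 0) = 0
            rw [ax_Q' (by norm_num) (by norm_num), bz_one_zero, ← Function.iterate_succ_apply' aQ]
            exact hh_zero_of_le (aQ_iter (n + 1)).1 (aQ_iter_le' n)
      show Tendsto (fun n : ℕ => fderiv ℝ ((⇑F)^[n]) X v) atTop (𝓝 0)
      have hpow : ∀ c : ℝ, Tendsto (fun n : ℕ => (13 / 20 : ℝ) ^ n * c) atTop (𝓝 0) := by
        intro c
        have := (tendsto_pow_atTop_nhds_zero_of_lt_one (r := (13:ℝ) / 20) (by norm_num)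
          (by norm_num)).mul_const c
        simpa using this
      rw [tendsto_pi_nhds]
      intro i
      fin_cases i
      · exact squeeze_zero_norm (fun n => (key n).2.1) (hpow _)
      · refine tendsto_const_nhds.congr fun n => ?_
        exact (key n).1.symm
      · exact squeeze_zero_norm (fun n => (key n).2.2) (hpow _)
    -- contraction by the backward iterates
    have hEu : ∀ v : E 3, v 1 = 0 → v ∈ Eu F X := by
      intro v hv
      have key : ∀ n : ℕ, (fderiv ℝ ((⇑F.symm)^[n]) X v) 1 = 0 ∧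
          |(fderiv ℝ ((⇑F.symm)^[n]) X v) 0| ≤ (20 / 27) ^ n * |v 0| ∧
          |(fderiv ℝ ((⇑F.symm)^[n]) X v) 2| ≤ (20 / 27) ^ n * |v 2| := by
        intro n
        induction n with
        | zero =>
          rw [Function.iterate_zero, fderiv_id]
          simp [hv]
        | succ n ih =>
          obtain ⟨i1, i0, i2⟩ := ih
          set w : E 3 := fderiv ℝ ((⇑F.symm)^[n]) X v with hw
          have h1 : fderiv ℝ ((⇑F.symm)^[n + 1]) X v = fderiv ℝ F.symm ((⇑F.symm)^[n] X) w := by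
            rw [Function.iterate_succ', fderiv_comp X (hdFs _) (hdFsn n X)]
            rfl
          set p : E 3 := (⇑F.symm)^[n + 1] X with hp
          have hFp : (⇑F.symm)^[n] X = F p := by
            rw [hp, Function.iterate_succ_apply', Equiv.apply_symm_apply]
          have hpv : p = ![qP^[n + 1] (2 / 25), 1 / 2, 0] := hX1 n
          rw [h1, hFp, fderiv_symm_plane hF hf _ _ ?_ i1]
          · have e1 : p 1 = 1 / 2 := by rw [hpv]; rfl
            have e0 : p 0 = qP^[n + 1] (2 / 25) := by rw [hpv]; rfl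
            have e2 : p 2 = 0 := by rw [hpv]; rfl
            have ea : alp p = 1 + 1 / 2 * cs (qP^[n + 1] (2 / 25)) := by
              unfold alp; rw [e1, e0, k1_hf, lam_hf]; ring
            have eb : bet p = 9 / 5 := by
              unfold bet; rw [e1, e2, k2_hf, mu_hf, cs_zero]; ring
            have hcs : 7 / 10 ≤ cs (qP^[n + 1] (2 / 25)) := by
              apply cs_ge_of_le
              rw [abs_of_nonneg (qP_iter (n + 1)).1]
              linarith [qP_iter_le n]
            have hpos : (0:ℝ) < (20 / 27) ^ n := by positivity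
            refine ⟨rfl, ?_, ?_⟩
            · show |w 0 / alp p| ≤ (20 / 27) ^ (n + 1) * |v 0|
              rw [ea, abs_div, abs_of_pos (a := 1 + 1 / 2 * cs (qP^[n + 1] (2 / 25)))
                (by linarith), div_le_iff₀ (by linarith), pow_succ]
              have h3 : 0 ≤ (20 / 27 : ℝ) ^ n * |v 0| := by positivity
              nlinarith
            · show |w 2 / bet p| ≤ (20 / 27) ^ (n + 1) * |v 2|
              rw [eb, abs_div, abs_of_pos (a := (9 / 5 : ℝ)) (by norm_num),
                div_le_iff₀ (by norm_num), pow_succ]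
              have h3 : 0 ≤ (20 / 27 : ℝ) ^ n * |v 2| := by positivity
              nlinarith
          · rw [hpv]
            show hh (ax (1 / 2) (qP^[n + 1] (2 / 25))) (bz (1 / 2) 0) = 0 ∨
              hh (ax (1 / 2) (qP^[n + 1] (2 / 25))) (bz (1 / 2) 0) = 1 / 2
            rw [ax_P (by norm_num) (by norm_num), bz_half_zero, Function.iterate_succ_apply',
              aP_qP]
            rcases n with _ | n
            · right; exact hh_X
            · left; exact hh_zero_of_le (qP_iter (n + 1)).1 (qP_iter_le n)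
      show Tendsto (fun n : ℕ => fderiv ℝ ((⇑F.symm)^[n]) X v) atTop (𝓝 0)
      have hpow : ∀ c : ℝ, Tendsto (fun n : ℕ => (20 / 27 : ℝ) ^ n * c) atTop (𝓝 0) := by
        intro c
        have := (tendsto_pow_atTop_nhds_zero_of_lt_one (r := (20:ℝ) / 27) (by norm_num)
          (by norm_num)).mul_const c
        simpa using this
      rw [tendsto_pi_nhds]
      intro i
      fin_cases i
      · exact squeeze_zero_norm (fun n => (key n).2.1) (hpow _)
      · refine tendsto_const_nhds.congr fun n => ?_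
        exact (key n).1.symm
      · exact squeeze_zero_norm (fun n => (key n).2.2) (hpow _)
    -- the dimension
    let pr : E 3 →ₗ[ℝ] ℝ := LinearMap.proj (R := ℝ) (φ := fun _ : Fin 3 => ℝ) 1
    have hle : LinearMap.ker pr ≤ Eu F X ⊓ Es F X := by
      intro v hv
      have hv' : v 1 = 0 := hv
      exact ⟨hEu v hv', hEs v hv'⟩
    have h1 : Module.finrank ℝ ↥(LinearMap.ker pr) ≤ Module.finrank ℝ ↥(Eu F X ⊓ Es F X) :=
      Submodule.finrank_mono hle
    have h2 : Module.finrank ℝ ↥(LinearMap.range pr) + Module.finrank ℝ ↥(LinearMap.ker pr) =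
      Module.finrank ℝ (E 3) := LinearMap.finrank_range_add_finrank_ker pr
    have h3 : Module.finrank ℝ ↥(LinearMap.range pr) ≤ 1 := by
      have := Submodule.finrank_le (LinearMap.range pr)
      rwa [Module.finrank_self] at this
    have h4 : Module.finrank ℝ (E 3) = 3 := by simp
    have h5 : 2 ≤ Module.finrank ℝ ↥(Eu F X ⊓ Es F X) := by
      rw [h4] at h2
      omega
    have h7 : (2 : ℤ) ≤ (Module.finrank ℝ ↥(Eu F X ⊓ Es F X) : ℤ) := by exact_mod_cast h5
    have h8 : max (0 : ℤ) ((((3 : ℕ) : ℤ) - ((1 : ℕ) : ℤ)) + ((2 : ℕ) : ℤ) - ((3 : ℕ) : ℤ)) = 1 := by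
      norm_num
    rw [h8]
    linarith

end

end HetCyc
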