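import Mathlib

/-!
# Definitions: diffeomorphisms of the torus, hyperbolic sets, heterodimensional cycles

The torus is `ℝ^d / ℤ^d`. A diffeomorphism homotopic to the identity is represented by a lift
`g : ℝ^d → ℝ^d` that commutes with integer translations; a compact subset of the torus is
represented by its full preimage, a closed set invariant under integer translations.
-/

namespace HetCyc

open Filter Topology Set

/-- The universal cover of the `d`-torus. -/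
abbrev E (d : ℕ) := Fin d → ℝ

/-- The integer vector `k`, as an element of `ℝ^d`. -/
def intVec {d : ℕ} (k : Fin d → ℤ) : E d := fun i => (k i : ℝ)

/-- `g` is (a lift of) a `C^r` diffeomorphism of the torus `ℝ^d / ℤ^d`, homotopic to the identity. -/
structure IsTorusDiffeo {d : ℕ} (r : ℕ∞) (g : E d ≃ E d) : Prop where
  contDiff : ContDiff ℝ r g
  contDiff_symm : ContDiff ℝ r g.symm
  map_add : ∀ p k, g (p + intVec k) = g p + intVec k

/-- All derivatives of order at most `k` of `g - f` are smaller than `ε`. -/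
def CkClose {d : ℕ} (k : ℕ) (ε : ℝ) (f g : E d ≃ E d) : Prop :=
  ∀ j : ℕ, j ≤ k → ∀ p, ‖iteratedFDeriv ℝ j (fun q => g q - f q) p‖ < ε

/-- `U` contains a `C^r` neighbourhood of `f` in the space of `C^r` diffeomorphisms. -/
def IsCrNhd {d : ℕ} (r : ℕ∞) (f : E d ≃ E d) (U : Set (E d ≃ E d)) : Prop :=
  ∃ k : ℕ, (k : ℕ∞) ≤ r ∧ ∃ ε : ℝ, 0 < ε ∧
    ∀ g : E d ≃ E d, IsTorusDiffeo r g → CkClose k ε f g → g ∈ U

/-- The stable set of `Λ`: points whose forward orbit is asymptotic to the orbit of a point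
of `Λ`. -/
def Ws {d : ℕ} (g : E d ≃ E d) (Λ : Set (E d)) : Set (E d) :=
  {p | ∃ q ∈ Λ, Tendsto (fun n : ℕ => (⇑g)^[n] p - (⇑g)^[n] q) atTop (𝓝 0)}

/-- The unstable set of `Λ`. -/
def Wu {d : ℕ} (g : E d ≃ E d) (Λ : Set (E d)) : Set (E d) := Ws g.symm Λ

/-- The vectors at `p` contracted to zero by the forward iterates of the derivative; for a point
`p` of the stable set of a hyperbolic set this is the tangent space of the stable manifold. -/
def Es {d : ℕ} (g : E d ≃ E d) (p : E d) : Submodule ℝ (E d) where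
  carrier := {v | Tendsto (fun n : ℕ => fderiv ℝ ((⇑g)^[n]) p v) atTop (𝓝 0)}
  add_mem' := by
    intro a b ha hb
    simpa using Tendsto.add (show Tendsto _ _ _ from ha) (show Tendsto _ _ _ from hb)
  zero_mem' := by simp
  smul_mem' := by
    intro c x hx
    simpa using Tendsto.const_smul (show Tendsto _ _ _ from hx) c

/-- The tangent space of the unstable manifold at `p`, for `p` in the unstable set of a
hyperbolic set. -/
def Eu {d : ℕ} (g : E d ≃ E d) (p : E d) : Submodule ℝ (E d) := Es g.symm p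

/-- `Λ` is (the preimage in `ℝ^d` of) a compact hyperbolic set of `g`, with stable bundle of
dimension `i`. -/
structure IsHypSet {d : ℕ} (g : E d ≃ E d) (Λ : Set (E d)) (i : ℕ) : Prop where
  nonempty : Λ.Nonempty
  closed : IsClosed Λ
  periodic : ∀ p ∈ Λ, ∀ k, p + intVec k ∈ Λ
  invariant : g '' Λ = Λ
  splitting : ∃ (S U : E d → Submodule ℝ (E d)) (C μ : ℝ), 0 < C ∧ 0 < μ ∧ μ < 1 ∧ ∀ p ∈ Λ,
    IsCompl (S p) (U p) ∧ Module.finrank ℝ (S p) = i ∧
    (S p).map (fderiv ℝ g p : E d →ₗ[ℝ] E d) = S (g p) ∧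
    (U p).map (fderiv ℝ g p : E d →ₗ[ℝ] E d) = U (g p) ∧
    (∀ v ∈ S p, ∀ n : ℕ, ‖fderiv ℝ ((⇑g)^[n]) p v‖ ≤ C * μ ^ n * ‖v‖) ∧
    (∀ v ∈ U p, ∀ n : ℕ, ‖fderiv ℝ ((⇑g.symm)^[n]) p v‖ ≤ C * μ ^ n * ‖v‖)

/-- `g` is topologically transitive on `Λ` (on the torus, whence the integer vector). -/
def IsTransitive {d : ℕ} (g : E d ≃ E d) (Λ : Set (E d)) : Prop :=
  ∀ U V : Set (E d), IsOpen U → IsOpen V → (U ∩ Λ).Nonempty → (V ∩ Λ).Nonempty →
    ∃ p ∈ U ∩ Λ, ∃ (n : ℕ) (k : Fin d → ℤ), (⇑g)^[n] p + intVec k ∈ V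

/-- `g` has a heterodimensional cycle associated with the transitive hyperbolic sets `Λ` of
index `i` and `Γ` of index `j`. -/
structure IsHetCycle {d : ℕ} (g : E d ≃ E d) (Λ Γ : Set (E d)) (i j : ℕ) : Prop where
  hyp₁ : IsHypSet g Λ i
  hyp₂ : IsHypSet g Γ j
  trans₁ : IsTransitive g Λ
  trans₂ : IsTransitive g Γ
  index_ne : i ≠ j
  inter₁ : (Wu g Λ ∩ Ws g Γ).Nonempty
  inter₂ : (Wu g Γ ∩ Ws g Λ).Nonempty

/-- `x ∈ W^u(Λ) ∩ W^s(Γ)` is a heterodimensional tangency: the dimension of the intersection of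
the tangent spaces is larger than `max (0, dim W^u(Λ) + dim W^s(Γ) - d)`, where
`dim W^u(Λ) = d - i` and `dim W^s(Γ) = j`. -/
def IsHetTangency {d : ℕ} (g : E d ≃ E d) (Λ Γ : Set (E d)) (i j : ℕ) (x : E d) : Prop :=
  x ∈ Wu g Λ ∩ Ws g Γ ∧
    max 0 (((d : ℤ) - i) + j - d) < (Module.finrank ℝ ↥(Eu g x ⊓ Es g x) : ℤ)

/-- A non-transverse heterodimensional cycle. -/
def IsNonTransverseCycle {d : ℕ} (g : E d ≃ E d) (Λ Γ : Set (E d)) (i j : ℕ) : Prop :=
  IsHetCycle g Λ Γ i j ∧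
    ((∃ x, IsHetTangency g Λ Γ i j x) ∨ (∃ x, IsHetTangency g Γ Λ j i x))

/-- `Λ'` is the image of `Λ` under a conjugacy of `g` on `Λ` with `g'` on `Λ'` that is `ε`-close
to the identity (for a hyperbolic set, small `ε` and `g'` close to `g`: the continuation). -/
def IsContinuation {d : ℕ} (ε : ℝ) (g g' : E d ≃ E d) (Λ Λ' : Set (E d)) : Prop :=
  ∃ h : E d → E d, ContinuousOn h Λ ∧ InjOn h Λ ∧
    (∀ p ∈ Λ, ∀ k, h (p + intVec k) = h p + intVec k) ∧ h '' Λ = Λ' ∧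
    (∀ p ∈ Λ, h (g p) = g' (h p)) ∧ ∀ p ∈ Λ, ‖h p - p‖ ≤ ε

/-- The non-transverse heterodimensional cycle of `g` associated with `Λ`, `Γ` is `C^r` robust:
all diffeomorphisms `g'` that are `C^r` close to `g` have one for the continuations. -/
def IsRobust {d : ℕ} (r : ℕ∞) (g : E d ≃ E d) (Λ Γ : Set (E d)) (i j : ℕ) : Prop :=
  ∀ ε : ℝ, 0 < ε → ∃ V, IsCrNhd r g V ∧ ∀ g' ∈ V, IsTorusDiffeo r g' →
    ∃ Λ' Γ' : Set (E d), IsContinuation ε g g' Λ Λ' ∧ IsContinuation ε g g' Γ Γ' ∧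
      IsNonTransverseCycle g' Λ' Γ' i j

/-- The integer translates of a point: a point of the torus. -/
def orb {d : ℕ} (p : E d) : Set (E d) := {q | ∃ k, q = p + intVec k}

/-- `p` is the only fixed point of `g` at distance less than `δ` from `P` (so, for small `δ` and
`g` close to `f`, the continuation of the hyperbolic fixed point `P` of `f`). -/
def IsContPt {d : ℕ} (δ : ℝ) (g : E d ≃ E d) (P p : E d) : Prop :=
  g p = p ∧ ‖p - P‖ < δ ∧ ∀ q, g q = q → ‖q - P‖ < δ → q = p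

/-- The answer. -/
def MainStmt : Prop :=
  ∃ (f : E 3 ≃ E 3) (P Q : E 3), IsTorusDiffeo ⊤ f ∧ f P = P ∧ f Q = Q ∧
    IsNonTransverseCycle f (orb P) (orb Q) 1 2 ∧
    ∀ r : ℕ∞, 1 ≤ r → ∃ U, IsCrNhd r f U ∧ ∃ δ : ℝ, 0 < δ ∧
      ∀ g ∈ U, IsTorusDiffeo r g → ∃ Pg Qg, IsContPt δ g P Pg ∧ IsContPt δ g Q Qg ∧
        ∀ (Λ Γ : Set (E 3)) (i j : ℕ), Pg ∈ Λ → Qg ∈ Γ → ¬ IsRobust r g Λ Γ i j

end HetCyc
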