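import Pool.Agent.HetCyc.Basic2

/-!
# Module Diffeo: `fmap` is (the lift of) a smooth diffeomorphism of the torus
-/

namespace HetCyc

open Filter Topology Set Real

noncomputable section

namespace DiffeoAux

/-- a continuous function that commutes with integer translations is onto -/
lemma surjective_of_add_int {g : ℝ → ℝ} (hg : Continuous g)
    (h : ∀ (t : ℝ) (k : ℤ), g (t + k) = g t + k) : Function.Surjective g := by
  intro c
  obtain ⟨n, hn⟩ := exists_nat_ge |c - g 0|
  rw [abs_le] at hn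
  have h1 : g (-(n : ℝ)) ≤ c := by
    have := h 0 (-(n : ℤ))
    simp only [zero_add, Int.cast_neg, Int.cast_natCast] at this
    rw [this]; linarith [hn.1]
  have h2 : c ≤ g (n : ℝ) := by
    have := h 0 (n : ℤ)
    simp only [zero_add, Int.cast_natCast] at this
    rw [this]; linarith [hn.2]
  exact mem_range_of_exists_le_of_exists_ge hg ⟨_, h1⟩ ⟨_, h2⟩

lemma continuous_phi : Continuous phi := (contDiff_phi (n := 0)).continuous
lemma continuous_ax (y : ℝ) : Continuous (ax y) :=
  continuous_iff_continuousAt.mpr fun x => (hasDerivAt_ax y x).continuousAt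
lemma continuous_bz (y : ℝ) : Continuous (bz y) :=
  continuous_iff_continuousAt.mpr fun x => (hasDerivAt_bz y x).continuousAt

lemma surjective_phi : Function.Surjective phi := surjective_of_add_int continuous_phi phi_add_int
lemma surjective_ax (y : ℝ) : Function.Surjective (ax y) :=
  surjective_of_add_int (continuous_ax y) fun t k => by simpa using ax_add_int y t 0 k
lemma surjective_bz (y : ℝ) : Function.Surjective (bz y) :=
  surjective_of_add_int (continuous_bz y) fun t k => by simpa using bz_add_int y t 0 k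

lemma injective_fmap : Function.Injective fmap := by
  intro p q h
  have h0 : ax (p 1) (p 0) = ax (q 1) (q 0) := congrFun h 0
  have h1 : phi (p 1) + hh (ax (p 1) (p 0)) (bz (p 1) (p 2)) =
    phi (q 1) + hh (ax (q 1) (q 0)) (bz (q 1) (q 2)) := congrFun h 1
  have h2 : bz (p 1) (p 2) = bz (q 1) (q 2) := congrFun h 2
  rw [h0, h2] at h1
  have e1 : p 1 = q 1 := strictMono_phi.injective (by linarith)
  rw [e1] at h0 h2
  have e0 : p 0 = q 0 := (strictMono_ax _).injective h0
  have e2 : p 2 = q 2 := (strictMono_bz _).injective h2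
  ext i
  fin_cases i
  · exact e0
  · exact e1
  · exact e2

lemma surjective_fmap : Function.Surjective fmap := by
  intro q
  obtain ⟨y, hy⟩ := surjective_phi (q 1 - hh (q 0) (q 2))
  obtain ⟨x, hx⟩ := surjective_ax y (q 0)
  obtain ⟨z, hz⟩ := surjective_bz y (q 2)
  refine ⟨![x, y, z], ?_⟩
  ext i
  fin_cases i
  · show ax y x = q 0
    exact hx
  · show phi y + hh (ax y x) (bz y z) = q 1
    rw [hx, hz, hy]; ring
  · show bz y z = q 2
    exact hz

lemma fderiv_partial {H : ℝ × ℝ → ℝ} (hH : Differentiable ℝ H) {y x d : ℝ}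
    (h : HasDerivAt (fun t => H (y, t)) d x) (w : ℝ) : fderiv ℝ H (y, x) (0, w) = w * d := by
  have h1 : HasDerivAt (fun t : ℝ => ((y, t) : ℝ × ℝ)) (0, 1) x :=
    (hasDerivAt_const x y).prodMk (hasDerivAt_id x)
  have h2 := (hH (y, x)).hasFDerivAt.comp_hasDerivAt x h1
  have h3 := h.unique h2
  have h4 : ((0, w) : ℝ × ℝ) = w • ((0, 1) : ℝ × ℝ) := by simp
  rw [h4, map_smul, ← h3, smul_eq_mul]

lemma differentiable_fmap : Differentiable ℝ fmap :=
  (contDiff_fmap (n := 1)).differentiable (by norm_num)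

/-- the `i`-th component of the derivative -/
lemma hasFDerivAt_comp (p : E 3) (i : Fin 3) : HasFDerivAt (fun q => fmap q i)
    ((ContinuousLinearMap.proj i).comp (fderiv ℝ fmap p)) p :=
  hasFDerivAt_pi'.1 (differentiable_fmap p).hasFDerivAt i

lemma hasFDerivAt_apply3 (p : E 3) (i : Fin 3) :
    HasFDerivAt (fun q : E 3 => q i) (ContinuousLinearMap.proj (R := ℝ) (φ := fun _ => ℝ) i) p :=
  (ContinuousLinearMap.proj (R := ℝ) (φ := fun _ : Fin 3 => ℝ) i).hasFDerivAt

lemma fderiv_inj (p v : E 3) (hv : fderiv ℝ fmap p v = 0) : v = 0 := by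
  have c0 := hasFDerivAt_comp p 0
  have c1 := hasFDerivAt_comp p 1
  have c2 := hasFDerivAt_comp p 2
  simp only [fmap_zero] at c0
  simp only [fmap_one] at c1
  simp only [fmap_two] at c2
  set L := fderiv ℝ fmap p with hL
  -- the first component
  have dA : Differentiable ℝ (fun q : ℝ × ℝ => ax q.1 q.2) :=
    (contDiff_ax (n := 1)).differentiable (by norm_num)
  have dB : Differentiable ℝ (fun q : ℝ × ℝ => bz q.1 q.2) :=
    (contDiff_bz (n := 1)).differentiable (by norm_num)
  have dH : Differentiable ℝ (fun q : ℝ × ℝ => hh q.1 q.2) :=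
    (contDiff_hh (n := 1)).differentiable (by norm_num)
  -- second component: `v 1 = 0`
  have k1 : HasFDerivAt (phi ∘ fun q : E 3 => q 1)
      ((1 + 4 / 5 * cs (p 1)) • (ContinuousLinearMap.proj (R := ℝ) (φ := fun _ : Fin 3 => ℝ) 1)) p :=
    HasDerivAt.comp_hasFDerivAt p (hasDerivAt_phi (p 1)) (hasFDerivAt_apply3 p 1)
  have k2 := (dH (ax (p 1) (p 0), bz (p 1) (p 2))).hasFDerivAt.comp p (c0.prodMk c2)
  have k3 := c1.unique (k1.add k2)
  have k4 := congrArg (fun T : E 3 →L[ℝ] ℝ => T v) k3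
  simp only [_root_.add_apply, ContinuousLinearMap.comp_apply,
    ContinuousLinearMap.prod_apply, hv, ContinuousLinearMap.proj_apply,
    _root_.smul_apply, smul_eq_mul, Prod.mk_zero_zero, map_zero, add_zero] at k4
  have v1 : v 1 = 0 := by
    rcases mul_eq_zero.mp k4.symm with h | h
    · linarith [phi_deriv_pos (p 1)]
    · exact h
  -- first component
  have a1 := (dA (p 1, p 0)).hasFDerivAt.comp p
    ((hasFDerivAt_apply3 p 1).prodMk (hasFDerivAt_apply3 p 0))
  have a2 := congrArg (fun T : E 3 →L[ℝ] ℝ => T v) (c0.unique a1)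
  simp only [ContinuousLinearMap.comp_apply, hv, map_zero] at a2
  have a3 : (((ContinuousLinearMap.proj (R := ℝ) (φ := fun _ : Fin 3 => ℝ) 1).prod
      (ContinuousLinearMap.proj (R := ℝ) (φ := fun _ : Fin 3 => ℝ) 0)) v : ℝ × ℝ) = (0, v 0) := by
    simp [v1]
  rw [a3, fderiv_partial dA (hasDerivAt_ax (p 1) (p 0))] at a2
  have v0 : v 0 = 0 := by
    rcases mul_eq_zero.mp a2.symm with h | h
    · exact h
    · linarith [ax_deriv_pos (p 1) (p 0)]
  -- third component
  have b1 := (dB (p 1, p 2)).hasFDerivAt.comp p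
    ((hasFDerivAt_apply3 p 1).prodMk (hasFDerivAt_apply3 p 2))
  have b2 := congrArg (fun T : E 3 →L[ℝ] ℝ => T v) (c2.unique b1)
  simp only [ContinuousLinearMap.comp_apply, hv, map_zero] at b2
  have b3 : (((ContinuousLinearMap.proj (R := ℝ) (φ := fun _ : Fin 3 => ℝ) 1).prod
      (ContinuousLinearMap.proj (R := ℝ) (φ := fun _ : Fin 3 => ℝ) 2)) v : ℝ × ℝ) = (0, v 2) := by
    simp [v1]
  rw [b3, fderiv_partial dB (hasDerivAt_bz (p 1) (p 2))] at b2
  have v2 : v 2 = 0 := by
    rcases mul_eq_zero.mp b2.symm with h | h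
    · exact h
    · linarith [bz_deriv_pos (p 1) (p 2)]
  ext i
  fin_cases i
  · exact v0
  · exact v1
  · exact v2

lemma injective_fderiv (p : E 3) :
    Function.Injective (fderiv ℝ fmap p : E 3 →ₗ[ℝ] E 3) := by
  rw [← LinearMap.ker_eq_bot, LinearMap.ker_eq_bot']
  intro v hv
  exact fderiv_inj p v hv

/-- the derivative as a linear equivalence -/
def Dequiv (p : E 3) : E 3 ≃L[ℝ] E 3 :=
  (LinearEquiv.ofInjectiveEndo (fderiv ℝ fmap p : E 3 →ₗ[ℝ] E 3)
    (injective_fderiv p)).toContinuousLinearEquiv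

lemma coe_Dequiv (p : E 3) : (Dequiv p : E 3 →L[ℝ] E 3) = fderiv ℝ fmap p := by
  ext v i
  rfl

lemma hasStrictFDerivAt_fmap (p : E 3) :
    HasStrictFDerivAt fmap (Dequiv p : E 3 →L[ℝ] E 3) p := by
  rw [coe_Dequiv]
  exact (contDiff_fmap (n := 1)).hasStrictFDerivAt (by norm_num)

lemma isOpenMap_fmap : IsOpenMap fmap :=
  isOpenMap_of_hasStrictFDerivAt_equiv hasStrictFDerivAt_fmap

/-- `fmap` as an equivalence -/
def Fe : E 3 ≃ E 3 := Equiv.ofBijective fmap ⟨injective_fmap, surjective_fmap⟩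

lemma Fe_apply (p : E 3) : Fe p = fmap p := rfl
lemma coe_Fe : (⇑Fe : E 3 → E 3) = fmap := rfl

/-- `fmap` as a homeomorphism -/
def Fh : E 3 ≃ₜ E 3 := Fe.toHomeomorphOfContinuousOpen continuous_fmap isOpenMap_fmap

lemma contDiff_Fe_symm : ContDiff ℝ (⊤ : ℕ∞) Fe.symm := by
  have h := Homeomorph.contDiff_symm (n := ((⊤ : ℕ∞) : WithTop ℕ∞)) Fh (f₀' := Dequiv)
    (fun p => (hasStrictFDerivAt_fmap p).hasFDerivAt) (contDiff_fmap (n := ⊤))
  exact h

end DiffeoAux

open DiffeoAux in
/-- Module Diffeo -/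
theorem diffeo : S_Diffeo := by
  refine ⟨Fe, ⟨contDiff_fmap (n := ⊤), contDiff_Fe_symm, fun p k => fmap_add_int p k⟩, fun p => rfl⟩

end

end HetCyc
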