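import Pool.Agent.HetCyc.Stmts

/-!
# Module Final: the answer from the module statements
-/

set_option autoImplicit false

namespace HetCyc

open Filter Topology Set

namespace Final

lemma abs_le_norm (v : E 3) (i : Fin 3) : |v i| ≤ ‖v‖ := norm_le_pi_norm v i

lemma diffeo_one {r : ℕ∞} (hr : 1 ≤ r) {g : E 3 ≃ E 3} (h : IsTorusDiffeo r g) :
    IsTorusDiffeo 1 g :=
  ⟨h.contDiff.of_le (by exact_mod_cast hr), h.contDiff_symm.of_le (by exact_mod_cast hr),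
    h.map_add⟩

lemma ck_mono {k k' : ℕ} {ε ε' : ℝ} {f g : E 3 ≃ E 3} (hk : k' ≤ k) (hε : ε ≤ ε')
    (h : CkClose k ε f g) : CkClose k' ε' f g :=
  fun j hj p => (h j (hj.trans hk) p).trans_le hε

lemma mem_boxP {q : E 3} (h : ‖q - Pt‖ ≤ 1 / 100) : q ∈ BoxP := by
  have h0 := (abs_le_norm (q - Pt) 0).trans h
  have h1 := (abs_le_norm (q - Pt) 1).trans h
  have h2 := (abs_le_norm (q - Pt) 2).trans h
  simp only [Pt, Pi.sub_apply, Matrix.cons_val_zero, Matrix.cons_val_one, Matrix.cons_val] at h0 h1 h2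
  rw [sub_zero] at h0 h2
  rw [abs_le] at h1
  refine ⟨h0.trans (by norm_num), ?_, ?_, h2.trans (by norm_num)⟩
  · linarith [h1.1]
  · linarith [h1.2]

lemma mem_boxQ {q : E 3} (h : ‖q - Qt‖ ≤ 1 / 100) : q ∈ BoxQ := by
  have h0 := (abs_le_norm (q - Qt) 0).trans h
  have h1 := (abs_le_norm (q - Qt) 1).trans h
  have h2 := (abs_le_norm (q - Qt) 2).trans h
  simp only [Qt, Pi.sub_apply, Matrix.cons_val_zero, Matrix.cons_val_one, Matrix.cons_val] at h0 h1 h2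
  rw [sub_zero] at h0 h1 h2
  rw [abs_le] at h1
  refine ⟨h0.trans (by norm_num), ?_, ?_, h2.trans (by norm_num)⟩
  · linarith [h1.1]
  · linarith [h1.2]

/-- the continuation of a fixed point -/
lemma cont_fix {g g' : E 3 ≃ E 3} {Λ Λ' : Set (E 3)} {P P₀ : E 3} {ε : ℝ}
    (h : IsContinuation ε g g' Λ Λ') (hP : P ∈ Λ) (hg : g P = P) {B : Set (E 3)}
    (hB : ∀ q : E 3, ‖q - P₀‖ ≤ 1 / 100 → q ∈ B) (hPP : ‖P - P₀‖ + ε ≤ 1 / 100) {P' : E 3}
    (hu : ∀ q ∈ B, g' q = q → q = P') : P' ∈ Λ' := by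
  obtain ⟨φ, -, -, -, him, hconj, hclose⟩ := h
  have h1 : g' (φ P) = φ P := by rw [← hconj P hP, hg]
  have h2 : ‖φ P - P₀‖ ≤ 1 / 100 := by
    have e : φ P - P₀ = (φ P - P) + (P - P₀) := by abel
    rw [e]
    have e2 := norm_add_le (φ P - P) (P - P₀)
    have e3 := hclose P hP
    linarith
  have h3 := hu _ (hB _ h2) h1
  rw [← h3, ← him]
  exact ⟨P, hP, rfl⟩

lemma sn_lower {y : ℝ} (h1 : 3 / 10 ≤ y) (h2 : y ≤ 13 / 25) : 401 / 1000 ≤ phi y := by
  unfold phi sn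
  have hpi := Real.pi_gt_three
  have hpi' := Real.pi_lt_d2
  rcases le_total y (1 / 2) with h | h
  · have e1 : Real.sin (2 * Real.pi * y) = Real.sin (Real.pi * (1 - 2 * y)) := by
      rw [← Real.sin_pi_sub]
      congr 1
      ring
    have e2 : 2 / Real.pi * (Real.pi * (1 - 2 * y)) ≤ Real.sin (Real.pi * (1 - 2 * y)) := by
      apply Real.mul_le_sin
      · apply mul_nonneg Real.pi_pos.le
        linarith
      · nlinarith
    have e3 : 2 / Real.pi * (Real.pi * (1 - 2 * y)) = 2 * (1 - 2 * y) := by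
      have := Real.pi_pos.ne'
      field_simp
    rw [e3] at e2
    rw [e1]
    have e4 : 4 / 5 * (2 * (1 - 2 * y) / (2 * Real.pi)) ≤
        4 / 5 * (Real.sin (Real.pi * (1 - 2 * y)) / (2 * Real.pi)) := by
      apply mul_le_mul_of_nonneg_left _ (by norm_num)
      exact div_le_div_of_nonneg_right e2 (by positivity)
    have e5 : (1 - 2 * y) / (315 / 100) ≤ 2 * (1 - 2 * y) / (2 * Real.pi) := by
      rw [mul_div_mul_left _ _ (by norm_num : (2 : ℝ) ≠ 0)]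
      apply div_le_div_of_nonneg_left (by linarith) Real.pi_pos
      linarith
    have e6 : 401 / 1000 ≤ y + 4 / 5 * ((1 - 2 * y) / (315 / 100)) := by linarith
    linarith
  · have e1 : Real.sin (2 * Real.pi * y) = - Real.sin (2 * Real.pi * (y - 1 / 2)) := by
      rw [show 2 * Real.pi * (y - 1 / 2) = 2 * Real.pi * y - Real.pi by ring, Real.sin_sub_pi,
        neg_neg]
    have e2 : Real.sin (2 * Real.pi * (y - 1 / 2)) ≤ 2 * Real.pi * (y - 1 / 2) :=
      Real.sin_le (by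
        apply mul_nonneg (by positivity)
        linarith)
    have e3 : -(y - 1 / 2) ≤ Real.sin (2 * Real.pi * y) / (2 * Real.pi) := by
      rw [e1, le_div_iff₀ (by positivity)]
      linarith
    linarith

lemma cc_nonneg (t : ℝ) : 0 ≤ cc t := by
  unfold cc cs
  have := Real.neg_one_le_cos (2 * Real.pi * t)
  linarith

lemma ee_nonneg (t : ℝ) : 0 ≤ ee t := Real.smoothTransition.nonneg _

lemma hh_nonneg (x z : ℝ) : 0 ≤ hh x z := by
  unfold hh
  have h1 := mul_nonneg (cc_nonneg (x - 2 / 25)) (ee_nonneg (x - 2 / 25))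
  have h2 := mul_nonneg (cc_nonneg z) (ee_nonneg z)
  have h3 := mul_nonneg h1 h2
  linarith

/-- the image of the thick box lies in the region where the shear is trivial -/
lemma boxP_image {ρ : ℝ} {g : E 3 ≃ E 3} (h : Good ρ g) {p : E 3} (hp : p ∈ BoxP) :
    2 / 5 ≤ g p 1 ∧ g p 1 ≤ 3 / 5 := by
  constructor
  · have h1 := (abs_le_norm (g p - fmap p) 1).trans (h.close.dist_le p)
    have h2 := sn_lower hp.2.1 hp.2.2.1
    have h3 : fmap p 1 = phi (p 1) + hh (ax (p 1) (p 0)) (bz (p 1) (p 2)) := by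
      simp [fmap]
    have h4 := hh_nonneg (ax (p 1) (p 0)) (bz (p 1) (p 2))
    have h5 := h.hρ'
    rw [Pi.sub_apply, abs_le] at h1
    linarith [h1.1]
  · have h1 := (h.locP.maps p hp).2
    linarith

lemma ee_far : ee (0 - 2 / 25) = 0 := by
  unfold ee
  apply Real.smoothTransition.zero_of_nonpos
  have h1 : cs (0 - 2 / 25) ≤ cs (1 / 250) := by
    unfold cs
    rw [← Real.cos_neg (2 * Real.pi * (0 - 2 / 25))]
    have hpi := Real.pi_pos
    apply Real.cos_le_cos_of_nonneg_of_le_pi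
    · positivity
    · nlinarith
    · nlinarith
  have h2 : cs (1 / 250) ≤ 1 := Real.cos_le_one _
  exact div_nonpos_of_nonpos_of_nonneg (by linarith) (by linarith)

lemma fmap_bt : fmap bt 1 = phi (3 / 16) := by
  have h1 : ax (3 / 16) 0 = 0 := by
    unfold ax k1 sn cs
    simp
  have h2 : hh 0 (bz (3 / 16) 0) = 0 := by
    unfold hh
    rw [ee_far]
    ring
  have h3 : fmap bt 1 = phi (3 / 16) + hh (ax (3 / 16) 0) (bz (3 / 16) 0) := by
    simp [fmap, bt]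
  rw [h3, h1, h2, add_zero]

lemma near_bt {ρ : ℝ} {g : E 3 ≃ E 3} (h : Good ρ g) (hk : 0 < kap ∧ kap ≤ 1) {q : E 3}
    (hq : ‖q - bt‖ < ρ) : |g q 1 - phi (3 / 16)| ≤ 1 / 200 := by
  have hρ := h.hρ
  have hρ' := h.hρ'
  have h1 := h.nearb q bt (by linarith) (by simp [hρ])
  have h2 := (abs_le_norm _ 1).trans h1
  have h3 := (abs_le_norm (g bt - fmap bt) 1).trans (h.close.dist_le bt)
  have h4 : |(q - bt) 1| ≤ ρ := ((abs_le_norm (q - bt) 1).trans hq.le)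
  have h5 : Lb (q - bt) 1 = (1 + 4 / 5 * cs (3 / 16)) * (q - bt) 1 := by
    simp [Lb]
  have h6 : |Lb (q - bt) 1| ≤ 9 / 5 * ρ := by
    rw [h5, abs_mul]
    have e1 : |1 + 4 / 5 * cs (3 / 16)| ≤ 9 / 5 := by
      have e2 : cs (3 / 16) ≤ 1 := Real.cos_le_one _
      have e3 : -1 ≤ cs (3 / 16) := Real.neg_one_le_cos _
      rw [abs_le]
      constructor <;> linarith
    exact mul_le_mul e1 h4 (abs_nonneg _) (by norm_num)
  rw [Pi.sub_apply, fmap_bt] at h3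
  rw [Pi.sub_apply, Pi.sub_apply] at h2
  have h7 : kap / 40 * ‖q - bt‖ ≤ ρ := by
    have e1 : kap / 40 * ‖q - bt‖ ≤ 1 * ρ :=
      mul_le_mul (by linarith [hk.2]) hq.le (norm_nonneg _) (by norm_num)
    linarith
  rw [abs_le] at *
  constructor
  · linarith [h2.1, h3.1, h6.1]
  · linarith [h2.2, h3.2, h6.2]

end Final

open Final in
theorem final (hDiffeo : S_Diffeo) (hHyp : S_CycleHyp) (hTan : S_CycleTan) (hNearB : S_NearB)
    (hGood : S_GoodEx) (hFix : S_Fix) (hOrder : S_OrderMain) (hShear : S_Shear)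
    (hUnique : S_Unique) (hClose : S_Close) : S_Final := by
  obtain ⟨F, hF, hFf⟩ := hDiffeo
  obtain ⟨hP, hQ, hyp₁, hyp₂, tr₁, tr₂⟩ := hHyp F hF hFf
  obtain ⟨hbt, htan⟩ := hTan F hF hFf
  refine ⟨F, Pt, Qt, hF, hP, hQ, ⟨⟨hyp₁, hyp₂, tr₁, tr₂, by norm_num, ⟨_, htan.1⟩, ⟨_, hbt⟩⟩,
    Or.inl ⟨_, htan⟩⟩, ?_⟩
  intro r hr
  obtain ⟨ρ, hρ, ε, hε, hG⟩ := hGood
  refine ⟨{g | CkClose 1 (ε / 2) F g}, ⟨1, by exact_mod_cast hr, ε / 2, by linarith,
    fun g _ hg => hg⟩, 1 / 100, by norm_num, ?_⟩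
  intro g hgU hg
  have hg1 := diffeo_one hr hg
  have hgood : Good ρ g :=
    hG g hg1 ((hClose F g g ε hFf hF hg1 hg1).1 (ck_mono le_rfl (by linarith) hgU))
  have hρ' := hgood.hρ'
  obtain ⟨⟨Pg, hPg, hPgρ, hPgu⟩, Qg, hQg, hQgρ, hQgu⟩ := hFix ρ g hgood
  refine ⟨Pg, Qg, ⟨hPg, by linarith, fun q hq hqP => hPgu q (mem_boxP hqP.le) hq⟩,
    ⟨hQg, by linarith, fun q hq hqP => hQgu q (mem_boxQ hqP.le) hq⟩, ?_⟩
  intro Λ Γ i j hPΛ hQΓ hrob
  obtain ⟨V, ⟨k, hk, ε₁, hε₁, hV⟩, hrob⟩ := hrob (1 / 1000) (by norm_num)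
  -- connections of any admissible perturbation
  have key : ∀ g' : E 3 ≃ E 3, IsTorusDiffeo r g' → CkClose k ε₁ g g' → Good ρ g' →
      ∃ q : E 3, ‖q - bt‖ < ρ ∧ (∀ n : ℕ, (⇑g'.symm)^[n] q ∈ BoxQ) ∧
        (∀ n : ℕ, (⇑g')^[n] (g' q) ∈ BoxP) := by
    intro g' hg' hc hgood'
    obtain ⟨Λ', Γ', hΛ, hΓ, hcyc, -⟩ := hrob g' (hV g' hg' hc) hg'
    obtain ⟨⟨P', hP', hP'ρ, hP'u⟩, Q', hQ', hQ'ρ, hQ'u⟩ := hFix ρ g' hgood'
    have m1 : P' ∈ Λ' := cont_fix hΛ hPΛ hPg (fun q hq => mem_boxP hq) (by linarith) hP'u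
    have m2 : Q' ∈ Γ' := cont_fix hΓ hQΓ hQg (fun q hq => mem_boxQ hq) (by linarith) hQ'u
    obtain ⟨-, -, q, h1, h2, h3⟩ := hOrder ρ g' hgood' P' Q' hP' hP'ρ hQ' hQ'ρ Λ' Γ' i j
      hcyc.hyp₁ hcyc.hyp₂ hcyc.trans₁ hcyc.trans₂ hcyc.index_ne m1 m2 hcyc.inter₂
    exact ⟨q, h1, h2, h3⟩
  obtain ⟨q, hq1, hq2, hq3⟩ := key g hg ((hClose F g g ε₁ hFf hF hg1 hg1).2.2 hε₁ k) hgood
  obtain ⟨e, g', he, hg', hc', hs1, hs2, hs3⟩ := hShear r g hr hg (max k 1) (min ε₁ (ε / 2))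
    (by
      rcases le_total k 1 with h | h
      · rw [max_eq_right h]
        exact_mod_cast hr
      · rw [max_eq_left h]
        exact hk) (lt_min hε₁ (by linarith))
  have hg1' := diffeo_one hr hg'
  have hc1 : CkClose 1 ε F g' := (hClose F g g' ε hFf hF hg1 hg1').2.1 hgU
    (ck_mono (le_max_right _ _) (min_le_right _ _) hc')
  have hgood' : Good ρ g' := hG g' hg1' ((hClose F g' g' ε hFf hF hg1' hg1').1 hc1)
  obtain ⟨q', hq1', hq2', hq3'⟩ := key g' hg'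
    (ck_mono (le_max_left _ _) (min_le_left _ _) hc') hgood'
  -- transfer to `g`
  have t1 : ∀ n : ℕ, (⇑g.symm)^[n] q' = (⇑g'.symm)^[n] q' := by
    intro n
    induction n with
    | zero => rfl
    | succ n ih =>
      rw [Function.iterate_succ_apply', Function.iterate_succ_apply', ih]
      have hB := hq2' n
      exact (hs3 _ (by linarith [hB.2.1]) (by linarith [hB.2.2.1])).symm
  have t2 : g' q' = g q' + ![e, 0, 0] :=
    hs1 q' (near_bt hgood ⟨hNearB.1, hNearB.2.1⟩ hq1')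
  have t3 : ∀ n : ℕ, (⇑g)^[n] (g q' + ![e, 0, 0]) = (⇑g')^[n] (g' q') := by
    intro n
    induction n with
    | zero => exact t2.symm
    | succ n ih =>
      rw [Function.iterate_succ_apply', Function.iterate_succ_apply', ih]
      have hB := boxP_image hgood (hq3' n)
      exact (hs2 _ hB.1 hB.2).symm
  apply he
  refine hUnique ρ g hgood e q q' hq1 hq1' hq2 ?_ hq3 ?_
  · intro n
    rw [t1]
    exact hq2' n
  · intro n
    rw [t3]
    exact hq3' n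

end HetCyc
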