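import Pool.Agent.HetCyc.Stmts

/-!
# Module Fix: the continuations of the two saddles
-/

namespace HetCyc

open Filter Topology Set

namespace Fix

lemma norm_le3 {v : E 3} {r : ℝ} (hr : 0 ≤ r) (h0 : |v 0| ≤ r) (h1 : |v 1| ≤ r)
    (h2 : |v 2| ≤ r) : ‖v‖ ≤ r := by
  rw [pi_norm_le_iff_of_nonneg hr]
  intro i
  fin_cases i
  · exact h0
  · exact h1
  · exact h2

lemma coord_le (v : E 3) (i : Fin 3) : |v i| ≤ ‖v‖ := norm_le_pi_norm v i

/-! ## values of the model at the two saddles -/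

lemma sn_zero : sn 0 = 0 := by simp [sn]

lemma sn_half : sn (1 / 2) = 0 := by
  have : 2 * Real.pi * (1 / 2) = Real.pi := by ring
  rw [sn, this, Real.sin_pi, zero_div]

lemma phi_half : phi (1 / 2) = 1 / 2 := by rw [phi, sn_half]; ring

lemma phi_zero : phi 0 = 0 := by simp [phi, sn_zero]

lemma ee_m : ee (0 - 2 / 25) = 0 := by
  unfold ee
  apply Real.smoothTransition.zero_of_nonpos
  have h1 : cs (0 - 2 / 25) ≤ cs (1 / 250) := by
    unfold cs
    have : 2 * Real.pi * (0 - 2 / 25) = -(2 * Real.pi * (2 / 25)) := by ring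
    rw [this, Real.cos_neg]
    apply Real.cos_le_cos_of_nonneg_of_le_pi
    · positivity
    · nlinarith [Real.pi_pos]
    · nlinarith [Real.pi_pos]
  have h2 : cs (1 / 250) ≤ 1 := Real.cos_le_one _
  exact div_nonpos_of_nonpos_of_nonneg (by linarith) (by linarith)

lemma hh_zero : hh 0 0 = 0 := by
  rw [hh, ee_m]; ring

lemma cos_pi_eight_pos : 0 ≤ Real.cos (Real.pi / 8) := by
  apply Real.cos_nonneg_of_neg_pi_div_two_le_of_le <;> linarith [Real.pi_pos]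

lemma om_half : om (1 / 2) = 0 := by
  unfold om
  apply expNegInvGlue.zero_of_nonpos
  have h : cs (1 / 2 - 3 / 16) ≤ 0 := by
    unfold cs
    apply Real.cos_nonpos_of_pi_div_two_le_of_le <;> linarith [Real.pi_pos]
  linarith [cos_pi_eight_pos]

lemma om_zero : om 0 = 0 := by
  unfold om
  apply expNegInvGlue.zero_of_nonpos
  have h : cs (0 - 3 / 16) ≤ Real.cos (Real.pi / 8) := by
    unfold cs
    have : 2 * Real.pi * (0 - 3 / 16) = -(3 * Real.pi / 8) := by ring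
    rw [this, Real.cos_neg]
    apply Real.cos_le_cos_of_nonneg_of_le_pi <;> linarith [Real.pi_pos]
  linarith

lemma om2_half : om2 (1 / 2) = 0 := by
  unfold om2
  apply Real.smoothTransition.zero_of_nonpos
  have h : cs (1 / 2 - 3 / 4) = 0 := by
    unfold cs
    have : 2 * Real.pi * (1 / 2 - 3 / 4) = -(Real.pi / 2) := by ring
    rw [this, Real.cos_neg, Real.cos_pi_div_two]
  rw [h]; norm_num

lemma om2_zero : om2 0 = 0 := by
  unfold om2
  apply Real.smoothTransition.zero_of_nonpos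
  have h : cs (0 - 3 / 4) = 0 := by
    unfold cs
    have : 2 * Real.pi * (0 - 3 / 4) = -(Real.pi / 2 + Real.pi) := by ring
    rw [this, Real.cos_neg, Real.cos_add_pi, Real.cos_pi_div_two, neg_zero]
  rw [h]; norm_num

lemma k1_half : k1 (1 / 2) = 0 := by simp only [k1, om_half, mul_zero]
lemma k1_zero : k1 0 = 0 := by simp only [k1, om_zero, mul_zero]
lemma k2_half : k2 (1 / 2) = 0 := by simp only [k2, om_half, om2_half, mul_zero, add_zero]
lemma k2_zero : k2 0 = 0 := by simp only [k2, om_zero, om2_zero, mul_zero, add_zero]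

lemma fmap_Pt : fmap Pt = Pt := by
  have h0 : Pt 0 = 0 := rfl
  have h1 : Pt 1 = 1 / 2 := rfl
  have h2 : Pt 2 = 0 := rfl
  have ha : ax (1 / 2) 0 = 0 := by simp only [ax, sn_zero, k1_half]; ring
  have hb : bz (1 / 2) 0 = 0 := by simp only [bz, sn_zero, k2_half]; ring
  unfold fmap
  rw [h0, h1, h2, ha, hb, hh_zero, phi_half, add_zero]
  rfl

lemma fmap_Qt : fmap Qt = Qt := by
  have h0 : Qt 0 = 0 := rfl
  have h1 : Qt 1 = 0 := rfl
  have h2 : Qt 2 = 0 := rfl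
  have ha : ax 0 0 = 0 := by simp only [ax, sn_zero, k1_zero]; ring
  have hb : bz 0 0 = 0 := by simp only [bz, sn_zero, k2_zero]; ring
  unfold fmap
  rw [h0, h1, h2, ha, hb, hh_zero, phi_zero, add_zero]
  rfl

lemma om_le_one (y : ℝ) : om y ≤ 1 := by
  unfold om expNegInvGlue
  split_ifs with h
  · norm_num
  · apply Real.exp_le_one_iff.2
    have : 0 ≤ (cs (y - 3 / 16) - Real.cos (Real.pi / 8))⁻¹ := inv_nonneg.2 (not_le.1 h).le
    linarith

lemma kap_le_one : kap ≤ 1 := by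
  unfold kap
  have h1 : om (3 / 16) ≤ 1 := om_le_one _
  have h0 : 0 ≤ om (3 / 16) := by unfold om; exact expNegInvGlue.nonneg _
  have h2 := Real.pi_lt_four
  have h3 := Real.pi_pos
  nlinarith

/-! ## uniqueness -/

lemma unique {Ψ : E 3 → E 3} {X a b Z A₀ A₁ σ U₀ U₁ δ : ℝ}
    (h : LocalMap Ψ X a b Z A₀ A₁ σ U₀ U₁ δ) {p q : E 3} (hp : p ∈ Box X a b Z)
    (hq : q ∈ Box X a b Z) (hp' : Ψ p = p) (hq' : Ψ q = q) : p = q := by
  obtain ⟨⟨t, ht0, -, ht⟩, ⟨s, hs, hs'⟩, ⟨u, hu0, -, hu⟩⟩ := h.lip p hp q hq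
  rw [hp', hq'] at ht hs' hu
  have hδ := h.hδ
  have hA₀ := h.hA₀
  have hA := h.hA
  have hAU := h.hAU
  have hσδ := h.hσδ
  by_contra hne
  have hN : 0 < ‖p - q‖ := norm_pos_iff.2 (sub_ne_zero.2 hne)
  have e0 : (p - q) 0 = p 0 - q 0 := rfl
  have e1 : (p - q) 1 = p 1 - q 1 := rfl
  have e2 : (p - q) 2 = p 2 - q 2 := rfl
  -- first coordinate
  have i0 : (t - 1) * |p 0 - q 0| ≤ δ * ‖p - q‖ := by
    have : |(p 0 - q 0) - t * (p 0 - q 0)| = (t - 1) * |p 0 - q 0| := by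
      rw [show (p 0 - q 0) - t * (p 0 - q 0) = -((t - 1) * (p 0 - q 0)) by ring, abs_neg,
        abs_mul, abs_of_nonneg (show (0 : ℝ) ≤ t - 1 by linarith)]
    rw [← this]; exact ht
  have i2 : (u - 1) * |p 2 - q 2| ≤ δ * ‖p - q‖ := by
    have : |(p 2 - q 2) - u * (p 2 - q 2)| = (u - 1) * |p 2 - q 2| := by
      rw [show (p 2 - q 2) - u * (p 2 - q 2) = -((u - 1) * (p 2 - q 2)) by ring, abs_neg,
        abs_mul, abs_of_nonneg (show (0 : ℝ) ≤ u - 1 by linarith)]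
    rw [← this]; exact hu
  have i1 : (1 - σ) * |p 1 - q 1| ≤ δ * ‖p - q‖ := by
    have h1 : |p 1 - q 1| ≤ |(p 1 - q 1) - s * (p 1 - q 1)| + |s * (p 1 - q 1)| := by
      have := abs_add_le ((p 1 - q 1) - s * (p 1 - q 1)) (s * (p 1 - q 1))
      simpa using this
    rw [abs_mul] at h1
    have h2 : |s| * |p 1 - q 1| ≤ σ * |p 1 - q 1| :=
      mul_le_mul_of_nonneg_right hs (abs_nonneg _)
    nlinarith
  have key : ∀ c m : ℝ, δ < c → c * m ≤ δ * ‖p - q‖ → m < ‖p - q‖ := by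
    intro c m hc hm
    by_contra hcon
    push Not at hcon
    have hc0 : 0 < c := hδ.trans hc
    have : c * ‖p - q‖ ≤ c * m := mul_le_mul_of_nonneg_left hcon hc0.le
    nlinarith
  have j0 : |p 0 - q 0| < ‖p - q‖ := key _ _ (by linarith) i0
  have j1 : |p 1 - q 1| < ‖p - q‖ := key _ _ (by linarith) i1
  have j2 : |p 2 - q 2| < ‖p - q‖ := key _ _ (by linarith) i2
  have : ‖p - q‖ < ‖p - q‖ := by
    rw [pi_norm_lt_iff hN]
    intro i
    fin_cases i
    · exact j0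
    · exact j1
    · exact j2
  exact lt_irrefl _ this

/-! ## existence -/

/-- the modified map -/
noncomputable def FF (Ψ : E 3 → E 3) (c d : ℝ) (p : E 3) : E 3 :=
  ![p 0 - (Ψ p 0 - p 0) / c, Ψ p 1, p 2 - (Ψ p 2 - p 2) / d]

lemma FF_fix {Ψ : E 3 → E 3} {c d : ℝ} (hc : 0 < c) (hd : 0 < d) {p : E 3}
    (h : FF Ψ c d p = p) : Ψ p = p := by
  have h0 : p 0 - (Ψ p 0 - p 0) / c = p 0 := congrFun h 0
  have h1 : Ψ p 1 = p 1 := congrFun h 1
  have h2 : p 2 - (Ψ p 2 - p 2) / d = p 2 := congrFun h 2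
  have e0 : Ψ p 0 = p 0 := by
    have : (Ψ p 0 - p 0) / c = 0 := by linarith
    rcases div_eq_zero_iff.1 this with h' | h'
    · linarith
    · exact absurd h' hc.ne'
  have e2 : Ψ p 2 = p 2 := by
    have : (Ψ p 2 - p 2) / d = 0 := by linarith
    rcases div_eq_zero_iff.1 this with h' | h'
    · linarith
    · exact absurd h' hd.ne'
  funext i
  fin_cases i
  · exact e0
  · exact h1
  · exact e2

lemma exist {Ψ : E 3 → E 3} {X a b Z A₀ A₁ σ U₀ U₁ δ : ℝ}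
    (h : LocalMap Ψ X a b Z A₀ A₁ σ U₀ U₁ δ) (κ : ℝ) (hκ1 : κ < 1)
    (h1 : (A₁ - A₀) + δ ≤ κ * (A₁ - 1)) (h2 : σ + δ ≤ κ) (h3 : (U₁ - U₀) + δ ≤ κ * (U₁ - 1))
    (p₀ : E 3) (r η : ℝ) (hr : 0 < r) (hsub : Metric.closedBall p₀ r ⊆ Box X a b Z)
    (hη : ‖Ψ p₀ - p₀‖ ≤ η) (g1 : η ≤ (1 - κ) * r * (A₁ - 1)) (g2 : η ≤ (1 - κ) * r)
    (g3 : η ≤ (1 - κ) * r * (U₁ - 1)) : ∃ p ∈ Metric.closedBall p₀ r, Ψ p = p := by
  have hδ := h.hδ
  have hA₀ := h.hA₀
  have hA := h.hA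
  have hAU := h.hAU
  have hU := h.hU
  have hσ := h.hσ
  have hκ0 : 0 ≤ κ := by linarith
  set c := A₁ - 1 with hc
  set d := U₁ - 1 with hd
  have hc0 : 0 < c := by rw [hc]; linarith
  have hd0 : 0 < d := by rw [hd]; linarith
  -- contraction
  have expand : ∀ (t w w' c A N : ℝ), 0 < c → A ≤ t → t ≤ c + 1 → c + 1 - A + δ ≤ κ * c →
      |w| ≤ N → |w' - t * w| ≤ δ * N → |w - (w' - w) / c| ≤ κ * N := by
    intro t w w' c A N hc hAt ht hk hw hw'
    have hN : 0 ≤ N := (abs_nonneg _).trans hw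
    have e : w - (w' - w) / c = ((c + 1 - t) * w - (w' - t * w)) / c := by
      field_simp
      ring
    rw [e, abs_div, abs_of_pos hc, div_le_iff₀ hc]
    calc |(c + 1 - t) * w - (w' - t * w)| ≤ |(c + 1 - t) * w| + |w' - t * w| := abs_sub _ _
      _ ≤ (c + 1 - A) * N + δ * N := by
          apply add_le_add _ hw'
          rw [abs_mul, abs_of_nonneg (by linarith : (0 : ℝ) ≤ c + 1 - t)]
          exact mul_le_mul (by linarith) hw (abs_nonneg _) (by linarith)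
      _ = (c + 1 - A + δ) * N := by ring
      _ ≤ (κ * c) * N := mul_le_mul_of_nonneg_right hk hN
      _ = κ * N * c := by ring
  have contr : ∀ p ∈ Box X a b Z, ∀ q ∈ Box X a b Z,
      ‖FF Ψ c d p - FF Ψ c d q‖ ≤ κ * ‖p - q‖ := by
    intro p hp q hq
    obtain ⟨⟨t, ht0, ht1, ht⟩, ⟨s, hs, hs'⟩, ⟨u, hu0, hu1, hu⟩⟩ := h.lip p hp q hq
    have b0 : |p 0 - q 0| ≤ ‖p - q‖ := coord_le (p - q) 0
    have b1 : |p 1 - q 1| ≤ ‖p - q‖ := coord_le (p - q) 1
    have b2 : |p 2 - q 2| ≤ ‖p - q‖ := coord_le (p - q) 2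
    apply norm_le3 (by positivity)
    · have e : (FF Ψ c d p - FF Ψ c d q) 0
          = (p 0 - q 0) - ((Ψ p 0 - Ψ q 0) - (p 0 - q 0)) / c := by
        show (p 0 - (Ψ p 0 - p 0) / c) - (q 0 - (Ψ q 0 - q 0) / c) = _
        ring
      rw [e]
      exact expand t _ _ c A₀ _ hc0 ht0 (by linarith) (by rw [hc]; linarith) b0 ht
    · have e : (FF Ψ c d p - FF Ψ c d q) 1 = Ψ p 1 - Ψ q 1 := rfl
      rw [e]
      have : |Ψ p 1 - Ψ q 1| ≤ |(Ψ p 1 - Ψ q 1) - s * (p 1 - q 1)| + |s * (p 1 - q 1)| := by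
        have := abs_add_le ((Ψ p 1 - Ψ q 1) - s * (p 1 - q 1)) (s * (p 1 - q 1))
        simpa using this
      rw [abs_mul] at this
      have h4 : |s| * |p 1 - q 1| ≤ σ * ‖p - q‖ :=
        mul_le_mul hs b1 (abs_nonneg _) hσ
      have h5 : (σ + δ) * ‖p - q‖ ≤ κ * ‖p - q‖ :=
        mul_le_mul_of_nonneg_right h2 (norm_nonneg _)
      linarith
    · have e : (FF Ψ c d p - FF Ψ c d q) 2
          = (p 2 - q 2) - ((Ψ p 2 - Ψ q 2) - (p 2 - q 2)) / d := by
        show (p 2 - (Ψ p 2 - p 2) / d) - (q 2 - (Ψ q 2 - q 2) / d) = _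
        ring
      rw [e]
      exact expand u _ _ d U₀ _ hd0 hu0 (by linarith) (by rw [hd]; linarith) b2 hu
  -- displacement of the centre
  have disp : ‖FF Ψ c d p₀ - p₀‖ ≤ (1 - κ) * r := by
    have k0 : |Ψ p₀ 0 - p₀ 0| ≤ η := (coord_le (Ψ p₀ - p₀) 0).trans hη
    have k1 : |Ψ p₀ 1 - p₀ 1| ≤ η := (coord_le (Ψ p₀ - p₀) 1).trans hη
    have k2 : |Ψ p₀ 2 - p₀ 2| ≤ η := (coord_le (Ψ p₀ - p₀) 2).trans hη
    apply norm_le3 (mul_nonneg (by linarith) hr.le)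
    · have e : (FF Ψ c d p₀ - p₀) 0 = -((Ψ p₀ 0 - p₀ 0) / c) := by
        show (p₀ 0 - (Ψ p₀ 0 - p₀ 0) / c) - p₀ 0 = _
        ring
      rw [e, abs_neg, abs_div, abs_of_pos hc0, div_le_iff₀ hc0]
      exact k0.trans g1
    · exact k1.trans g2
    · have e : (FF Ψ c d p₀ - p₀) 2 = -((Ψ p₀ 2 - p₀ 2) / d) := by
        show (p₀ 2 - (Ψ p₀ 2 - p₀ 2) / d) - p₀ 2 = _
        ring
      rw [e, abs_neg, abs_div, abs_of_pos hd0, div_le_iff₀ hd0]
      exact k2.trans g3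
  have hmem0 : p₀ ∈ Metric.closedBall p₀ r := Metric.mem_closedBall_self hr.le
  have maps : MapsTo (FF Ψ c d) (Metric.closedBall p₀ r) (Metric.closedBall p₀ r) := by
    intro p hp
    rw [mem_closedBall_iff_norm] at hp ⊢
    have h5 := contr p (hsub (mem_closedBall_iff_norm.2 hp)) p₀ (hsub hmem0)
    calc ‖FF Ψ c d p - p₀‖ ≤ ‖FF Ψ c d p - FF Ψ c d p₀‖ + ‖FF Ψ c d p₀ - p₀‖ := by
          have := norm_add_le (FF Ψ c d p - FF Ψ c d p₀) (FF Ψ c d p₀ - p₀)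
          simpa using this
      _ ≤ κ * r + (1 - κ) * r :=
          add_le_add (h5.trans (mul_le_mul_of_nonneg_left hp hκ0)) disp
      _ = r := by ring
  have hcw : ContractingWith ⟨κ, hκ0⟩ (maps.restrict (FF Ψ c d) _ _) := by
    refine ⟨?_, ?_⟩
    · exact_mod_cast hκ1
    · apply LipschitzWith.of_dist_le_mul
      intro x y
      rw [Subtype.dist_eq, Subtype.dist_eq, dist_eq_norm, dist_eq_norm]
      exact contr x.1 (hsub x.2) y.1 (hsub y.2)
  obtain ⟨p, hp, hfix, -⟩ := ContractingWith.exists_fixedPoint' (s := Metric.closedBall p₀ r)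
    Metric.isClosed_closedBall.isComplete maps hcw hmem0 (edist_ne_top _ _)
  exact ⟨p, hp, FF_fix hc0 hd0 hfix⟩

lemma ballP {ρ : ℝ} (hρ : ρ ≤ 1 / 1000) :
    Metric.closedBall Pt (ρ / 2) ⊆ BoxP := by
  intro p hp
  rw [mem_closedBall_iff_norm] at hp
  have b0 : |p 0 - 0| ≤ ρ / 2 := (coord_le (p - Pt) 0).trans hp
  have b1 : |p 1 - 1 / 2| ≤ ρ / 2 := (coord_le (p - Pt) 1).trans hp
  have b2 : |p 2 - 0| ≤ ρ / 2 := (coord_le (p - Pt) 2).trans hp
  rw [sub_zero] at b0 b2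
  have b1' := abs_le.1 b1
  refine ⟨?_, ?_, ?_, ?_⟩ <;> linarith

lemma ballQ {ρ : ℝ} (hρ : ρ ≤ 1 / 1000) {p₀ : E 3} (h0 : ‖p₀ - Qt‖ ≤ ρ / 100) :
    Metric.closedBall p₀ (ρ / 2) ⊆ BoxQ := by
  intro p hp
  rw [mem_closedBall_iff_norm] at hp
  have h1 : ‖p - Qt‖ ≤ ρ := by
    have := norm_add_le (p - p₀) (p₀ - Qt)
    simp only [sub_add_sub_cancel] at this
    linarith [norm_nonneg (p - p₀), norm_nonneg (p₀ - Qt)]
  have b0 : |p 0 - 0| ≤ ρ := (coord_le (p - Qt) 0).trans h1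
  have b1 : |p 1 - 0| ≤ ρ := (coord_le (p - Qt) 1).trans h1
  have b2 : |p 2 - 0| ≤ ρ := (coord_le (p - Qt) 2).trans h1
  rw [sub_zero] at b0 b1 b2
  have b1' := abs_le.1 b1
  refine ⟨?_, ?_, ?_, ?_⟩ <;> linarith

end Fix

theorem fix : S_Fix := by
  intro ρ g hg
  have hρ := hg.hρ
  have hρ' := hg.hρ'
  have hkap : ρ * kap / 400 ≤ 1 / 400000 := by
    have h1 := Fix.kap_le_one
    have h2 : 0 < ρ * kap / 400 := hg.locP.hδ
    have : ρ * kap ≤ 1 / 1000 * 1 := by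
      have h3 : ρ * kap ≤ ρ * 1 := mul_le_mul_of_nonneg_left h1 hρ.le
      linarith
    linarith
  constructor
  · obtain ⟨p, hp, hfix⟩ := Fix.exist hg.locP (81 / 100) (by norm_num) (by linarith) (by linarith)
      (by linarith) Pt (ρ / 2) (ρ / 100) (by linarith) (Fix.ballP hρ')
      (by have := hg.close.dist_le Pt; rwa [Fix.fmap_Pt] at this) (by linarith) (by linarith)
      (by linarith)
    refine ⟨p, hfix, ?_, ?_⟩
    · rw [mem_closedBall_iff_norm] at hp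
      linarith
    · intro q hq hgq
      exact Fix.unique hg.locP hq (Fix.ballP hρ' hp) hgq hfix
  · have hd : ‖g Qt - Qt‖ ≤ ρ / 100 := by
      have := hg.close.dist_le Qt; rwa [Fix.fmap_Qt] at this
    obtain ⟨p, hp, hfix⟩ := Fix.exist hg.locQ (81 / 100) (by norm_num) (by linarith) (by linarith)
      (by linarith) (g Qt) (ρ / 2) (ρ / 100) (by linarith) (Fix.ballQ hρ' hd)
      (by rw [Equiv.symm_apply_apply, norm_sub_rev]; exact hd) (by linarith) (by linarith)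
      (by linarith)
    have hbox := Fix.ballQ hρ' hd hp
    refine ⟨p, ?_, ?_, ?_⟩
    · have := congrArg g hfix
      rw [Equiv.apply_symm_apply] at this
      exact this.symm
    · rw [mem_closedBall_iff_norm] at hp
      have := norm_add_le (p - g Qt) (g Qt - Qt)
      simp only [sub_add_sub_cancel] at this
      linarith
    · intro q hq hgq
      apply Fix.unique hg.locQ hq hbox _ hfix
      rw [Equiv.symm_apply_eq]; exact hgq.symm

end HetCyc
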