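import Pool.Agent.HetCyc.Basic2

/-!
# The maximal invariant set of `fmap` in `KK` is the cycle

Orbits normalised so that `|x|, |z| ≤ 1/2`. A lift at time `n` is `hh (x n) (z n) ≠ 0`.
-/

namespace HetCyc

namespace GlobalAux

open Filter Topology Set Real

noncomputable section

structure NOrb (v : ℤ → E 3) : Prop where
  step : ∀ n, fmap (v n) = v (n + 1)
  mem : ∀ n, v n ∈ KK
  hx : ∀ n, |v n 0| ≤ 1 / 2
  hz : ∀ n, |v n 2| ≤ 1 / 2

/-- the vector `(0, k, 0)` -/
def sh (k : ℤ) : Fin 3 → ℤ := ![0, k, 0]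

lemma add_sh_zero (p : E 3) (k : ℤ) : (p + intVec (sh k)) 0 = p 0 := by simp [sh, intVec]
lemma add_sh_one (p : E 3) (k : ℤ) : (p + intVec (sh k)) 1 = p 1 + k := by simp [sh, intVec]
lemma add_sh_two (p : E 3) (k : ℤ) : (p + intVec (sh k)) 2 = p 2 := by simp [sh, intVec]

lemma Far_add (p : E 3) (k : Fin 3 → ℤ) : Far (p + intVec k) ↔ Far p := by
  simp [Far, intVec, cs_add_int]

lemma KK_add (p : E 3) (k : Fin 3 → ℤ) : p + intVec k ∈ KK ↔ p ∈ KK := by
  simp only [KK, TT, RR, mem_ofPred_eq, Far_add]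
  simp [intVec, cs_add_int]

lemma NOrb.shift {v : ℤ → E 3} (h : NOrb v) (k : ℤ) : NOrb (fun n => v n + intVec (sh k)) where
  step n := by
    rw [fmap_add_int, h.step n]
  mem n := (KK_add _ _).2 (h.mem n)
  hx n := by rw [add_sh_zero]; exact h.hx n
  hz n := by rw [add_sh_two]; exact h.hz n

lemma NOrb.x_succ {v : ℤ → E 3} (h : NOrb v) (n : ℤ) : v (n + 1) 0 = ax (v n 1) (v n 0) := by
  rw [← h.step n, fmap_zero]
lemma NOrb.z_succ {v : ℤ → E 3} (h : NOrb v) (n : ℤ) : v (n + 1) 2 = bz (v n 1) (v n 2) := by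
  rw [← h.step n, fmap_two]
lemma NOrb.y_succ {v : ℤ → E 3} (h : NOrb v) (n : ℤ) :
    v (n + 1) 1 = phi (v n 1) + hh (v (n + 1) 0) (v (n + 1) 2) := by
  rw [h.x_succ, h.z_succ, ← h.step n, fmap_one]

/-- near `y = 1/2` the orbit is in `D0` -/
lemma NOrb.notT {v : ℤ → E 3} (h : NOrb v) {n : ℤ} (h1 : |v n 1 - 1 / 2| < 1 / 20) :
    |v n 0| ≤ 21 / 250 ∧ |v n 2| ≤ 1 / 250 := by
  have hk := (h.mem n).1
  have hy : cs (v n 1) < - cs (1 / 20) := by
    have e : cs (v n 1) = - cs (v n 1 - 1 / 2) := by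
      unfold cs
      rw [← Real.cos_add_pi]; congr 1; ring
    rw [e]
    have := (cs_lt_iff' (t := v n 1 - 1 / 2) (a := 1 / 20) (by linarith) (by norm_num)
      (by norm_num)).2 h1
    linarith
  have hF : ¬ Far (v n) := fun hF => hk ⟨hy, hF⟩
  simp only [Far, not_or, not_lt] at hF
  exact ⟨(cs_le_iff (h.hx n) (by norm_num) (by norm_num)).1 hF.1,
    (cs_le_iff (h.hz n) (by norm_num) (by norm_num)).1 hF.2⟩

/-- near `y = 0` the orbit is in `D0` -/
lemma NOrb.notR {v : ℤ → E 3} (h : NOrb v) {n : ℤ} (h1 : |v n 1| < 1 / 20) :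
    |v n 0| ≤ 21 / 250 ∧ |v n 2| ≤ 1 / 250 := by
  have hk := (h.mem n).2
  have hy : cs (1 / 20) < cs (v n 1) :=
    (cs_lt_iff' (t := v n 1) (a := 1 / 20) (by linarith) (by norm_num) (by norm_num)).2 h1
  have hF : ¬ Far (v n) := fun hF => hk ⟨hy, hF⟩
  simp only [Far, not_or, not_lt] at hF
  exact ⟨(cs_le_iff (h.hx n) (by norm_num) (by norm_num)).1 hF.1,
    (cs_le_iff (h.hz n) (by norm_num) (by norm_num)).1 hF.2⟩

/-! ## monotone sequences -/

/-- `phi` moves the points of a compact part of zone `U` down by a fixed amount -/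
lemma phi_gap_U {a b : ℝ} (ha : 1 / 2 < a) (hb : b < 1) (hab : a ≤ b) :
    ∃ c : ℝ, 0 < c ∧ ∀ y, a ≤ y → y ≤ b → phi y ≤ y - c := by
  obtain ⟨y0, hy0, hmin⟩ := (isCompact_Icc (a := a) (b := b)).exists_isMinOn ⟨a, le_refl a, hab⟩
    (f := fun y => y - phi y) ((continuous_id.sub (contDiff_phi (n := 0)).continuous).continuousOn)
  refine ⟨y0 - phi y0, ?_, ?_⟩
  · have := (phi_lt (lt_of_lt_of_le ha hy0.1) (lt_of_le_of_lt hy0.2 hb)).2
    linarith
  · intro y h1 h2
    have := hmin (show y ∈ Icc a b from ⟨h1, h2⟩)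
    simp only [mem_ofPred_eq] at this
    linarith

/-- `phi` moves the points of a compact part of zone `L` up by a fixed amount -/
lemma phi_gap_L {a b : ℝ} (ha : 0 < a) (hb : b < 1 / 2) (hab : a ≤ b) :
    ∃ c : ℝ, 0 < c ∧ ∀ y, a ≤ y → y ≤ b → y + c ≤ phi y := by
  obtain ⟨y0, hy0, hmin⟩ := (isCompact_Icc (a := a) (b := b)).exists_isMinOn ⟨a, le_refl a, hab⟩
    (f := fun y => phi y - y) (((contDiff_phi (n := 0)).continuous.sub continuous_id).continuousOn)
  refine ⟨phi y0 - y0, ?_, ?_⟩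
  · have := (phi_gt (lt_of_lt_of_le ha hy0.1) (lt_of_le_of_lt hy0.2 hb)).1
    linarith
  · intro y h1 h2
    have := hmin (show y ∈ Icc a b from ⟨h1, h2⟩)
    simp only [mem_ofPred_eq] at this
    linarith

/-- a sequence that decreases by a fixed amount is unbounded below -/
lemma no_desc {s : ℕ → ℝ} {a c : ℝ} (hc : 0 < c) (ha : ∀ n, a ≤ s n)
    (hd : ∀ n, s (n + 1) ≤ s n - c) : False := by
  have h : ∀ n : ℕ, s n ≤ s 0 - n * c := by
    intro n
    induction n with
    | zero => simp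
    | succ n ih => have := hd n; push_cast; linarith
  obtain ⟨n, hn⟩ := exists_nat_gt ((s 0 - a) / c)
  have h1 := h n
  have h2 := ha n
  rw [div_lt_iff₀ hc] at hn
  linarith

/-- descent in zone `U` -/
lemma desc_U {s : ℕ → ℝ} {a : ℝ} (ha : 1 / 2 < a) (h0 : s 0 < 1) (hs : ∀ n, 1 / 2 < s n)
    (hd : ∀ n, s (n + 1) = phi (s n)) : ∃ n, s n < a := by
  by_contra hcon
  push Not at hcon
  have hb : ∀ n, s n ≤ s 0 := by
    intro n
    induction n with
    | zero => exact le_refl _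
    | succ n ih =>
      rw [hd n]
      exact ((phi_lt (hs n) (lt_of_le_of_lt ih h0)).2.le).trans ih
  obtain ⟨c, hc, hgap⟩ := phi_gap_U ha h0 (hcon 0)
  exact no_desc hc hcon (fun n => by rw [hd n]; exact hgap _ (hcon n) (hb n))

/-- ascent in zone `L` -/
lemma asc_L {s : ℕ → ℝ} {b : ℝ} (hb : b < 1 / 2) (h0 : 0 < s 0) (hs : ∀ n, s n < 1 / 2)
    (hd : ∀ n, s (n + 1) = phi (s n)) : ∃ n, b < s n := by
  by_contra hcon
  push Not at hcon
  have hb' : ∀ n, s 0 ≤ s n := by
    intro n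
    induction n with
    | zero => exact le_refl _
    | succ n ih =>
      rw [hd n]
      exact ih.trans (phi_gt (lt_of_lt_of_le h0 ih) (hs n)).1.le
  obtain ⟨c, hc, hgap⟩ := phi_gap_L h0 hb (hcon 0)
  exact no_desc (s := fun n => - s n) (a := -b) hc (fun n => by linarith [hcon n])
    (fun n => by have := hgap _ (hb' n) (hcon n); rw [← hd n] at this; linarith)

/-- backward in zone `U` : the sequence goes up to `1` -/
lemma back_U {s : ℕ → ℝ} {b : ℝ} (hb : b < 1) (hs0 : ∀ n, 1 / 2 < s n) (hs1 : ∀ n, s n < 1)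
    (hd : ∀ n, phi (s (n + 1)) = s n) : ∃ n, b < s n := by
  by_contra hcon
  push Not at hcon
  have hb' : ∀ n, s 0 ≤ s n := by
    intro n
    induction n with
    | zero => exact le_refl _
    | succ n ih =>
      have := (phi_lt (hs0 (n + 1)) (hs1 (n + 1))).2
      rw [hd n] at this
      linarith
  obtain ⟨c, hc, hgap⟩ := phi_gap_U (hs0 0) hb (hcon 0)
  exact no_desc (s := fun n => - s n) (a := -b) hc (fun n => by linarith [hcon n])
    (fun n => by have := hgap _ (hb' (n + 1)) (hcon (n + 1)); rw [hd n] at this; linarith)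

/-- backward in zone `L` : the sequence goes down to `0` -/
lemma back_L {s : ℕ → ℝ} {a : ℝ} (ha : 0 < a) (hs0 : ∀ n, 0 < s n) (hs1 : ∀ n, s n < 1 / 2)
    (hd : ∀ n, phi (s (n + 1)) ≤ s n) : ∃ n, s n < a := by
  by_contra hcon
  push Not at hcon
  have hb' : ∀ n, s n ≤ s 0 := by
    intro n
    induction n with
    | zero => exact le_refl _
    | succ n ih =>
      have := (phi_gt (hs0 (n + 1)) (hs1 (n + 1))).1
      linarith [hd n]
  obtain ⟨c, hc, hgap⟩ := phi_gap_L ha (hs1 0) (hcon 0)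
  exact no_desc hc hcon
    (fun n => by have := hgap _ (hcon (n + 1)) (hb' (n + 1)); linarith [hd n])

/-! ## (A) : the orbits that stay near `y = 0` in the past, near `y = 1/2` in the future -/

lemma zero_of_contr {s : ℕ → ℝ} {C q : ℝ} (hq0 : 0 ≤ q) (hq : q < 1) (hb : ∀ n, |s n| ≤ C)
    (hc : ∀ n, |s n| ≤ q * |s (n + 1)|) : s 0 = 0 := by
  have h : ∀ n : ℕ, |s 0| ≤ q ^ n * C := by
    intro n
    have h1 : |s 0| ≤ q ^ n * |s n| := by
      induction n with
      | zero => simp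
      | succ n ih =>
        refine ih.trans ?_
        rw [pow_succ, mul_assoc]
        exact mul_le_mul_of_nonneg_left (hc n) (pow_nonneg hq0 n)
    exact h1.trans (mul_le_mul_of_nonneg_left (hb n) (pow_nonneg hq0 n))
  have ht : Tendsto (fun n : ℕ => q ^ n * C) atTop (𝓝 (0 * C)) :=
    (tendsto_pow_atTop_nhds_zero_of_lt_one hq0 hq).mul_const C
  rw [zero_mul] at ht
  have := ge_of_tendsto' ht h
  exact abs_nonpos_iff.1 this

lemma abs_aQ_le {x : ℝ} (h : |x| ≤ 1 / 8) : |aQ x| ≤ 13 / 20 * |x| := by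
  obtain ⟨θ, h1, h2, h3⟩ := aQ_sub (s := 0) (by norm_num) h
  rw [aQ_zero, sub_zero, sub_zero] at h3
  rw [h3, abs_mul, abs_of_nonneg (by linarith)]
  exact mul_le_mul_of_nonneg_right h2 (abs_nonneg _)
lemma abs_bQ_le {x : ℝ} (h : |x| ≤ 1 / 8) : |bQ x| ≤ 13 / 20 * |x| := by
  obtain ⟨θ, h1, h2, h3⟩ := bQ_sub (s := 0) (by norm_num) h
  rw [bQ_zero, sub_zero, sub_zero] at h3
  rw [h3, abs_mul, abs_of_nonneg (by linarith)]
  exact mul_le_mul_of_nonneg_right (by linarith) (abs_nonneg _)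
lemma abs_le_aP {x : ℝ} (h : |x| ≤ 1 / 8) : |x| ≤ 20 / 27 * |aP x| := by
  obtain ⟨θ, h1, h2, h3⟩ := aP_sub (s := 0) (by norm_num) h
  rw [aP_zero, sub_zero, sub_zero] at h3
  rw [h3, abs_mul, abs_of_nonneg (show 0 ≤ θ by linarith)]
  nlinarith [abs_nonneg x]
lemma abs_le_bP {x : ℝ} (h : |x| ≤ 1 / 8) : |x| ≤ 20 / 27 * |bP x| := by
  obtain ⟨θ, h1, h2, h3⟩ := bP_sub (s := 0) (by norm_num) h
  rw [bP_zero, sub_zero, sub_zero] at h3
  rw [h3, abs_mul, abs_of_nonneg (show 0 ≤ θ by linarith)]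
  nlinarith [abs_nonneg x]

/-- (A) near `0` in the past -/
lemma NOrb.back_zero {v : ℤ → E 3} (h : NOrb v) {J : ℤ} (hJ : ∀ m ≤ J, |v m 1| < 1 / 20) :
    ∀ m ≤ J, v m 0 = 0 ∧ v m 2 = 0 := by
  intro m hm
  have hb : ∀ k : ℕ, |v (m - k) 0| ≤ 21 / 250 ∧ |v (m - k) 2| ≤ 1 / 250 := fun k =>
    h.notR (hJ _ (by omega))
  have hy : ∀ k : ℕ, -(1 / 20) < v (m - ((k + 1 : ℕ) : ℤ)) 1 ∧
      v (m - ((k + 1 : ℕ) : ℤ)) 1 < 1 / 20 := fun k =>
    abs_lt.1 (hJ _ (by push_cast; omega))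
  have e : ∀ k : ℕ, m - (k : ℤ) = (m - ((k + 1 : ℕ) : ℤ)) + 1 := by intro k; push_cast; ring
  constructor
  · have := zero_of_contr (s := fun k : ℕ => v (m - k) 0) (C := 21 / 250) (q := 13 / 20)
      (by norm_num) (by norm_num) (fun k => (hb k).1) (fun k => by
        show |v (m - (k : ℤ)) 0| ≤ 13 / 20 * |v (m - ((k + 1 : ℕ) : ℤ)) 0|
        rw [e k, h.x_succ, ax_Q (by linarith [(hy k).1]) (by linarith [(hy k).2])]
        exact abs_aQ_le ((hb (k + 1)).1.trans (by norm_num)))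
    simpa using this
  · have := zero_of_contr (s := fun k : ℕ => v (m - k) 2) (C := 1 / 250) (q := 13 / 20)
      (by norm_num) (by norm_num) (fun k => (hb k).2) (fun k => by
        show |v (m - (k : ℤ)) 2| ≤ 13 / 20 * |v (m - ((k + 1 : ℕ) : ℤ)) 2|
        rw [e k, h.z_succ, bz_Q (by linarith [(hy k).1]) (by linarith [(hy k).2])]
        exact abs_bQ_le ((hb (k + 1)).2.trans (by norm_num)))
    simpa using this

/-- (A) near `1/2` in the future -/
lemma NOrb.fwd_zero {v : ℤ → E 3} (h : NOrb v) {J : ℤ}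
    (hJ : ∀ m, J ≤ m → |v m 1 - 1 / 2| < 1 / 20) :
    ∀ m, J ≤ m → v m 0 = 0 ∧ v m 2 = 0 := by
  intro m hm
  have hb : ∀ k : ℕ, |v (m + k) 0| ≤ 21 / 250 ∧ |v (m + k) 2| ≤ 1 / 250 := fun k =>
    h.notT (hJ _ (by omega))
  have hy : ∀ k : ℕ, -(1 / 20) < v (m + k) 1 - 1 / 2 ∧ v (m + k) 1 - 1 / 2 < 1 / 20 := fun k =>
    abs_lt.1 (hJ _ (by omega))
  have e : ∀ k : ℕ, m + ((k + 1 : ℕ) : ℤ) = (m + k) + 1 := by intro k; push_cast; ring
  constructor
  · have := zero_of_contr (s := fun k : ℕ => v (m + k) 0) (C := 21 / 250) (q := 20 / 27)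
      (by norm_num) (by norm_num) (fun k => (hb k).1) (fun k => by
        show |v (m + (k : ℤ)) 0| ≤ 20 / 27 * |v (m + ((k + 1 : ℕ) : ℤ)) 0|
        rw [e k, h.x_succ, ax_P (by linarith [(hy k).1]) (by linarith [(hy k).2])]
        exact abs_le_aP ((hb k).1.trans (by norm_num)))
    simpa using this
  · have := zero_of_contr (s := fun k : ℕ => v (m + k) 2) (C := 1 / 250) (q := 20 / 27)
      (by norm_num) (by norm_num) (fun k => (hb k).2) (fun k => by
        show |v (m + (k : ℤ)) 2| ≤ 20 / 27 * |v (m + ((k + 1 : ℕ) : ℤ)) 2|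
        rw [e k, h.z_succ, bz_P (by linarith [(hy k).1]) (by linarith [(hy k).2])]
        exact abs_le_bP ((hb k).2.trans (by norm_num)))
    simpa using this

/-! ## (U) : a lift in zone `U` leads to `TT` -/

lemma NOrb.no_lift_x {v : ℤ → E 3} (h : NOrb v) {n : ℤ} (h1 : 1 / 250 ≤ |v (n + 1) 0 - 2 / 25|) :
    v (n + 1) 1 = phi (v n 1) := by
  rw [h.y_succ, hh_eq_zero_x (h.hx _) h1, add_zero]
lemma NOrb.no_lift_z {v : ℤ → E 3} (h : NOrb v) {n : ℤ} (h1 : 1 / 250 ≤ |v (n + 1) 2|) :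
    v (n + 1) 1 = phi (v n 1) := by
  rw [h.y_succ, hh_eq_zero_z (h.hz _) h1, add_zero]

lemma far_right {x : ℝ} (h : 21 / 250 ≤ x) : 1 / 250 ≤ |x - 2 / 25| := by
  rw [abs_of_nonneg (by linarith)]; linarith
lemma far_left {x : ℝ} (h : x ≤ 19 / 250) : 1 / 250 ≤ |x - 2 / 25| := by
  rw [abs_of_nonpos (by linarith)]; linarith

lemma NOrb.U1 {v : ℤ → E 3} (h : NOrb v) {n : ℤ} (h1 : 1 / 2 < v n 1) (h2 : v n 1 < 3 / 5)
    (h3 : 21 / 250 < v n 0) : False := by
  have step : ∀ m, 1 / 2 < v m 1 → v m 1 < 3 / 5 → 21 / 250 < v m 0 →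
      v (m + 1) 1 = phi (v m 1) ∧ 21 / 250 < v (m + 1) 0 := by
    intro m a1 a2 a3
    have b1 : v m 0 ≤ v (m + 1) 0 := by
      rw [h.x_succ, ax_P (by linarith) (by linarith)]
      unfold aP
      have := sn_nonneg (t := v m 0) (by linarith) (abs_le.1 (h.hx m)).2
      linarith
    exact ⟨h.no_lift_x (far_right (by linarith)), by linarith⟩
  have inv : ∀ k : ℕ, 1 / 2 < v (n + k) 1 ∧ v (n + k) 1 < 3 / 5 ∧ 21 / 250 < v (n + k) 0 := by
    intro k
    induction k with
    | zero => rw [Nat.cast_zero, add_zero]; exact ⟨h1, h2, h3⟩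
    | succ k ih =>
      obtain ⟨a1, a2, a3⟩ := ih
      have e : n + ((k + 1 : ℕ) : ℤ) = (n + k) + 1 := by push_cast; ring
      rw [e]
      obtain ⟨b1, b2⟩ := step _ a1 a2 a3
      rw [b1]
      have := phi_lt a1 (by linarith)
      exact ⟨this.1, by linarith [this.2], b2⟩
  obtain ⟨k, hk⟩ := desc_U (s := fun k : ℕ => v (n + k) 1) (a := 11 / 20) (by norm_num)
    (lt_trans (inv 0).2.1 (by norm_num)) (fun k => (inv k).1) (fun k => by
      have e : n + ((k + 1 : ℕ) : ℤ) = (n + k) + 1 := by push_cast; ring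
      show v (n + ((k + 1 : ℕ) : ℤ)) 1 = _
      rw [e]
      exact (step _ (inv k).1 (inv k).2.1 (inv k).2.2).1)
  have := (h.notT (n := n + k) (by
    rw [abs_of_pos (by linarith [(inv k).1])]; linarith)).1
  linarith [(abs_le.1 this).2, (inv k).2.2]

/-- the kick in the window -/
lemma bz_window {y z : ℝ} (h1 : 3 / 5 ≤ y) (h2 : y ≤ 9 / 10) (h3 : -(1 / 250) ≤ z) :
    1 / 250 < bz y z := by
  refine lt_of_lt_of_le ?_ ((strictMono_bz y).monotone h3)
  unfold bz
  rw [k2_window h1 h2]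
  have a1 : |mu y * sn (-(1 / 250))| ≤ 4 / 5 * (1 / 250) := by
    rw [abs_mul]
    have b1 := abs_mu_le y
    have b2 := abs_sn_le (-(1 / 250))
    rw [abs_neg, abs_of_pos (show (0 : ℝ) < 1 / 250 by norm_num)] at b2
    exact mul_le_mul b1 b2 (abs_nonneg _) (by norm_num)
  have a2 := (abs_le.1 a1).1
  have a3 : (85 / 100 : ℝ) ≤ cc (-(1 / 250)) := by
    unfold cc
    have := cs_ge_of_le (t := -(1 / 250)) (by rw [abs_neg, abs_of_pos] <;> norm_num)
    linarith
  linarith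

lemma NOrb.U2 {v : ℤ → E 3} (h : NOrb v) {n : ℤ} (h1 : 1 / 2 < v n 1) (h2 : v n 1 ≤ 9 / 10)
    (h3 : 1 / 250 < v n 2) : False := by
  have step : ∀ m, 1 / 2 < v m 1 → v m 1 ≤ 9 / 10 → 1 / 250 < v m 2 →
      v (m + 1) 1 = phi (v m 1) ∧ 1 / 250 < v (m + 1) 2 := by
    intro m a1 a2 a3
    have b1 : 1 / 250 < v (m + 1) 2 := by
      rw [h.z_succ]
      rcases lt_or_ge (v m 1) (3 / 5) with hy | hy
      · have c1 := sn_nonneg (t := v m 2) (by linarith) (abs_le.1 (h.hz m)).2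
        have c2 := k2_nonneg_U (y := v m 1) (by linarith) (by linarith)
        have c3 := cc_nonneg (v m 2)
        have c4 : mu (v m 1) = 4 / 5 := by
          unfold mu; rw [tau_P (by linarith) (by linarith)]; norm_num
        unfold bz
        rw [c4]
        nlinarith [mul_nonneg c2 c3]
      · exact bz_window hy a2 (by linarith)
    exact ⟨h.no_lift_z (b1.le.trans (le_abs_self _)), b1⟩
  have inv : ∀ k : ℕ, 1 / 2 < v (n + k) 1 ∧ v (n + k) 1 ≤ 9 / 10 ∧ 1 / 250 < v (n + k) 2 := by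
    intro k
    induction k with
    | zero => rw [Nat.cast_zero, add_zero]; exact ⟨h1, h2, h3⟩
    | succ k ih =>
      obtain ⟨a1, a2, a3⟩ := ih
      have e : n + ((k + 1 : ℕ) : ℤ) = (n + k) + 1 := by push_cast; ring
      rw [e]
      obtain ⟨b1, b2⟩ := step _ a1 a2 a3
      rw [b1]
      have := phi_lt a1 (by linarith)
      exact ⟨this.1, by linarith [this.2], b2⟩
  obtain ⟨k, hk⟩ := desc_U (s := fun k : ℕ => v (n + k) 1) (a := 11 / 20) (by norm_num)
    (lt_of_le_of_lt (inv 0).2.1 (by norm_num)) (fun k => (inv k).1) (fun k => by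
      have e : n + ((k + 1 : ℕ) : ℤ) = (n + k) + 1 := by push_cast; ring
      show v (n + ((k + 1 : ℕ) : ℤ)) 1 = _
      rw [e]
      exact (step _ (inv k).1 (inv k).2.1 (inv k).2.2).1)
  have := (h.notT (n := n + k) (by
    rw [abs_of_pos (by linarith [(inv k).1])]; linarith)).2
  linarith [(abs_le.1 this).2, (inv k).2.2]

/-- an orbit in the window with `z ≥ -1/250` leads to `TT` -/
lemma NOrb.U3 {v : ℤ → E 3} (h : NOrb v) {n : ℤ} (h1 : 3 / 5 ≤ v n 1) (h2 : v n 1 ≤ 9 / 10)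
    (h3 : -(1 / 250) ≤ v n 2) : False := by
  have b1 : 1 / 250 < v (n + 1) 2 := by
    rw [h.z_succ]; exact bz_window h1 h2 h3
  have b2 := h.no_lift_z (n := n) (b1.le.trans (le_abs_self _))
  have b3 := phi_lt (y := v n 1) (by linarith) (by linarith)
  exact h.U2 (n := n + 1) (by rw [b2]; exact b3.1) (by rw [b2]; linarith [b3.2]) b1

lemma NOrb.U4 {v : ℤ → E 3} (h : NOrb v) {n : ℤ} (h1 : 9 / 10 < v n 1) (h2 : v n 1 < 1)
    (h3 : 0 ≤ v n 0) (h4 : v n 0 ≤ 21 / 250) (h5 : -(1 / 250) ≤ v n 2) : False := by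
  let Q : ℕ → Prop := fun k => 9 / 10 < v (n + k) 1 ∧ v (n + k) 1 < 1 ∧ 0 ≤ v (n + k) 0 ∧
    v (n + k) 0 ≤ 21 / 250 ∧ -(1 / 250) ≤ v (n + k) 2
  have Q0 : Q 0 := by
    simp only [Q]; rw [Nat.cast_zero, add_zero]; exact ⟨h1, h2, h3, h4, h5⟩
  have step : ∀ k : ℕ, Q k → v (n + ((k + 1 : ℕ) : ℤ)) 1 = phi (v (n + k) 1) ∧
      0 ≤ v (n + ((k + 1 : ℕ) : ℤ)) 0 ∧ v (n + ((k + 1 : ℕ) : ℤ)) 0 ≤ 21 / 250 ∧
      -(1 / 250) ≤ v (n + ((k + 1 : ℕ) : ℤ)) 2 := by
    intro k hk
    obtain ⟨a1, a2, a3, a4, a5⟩ := hk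
    have e : n + ((k + 1 : ℕ) : ℤ) = (n + k) + 1 := by push_cast; ring
    rw [e]
    have c1 : v (n + k + 1) 0 = aQ (v (n + k) 0) := by
      rw [h.x_succ, ax_Q' (by linarith) (by linarith)]
    have c2 : |v (n + k) 0| ≤ 1 / 8 := by rw [abs_of_nonneg a3]; linarith
    have c3 := abs_aQ_le c2
    rw [abs_of_nonneg a3] at c3
    have c4 : 0 ≤ aQ (v (n + k) 0) := by
      rw [← aQ_zero]; exact strictMono_aQ.monotone a3
    have c5 : aQ (v (n + k) 0) ≤ 13 / 20 * v (n + k) 0 := (le_abs_self _).trans c3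
    have c6 : -(1 / 250) ≤ v (n + k + 1) 2 := by
      rw [h.z_succ]
      have d1 := k2_nonneg_U (y := v (n + k) 1) (by linarith) (by linarith)
      have d2 := cc_nonneg (v (n + k) 2)
      have d3 : mu (v (n + k) 1) = -(4 / 5) := by
        unfold mu; rw [tau_Q' (by linarith) (by linarith)]; norm_num
      unfold bz
      rw [d3]
      have d4 : -(4 / 5) * sn (v (n + k) 2) ≥ -(1 / 250) - v (n + k) 2 := by
        rcases le_total 0 (v (n + k) 2) with hz | hz
        · have := sn_le_self hz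
          linarith
        · have : 0 ≤ sn (-(v (n + k) 2)) :=
            sn_nonneg (by linarith) (by linarith [(abs_le.1 (h.hz (n + k))).1])
          rw [sn_neg] at this
          linarith
      nlinarith [mul_nonneg d1 d2]
    refine ⟨h.no_lift_x (far_left ?_), by rw [c1]; exact c4, by rw [c1]; linarith, c6⟩
    rw [c1]; linarith
  have hnot : ∃ k, ¬ Q k := by
    by_contra hcon
    push Not at hcon
    obtain ⟨k, hk⟩ := desc_U (s := fun k : ℕ => v (n + k) 1) (a := 9 / 10) (by norm_num)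
      (hcon 0).2.1 (fun k => by have := (hcon k).1; linarith) (fun k => (step k (hcon k)).1)
    have := (hcon k).1
    linarith
  classical
  have hk := Nat.find_spec hnot
  have hk0 : Nat.find hnot ≠ 0 := by
    intro h0; rw [h0] at hk; exact hk Q0
  obtain ⟨j, hj⟩ := Nat.exists_eq_succ_of_ne_zero hk0
  have hQj : Q j := by
    by_contra hc
    have := Nat.find_min' hnot hc
    omega
  rw [hj] at hk
  obtain ⟨s1, s2, s3, s4⟩ := step j hQj
  have t1 := phi_lt (y := v (n + j) 1) (by linarith [hQj.1]) hQj.2.1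
  have t2 := (abs_le.1 (abs_phi_sub_le (v (n + j) 1))).1
  have t3 : v (n + ((j + 1 : ℕ) : ℤ)) 1 ≤ 9 / 10 := by
    by_contra hc
    push Not at hc
    exact hk ⟨hc, by rw [s1]; linarith [hQj.2.1, t1.2], s2, s3, s4⟩
  exact h.U3 (n := n + ((j + 1 : ℕ) : ℤ)) (by rw [s1]; linarith [hQj.1]) t3 s4

/-- (U) no lift lands in zone `U` -/
lemma NOrb.U {v : ℤ → E 3} (h : NOrb v) {n : ℤ} (h1 : 1 / 2 < v n 1) (h2 : v n 1 < 1) :
    hh (v n 0) (v n 2) = 0 := by
  by_contra hne
  obtain ⟨a1, a2⟩ := hh_ne_zero (h.hx n) (h.hz n) hne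
  rw [abs_lt] at a1 a2
  rcases lt_or_ge (v n 1) (3 / 5) with hy | hy
  · have c1 : v (n + 1) 0 = aP (v n 0) := by
      rw [h.x_succ, ax_P (by linarith) (by linarith)]
    obtain ⟨θ, t1, t2, t3⟩ := aP_sub (s := 0) (t := v n 0) (by norm_num)
      (by rw [abs_of_nonneg] <;> linarith)
    rw [aP_zero, sub_zero, sub_zero] at t3
    have c2 : 21 / 250 < v (n + 1) 0 := by
      rw [c1, t3]; nlinarith
    have c3 := h.no_lift_x (n := n) (far_right c2.le)
    have c4 := phi_lt h1 h2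
    exact h.U1 (n := n + 1) (by rw [c3]; exact c4.1) (by rw [c3]; linarith [c4.2]) c2
  · rcases le_or_gt (v n 1) (9 / 10) with hy' | hy'
    · exact h.U3 hy hy' a2.1.le
    · exact h.U4 hy' h2 (by linarith) (by linarith) a2.1.le

/-! ## zone `U` is never visited -/

lemma NOrb.y_pred {v : ℤ → E 3} (h : NOrb v) (m : ℤ) :
    v m 1 = phi (v (m - 1) 1) + hh (v m 0) (v m 2) := by
  have := h.y_succ (m - 1)
  rwa [sub_add_cancel] at this
lemma NOrb.x_pred {v : ℤ → E 3} (h : NOrb v) (m : ℤ) :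
    v m 0 = ax (v (m - 1) 1) (v (m - 1) 0) := by
  have := h.x_succ (m - 1)
  rwa [sub_add_cancel] at this
lemma NOrb.z_pred {v : ℤ → E 3} (h : NOrb v) (m : ℤ) :
    v m 2 = bz (v (m - 1) 1) (v (m - 1) 2) := by
  have := h.z_succ (m - 1)
  rwa [sub_add_cancel] at this

lemma NOrb.noU {v : ℤ → E 3} (h : NOrb v) {n : ℤ} (h1 : 1 / 2 < v n 1) (h2 : v n 1 < 1) :
    False := by
  have step : ∀ m, 1 / 2 < v m 1 → v m 1 < 1 →
      phi (v (m - 1) 1) = v m 1 ∧ 1 / 2 < v (m - 1) 1 ∧ v (m - 1) 1 < 1 := by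
    intro m a1 a2
    have e := h.y_pred m
    rw [h.U a1 a2, add_zero] at e
    refine ⟨e.symm, ?_, ?_⟩
    · rw [← strictMono_phi.lt_iff_lt, phi_half, ← e]; exact a1
    · rw [← strictMono_phi.lt_iff_lt, phi_one, ← e]; exact a2
  have e : ∀ k : ℕ, n - ((k + 1 : ℕ) : ℤ) = n - k - 1 := by intro k; push_cast; ring
  have inv : ∀ k : ℕ, 1 / 2 < v (n - k) 1 ∧ v (n - k) 1 < 1 := by
    intro k
    induction k with
    | zero => rw [Nat.cast_zero, sub_zero]; exact ⟨h1, h2⟩
    | succ k ih =>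
      rw [e k]
      exact (step _ ih.1 ih.2).2
  obtain ⟨K, hK⟩ := back_U (s := fun k : ℕ => v (n - k) 1) (b := 19 / 20) (by norm_num)
    (fun k => (inv k).1) (fun k => (inv k).2) (fun k => by
      show phi (v (n - ((k + 1 : ℕ) : ℤ)) 1) = _
      rw [e k]
      exact (step _ (inv k).1 (inv k).2).1)
  have mono : ∀ i : ℕ, 19 / 20 < v (n - ((K + i : ℕ) : ℤ)) 1 := by
    intro i
    induction i with
    | zero => exact hK
    | succ i ih =>
      have e' : n - ((K + (i + 1) : ℕ) : ℤ) = n - ((K + i : ℕ) : ℤ) - 1 := by push_cast; ring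
      rw [e']
      obtain ⟨s1, s2, s3⟩ := step _ (inv (K + i)).1 (inv (K + i)).2
      have := (phi_lt s2 s3).2
      rw [s1] at this
      linarith
  have hz := (h.shift (-1)).back_zero (J := n - K) (by
    intro m hm
    show |(v m + intVec (sh (-1))) 1| < 1 / 20
    rw [add_sh_one]
    obtain ⟨i, hi⟩ := Int.eq_ofNat_of_zero_le (show 0 ≤ n - K - m by omega)
    have em : m = n - ((K + i : ℕ) : ℤ) := by push_cast; omega
    have b1 := mono i
    have b2 := (inv (K + i)).2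
    rw [em, abs_lt]
    constructor <;> push_cast <;> push_cast at b1 b2 <;> linarith) (n - K) le_rfl
  simp only [add_sh_zero, add_sh_two] at hz
  exact h.U4 (n := n - K) (lt_trans (by norm_num) hK) (inv K).2 hz.1.ge
    (by rw [hz.1]; norm_num) (by rw [hz.2]; norm_num)

/-- zone `U` shifted by an integer -/
lemma NOrb.noU' {v : ℤ → E 3} (h : NOrb v) {n : ℤ} (k : ℤ) (h1 : 1 / 2 < v n 1 + k)
    (h2 : v n 1 + k < 1) : False := by
  refine (h.shift k).noU (n := n) ?_ ?_
  · show 1 / 2 < (v n + intVec (sh k)) 1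
    rw [add_sh_one]; exact h1
  · show (v n + intVec (sh k)) 1 < 1
    rw [add_sh_one]; exact h2

/-- (C) no lift from `y = 0` -/
lemma NOrb.C {v : ℤ → E 3} (h : NOrb v) {n : ℤ} (h1 : v n 1 = 0) : v (n + 1) 1 = 0 := by
  have a1 := (h.notR (n := n) (by rw [h1]; norm_num)).1
  have a2 : v (n + 1) 0 = aQ (v n 0) := by
    rw [h.x_succ, ax_Q (by rw [h1]; norm_num) (by rw [h1]; norm_num)]
  have a3 := abs_aQ_le (x := v n 0) (a1.trans (by norm_num))
  rw [h.no_lift_x (far_left ?_), h1, phi_zero]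
  rw [a2]
  have := le_abs_self (aQ (v n 0))
  linarith

/-- (D) zone `L` -/
lemma NOrb.D {v : ℤ → E 3} (h : NOrb v) {n : ℤ} (h1 : 0 < v n 1) (h2 : v n 1 < 1 / 2) :
    (∀ m ≤ n, 0 < v m 1 ∧ v m 1 < 1 / 2) ∧ (∃ J ≤ n, ∀ m ≤ J, v m 0 = 0 ∧ v m 2 = 0) ∧
      (∀ m ≤ n + 1, v m 0 ≤ 0) := by
  have step : ∀ m, 0 < v m 1 → v m 1 < 1 / 2 →
      phi (v (m - 1) 1) ≤ v m 1 ∧ 0 < v (m - 1) 1 ∧ v (m - 1) 1 < 1 / 2 := by
    intro m a1 a2
    have e := h.y_pred m
    have b1 := hh_nonneg (v m 0) (v m 2)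
    have b2 := hh_le_half (v m 0) (v m 2)
    have b3 : phi (v (m - 1) 1) ≤ v m 1 := by linarith
    have b4 : v (m - 1) 1 < 1 / 2 := by
      rw [← strictMono_phi.lt_iff_lt, phi_half]; linarith
    have b5 : -(1 / 2) < v (m - 1) 1 := by
      have e2 : phi (-(1 / 2)) = -(1 / 2) := by
        have := phi_add_int (1 / 2) (-1)
        rw [phi_half] at this
        push_cast at this
        convert this using 2 <;> ring
      rw [← strictMono_phi.lt_iff_lt, e2]; linarith
    refine ⟨b3, ?_, b4⟩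
    rcases lt_trichotomy (v (m - 1) 1) 0 with c | c | c
    · exact (h.noU' (n := m - 1) 1 (by push_cast; linarith) (by push_cast; linarith)).elim
    · have := h.C c
      rw [sub_add_cancel] at this
      linarith
    · exact c
  have e : ∀ k : ℕ, n - ((k + 1 : ℕ) : ℤ) = n - k - 1 := by intro k; push_cast; ring
  have inv : ∀ k : ℕ, 0 < v (n - k) 1 ∧ v (n - k) 1 < 1 / 2 := by
    intro k
    induction k with
    | zero => rw [Nat.cast_zero, sub_zero]; exact ⟨h1, h2⟩
    | succ k ih =>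
      rw [e k]
      exact (step _ ih.1 ih.2).2
  have hall : ∀ m ≤ n, 0 < v m 1 ∧ v m 1 < 1 / 2 := by
    intro m hm
    obtain ⟨i, hi⟩ := Int.eq_ofNat_of_zero_le (show 0 ≤ n - m by omega)
    have em : m = n - (i : ℤ) := by omega
    rw [em]; exact inv i
  obtain ⟨K, hK⟩ := back_L (s := fun k : ℕ => v (n - k) 1) (a := 1 / 20) (by norm_num)
    (fun k => (inv k).1) (fun k => (inv k).2) (fun k => by
      show phi (v (n - ((k + 1 : ℕ) : ℤ)) 1) ≤ _
      rw [e k]
      exact (step _ (inv k).1 (inv k).2).1)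
  have mono : ∀ i : ℕ, v (n - ((K + i : ℕ) : ℤ)) 1 < 1 / 20 := by
    intro i
    induction i with
    | zero => exact hK
    | succ i ih =>
      have e' : n - ((K + (i + 1) : ℕ) : ℤ) = n - ((K + i : ℕ) : ℤ) - 1 := by push_cast; ring
      rw [e']
      obtain ⟨s1, s2, s3⟩ := step _ (inv (K + i)).1 (inv (K + i)).2
      have := (phi_gt s2 s3).1
      linarith
  have hz := h.back_zero (J := n - K) (by
    intro m hm
    obtain ⟨i, hi⟩ := Int.eq_ofNat_of_zero_le (show 0 ≤ n - K - m by omega)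
    have em : m = n - ((K + i : ℕ) : ℤ) := by push_cast; omega
    have b1 := mono i
    have b2 := (inv (K + i)).1
    rw [em, abs_lt]
    constructor
    · linarith
    · exact b1)
  refine ⟨hall, ⟨n - K, by omega, hz⟩, ?_⟩
  have key : ∀ i : ℕ, n - K + i ≤ n + 1 → v (n - K + i) 0 ≤ 0 := by
    intro i
    induction i with
    | zero => intro _; rw [Nat.cast_zero, add_zero]; exact (hz _ le_rfl).1.le
    | succ i ih =>
      intro hi
      have e' : n - K + ((i + 1 : ℕ) : ℤ) = (n - K + i) + 1 := by push_cast; ring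
      rw [e', h.x_succ]
      have := ih (by push_cast at hi; omega)
      refine ((strictMono_ax _).monotone this).trans ?_
      rw [ax_zero]; exact k1_nonpos _
  intro m hm
  rcases le_total m (n - K) with hc | hc
  · exact (hz m hc).1.le
  · obtain ⟨i, hi⟩ := Int.eq_ofNat_of_zero_le (show 0 ≤ m - (n - K) by omega)
    have em : m = n - K + (i : ℤ) := by omega
    rw [em]; exact key i (by omega)

/-! ## an orbit that visits zone `L` is the orbit of `bt` -/

lemma NOrb.L_all {v : ℤ → E 3} (h : NOrb v) {n : ℤ} (h1 : 0 < v n 1) (h2 : v n 1 < 1 / 2) :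
    ∀ m, 0 < v m 1 ∧ v m 1 < 1 / 2 := by
  have fwd : ∀ k : ℕ, 0 < v (n + k) 1 ∧ v (n + k) 1 < 1 / 2 := by
    intro k
    induction k with
    | zero => rw [Nat.cast_zero, add_zero]; exact ⟨h1, h2⟩
    | succ k ih =>
      have e : n + ((k + 1 : ℕ) : ℤ) = (n + k) + 1 := by push_cast; ring
      have hx := (h.D ih.1 ih.2).2.2 (n + k + 1) le_rfl
      rw [e, h.no_lift_x (far_left (by linarith))]
      have := phi_gt ih.1 ih.2
      exact ⟨by linarith [ih.1, this.1], this.2⟩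
  intro m
  rcases le_total m n with hc | hc
  · exact (h.D h1 h2).1 m hc
  · obtain ⟨i, hi⟩ := Int.eq_ofNat_of_zero_le (show 0 ≤ m - n by omega)
    have em : m = n + (i : ℤ) := by omega
    rw [em]; exact fwd i

lemma NOrb.L_x {v : ℤ → E 3} (h : NOrb v) (hL : ∀ m, 0 < v m 1 ∧ v m 1 < 1 / 2) :
    (∀ m, v (m + 1) 1 = phi (v m 1)) ∧ ∀ m, v m 0 = 0 := by
  have hx : ∀ m, v m 0 ≤ 0 := fun m => (h.D (hL m).1 (hL m).2).2.2 m (by omega)
  have hy : ∀ m, v (m + 1) 1 = phi (v m 1) := fun m =>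
    h.no_lift_x (far_left (by linarith [hx (m + 1)]))
  refine ⟨hy, ?_⟩
  intro m
  by_contra hne
  have hneg : v m 0 < 0 := lt_of_le_of_ne (hx m) hne
  have e : ∀ k : ℕ, m + ((k + 1 : ℕ) : ℤ) = (m + k) + 1 := by intro k; push_cast; ring
  have inv : ∀ k : ℕ, v (m + k) 0 < 0 := by
    intro k
    induction k with
    | zero => rw [Nat.cast_zero, add_zero]; exact hneg
    | succ k ih =>
      rw [e k, h.x_succ]
      refine lt_of_lt_of_le (strictMono_ax _ ih) ?_
      rw [ax_zero]; exact k1_nonpos _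
  obtain ⟨K, hK⟩ := asc_L (s := fun k : ℕ => v (m + k) 1) (b := 9 / 20) (by norm_num)
    (hL _).1 (fun k => (hL _).2) (fun k => by
      show v (m + ((k + 1 : ℕ) : ℤ)) 1 = _
      rw [e k, hy])
  have mono : ∀ i : ℕ, 9 / 20 < v (m + ((K + i : ℕ) : ℤ)) 1 := by
    intro i
    induction i with
    | zero => exact hK
    | succ i ih =>
      have e' : m + ((K + (i + 1) : ℕ) : ℤ) = m + ((K + i : ℕ) : ℤ) + 1 := by push_cast; ring
      rw [e', hy]
      have := (phi_gt (hL (m + ((K + i : ℕ) : ℤ))).1 (hL _).2).1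
      linarith
  have hz := h.fwd_zero (J := m + K) (by
    intro l hl
    obtain ⟨i, hi⟩ := Int.eq_ofNat_of_zero_le (show 0 ≤ l - (m + K) by omega)
    have em : l = m + ((K + i : ℕ) : ℤ) := by push_cast; omega
    have b1 := mono i
    rw [← em] at b1
    have b2 := (hL l).2
    rw [abs_lt]
    constructor <;> linarith) (m + K) le_rfl
  linarith [inv K, hz.1]

lemma NOrb.L_b {v : ℤ → E 3} (h : NOrb v) (hL : ∀ m, 0 < v m 1 ∧ v m 1 < 1 / 2) :
    ∃ m, v m 1 = 3 / 16 := by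
  obtain ⟨hy, hx⟩ := h.L_x hL
  have hk : ∀ m, k1 (v m 1) = 0 := by
    intro m
    have := h.x_succ m
    rw [hx, hx, ax_zero] at this
    exact this.symm
  obtain ⟨K, hK⟩ := back_L (s := fun k : ℕ => v (-(k : ℤ)) 1) (a := 1 / 20) (by norm_num)
    (fun k => (hL _).1) (fun k => (hL _).2) (fun k => by
      show phi (v (-((k + 1 : ℕ) : ℤ)) 1) ≤ v (-(k : ℤ)) 1
      rw [← hy]
      exact le_of_eq (by congr 2; push_cast; ring))
  have eK : ∀ k : ℕ, -(K : ℤ) + ((k + 1 : ℕ) : ℤ) = (-(K : ℤ) + k) + 1 := by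
    intro k; push_cast; ring
  have hex : ∃ k : ℕ, 1 / 8 < v (-(K : ℤ) + k) 1 :=
    asc_L (s := fun k : ℕ => v (-(K : ℤ) + k) 1) (b := 1 / 8) (by norm_num)
      (hL _).1 (fun k => (hL _).2) (fun k => by
        show v (-(K : ℤ) + ((k + 1 : ℕ) : ℤ)) 1 = _
        rw [eK k, hy])
  classical
  have hk1 := Nat.find_spec hex
  have hk0 : Nat.find hex ≠ 0 := by
    intro h0
    rw [h0, Nat.cast_zero, add_zero] at hk1
    linarith
  obtain ⟨j, hj⟩ := Nat.exists_eq_succ_of_ne_zero hk0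
  have hlt : v (-(K : ℤ) + j) 1 ≤ 1 / 8 := by
    by_contra hc
    push Not at hc
    have := Nat.find_min' hex hc
    omega
  rw [hj] at hk1
  have e1 : v (-(K : ℤ) + ((j + 1 : ℕ) : ℤ)) 1 = phi (v (-(K : ℤ) + j) 1) := by
    rw [eK j, hy]
  have h4 : v (-(K : ℤ) + ((j + 1 : ℕ) : ℤ)) 1 < 1 / 4 := by
    rw [e1]
    exact lt_of_le_of_lt (strictMono_phi.monotone hlt) phi_eighth.2
  refine ⟨-(K : ℤ) + ((j + 1 : ℕ) : ℤ), ?_⟩
  by_contra hne
  have := k1_neg (y := v (-(K : ℤ) + ((j + 1 : ℕ) : ℤ)) 1) (by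
    have hk1' : 1 / 8 < v (-(K : ℤ) + ((j + 1 : ℕ) : ℤ)) 1 := hk1
    rw [abs_lt]; constructor <;> linarith) hne
  linarith [hk (-(K : ℤ) + ((j + 1 : ℕ) : ℤ))]

lemma NOrb.L_mem {v : ℤ → E 3} (h : NOrb v) {n : ℤ} (h1 : 0 < v n 1) (h2 : v n 1 < 1 / 2) :
    v n ∈ CP ∪ CQ := by
  have hL := h.L_all h1 h2
  obtain ⟨hy, hx⟩ := h.L_x hL
  obtain ⟨b, hb⟩ := h.L_b hL
  have e1 : ∀ k : ℕ, b - ((k + 1 : ℕ) : ℤ) + 1 = b - k := by intro k; push_cast; ring
  have e2 : ∀ k : ℕ, b + ((k + 1 : ℕ) : ℤ) = b + k + 1 := by intro k; push_cast; ring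
  -- the past
  have past : ∀ i : ℕ, v (b - ((i + 1 : ℕ) : ℤ)) 1 < 1 / 8 := by
    intro i
    induction i with
    | zero =>
      rw [← strictMono_phi.lt_iff_lt, ← hy, e1 0, Nat.cast_zero, sub_zero, hb]
      exact phi_eighth.1
    | succ i ih =>
      have := (phi_gt (hL (b - ((i + 1 + 1 : ℕ) : ℤ))).1 (hL _).2).1
      rw [← hy, e1 (i + 1)] at this
      linarith
  have past' : ∀ m < b, v m 1 < 1 / 8 := by
    intro m hm
    obtain ⟨i, hi⟩ := Int.eq_ofNat_of_zero_le (show 0 ≤ b - m - 1 by omega)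
    have em : m = b - ((i + 1 : ℕ) : ℤ) := by push_cast; omega
    rw [em]; exact past i
  have zb : ∀ m ≤ b, v m 2 = 0 := by
    obtain ⟨J, hJ, hz⟩ := (h.D (hL b).1 (hL b).2).2.1
    have key : ∀ i : ℕ, J + i ≤ b → v (J + i) 2 = 0 := by
      intro i
      induction i with
      | zero => intro _; rw [Nat.cast_zero, add_zero]; exact (hz _ le_rfl).2
      | succ i ih =>
        intro hi
        have e' : J + ((i + 1 : ℕ) : ℤ) = (J + i) + 1 := by push_cast; ring
        have hlt : J + (i : ℤ) < b := by push_cast at hi; omega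
        rw [e', h.z_succ, bz_Q (by linarith [(hL (J + i)).1]) (past' _ hlt).le, ih hlt.le, bQ_zero]
    intro m hm
    rcases le_total m J with hc | hc
    · exact (hz m hc).2
    · obtain ⟨i, hi⟩ := Int.eq_ofNat_of_zero_le (show 0 ≤ m - J by omega)
      have em : m = J + (i : ℤ) := by omega
      rw [em]; exact key i (by omega)
  have yback : ∀ i : ℕ, phi^[i] (v (b - i) 1) = 3 / 16 := by
    intro i
    induction i with
    | zero => rw [Nat.cast_zero, sub_zero]; exact hb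
    | succ i ih =>
      rw [Function.iterate_succ_apply, ← hy, e1 i]; exact ih
  have yfwd : ∀ i : ℕ, v (b + i) 1 = phi^[i] (3 / 16) := by
    intro i
    induction i with
    | zero => rw [Nat.cast_zero, add_zero]; exact hb
    | succ i ih =>
      rw [Function.iterate_succ_apply', e2 i, hy, ih]
  have yP : ∀ i : ℕ, 3 / 10 ≤ v (b + ((i + 1 : ℕ) : ℤ)) 1 := by
    intro i
    induction i with
    | zero =>
      rw [e2 0, hy, Nat.cast_zero, add_zero, hb]
      have := phi_b.1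
      linarith
    | succ i ih =>
      have := (phi_gt (hL (b + ((i + 1 : ℕ) : ℤ))).1 (hL _).2).1
      rw [← hy, ← e2 (i + 1)] at this
      linarith
  have zf : ∀ i : ℕ, v (b + i) 2 = 0 := by
    intro i
    induction i with
    | zero => rw [Nat.cast_zero, add_zero]; exact zb b le_rfl
    | succ i ih =>
      rw [e2 i, h.z_succ, ih, bz_zero]
      rcases Nat.eq_zero_or_pos i with h0 | h0
      · subst h0
        rw [Nat.cast_zero, add_zero, hb, k2_b]
      · obtain ⟨j, rfl⟩ := Nat.exists_eq_succ_of_ne_zero h0.ne'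
        rw [← bz_zero, bz_P (yP j) (by linarith [(hL (b + ((j.succ : ℕ) : ℤ))).2]), bP_zero]
  rcases le_or_gt n b with hc | hc
  · right
    obtain ⟨i, hi⟩ := Int.eq_ofNat_of_zero_le (show 0 ≤ b - n by omega)
    have en : n = b - (i : ℤ) := by omega
    right; right
    refine ⟨i, hx n, ?_, zb n hc⟩
    rw [en]; exact yback i
  · left
    obtain ⟨i, hi⟩ := Int.eq_ofNat_of_zero_le (show 0 ≤ n - b - 1 by omega)
    have en : n = b + ((i + 1 : ℕ) : ℤ) := by push_cast; omega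
    right; right
    refine ⟨i, hx n, ?_, ?_⟩
    · rw [en]; exact yfwd (i + 1)
    · rw [en]; exact zf (i + 1)

/-! ## the orbits through `y = 0` and `y = 1/2` -/

lemma NOrb.zero_mem {v : ℤ → E 3} (h : NOrb v) {n : ℤ} (h1 : v n 1 = 0) :
    v n ∈ CP ∪ CQ := by
  right
  by_cases hall : ∀ k : ℕ, v (n - k) 1 = 0
  · left
    have := h.back_zero (J := n) (by
      intro m hm
      obtain ⟨i, hi⟩ := Int.eq_ofNat_of_zero_le (show 0 ≤ n - m by omega)
      have em : m = n - (i : ℤ) := by omega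
      rw [em, hall i]; norm_num) n le_rfl
    exact ⟨this.1, h1, this.2⟩
  · right; left
    push Not at hall
    classical
    have hk := Nat.find_spec hall
    have hk0 : Nat.find hall ≠ 0 := by
      intro h0; rw [h0, Nat.cast_zero, sub_zero] at hk; exact hk h1
    obtain ⟨j, hj⟩ := Nat.exists_eq_succ_of_ne_zero hk0
    have hyj : v (n - j) 1 = 0 := by
      by_contra hc
      have := Nat.find_min' hall hc
      omega
    rw [hj] at hk
    have e0 : n - ((j.succ : ℕ) : ℤ) = n - j - 1 := by push_cast; ring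
    rw [e0] at hk
    have ey := h.y_pred (n - j)
    rw [hyj] at ey
    have b1 := hh_nonneg (v (n - j) 0) (v (n - j) 2)
    have b2 := hh_le_half (v (n - j) 0) (v (n - j) 2)
    have e2 : phi (-(1 / 2)) = -(1 / 2) := by
      have := phi_add_int (1 / 2) (-1)
      rw [phi_half] at this
      push_cast at this
      convert this using 2 <;> ring
    have b3 : v (n - j - 1) 1 ≤ 0 := by
      rw [← strictMono_phi.le_iff_le, phi_zero]; linarith
    have b4 : -(1 / 2) ≤ v (n - j - 1) 1 := by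
      rw [← strictMono_phi.le_iff_le, e2]; linarith
    have b5 : v (n - j - 1) 1 = -(1 / 2) := by
      by_contra hc
      have c1 : -(1 / 2) < v (n - j - 1) 1 := lt_of_le_of_ne b4 (Ne.symm hc)
      have c2 : v (n - j - 1) 1 < 0 := lt_of_le_of_ne b3 hk
      exact h.noU' (n := n - j - 1) 1 (by push_cast; linarith) (by push_cast; linarith)
    rw [b5, e2] at ey
    obtain ⟨b6, b7⟩ := hh_eq_half (h.hx (n - j)) (h.hz (n - j)) (by linarith)
    have fwd : ∀ i : ℕ, v (n - j + i) 0 = aQ^[i] (2 / 25) ∧ v (n - j + i) 1 = 0 ∧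
        v (n - j + i) 2 = 0 := by
      intro i
      induction i with
      | zero => rw [Nat.cast_zero, add_zero]; exact ⟨b6, hyj, b7⟩
      | succ i ih =>
        obtain ⟨i1, i2, i3⟩ := ih
        have e' : n - j + ((i + 1 : ℕ) : ℤ) = (n - j + i) + 1 := by push_cast; ring
        rw [e']
        refine ⟨?_, h.C i2, ?_⟩
        · rw [h.x_succ, ax_Q (by rw [i2]; norm_num) (by rw [i2]; norm_num), i1,
            Function.iterate_succ_apply']
        · rw [h.z_succ, bz_Q (by rw [i2]; norm_num) (by rw [i2]; norm_num), i3, bQ_zero]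
    have := fwd j
    rw [sub_add_cancel] at this
    exact ⟨j, this⟩

lemma NOrb.half_back {v : ℤ → E 3} (h : NOrb v) {m : ℤ} (h1 : v m 1 = 1 / 2) :
    v (m - 1) 1 = 1 / 2 := by
  have ey := h.y_pred m
  rw [h1] at ey
  have b1 := hh_nonneg (v m 0) (v m 2)
  have b2 := hh_le_half (v m 0) (v m 2)
  have b3 : v (m - 1) 1 ≤ 1 / 2 := by
    rw [← strictMono_phi.le_iff_le, phi_half]; linarith
  have b4 : 0 ≤ v (m - 1) 1 := by
    rw [← strictMono_phi.le_iff_le, phi_zero]; linarith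
  by_contra hc
  have c1 : v (m - 1) 1 < 1 / 2 := lt_of_le_of_ne b3 hc
  rcases b4.eq_or_lt with c2 | c2
  · have := h.C c2.symm
    rw [sub_add_cancel, h1] at this
    norm_num at this
  · have := (h.L_all c2 c1 m).2
    linarith

lemma aP_xm {x : ℝ} (hx : aP x = 2 / 25) : x = xm := by
  have h1 : aP xm = 2 / 25 := Function.invFun_eq ⟨x, hx⟩
  exact strictMono_aP.injective (hx.trans h1.symm)

lemma NOrb.half_mem {v : ℤ → E 3} (h : NOrb v) {n : ℤ} (h1 : v n 1 = 1 / 2) :
    v n ∈ CP ∪ CQ := by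
  left
  by_cases hall : ∀ k : ℕ, v (n + k) 1 = 1 / 2
  · left
    have := h.fwd_zero (J := n) (by
      intro m hm
      obtain ⟨i, hi⟩ := Int.eq_ofNat_of_zero_le (show 0 ≤ m - n by omega)
      have em : m = n + (i : ℤ) := by omega
      rw [em, hall i]; norm_num) n le_rfl
    exact ⟨this.1, h1, this.2⟩
  · right; left
    push Not at hall
    classical
    have hk := Nat.find_spec hall
    have hk0 : Nat.find hall ≠ 0 := by
      intro h0; rw [h0, Nat.cast_zero, add_zero] at hk; exact hk h1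
    obtain ⟨j, hj⟩ := Nat.exists_eq_succ_of_ne_zero hk0
    have hyj : v (n + j) 1 = 1 / 2 := by
      by_contra hc
      have := Nat.find_min' hall hc
      omega
    rw [hj] at hk
    have e0 : n + ((j.succ : ℕ) : ℤ) = n + j + 1 := by push_cast; ring
    rw [e0] at hk
    have ey := h.y_succ (n + j)
    rw [hyj, phi_half] at ey
    have b1 := hh_nonneg (v (n + j + 1) 0) (v (n + j + 1) 2)
    have b2 := hh_le_half (v (n + j + 1) 0) (v (n + j + 1) 2)
    have b3 : 1 / 2 < v (n + j + 1) 1 := lt_of_le_of_ne (by linarith) (Ne.symm hk)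
    have b4 : v (n + j + 1) 1 = 1 := by
      by_contra hc
      exact h.noU b3 (lt_of_le_of_ne (by linarith) hc)
    obtain ⟨b6, b7⟩ := hh_eq_half (h.hx (n + j + 1)) (h.hz (n + j + 1)) (by linarith)
    have c1 : v (n + j) 0 = xm := by
      apply aP_xm
      rw [← b6, h.x_succ, ax_P (by rw [hyj]; norm_num) (by rw [hyj]; norm_num)]
    have c2 : v (n + j) 2 = 0 := by
      have := h.z_succ (n + j)
      rw [b7, bz_P (by rw [hyj]; norm_num) (by rw [hyj]; norm_num), ← bP_zero] at this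
      exact (strictMono_bP.injective this).symm
    have back : ∀ i : ℕ, aP^[i] (v (n + j - i) 0) = xm ∧ v (n + j - i) 1 = 1 / 2 ∧
        v (n + j - i) 2 = 0 := by
      intro i
      induction i with
      | zero => rw [Nat.cast_zero, sub_zero]; exact ⟨c1, hyj, c2⟩
      | succ i ih =>
        obtain ⟨i1, i2, i3⟩ := ih
        have e' : n + j - ((i + 1 : ℕ) : ℤ) = (n + j - i) - 1 := by push_cast; ring
        rw [e']
        have i4 := h.half_back i2
        refine ⟨?_, i4, ?_⟩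
        · have := h.x_pred (n + j - i)
          rw [ax_P (by rw [i4]; norm_num) (by rw [i4]; norm_num)] at this
          rw [Function.iterate_succ_apply, ← this]
          exact i1
        · have := h.z_pred (n + j - i)
          rw [i3, bz_P (by rw [i4]; norm_num) (by rw [i4]; norm_num), ← bP_zero] at this
          exact (strictMono_bP.injective this).symm
    have := back j
    rw [add_sub_cancel_right] at this
    exact ⟨j, this⟩

/-! ## normalisation -/

lemma norm_all {s : ℤ → ℝ} {y : ℤ → ℝ} {A : ℝ → ℝ → ℝ} (hs : ∀ m, s (m + 1) = A (y m) (s m))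
    (hA : ∀ y, StrictMono (A y)) (hp : ∀ y, A y (1 / 2) = 1 / 2)
    (hm : ∀ y, A y (-(1 / 2)) = -(1 / 2)) {n : ℤ} (h0 : |s n| ≤ 1 / 2) (m : ℤ) :
    |s m| ≤ 1 / 2 := by
  have fwd : ∀ m, |s m| ≤ 1 / 2 → |s (m + 1)| ≤ 1 / 2 := by
    intro m h
    rw [abs_le] at h ⊢
    rw [hs]
    constructor
    · rw [← hm (y m)]; exact (hA _).monotone h.1
    · rw [← hp (y m)]; exact (hA _).monotone h.2
  have bwd : ∀ m, |s (m + 1)| ≤ 1 / 2 → |s m| ≤ 1 / 2 := by
    intro m h
    rw [abs_le] at h ⊢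
    rw [hs] at h
    constructor
    · rw [← (hA (y m)).le_iff_le, hm]; exact h.1
    · rw [← (hA (y m)).le_iff_le, hp]; exact h.2
  have f : ∀ k : ℕ, |s (n + k)| ≤ 1 / 2 := by
    intro k
    induction k with
    | zero => rw [Nat.cast_zero, add_zero]; exact h0
    | succ k ih =>
      have e : n + ((k + 1 : ℕ) : ℤ) = (n + k) + 1 := by push_cast; ring
      rw [e]; exact fwd _ ih
  have b : ∀ k : ℕ, |s (n - k)| ≤ 1 / 2 := by
    intro k
    induction k with
    | zero => rw [Nat.cast_zero, sub_zero]; exact h0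
    | succ k ih =>
      have e : n - ((k + 1 : ℕ) : ℤ) + 1 = n - k := by push_cast; ring
      apply bwd; rw [e]; exact ih
  rcases le_total m n with hc | hc
  · obtain ⟨i, hi⟩ := Int.eq_ofNat_of_zero_le (show 0 ≤ n - m by omega)
    have em : m = n - (i : ℤ) := by omega
    rw [em]; exact b i
  · obtain ⟨i, hi⟩ := Int.eq_ofNat_of_zero_le (show 0 ≤ m - n by omega)
    have em : m = n + (i : ℤ) := by omega
    rw [em]; exact f i

lemma intVec_add' (a b : Fin 3 → ℤ) : intVec (a + b) = intVec a + intVec b := by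
  funext i; simp [intVec]

end

end GlobalAux

open GlobalAux in
/-- the maximal invariant set of `fmap` in `KK` is the cycle -/
theorem global : S_Global := by
  intro u hu n
  set a : ℤ := - round (u n 0) with ha
  set c : ℤ := - round (u n 2) with hc
  set k0 : Fin 3 → ℤ := ![a, 0, c] with hk0
  have hstep : ∀ m, fmap (u m + intVec k0) = u (m + 1) + intVec k0 := by
    intro m; rw [fmap_add_int, hu.step m]
  have hxn : |(u n + intVec k0) 0| ≤ 1 / 2 := by
    have e : (u n + intVec k0) 0 = u n 0 - round (u n 0) := by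
      simp [hk0, ha, intVec, sub_eq_add_neg]
    rw [e]; exact abs_sub_round _
  have hzn : |(u n + intVec k0) 2| ≤ 1 / 2 := by
    have e : (u n + intVec k0) 2 = u n 2 - round (u n 2) := by
      simp [hk0, hc, intVec, sub_eq_add_neg]
    rw [e]; exact abs_sub_round _
  have hN : NOrb (fun m => u m + intVec k0) :=
    { step := hstep
      mem := fun m => (KK_add _ _).2 (hu.mem m)
      hx := fun m => norm_all (s := fun m => (u m + intVec k0) 0)
        (y := fun m => (u m + intVec k0) 1) (A := ax)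
        (fun m => by
          show (u (m + 1) + intVec k0) 0 = _
          rw [← hstep m, fmap_zero]) strictMono_ax ax_half ax_neg_half hxn m
      hz := fun m => norm_all (s := fun m => (u m + intVec k0) 2)
        (y := fun m => (u m + intVec k0) 1) (A := bz)
        (fun m => by
          show (u (m + 1) + intVec k0) 2 = _
          rw [← hstep m, fmap_two]) strictMono_bz bz_half bz_neg_half hzn m }
  set f : ℤ := ⌊(u n + intVec k0) 1⌋ with hf
  have hW := hN.shift (-f)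
  have hy : ((fun m => (u m + intVec k0) + intVec (sh (-f))) n) 1 =
      Int.fract ((u n + intVec k0) 1) := by
    show ((u n + intVec k0) + intVec (sh (-f))) 1 = _
    rw [add_sh_one, Int.fract, ← hf]; push_cast; ring
  have h0 := Int.fract_nonneg ((u n + intVec k0) 1)
  have h1 := Int.fract_lt_one ((u n + intVec k0) 1)
  rw [← hy] at h0 h1
  refine ⟨k0 + sh (-f), ?_⟩
  rw [intVec_add', ← add_assoc]
  rcases h0.eq_or_lt with h2 | h2
  · exact hW.zero_mem h2.symm
  · rcases lt_trichotomy (((fun m => (u m + intVec k0) + intVec (sh (-f))) n) 1) (1 / 2)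
      with h3 | h3 | h3
    · exact hW.L_mem h2 h3
    · exact hW.half_mem h3
    · exact (hW.noU h3 h1).elim

end HetCyc
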