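import Pool.Agent.HetCyc.Stmts

/-!
# Module HC_GoodEx: every diffeomorphism close to the model is good
-/

namespace HetCyc

open Filter Topology Set

namespace GoodEx

lemma lipClose_mono {ε ε' : ℝ} {g : E 3 ≃ E 3} (h : ε ≤ ε') (hg : LipClose ε g) :
    LipClose ε' g where
  map_add := hg.map_add
  dist_le := fun p => (hg.dist_le p).trans h
  lip := fun p q => (hg.lip p q).trans (mul_le_mul_of_nonneg_right h (norm_nonneg _))

end GoodEx

open GoodEx in
theorem goodEx (hT : S_Trap) (hP : S_Passage) (h1 : S_InstP) (h2 : S_InstQ) (hB : S_NearB) :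
    S_GoodEx := by
  obtain ⟨εT, hεT, hT1, hT2⟩ := hT
  obtain ⟨ρ₀, hρ₀, hPass⟩ := hP
  obtain ⟨hk0, hk1, hB'⟩ := hB
  obtain ⟨ρB, hρB, hB1⟩ := hB' (kap / 80) (by positivity)
  -- the choice of `ρ`
  obtain ⟨ρ, hρ, hρ1, hρT, hρP, hρB'⟩ : ∃ ρ : ℝ, 0 < ρ ∧ ρ ≤ 1 / 1000 ∧ ρ ≤ εT / 2 ∧ ρ ≤ ρ₀ ∧
      ρ ≤ ρB := by
    refine ⟨min (min (1 / 1000) (εT / 2)) (min ρ₀ ρB), ?_, ?_, ?_, ?_, ?_⟩
    · exact lt_min (lt_min (by norm_num) (by linarith)) (lt_min hρ₀ hρB)
    · exact (min_le_left _ _).trans (min_le_left _ _)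
    · exact (min_le_left _ _).trans (min_le_right _ _)
    · exact (min_le_right _ _).trans (min_le_left _ _)
    · exact (min_le_right _ _).trans (min_le_right _ _)
  obtain ⟨εP, hεP, hPass'⟩ := hPass ρ hρ hρP
  have hδ0 : 0 < ρ * kap / 400 := by positivity
  have hδ1 : ρ * kap / 400 ≤ 1 / 1000 := by
    have : ρ * kap ≤ 1 / 1000 * 1 := mul_le_mul hρ1 hk1 hk0.le (by norm_num)
    linarith
  obtain ⟨ε1, hε1, hI1⟩ := h1 (ρ * kap / 400) hδ0 hδ1
  obtain ⟨ε2, hε2, hI2⟩ := h2 (ρ * kap / 400) hδ0 hδ1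
  -- the choice of `ε`
  obtain ⟨ε, hε, hεa, hεb, hεc, hεd, hεe, hεf⟩ : ∃ ε : ℝ, 0 < ε ∧ ε ≤ ρ / 100 ∧ ε ≤ εT / 2 ∧
      ε ≤ εP ∧ ε ≤ ε1 ∧ ε ≤ ε2 ∧ ε ≤ kap / 80 := by
    refine ⟨min (min (min (ρ / 100) (εT / 2)) (min εP ε1)) (min ε2 (kap / 80)), ?_, ?_, ?_, ?_,
      ?_, ?_, ?_⟩
    · exact lt_min (lt_min (lt_min (by positivity) (by positivity)) (lt_min hεP hε1))
        (lt_min hε2 (by positivity))
    · exact ((min_le_left _ _).trans (min_le_left _ _)).trans (min_le_left _ _)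
    · exact ((min_le_left _ _).trans (min_le_left _ _)).trans (min_le_right _ _)
    · exact ((min_le_left _ _).trans (min_le_right _ _)).trans (min_le_left _ _)
    · exact ((min_le_left _ _).trans (min_le_right _ _)).trans (min_le_right _ _)
    · exact (min_le_right _ _).trans (min_le_left _ _)
    · exact (min_le_right _ _).trans (min_le_right _ _)
  refine ⟨ρ, hρ, ε, hε, fun g hgd hg => ?_⟩
  have key : ∀ p q : E 3, ‖q - g p‖ < ρ → ‖q - fmap p‖ < εT := by
    intro p q hq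
    have e1 : q - fmap p = (q - g p) + (g p - fmap p) := by abel
    rw [e1]
    have h3 := norm_add_le (q - g p) (g p - fmap p)
    have h4 := hg.dist_le p
    linarith
  exact
    { hρ := hρ
      hρ' := hρ1
      diffeo := hgd
      close := lipClose_mono hεa hg
      trapT := fun p hp q hq => hT1 p hp q (key p q hq)
      trapR := fun p hp q hq => hT2 p hp q (key p q hq)
      passages := hPass' g (lipClose_mono hεc hg)
      locP := hI1 g (lipClose_mono hεd hg)
      locQ := hI2 g (lipClose_mono hεe hg)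
      nearb := by
        intro p q hp hq
        have h3 := hB1 p q (hp.trans_le (by linarith)) (hq.trans_le (by linarith))
        have h4 := hg.lip p q
        have h5 : ε * ‖p - q‖ ≤ kap / 80 * ‖p - q‖ :=
          mul_le_mul_of_nonneg_right hεf (norm_nonneg _)
        have e1 : (g p - g q) - Lb (p - q) = ((g p - fmap p) - (g q - fmap q)) +
            ((fmap p - fmap q) - Lb (p - q)) := by abel
        rw [e1]
        have h6 := norm_add_le ((g p - fmap p) - (g q - fmap q)) ((fmap p - fmap q) - Lb (p - q))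
        have e2 : kap / 40 * ‖p - q‖ = kap / 80 * ‖p - q‖ + kap / 80 * ‖p - q‖ := by ring
        rw [e2]
        linarith }

end HetCyc
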