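import Pool.Agent.HetCyc.Stmts

/-!
# Module InK: the sets of a cycle and the connecting orbit lie in `KK`
-/

namespace HetCyc

open Filter Topology Set

namespace InKAux

lemma cs_add_int (t : ℝ) (k : ℤ) : cs (t + k) = cs t := by
  unfold cs
  rw [show 2 * Real.pi * (t + k) = 2 * Real.pi * t + k * (2 * Real.pi) by ring,
    Real.cos_add_int_mul_two_pi]

lemma continuous_cs : Continuous cs := by
  unfold cs
  fun_prop

lemma far_add (p : E 3) (k : Fin 3 → ℤ) : Far (p + intVec k) ↔ Far p := by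
  unfold Far
  simp only [Pi.add_apply, intVec, cs_add_int]

lemma TT_add (p : E 3) (k : Fin 3 → ℤ) : p + intVec k ∈ TT ↔ p ∈ TT := by
  unfold TT
  simp only [mem_ofPred_eq, far_add]
  simp only [Pi.add_apply, intVec, cs_add_int]

lemma RR_add (p : E 3) (k : Fin 3 → ℤ) : p + intVec k ∈ RR ↔ p ∈ RR := by
  unfold RR
  simp only [mem_ofPred_eq, far_add]
  simp only [Pi.add_apply, intVec, cs_add_int]

lemma isOpen_far : IsOpen {p : E 3 | Far p} := by
  have h0 : Continuous fun p : E 3 => cs (p 0) := continuous_cs.comp (continuous_apply 0)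
  have h2 : Continuous fun p : E 3 => cs (p 2) := continuous_cs.comp (continuous_apply 2)
  exact (isOpen_lt h0 continuous_const).union (isOpen_lt h2 continuous_const)

lemma isOpen_TT : IsOpen TT := by
  have h1 : Continuous fun p : E 3 => cs (p 1) := continuous_cs.comp (continuous_apply 1)
  exact (isOpen_lt h1 continuous_const).inter isOpen_far

lemma isOpen_RR : IsOpen RR := by
  have h1 : Continuous fun p : E 3 => cs (p 1) := continuous_cs.comp (continuous_apply 1)
  exact (isOpen_lt continuous_const h1).inter isOpen_far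

/-- the open set of points that are safely inside of the rectangle -/
def NF : Set (E 3) := {p | cs (21 / 250) < cs (p 0) ∧ cs (1 / 250) < cs (p 2)}

lemma isOpen_NF : IsOpen NF := by
  have h0 : Continuous fun p : E 3 => cs (p 0) := continuous_cs.comp (continuous_apply 0)
  have h2 : Continuous fun p : E 3 => cs (p 2) := continuous_cs.comp (continuous_apply 2)
  exact (isOpen_lt continuous_const h0).inter (isOpen_lt continuous_const h2)

lemma NF_not_far {p : E 3} (h : p ∈ NF) : ¬ Far p := by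
  rintro (h' | h')
  · exact absurd h.1 (not_lt.2 h'.le)
  · exact absurd h.2 (not_lt.2 h'.le)

lemma cs_lt_of_small {x a : ℝ} (hx : |x| < a) (ha : a ≤ 1 / 2) : cs a < cs x := by
  have h1 : cs x = cs |x| := by
    unfold cs
    rw [← Real.cos_abs (2 * Real.pi * x), abs_mul, abs_of_pos Real.two_pi_pos]
  rw [h1]
  unfold cs
  have hpi := Real.pi_pos
  have h0 := abs_nonneg x
  refine Real.cos_lt_cos_of_nonneg_of_le_pi (by positivity) ?_ ?_
  · nlinarith
  · nlinarith

lemma mem_NF {p P : E 3} {ρ : ℝ} (hρ : ρ ≤ 1 / 1000) (h : ‖p - P‖ ≤ ρ) (h0 : P 0 = 0)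
    (h2 : P 2 = 0) : p ∈ NF := by
  have e0 : |p 0| ≤ 1 / 1000 := by
    have := (norm_le_pi_norm (p - P) 0).trans (h.trans hρ)
    simpa [h0] using this
  have e2 : |p 2| ≤ 1 / 1000 := by
    have := (norm_le_pi_norm (p - P) 2).trans (h.trans hρ)
    simpa [h2] using this
  exact ⟨cs_lt_of_small (by linarith) (by norm_num), cs_lt_of_small (by linarith) (by norm_num)⟩

lemma iter_TT {ρ : ℝ} {g : E 3 ≃ E 3} (hg : Good ρ g) {p : E 3} (hp : p ∈ TT) (n : ℕ) :
    (⇑g)^[n] p ∈ TT := by
  induction n with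
  | zero => simpa using hp
  | succ n ih =>
    rw [Function.iterate_succ_apply']
    exact hg.trapT _ ih _ (by simpa using hg.hρ)

lemma iter_RR {ρ : ℝ} {g : E 3 ≃ E 3} (hg : Good ρ g) {p : E 3} (hp : p ∉ RR) (n : ℕ) :
    (⇑g)^[n] p ∉ RR := by
  induction n with
  | zero => simpa using hp
  | succ n ih =>
    rw [Function.iterate_succ_apply']
    exact hg.trapR _ ih _ (by simpa using hg.hρ)

lemma sub_KK {ρ : ℝ} {g : E 3 ≃ E 3} (hg : Good ρ g) {P : E 3} (hP : P ∈ NF)
    {Λ : Set (E 3)} (htr : IsTransitive g Λ) (hPΛ : P ∈ Λ) : Λ ⊆ KK := by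
  intro q hq
  refine ⟨fun hT => ?_, fun hR => ?_⟩
  · obtain ⟨p, ⟨hpT, -⟩, n, k, hn⟩ := htr TT NF isOpen_TT isOpen_NF ⟨q, hT, hq⟩ ⟨P, hP, hPΛ⟩
    have h1 := (TT_add _ k).2 (iter_TT hg hpT n)
    exact NF_not_far hn h1.2
  · obtain ⟨p, ⟨hpN, -⟩, n, k, hn⟩ := htr NF RR isOpen_NF isOpen_RR ⟨P, hP, hPΛ⟩ ⟨q, hR, hq⟩
    have h1 : p ∉ RR := fun h => NF_not_far hpN h.2
    exact iter_RR hg h1 n ((RR_add _ k).1 hn)

end InKAux

open InKAux

theorem inK : S_InK := by
  intro ρ g hg Pg Qg hPg hPg' hQg hQg' Λ Γ hΛ hΓ htΛ htΓ hPΛ hQΓ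
  have hPN : Pg ∈ NF := mem_NF hg.hρ' hPg' (by simp [Pt]) (by simp [Pt])
  have hQN : Qg ∈ NF := mem_NF hg.hρ' hQg' (by simp [Qt]) (by simp [Qt])
  have hΛK := sub_KK hg hPN htΛ hPΛ
  have hΓK := sub_KK hg hQN htΓ hQΓ
  refine ⟨hΛK, hΓK, ?_⟩
  rintro p u ⟨hpu, hps⟩ hu0 hstep
  have hfw : ∀ m : ℕ, u m = (⇑g)^[m] p := by
    intro m
    induction m with
    | zero => simpa using hu0
    | succ m ih =>
      rw [Function.iterate_succ_apply', ← ih]
      have := hstep m
      rw [this]
      push_cast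
      rfl
  have hbw : ∀ m : ℕ, u (-(m : ℤ)) = (⇑g.symm)^[m] p := by
    intro m
    induction m with
    | zero => simpa using hu0
    | succ m ih =>
      rw [Function.iterate_succ_apply', ← ih]
      have := hstep (-((m : ℤ) + 1))
      rw [show -((m : ℤ) + 1) + 1 = -(m : ℤ) by ring] at this
      rw [← this, Equiv.symm_apply_apply]
      push_cast
      rfl
  have hΛi : ∀ (q : E 3), q ∈ Λ → ∀ m : ℕ, (⇑g)^[m] q ∈ Λ := by
    intro q hq m
    induction m with
    | zero => simpa using hq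
    | succ m ih =>
      rw [Function.iterate_succ_apply', ← hΛ]
      exact ⟨_, ih, rfl⟩
  have hΓi : ∀ (q : E 3), q ∈ Γ → ∀ m : ℕ, (⇑g.symm)^[m] q ∈ Γ := by
    intro q hq m
    induction m with
    | zero => simpa using hq
    | succ m ih =>
      rw [Function.iterate_succ_apply']
      rw [← hΓ] at ih
      obtain ⟨z, hz, hz'⟩ := ih
      rw [← hz', Equiv.symm_apply_apply]
      exact hz
  refine ⟨hstep, fun n => ⟨fun hT => ?_, fun hR => ?_⟩⟩
  · -- the future
    have hTm : ∀ m : ℕ, u (n + m) ∈ TT := by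
      intro m
      induction m with
      | zero => simpa using hT
      | succ m ih =>
        have := hstep (n + m)
        rw [show n + ((m + 1 : ℕ) : ℤ) = n + m + 1 by push_cast; ring, ← this]
        exact hg.trapT _ ih _ (by simpa using hg.hρ)
    obtain ⟨q, hq, hlim⟩ := hps
    have h1 := (Metric.tendsto_atTop.1 hlim) ρ hg.hρ
    obtain ⟨N, hN⟩ := h1
    obtain ⟨m, hm1, hm2⟩ : ∃ m : ℕ, N ≤ m + 1 ∧ n ≤ m := ⟨max N n.toNat, by omega, by
      have := Int.self_le_toNat n
      have h3 : ((n.toNat : ℕ) : ℤ) ≤ ((max N n.toNat : ℕ) : ℤ) := by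
        exact_mod_cast le_max_right _ _
      linarith⟩
    have h2 := hN (m + 1) hm1
    rw [dist_zero_right] at h2
    have h3 : u m ∈ TT := by
      have := hTm (m - n).toNat
      rwa [Int.toNat_of_nonneg (by linarith), show n + ((m : ℤ) - n) = m by ring] at this
    have h4 : (⇑g)^[m + 1] q ∈ TT := by
      refine hg.trapT _ h3 _ ?_
      rw [hfw m, ← Function.iterate_succ_apply' (⇑g) m p, norm_sub_rev]
      exact h2
    exact (hΛK (hΛi q hq (m + 1))).1 h4
  · -- the past
    have hRm : ∀ m : ℕ, u (n - m) ∈ RR := by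
      intro m
      induction m with
      | zero => simpa using hR
      | succ m ih =>
        by_contra hcon
        have := hstep (n - ((m + 1 : ℕ) : ℤ))
        rw [show n - ((m + 1 : ℕ) : ℤ) + 1 = n - m by push_cast; ring] at this
        refine hg.trapR _ hcon (u (n - m)) ?_ ih
        rw [this]
        simpa using hg.hρ
    obtain ⟨q, hq, hlim⟩ := hpu
    have h1 := (Metric.tendsto_atTop.1 hlim) ρ hg.hρ
    obtain ⟨N, hN⟩ := h1
    obtain ⟨m, hm1, hm2⟩ : ∃ m : ℕ, N ≤ m ∧ -(m : ℤ) ≤ n := ⟨max N (-n).toNat, by omega, by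
      have := Int.self_le_toNat (-n)
      have h3 : (((-n).toNat : ℕ) : ℤ) ≤ ((max N (-n).toNat : ℕ) : ℤ) := by
        exact_mod_cast le_max_right _ _
      linarith⟩
    have h2 := hN m hm1
    rw [dist_zero_right] at h2
    have h3 : u (-(m : ℤ)) ∈ RR := by
      have := hRm (n + m).toNat
      rwa [Int.toNat_of_nonneg (by linarith), show n - (n + (m : ℤ)) = -(m : ℤ) by ring] at this
    have h4 : (⇑g.symm)^[m + 1] q ∉ RR := (hΓK (hΓi q hq (m + 1))).2
    refine hg.trapR _ h4 _ ?_ h3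
    rw [Function.iterate_succ_apply', Equiv.apply_symm_apply, hbw m]
    exact h2

end HetCyc
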