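import Pool.Agent.HetCyc.Stmts

/-!
# Module HC_Index: the index of a hyperbolic set containing `Pg` or `Qg`
-/

namespace HetCyc

open Filter Topology Set

namespace Index

/-- A subspace of `E 3` that meets `{v | v 1 = 0}` only in `0` has dimension at most `1`. -/
lemma finrank_le_one (S : Submodule ℝ (E 3)) (h : ∀ v ∈ S, v 1 = 0 → v = 0) :
    Module.finrank ℝ S ≤ 1 := by
  have hinj : Function.Injective ((LinearMap.proj (R := ℝ) (φ := fun _ : Fin 3 => ℝ) 1).comp
      S.subtype) := by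
    rw [injective_iff_map_eq_zero]
    intro v hv
    have h1 : (v : E 3) 1 = 0 := hv
    exact Subtype.ext (h v v.2 h1)
  have h2 := LinearMap.finrank_le_finrank_of_injective hinj
  rwa [Module.finrank_self] at h2

/-- The bound of the definition of a hyperbolic set gives convergence to zero. -/
lemma tendsto_of_bound (G : ℕ → E 3) (C μ a : ℝ) (hμ : 0 < μ) (hμ1 : μ < 1)
    (h : ∀ n, ‖G n‖ ≤ C * μ ^ n * a) : Tendsto G atTop (𝓝 0) := by
  have h1 : Tendsto (fun n : ℕ => C * μ ^ n * a) atTop (𝓝 0) := by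
    have h2 := (tendsto_pow_atTop_nhds_zero_of_lt_one hμ.le hμ1).const_mul C
    have h3 := h2.mul_const a
    simpa using h3
  exact squeeze_zero_norm h h1

/-- A box is a neighbourhood of a point in its interior. -/
lemma box_mem_nhds (X a b Z : ℝ) (p : E 3) (h0 : |p 0| < X) (h1 : a < p 1) (h1' : p 1 < b)
    (h2 : |p 2| < Z) : Box X a b Z ∈ 𝓝 p := by
  have hopen : IsOpen {q : E 3 | |q 0| < X ∧ a < q 1 ∧ q 1 < b ∧ |q 2| < Z} := by
    refine IsOpen.inter ?_ (IsOpen.inter ?_ (IsOpen.inter ?_ ?_))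
    · exact isOpen_lt (continuous_apply 0).abs continuous_const
    · exact isOpen_lt continuous_const (continuous_apply 1)
    · exact isOpen_lt (continuous_apply 1) continuous_const
    · exact isOpen_lt (continuous_apply 2).abs continuous_const
  refine mem_of_superset (hopen.mem_nhds ⟨h0, h1, h1', h2⟩) ?_
  rintro q ⟨q0, q1, q1', q2⟩
  exact ⟨q0.le, q1.le, q1'.le, q2.le⟩

lemma coord_le (p q : E 3) (ρ : ℝ) (h : ‖p - q‖ ≤ ρ) (i : Fin 3) : |p i - q i| ≤ ρ := by
  have h1 := norm_le_pi_norm (p - q) i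
  rw [Real.norm_eq_abs, Pi.sub_apply] at h1
  exact h1.trans h

end Index

open Index in
theorem index (hG : S_Grow) : S_Index := by
  intro ρ g hg Pg Qg hP hPn hQ hQn Λ i hΛ
  obtain ⟨S, U, C, μ, hC, hμ, hμ1, hs⟩ := hΛ.splitting
  have hρ := hg.hρ'
  refine ⟨fun hPΛ => ?_, fun hQΛ => ?_⟩
  · obtain ⟨-, hfr, -, -, hb, -⟩ := hs Pg hPΛ
    rw [← hfr]
    refine finrank_le_one _ fun v hv hv1 => ?_
    have h0 := coord_le _ _ _ hPn 0
    have h1 := coord_le _ _ _ hPn 1
    have h2 := coord_le _ _ _ hPn 2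
    have e0 : Pt 0 = 0 := rfl
    have e1 : Pt 1 = 1 / 2 := rfl
    have e2 : Pt 2 = 0 := rfl
    rw [e0, sub_zero] at h0
    rw [e1] at h1
    rw [e2, sub_zero] at h2
    rw [abs_le] at h1
    have hbox : Box (1 / 20) (3 / 10) (13 / 25) (1 / 50) ∈ 𝓝 Pg :=
      box_mem_nhds _ _ _ _ Pg (by linarith) (by linarith [h1.1]) (by linarith [h1.2])
        (by linarith)
    have hdiff : DifferentiableAt ℝ g Pg :=
      (hg.diffeo.contDiff.differentiable (by simp)).differentiableAt
    exact hG _ _ _ _ _ _ _ _ _ _ _ hg.locP Pg hbox hP hdiff v hv1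
      (tendsto_of_bound _ C μ ‖v‖ hμ hμ1 (hb v hv))
  · obtain ⟨hcompl, hfr, -, -, -, hb⟩ := hs Qg hQΛ
    have hU : Module.finrank ℝ (U Qg) ≤ 1 := by
      refine finrank_le_one _ fun v hv hv1 => ?_
      have h0 := coord_le _ _ _ hQn 0
      have h1 := coord_le _ _ _ hQn 1
      have h2 := coord_le _ _ _ hQn 2
      have e0 : Qt 0 = 0 := rfl
      have e1 : Qt 1 = 0 := rfl
      have e2 : Qt 2 = 0 := rfl
      rw [e0, sub_zero] at h0
      rw [e1, sub_zero] at h1
      rw [e2, sub_zero] at h2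
      rw [abs_le] at h1
      have hbox : Box (3 / 50) (-(1 / 50)) (77 / 400) (1 / 50) ∈ 𝓝 Qg :=
        box_mem_nhds _ _ _ _ Qg (by linarith) (by linarith [h1.1]) (by linarith [h1.2])
          (by linarith)
      have hdiff : DifferentiableAt ℝ g.symm Qg :=
        (hg.diffeo.contDiff_symm.differentiable (by simp)).differentiableAt
      have hQs : g.symm Qg = Qg := by
        rw [Equiv.symm_apply_eq]
        exact hQ.symm
      exact hG _ _ _ _ _ _ _ _ _ _ _ hg.locQ Qg hbox hQs hdiff v hv1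
        (tendsto_of_bound _ C μ ‖v‖ hμ hμ1 (hb v hv))
    have h3 := Submodule.finrank_add_eq_of_isCompl hcompl
    have h4 : Module.finrank ℝ (E 3) = 3 := by simp
    omega

end HetCyc
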