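import Pool.Agent.HetCyc.Basic2

/-!
# Module InstP: the local map near the local stable manifold of `P`
-/

namespace HetCyc

open Filter Topology Set Real

namespace InstPAux

lemma coord_le {p : E 3} {c : ℝ} (h : ‖p‖ ≤ c) (i : Fin 3) : |p i| ≤ c :=
  (norm_le_pi_norm p i).trans h

lemma phi_sub (s t : ℝ) : ∃ u, min s t ≤ u ∧ u ≤ max s t ∧
    phi t - phi s = (1 + 4 / 5 * cs u) * (t - s) := by
  obtain ⟨u, h1, h2, h3⟩ := sn_sub_eq s t
  refine ⟨u, h1, h2, ?_⟩
  unfold phi; linear_combination (4 / 5) * h3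

lemma abs_aP_le {x : ℝ} (h : |x| ≤ 1 / 20) : |aP x| ≤ 3 / 40 := by
  obtain ⟨θ, h1, h2, h3⟩ := aP_sub (s := 0) (t := x) (by norm_num) (by linarith)
  rw [aP_zero, sub_zero, sub_zero] at h3
  rw [h3, abs_mul, abs_of_nonneg (by linarith : (0:ℝ) ≤ θ)]
  nlinarith [abs_nonneg x]

lemma fmap_box {p : E 3} (hp : p ∈ Box (1 / 20) (3 / 10) (13 / 25) (1 / 50)) :
    fmap p 0 = aP (p 0) ∧ fmap p 1 = phi (p 1) ∧ fmap p 2 = bP (p 2) := by
  obtain ⟨h0, h1, h1', h2⟩ := hp
  have e0 : ax (p 1) (p 0) = aP (p 0) := ax_P h1 (by linarith) _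
  have e2 : bz (p 1) (p 2) = bP (p 2) := bz_P h1 (by linarith) _
  refine ⟨by rw [fmap_zero, e0], ?_, by rw [fmap_two, e2]⟩
  rw [fmap_one, e0, e2, hh_eq_zero_x, add_zero]
  · have := abs_aP_le h0; linarith
  · have := abs_aP_le h0
    rw [abs_le] at this
    rw [abs_of_nonpos (by linarith)]; linarith

lemma phi_low : 3 / 10 + 1 / 1000 ≤ phi (3 / 10) := by
  obtain ⟨u, h1, h2, h3⟩ := sn_sub_eq (3 / 10) (1 / 2)
  rw [min_eq_left (by norm_num)] at h1
  rw [max_eq_right (by norm_num)] at h2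
  have hc := cs_le_neg h1 (by linarith : u ≤ 7 / 10)
  rw [sn_half] at h3
  unfold phi; linarith

lemma phi_high : phi (13 / 25) ≤ 13 / 25 - 1 / 1000 := by
  obtain ⟨u, h1, h2, h3⟩ := sn_sub_eq (1 / 2) (13 / 25)
  rw [min_eq_left (by norm_num)] at h1
  rw [max_eq_right (by norm_num)] at h2
  have hc := cs_le_neg (by linarith : 3 / 10 ≤ u) (by linarith : u ≤ 7 / 10)
  rw [sn_half] at h3
  unfold phi; linarith

end InstPAux

open InstPAux in
theorem instP : S_InstP := by
  intro δ hδ hδ'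
  refine ⟨δ, hδ, fun g hg => ?_⟩
  have hsub : ∀ p q : E 3, ∀ i, |(g p i - g q i) - (fmap p i - fmap q i)| ≤ δ * ‖p - q‖ := by
    intro p q i
    have h := coord_le (hg.lip p q) i
    have e : ((g p - fmap p) - (g q - fmap q)) i = (g p i - g q i) - (fmap p i - fmap q i) := by
      simp only [Pi.sub_apply]; ring
    rwa [e] at h
  have hdist : ∀ p : E 3, ∀ i, |g p i - fmap p i| ≤ δ := fun p i => by
    have h := coord_le (hg.dist_le p) i
    rwa [Pi.sub_apply] at h
  refine ⟨by norm_num, by norm_num, by norm_num, hδ, by linarith, by norm_num, by linarith,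
    by norm_num, by norm_num, by linarith, ?_, ?_, ?_, ?_⟩
  · intro p hp q hq
    obtain ⟨p0, p1, p2⟩ := fmap_box hp
    obtain ⟨q0, q1, q2⟩ := fmap_box hq
    obtain ⟨hp0, hp1, hp1', hp2⟩ := hp
    obtain ⟨hq0, hq1, hq1', hq2⟩ := hq
    refine ⟨?_, ?_, ?_⟩
    · obtain ⟨θ, h1, h2, h3⟩ := aP_sub (s := q 0) (t := p 0) (by linarith) (by linarith)
      refine ⟨θ, h1, h2, ?_⟩
      rw [← h3, ← p0, ← q0]
      exact hsub p q 0
    · obtain ⟨u, h1, h2, h3⟩ := phi_sub (q 1) (p 1)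
      have hu1 : 3 / 10 ≤ u := le_trans (le_min hq1 hp1) h1
      have hu2 : u ≤ 7 / 10 := h2.trans (max_le (by linarith) (by linarith))
      have hc := cs_le_neg hu1 hu2
      have hc' := neg_one_le_cs u
      refine ⟨1 + 4 / 5 * cs u, ?_, ?_⟩
      · rw [abs_le]; constructor <;> linarith
      · rw [← h3, ← p1, ← q1]
        exact hsub p q 1
    · obtain ⟨θ, h1, h2, h3⟩ := bP_sub (s := q 2) (t := p 2) (by linarith) (by linarith)
      refine ⟨θ, h1, h2, ?_⟩
      rw [← h3, ← p2, ← q2]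
      exact hsub p q 2
  · intro p hp h0
    have h := hdist p 0
    rwa [(fmap_box hp).1, h0, aP_zero, sub_zero] at h
  · intro p hp h0
    have h := hdist p 2
    rwa [(fmap_box hp).2.2, h0, bP_zero, sub_zero] at h
  · intro p hp
    have h := hdist p 1
    rw [(fmap_box hp).2.1, abs_le] at h
    have h1 := strictMono_phi.monotone hp.2.1
    have h2 := strictMono_phi.monotone hp.2.2.1
    have := phi_low
    have := phi_high
    constructor <;> linarith [h.1, h.2]

end HetCyc
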