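import Pool.Agent.HetCyc.Basic2

/-!
# The local map near `Q`

`theorem instQ : S_InstQ`: for `g` close to `fmap` the inverse of `g` is, on the box of `Q`, close
to a product of a weak expansion in `x`, a contraction in `y` and a strong expansion in `z`.
-/

namespace HetCyc

namespace InstQAux

open Filter Topology Set Real

lemma abs_apply_le (p : E 3) (i : Fin 3) : |p i| ≤ ‖p‖ := by
  simpa [Real.norm_eq_abs] using norm_le_pi_norm p i

lemma norm_le_of (p : E 3) {r : ℝ} (hr : 0 ≤ r) (h0 : |p 0| ≤ r) (h1 : |p 1| ≤ r)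
    (h2 : |p 2| ≤ r) : ‖p‖ ≤ r := by
  rw [pi_norm_le_iff_of_nonneg hr]
  intro i
  fin_cases i <;> simpa [Real.norm_eq_abs]

lemma sn_eighth_bounds : (1 / 10 : ℝ) < sn (1 / 8) ∧ sn (1 / 8) < 12 / 100 := by
  have h : sn (1 / 8) = √2 / 2 / (2 * π) := by
    rw [sn, sin_eighth]
  obtain ⟨p1, p2⟩ := pi_bounds
  obtain ⟨s1, s2⟩ := sqrt2_bounds
  rw [h]
  constructor
  · rw [lt_div_iff₀ two_pi_pos]; nlinarith
  · rw [div_lt_iff₀ two_pi_pos]; nlinarith

/-- the position of the preimages -/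
lemma locate {ε : ℝ} (hε' : ε ≤ 1 / 1000) {p p' : E 3}
    (hp : p ∈ Box (3 / 50) (-(1 / 50)) (77 / 400) (1 / 50)) (h : ‖p - fmap p'‖ ≤ ε) :
    |p' 0| ≤ 1 / 8 ∧ -(1 / 50) ≤ p' 1 ∧ p' 1 ≤ 1 / 8 ∧ |p' 2| ≤ 1 / 8 ∧
      fmap p' 0 = aQ (p' 0) ∧ fmap p' 1 = phi (p' 1) ∧ fmap p' 2 = bQ (p' 2) := by
  obtain ⟨h0, h1, h1', h2⟩ := hp
  have e0 := abs_le.1 ((abs_apply_le _ 0).trans h)
  have e1 := abs_le.1 ((abs_apply_le _ 1).trans h)
  have e2 := abs_le.1 ((abs_apply_le _ 2).trans h)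
  simp only [Pi.sub_apply] at e0 e1 e2
  have h0' := abs_le.1 h0
  have h2' := abs_le.1 h2
  obtain ⟨s1, s2⟩ := sn_eighth_bounds
  -- the lift function vanishes
  have hh0 : hh (ax (p' 1) (p' 0)) (bz (p' 1) (p' 2)) = 0 := by
    rw [fmap_zero] at e0
    apply hh_eq_zero_x
    · rw [abs_le]; constructor <;> linarith [e0.1, e0.2, h0'.1, h0'.2]
    · rw [le_abs]; right; linarith [e0.1, e0.2, h0'.1, h0'.2]
  have f1 : fmap p' 1 = phi (p' 1) := by rw [fmap_one, hh0, add_zero]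
  rw [f1] at e1
  have b1 : -(1 / 50) ≤ p' 1 := by
    by_contra hlt
    push Not at hlt
    have g1 := strictMono_phi hlt
    have g2 : phi (-(1 / 50)) = -(1 / 50) - 4 / 5 * sn (1 / 50) := by
      unfold phi; rw [sn_neg]; ring
    obtain ⟨θ, t1, t2, t3⟩ := sn_eq_mul (t := 1 / 50) (by rw [abs_le]; norm_num)
    rw [g2, t3] at g1
    linarith [e1.1, e1.2]
  have b2 : p' 1 ≤ 1 / 8 := by
    by_contra hlt
    push Not at hlt
    have g1 := strictMono_phi hlt
    have g2 : phi (1 / 8) = 1 / 8 + 4 / 5 * sn (1 / 8) := rfl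
    rw [g2] at g1
    linarith [e1.1, e1.2]
  have f0 : fmap p' 0 = aQ (p' 0) := by
    rw [fmap_zero]; exact ax_Q (by linarith) b2 _
  have f2 : fmap p' 2 = bQ (p' 2) := by
    rw [fmap_two]; exact bz_Q (by linarith) b2 _
  rw [f0] at e0
  rw [f2] at e2
  have a8 : aQ (1 / 8) = 1 / 8 - 1 / 2 * sn (1 / 8) := rfl
  have b8 : bQ (1 / 8) = 1 / 8 - 4 / 5 * sn (1 / 8) := rfl
  refine ⟨?_, b1, b2, ?_, f0, f1, f2⟩
  · rw [abs_le]
    constructor
    · by_contra hlt
      push Not at hlt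
      have g1 := strictMono_aQ hlt
      rw [aQ_neg, a8] at g1
      linarith [e0.1, e0.2, h0'.1, h0'.2]
    · by_contra hlt
      push Not at hlt
      have g1 := strictMono_aQ hlt
      rw [a8] at g1
      linarith [e0.1, e0.2, h0'.1, h0'.2]
  · rw [abs_le]
    constructor
    · by_contra hlt
      push Not at hlt
      have g1 := strictMono_bQ hlt
      rw [bQ_neg, b8] at g1
      linarith [e2.1, e2.2, h2'.1, h2'.2]
    · by_contra hlt
      push Not at hlt
      have g1 := strictMono_bQ hlt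
      rw [b8] at g1
      linarith [e2.1, e2.2, h2'.1, h2'.2]

/-- inversion of a scalar difference quotient -/
lemma invert {θ w d e N η : ℝ} (hθ : 1 / 5 ≤ θ) (h : d = θ * w + e) (he : |e| ≤ η)
    (hη : 5 * η ≤ N) : |w - θ⁻¹ * d| ≤ N := by
  have hθ0 : 0 < θ := by linarith
  have h1 : w - θ⁻¹ * d = -(θ⁻¹ * e) := by
    rw [h]; field_simp; ring
  have h2 : θ⁻¹ ≤ 5 := by
    rw [inv_le_comm₀ hθ0 (by norm_num)]; linarith
  have h3 : 0 ≤ θ⁻¹ := by positivity
  rw [h1, abs_neg, abs_mul, abs_of_nonneg h3]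
  calc θ⁻¹ * |e| ≤ 5 * η := mul_le_mul h2 he (abs_nonneg _) (by norm_num)
    _ ≤ N := hη

lemma invert_bound {θ w d e : ℝ} (hθ : 1 / 5 ≤ θ) (h : d = θ * w + e) :
    |w| ≤ 5 * |d| + 5 * |e| := by
  have h1 : |θ * w| ≤ |d| + |e| := by
    have : θ * w = d - e := by linarith
    rw [this]; exact abs_sub _ _
  rw [abs_mul, abs_of_pos (by linarith : 0 < θ)] at h1
  nlinarith [abs_nonneg w]

end InstQAux

open InstQAux in
/-- the inverse of `g` is a local map on the box of `Q` -/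
theorem instQ : S_InstQ := by
  intro δ hδ hδ'
  refine ⟨δ / 100, by positivity, ?_⟩
  intro g hg
  have hε : δ / 100 ≤ 1 / 1000 := by linarith
  have loc : ∀ p ∈ Box (3 / 50) (-(1 / 50)) (77 / 400) (1 / 50), _ := fun p hp =>
    locate (p := p) (p' := g.symm p) hε hp (by
      have := hg.dist_le (g.symm p)
      rwa [Equiv.apply_symm_apply] at this)
  refine
    { hX := by norm_num
      hab := by norm_num
      hZ := by norm_num
      hδ := hδ
      hA₀ := by linarith
      hA := by norm_num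
      hAU := by linarith
      hU := by norm_num
      hσ := by norm_num
      hσδ := by linarith
      lip := ?_
      center₀ := ?_
      center₂ := ?_
      maps := ?_ }
  · intro p hp q hq
    obtain ⟨p0, p1, p1', p2, fp0, fp1, fp2⟩ := loc p hp
    obtain ⟨q0, q1, q1', q2, fq0, fq1, fq2⟩ := loc q hq
    have hl := hg.lip (g.symm p) (g.symm q)
    rw [Equiv.apply_symm_apply, Equiv.apply_symm_apply] at hl
    set p' := g.symm p with hp'
    set q' := g.symm q with hq'
    set e := (p - fmap p') - (q - fmap q') with he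
    have E0 : e 0 = (p 0 - aQ (p' 0)) - (q 0 - aQ (q' 0)) := by
      rw [he]; simp only [Pi.sub_apply, fp0, fq0]
    have E1 : e 1 = (p 1 - phi (p' 1)) - (q 1 - phi (q' 1)) := by
      rw [he]; simp only [Pi.sub_apply, fp1, fq1]
    have E2 : e 2 = (p 2 - bQ (p' 2)) - (q 2 - bQ (q' 2)) := by
      rw [he]; simp only [Pi.sub_apply, fp2, fq2]
    obtain ⟨a, a1, a2, a3⟩ := aQ_sub q0 p0
    obtain ⟨b, b1, b2, b3⟩ := bQ_sub q2 p2
    obtain ⟨c, c1, c2, c3⟩ := sn_sub_eq' (s := q' 1) (t := p' 1)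
      (abs_le.2 ⟨by linarith, q1'⟩) (abs_le.2 ⟨by linarith, p1'⟩)
    have D0 : p 0 - q 0 = a * (p' 0 - q' 0) + e 0 := by rw [E0, ← a3]; ring
    have D2 : p 2 - q 2 = b * (p' 2 - q' 2) + e 2 := by rw [E2, ← b3]; ring
    have D1 : p 1 - q 1 = (1 + 4 / 5 * c) * (p' 1 - q' 1) + e 1 := by
      rw [E1]; unfold phi; linear_combination (4 / 5) * c3
    -- size of `p' - q'`
    have hN := norm_nonneg (p - q)
    have hW := norm_nonneg (p' - q')
    have n0 := (abs_apply_le e 0).trans hl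
    have n1 := (abs_apply_le e 1).trans hl
    have n2 := (abs_apply_le e 2).trans hl
    have m0 := abs_apply_le (p - q) 0
    have m1 := abs_apply_le (p - q) 1
    have m2 := abs_apply_le (p - q) 2
    simp only [Pi.sub_apply] at m0 m1 m2
    have hw : ‖p' - q'‖ ≤ 5 * ‖p - q‖ + 5 * (δ / 100 * ‖p' - q'‖) := by
      apply norm_le_of _ (by positivity)
      · have := invert_bound (by linarith) D0
        simp only [Pi.sub_apply]; linarith
      · have := invert_bound (by linarith) D1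
        simp only [Pi.sub_apply]; linarith
      · have := invert_bound (by linarith) D2
        simp only [Pi.sub_apply]; linarith
    have hw' : ‖p' - q'‖ ≤ 6 * ‖p - q‖ := by
      have h1 : δ * ‖p' - q'‖ ≤ 1 / 1000 * ‖p' - q'‖ := mul_le_mul_of_nonneg_right hδ' hW
      linarith
    have hη : 5 * (δ / 100 * ‖p' - q'‖) ≤ δ * ‖p - q‖ := by
      have h1 : δ * ‖p' - q'‖ ≤ δ * (6 * ‖p - q‖) := mul_le_mul_of_nonneg_left hw' hδ.le
      have h2 : 0 ≤ δ * ‖p - q‖ := mul_nonneg hδ.le hN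
      linarith
    clear_value e
    clear hw hw' hl he E0 E1 E2
    have i0 := invert (by linarith) D0 n0 hη
    have i1 := invert (by linarith) D1 n1 hη
    have i2 := invert (by linarith) D2 n2 hη
    refine ⟨⟨a⁻¹, ?_, ?_, i0⟩, ⟨(1 + 4 / 5 * c)⁻¹, ?_, i1⟩, ⟨b⁻¹, ?_, ?_, i2⟩⟩
    · rw [le_inv_comm₀ (by norm_num) (by linarith)]; norm_num; linarith
    · rw [inv_le_comm₀ (by linarith) (by norm_num)]; norm_num; linarith
    · rw [abs_of_nonneg (inv_nonneg.2 (by linarith)), inv_le_comm₀ (by linarith) (by norm_num)]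
      norm_num; linarith
    · rw [le_inv_comm₀ (by norm_num) (by linarith)]; norm_num; linarith
    · rw [inv_le_comm₀ (by linarith) (by norm_num)]; norm_num; linarith
  · intro p hp h0
    obtain ⟨p0, p1, p1', p2, fp0, fp1, fp2⟩ := loc p hp
    have hd := hg.dist_le (g.symm p)
    rw [Equiv.apply_symm_apply] at hd
    have e0 := (abs_apply_le _ 0).trans hd
    rw [Pi.sub_apply, fp0, h0, zero_sub, abs_neg] at e0
    obtain ⟨a, a1, a2, a3⟩ := aQ_sub (s := 0) (by norm_num) p0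
    rw [aQ_zero, sub_zero, sub_zero] at a3
    rw [a3, abs_mul, abs_of_nonneg (by linarith)] at e0
    nlinarith [abs_nonneg (g.symm p 0)]
  · intro p hp h2
    obtain ⟨p0, p1, p1', p2, fp0, fp1, fp2⟩ := loc p hp
    have hd := hg.dist_le (g.symm p)
    rw [Equiv.apply_symm_apply] at hd
    have e2 := (abs_apply_le _ 2).trans hd
    rw [Pi.sub_apply, fp2, h2, zero_sub, abs_neg] at e2
    obtain ⟨b, b1, b2, b3⟩ := bQ_sub (s := 0) (by norm_num) p2
    rw [bQ_zero, sub_zero, sub_zero] at b3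
    rw [b3, abs_mul, abs_of_nonneg (by linarith)] at e2
    nlinarith [abs_nonneg (g.symm p 2)]
  · intro p hp
    obtain ⟨p0, p1, p1', p2, fp0, fp1, fp2⟩ := loc p hp
    exact ⟨p1, by linarith⟩

end HetCyc
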