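import Pool.Agent.HetCyc.Stmts

/-!
# Module Leaf: the Perron method
-/

set_option autoImplicit false

namespace HetCyc

open Filter Topology Set

namespace Leaf

noncomputable section

/-- The Perron operator on sequences. -/
def op (Ψ : E 3 → E 3) (A U y : ℝ) (p : ℕ → E 3) : ℕ → E 3 := fun k =>
  ![(p (k + 1) 0 - (Ψ (p k) 0 - A * p k 0)) / A,
    (match k with
      | 0 => y
      | j + 1 => Ψ (p j) 1),
    (p (k + 1) 2 - (Ψ (p k) 2 - U * p k 2)) / U]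

lemma box_mono {X a b Z ρ : ℝ} (h1 : ρ ≤ X) (h2 : ρ ≤ Z) {p : E 3} (hp : p ∈ Box ρ a b ρ) :
    p ∈ Box X a b Z :=
  ⟨hp.1.trans h1, hp.2.1, hp.2.2.1, hp.2.2.2.trans h2⟩

/-- one expanding coordinate -/
lemma expand_diff {A₀ A₁ δ t u v w e D : ℝ} (hA₀ : 1 + δ < A₀) (hA : A₀ ≤ A₁) (hδ : 0 < δ)
    (ht : A₀ ≤ t) (ht' : t ≤ A₁) (hv : |v| ≤ D) (hu : |u| ≤ D) (he : |w - t * v| ≤ δ * e)
    (heD : e ≤ D) :
    |(u - (w - (A₀ + A₁) / 2 * v)) / ((A₀ + A₁) / 2)| ≤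
      ((1 + δ + (A₁ - A₀) / 2) / ((A₀ + A₁) / 2)) * D := by
  have hApos : 0 < (A₀ + A₁) / 2 := by linarith
  have hD : 0 ≤ D := (abs_nonneg _).trans hv
  rw [abs_div, abs_of_pos hApos, div_le_iff₀ hApos]
  have h0 : (1 + δ + (A₁ - A₀) / 2) / ((A₀ + A₁) / 2) * D * ((A₀ + A₁) / 2) =
    (1 + δ + (A₁ - A₀) / 2) * D := by
    rw [mul_assoc, mul_comm D, ← mul_assoc, div_mul_cancel₀ _ hApos.ne']
  rw [h0]
  have h1 : u - (w - (A₀ + A₁) / 2 * v) = u - (w - t * v) - (t - (A₀ + A₁) / 2) * v := by ring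
  have h2 : |t - (A₀ + A₁) / 2| ≤ (A₁ - A₀) / 2 := by
    rw [abs_le]
    constructor <;> linarith
  have h3 : |(t - (A₀ + A₁) / 2) * v| ≤ (A₁ - A₀) / 2 * D := by
    rw [abs_mul]
    exact mul_le_mul h2 hv (abs_nonneg _) (by linarith)
  have h4 : δ * e ≤ δ * D := mul_le_mul_of_nonneg_left heD hδ.le
  rw [h1]
  have h5 := abs_sub (u - (w - t * v)) ((t - (A₀ + A₁) / 2) * v)
  have h6 := abs_sub u (w - t * v)
  nlinarith

lemma norm_three (v : E 3) {D : ℝ} (h0 : |v 0| ≤ D) (h1 : |v 1| ≤ D) (h2 : |v 2| ≤ D) :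
    ‖v‖ ≤ D := by
  have hD : 0 ≤ D := (abs_nonneg _).trans h0
  rw [pi_norm_le_iff_of_nonneg hD]
  intro i
  fin_cases i
  · exact h0
  · exact h1
  · exact h2

lemma abs_le_norm (v : E 3) (i : Fin 3) : |v i| ≤ ‖v‖ := norm_le_pi_norm v i

/-- the contraction factor -/
def fac (A₀ A₁ σ U₀ U₁ δ : ℝ) : ℝ :=
  max (max ((1 + δ + (A₁ - A₀) / 2) / ((A₀ + A₁) / 2))
    ((1 + δ + (U₁ - U₀) / 2) / ((U₀ + U₁) / 2))) (σ + δ)

lemma fac_nonneg {A₀ A₁ σ U₀ U₁ δ : ℝ} (hσ : 0 ≤ σ) (hδ : 0 < δ) :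
    0 ≤ fac A₀ A₁ σ U₀ U₁ δ := by
  unfold fac
  exact (by linarith : (0 : ℝ) ≤ σ + δ).trans (le_max_right _ _)

lemma fac_lt_one {A₀ A₁ σ U₀ U₁ δ : ℝ} (hδ : 0 < δ) (hA₀ : 1 + δ < A₀) (hA : A₀ ≤ A₁)
    (hAU : A₁ + 2 * δ < U₀) (hU : U₀ ≤ U₁) (hσδ : σ + δ < 1) :
    fac A₀ A₁ σ U₀ U₁ δ < 1 := by
  unfold fac
  refine max_lt (max_lt ?_ ?_) hσδ
  · rw [div_lt_one (by linarith)]
    linarith
  · rw [div_lt_one (by linarith)]
    linarith

variable {Ψ : E 3 → E 3} {X a b Z A₀ A₁ σ U₀ U₁ δ ρ y : ℝ}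

lemma op_dist (h : LocalMap Ψ X a b Z A₀ A₁ σ U₀ U₁ δ) (h1 : ρ ≤ X) (h2 : ρ ≤ Z)
    {p q : ℕ → E 3} (hp : ∀ k, p k ∈ Box ρ a b ρ) (hq : ∀ k, q k ∈ Box ρ a b ρ) {D : ℝ}
    (hD : ∀ k, ‖p k - q k‖ ≤ D) (k : ℕ) :
    ‖op Ψ ((A₀ + A₁) / 2) ((U₀ + U₁) / 2) y p k - op Ψ ((A₀ + A₁) / 2) ((U₀ + U₁) / 2) y q k‖ ≤
      fac A₀ A₁ σ U₀ U₁ δ * D := by
  have hD0 : 0 ≤ D := (norm_nonneg _).trans (hD 0)
  obtain ⟨⟨t, ht, ht', he⟩, -, s, hs, hs', he'⟩ :=
    h.lip (p k) (box_mono h1 h2 (hp k)) (q k) (box_mono h1 h2 (hq k))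
  apply norm_three
  · have e1 := expand_diff (u := p (k + 1) 0 - q (k + 1) 0) h.hA₀ h.hA h.hδ ht ht'
      ((abs_le_norm (p k - q k) 0).trans (hD k))
      ((abs_le_norm (p (k + 1) - q (k + 1)) 0).trans (hD (k + 1))) he (hD k)
    refine le_trans (le_of_eq ?_) (e1.trans (mul_le_mul_of_nonneg_right
      ((le_max_left _ _).trans (le_max_left _ _)) hD0))
    congr 1
    simp only [op, Pi.sub_apply, Matrix.cons_val_zero]
    ring
  · have e1 : fac A₀ A₁ σ U₀ U₁ δ * D ≥ 0 := mul_nonneg (fac_nonneg h.hσ h.hδ) hD0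
    rcases k with _ | j
    · simpa [op] using e1
    · obtain ⟨-, ⟨r, hr, hr'⟩, -⟩ :=
        h.lip (p j) (box_mono h1 h2 (hp j)) (q j) (box_mono h1 h2 (hq j))
      have e2 : |Ψ (p j) 1 - Ψ (q j) 1| ≤ (σ + δ) * D := by
        have e3 : Ψ (p j) 1 - Ψ (q j) 1 = (Ψ (p j) 1 - Ψ (q j) 1 - r * (p j 1 - q j 1)) +
          r * (p j 1 - q j 1) := by ring
        have e4 : |r * (p j 1 - q j 1)| ≤ σ * D := by
          rw [abs_mul]
          exact mul_le_mul hr ((abs_le_norm (p j - q j) 1).trans (hD j)) (abs_nonneg _) h.hσ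
        have e5 : δ * ‖p j - q j‖ ≤ δ * D := mul_le_mul_of_nonneg_left (hD j) h.hδ.le
        rw [e3]
        have e6 := abs_add_le (Ψ (p j) 1 - Ψ (q j) 1 - r * (p j 1 - q j 1)) (r * (p j 1 - q j 1))
        linarith
      have e7 : |(op Ψ ((A₀ + A₁) / 2) ((U₀ + U₁) / 2) y p (j + 1) -
        op Ψ ((A₀ + A₁) / 2) ((U₀ + U₁) / 2) y q (j + 1)) 1| = |Ψ (p j) 1 - Ψ (q j) 1| := by
        simp [op]
      rw [e7]
      exact e2.trans (mul_le_mul_of_nonneg_right (le_max_right _ _) hD0)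
  · have hU₀ : 1 + δ < U₀ := by
      have := h.hA₀
      have := h.hA
      have := h.hAU
      have := h.hδ
      linarith
    have e1 := expand_diff (u := p (k + 1) 2 - q (k + 1) 2) hU₀ h.hU h.hδ hs hs'
      ((abs_le_norm (p k - q k) 2).trans (hD k))
      ((abs_le_norm (p (k + 1) - q (k + 1)) 2).trans (hD (k + 1))) he' (hD k)
    refine le_trans (le_of_eq ?_) (e1.trans (mul_le_mul_of_nonneg_right
      ((le_max_right _ _).trans (le_max_left _ _)) hD0))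
    congr 1
    simp [op]
    ring

/-- invariance of the box, one expanding coordinate -/
lemma expand_box {A₀ A₁ δ t u v w c : ℝ} (hA₀ : 1 + δ < A₀) (hA : A₀ ≤ A₁) (hδ : 0 < δ)
    (ht : A₀ ≤ t) (ht' : t ≤ A₁) (hv : |v| ≤ ρ) (hu : |u| ≤ ρ) (he : |w - c - t * v| ≤ δ * |v|)
    (hc : |c| ≤ δ) (hρδ : δ ≤ ρ * (A₀ - 1 - δ)) :
    |(u - (w - (A₀ + A₁) / 2 * v)) / ((A₀ + A₁) / 2)| ≤ ρ := by
  have hApos : 0 < (A₀ + A₁) / 2 := by linarith
  have hρ : 0 ≤ ρ := (abs_nonneg _).trans hv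
  rw [abs_div, abs_of_pos hApos, div_le_iff₀ hApos]
  have h1 : u - (w - (A₀ + A₁) / 2 * v) =
    (u - (w - c - t * v)) - c - (t - (A₀ + A₁) / 2) * v := by ring
  have h2 : |t - (A₀ + A₁) / 2| ≤ (A₁ - A₀) / 2 := by
    rw [abs_le]
    constructor <;> linarith
  have h3 : |(t - (A₀ + A₁) / 2) * v| ≤ (A₁ - A₀) / 2 * ρ := by
    rw [abs_mul]
    exact mul_le_mul h2 hv (abs_nonneg _) (by linarith)
  have h4 : δ * |v| ≤ δ * ρ := mul_le_mul_of_nonneg_left hv hδ.le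
  rw [h1]
  have h5 := abs_sub ((u - (w - c - t * v)) - c) ((t - (A₀ + A₁) / 2) * v)
  have h6 := abs_sub (u - (w - c - t * v)) c
  have h7 := abs_sub u (w - c - t * v)
  nlinarith

lemma op_mem (h : LocalMap Ψ X a b Z A₀ A₁ σ U₀ U₁ δ) (h1 : ρ ≤ X) (h2 : ρ ≤ Z)
    (hρδ : δ ≤ ρ * (A₀ - 1 - δ)) (hya : a ≤ y) (hyb : y ≤ b)
    {p : ℕ → E 3} (hp : ∀ k, p k ∈ Box ρ a b ρ) (k : ℕ) :
    op Ψ ((A₀ + A₁) / 2) ((U₀ + U₁) / 2) y p k ∈ Box ρ a b ρ := by
  have hρ : 0 ≤ ρ := (abs_nonneg _).trans (hp 0).1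
  have hpk := hp k
  have hU₀ : 1 + δ < U₀ := by
    have := h.hA₀
    have := h.hA
    have := h.hAU
    have := h.hδ
    linarith
  have hmid : a ≤ (op Ψ ((A₀ + A₁) / 2) ((U₀ + U₁) / 2) y p k) 1 ∧
      (op Ψ ((A₀ + A₁) / 2) ((U₀ + U₁) / 2) y p k) 1 ≤ b := by
    rcases k with _ | j
    · simp [op, hya, hyb]
    · have := h.maps (p j) (box_mono h1 h2 (hp j))
      simpa [op] using this
  refine ⟨?_, hmid.1, hmid.2, ?_⟩
  · -- compare with the point with first coordinate 0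
    set q : E 3 := ![0, p k 1, p k 2] with hq
    have hqB : q ∈ Box X a b Z := by
      refine ⟨?_, ?_, ?_, ?_⟩
      · simpa [hq] using hρ.trans h1
      · simpa [hq] using hpk.2.1
      · simpa [hq] using hpk.2.2.1
      · simpa [hq] using hpk.2.2.2.trans h2
    obtain ⟨⟨t, ht, ht', he⟩, -⟩ := h.lip (p k) (box_mono h1 h2 hpk) q hqB
    have hc := h.center₀ q hqB (by simp [hq])
    have hn : ‖p k - q‖ ≤ |p k 0| := by
      apply norm_three
      · simp [hq]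
      · simp [hq]
      · simp [hq]
    have hq0 : q 0 = 0 := by simp [hq]
    rw [hq0, sub_zero] at he
    exact expand_box h.hA₀ h.hA h.hδ ht ht' hpk.1 (hp (k + 1)).1
      (he.trans (mul_le_mul_of_nonneg_left hn h.hδ.le)) hc hρδ
  · set q : E 3 := ![p k 0, p k 1, 0] with hq
    have hqB : q ∈ Box X a b Z := by
      refine ⟨?_, ?_, ?_, ?_⟩
      · simpa [hq] using hpk.1.trans h1
      · simpa [hq] using hpk.2.1
      · simpa [hq] using hpk.2.2.1
      · simpa [hq] using hρ.trans h2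
    obtain ⟨-, -, t, ht, ht', he⟩ := h.lip (p k) (box_mono h1 h2 hpk) q hqB
    have hc := h.center₂ q hqB (by simp [hq])
    have hn : ‖p k - q‖ ≤ |p k 2| := by
      apply norm_three
      · simp [hq]
      · simp [hq]
      · simp [hq]
    have hq2 : q 2 = 0 := by simp [hq]
    rw [hq2, sub_zero] at he
    have hρδ' : δ ≤ ρ * (U₀ - 1 - δ) := by
      have e1 := h.hA
      have e2 := h.hAU
      have e3 := h.hδ
      have e4 : ρ * (A₀ - 1 - δ) ≤ ρ * (U₀ - 1 - δ) :=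
        mul_le_mul_of_nonneg_left (by linarith) hρ
      linarith
    exact expand_box hU₀ h.hU h.hδ ht ht' hpk.2.2.2 (hp (k + 1)).2.2.2
      (he.trans (mul_le_mul_of_nonneg_left hn h.hδ.le)) hc hρδ'

lemma box_norm {p : E 3} (hp : p ∈ Box ρ a b ρ) : ‖p‖ ≤ max ρ (max |a| |b|) := by
  apply norm_three
  · exact hp.1.trans (le_max_left _ _)
  · refine le_trans ?_ (le_max_right _ _)
    rw [abs_le]
    constructor
    · have h1 := neg_abs_le a
      have h2 := le_max_left |a| |b|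
      have h3 := hp.2.1
      linarith
    · have h1 := le_abs_self b
      have h2 := le_max_right |a| |b|
      have h3 := hp.2.2.1
      linarith
  · exact hp.2.2.2.trans (le_max_left _ _)

lemma isClosed_box {X a b Z : ℝ} : IsClosed (Box X a b Z) := by
  have h0 : Continuous fun p : E 3 => |p 0| := (continuous_apply 0).abs
  have h1 : Continuous fun p : E 3 => p 1 := continuous_apply 1
  have h2 : Continuous fun p : E 3 => |p 2| := (continuous_apply 2).abs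
  exact (isClosed_le h0 continuous_const).inter ((isClosed_le continuous_const h1).inter
    ((isClosed_le h1 continuous_const).inter (isClosed_le h2 continuous_const)))

/-- the complete space of sequences in the box -/
abbrev Sq (ρ a b : ℝ) : Type :=
  {p : BoundedContinuousFunction ℕ (E 3) // ∀ k, p k ∈ Box ρ a b ρ}

lemma isClosed_sq (ρ a b : ℝ) :
    IsClosed {p : BoundedContinuousFunction ℕ (E 3) | ∀ k, p k ∈ Box ρ a b ρ} := by
  rw [ofPred_forall]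
  apply isClosed_iInter
  intro k
  exact isClosed_box.preimage (BoundedContinuousFunction.lipschitz_eval_const k).continuous

instance (ρ a b : ℝ) : CompleteSpace (Sq ρ a b) :=
  (isClosed_sq ρ a b).completeSpace_coe

/-- make an element of the space of sequences -/
def mk (p : ℕ → E 3) (hp : ∀ k, p k ∈ Box ρ a b ρ) : Sq ρ a b :=
  ⟨BoundedContinuousFunction.ofNormedAddCommGroupDiscrete p (max ρ (max |a| |b|))
    (fun k => box_norm (hp k)), fun k => hp k⟩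

end

end Leaf

open Leaf in
theorem leaf : S_Leaf := by
  intro Ψ X a b Z A₀ A₁ σ U₀ U₁ δ h ρ hρ h1 h2 hρδ y hya hyb
  set A := (A₀ + A₁) / 2 with hA
  set U := (U₀ + U₁) / 2 with hU
  have hApos : 0 < A := by
    have := h.hA₀
    have := h.hA
    have := h.hδ
    rw [hA]
    linarith
  have hUpos : 0 < U := by
    have := h.hA₀
    have := h.hA
    have := h.hδ
    have := h.hAU
    have := h.hU
    rw [hU]
    linarith
  let F : Sq ρ a b → Sq ρ a b := fun p =>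
    Leaf.mk (op Ψ A U y p.1) (op_mem h h1 h2 hρδ hya hyb p.2)
  have hne : Nonempty (Sq ρ a b) := by
    refine ⟨Leaf.mk (fun _ => ![0, y, 0]) fun _ => ⟨?_, ?_, ?_, ?_⟩⟩
    · simpa using hρ.le
    · simpa using hya
    · simpa using hyb
    · simpa using hρ.le
  have hfac0 : 0 ≤ fac A₀ A₁ σ U₀ U₁ δ := fac_nonneg h.hσ h.hδ
  have hfac1 : fac A₀ A₁ σ U₀ U₁ δ < 1 := fac_lt_one h.hδ h.hA₀ h.hA h.hAU h.hU h.hσδ
  have hF : ContractingWith (fac A₀ A₁ σ U₀ U₁ δ).toNNReal F := by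
    refine ⟨by simpa using hfac1, LipschitzWith.of_dist_le_mul ?_⟩
    intro p q
    rw [Real.coe_toNNReal _ hfac0]
    rw [Subtype.dist_eq, BoundedContinuousFunction.dist_le (mul_nonneg hfac0 dist_nonneg)]
    intro k
    rw [dist_eq_norm]
    refine op_dist h h1 h2 p.2 q.2 ?_ k
    intro j
    rw [← dist_eq_norm, Subtype.dist_eq]
    exact BoundedContinuousFunction.dist_coe_le_dist j
  obtain ⟨p, hp⟩ : ∃ p : Sq ρ a b, F p = p := ⟨_, hF.fixedPoint_isFixedPt⟩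
  have hpk : ∀ k, op Ψ A U y p.1 k = p.1 k := by
    intro k
    have e := congrArg (fun r : Sq ρ a b => r.1 k) hp
    exact e
  have hstep : ∀ k, p.1 (k + 1) = Ψ (p.1 k) := by
    intro k
    ext i
    fin_cases i
    · have e := congrFun (hpk k) 0
      simp only [op, Matrix.cons_val_zero] at e
      rw [div_eq_iff hApos.ne'] at e
      show p.1 (k + 1) 0 = Ψ (p.1 k) 0
      linarith
    · have e := congrFun (hpk (k + 1)) 1
      simp only [op, Matrix.cons_val_one, Matrix.cons_val_zero] at e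
      exact e.symm
    · have e := congrFun (hpk k) 2
      have e' : (p.1 (k + 1) 2 - (Ψ (p.1 k) 2 - U * p.1 k 2)) / U = p.1 k 2 := by
        simpa [op] using e
      rw [div_eq_iff hUpos.ne'] at e'
      show p.1 (k + 1) 2 = Ψ (p.1 k) 2
      linarith
  have hiter : ∀ k, Ψ^[k] (p.1 0) = p.1 k := by
    intro k
    induction k with
    | zero => rfl
    | succ k ih => rw [Function.iterate_succ_apply', ih, hstep]
  refine ⟨p.1 0, ?_, ?_⟩
  · have e := congrFun (hpk 0) 1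
    simp only [op, Matrix.cons_val_one, Matrix.cons_val_zero] at e
    exact e.symm
  · intro k
    rw [hiter]
    exact p.2 k

end HetCyc
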