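import Pool.Agent.HetCyc.Stmts

/-!
# The local lemmas: cones, contraction, exit, growth
-/

namespace HetCyc

open Filter Topology Set

namespace Loc

/-- the size of the components `0` and `2` -/
noncomputable def m (w : E 3) : ℝ := max |w 0| |w 2|

theorem m_nonneg (w : E 3) : 0 ≤ m w := le_max_of_le_left (abs_nonneg _)

theorem norm_le {w : E 3} {r : ℝ} (hr : 0 ≤ r) (h0 : |w 0| ≤ r) (h1 : |w 1| ≤ r) (h2 : |w 2| ≤ r) :
    ‖w‖ ≤ r := by
  rw [pi_norm_le_iff_of_nonneg hr]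
  intro i
  rw [Real.norm_eq_abs]
  fin_cases i
  · exact h0
  · exact h1
  · exact h2

theorem abs_le_norm (w : E 3) (i : Fin 3) : |w i| ≤ ‖w‖ := by
  have := norm_le_pi_norm w i
  rwa [Real.norm_eq_abs] at this

theorem m_le_norm (w : E 3) : m w ≤ ‖w‖ := max_le (abs_le_norm w 0) (abs_le_norm w 2)

variable {Ψ : E 3 → E 3} {X a b Z A₀ A₁ σ U₀ U₁ δ : ℝ}

/-- growth and cone, with parameter `r` such that `‖w‖ ≤ r * m w` -/
theorem step (h : LocalMap Ψ X a b Z A₀ A₁ σ U₀ U₁ δ) {p q : E 3} (hp : p ∈ Box X a b Z)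
    (hq : q ∈ Box X a b Z) {r : ℝ} (hr : ‖p - q‖ ≤ r * m (p - q)) :
    (A₀ - δ * r) * m (p - q) ≤ m (Ψ p - Ψ q) ∧
      |(Ψ p - Ψ q) 1| ≤ (σ + δ) * (r * m (p - q)) := by
  obtain ⟨⟨t, ht0, ht1, ht⟩, ⟨s, hs, hs'⟩, ⟨u, hu0, hu1, hu⟩⟩ := h.lip p hp q hq
  have hδ := h.hδ
  have hA₀ := h.hA₀
  have hA := h.hA
  have hAU := h.hAU
  have hσ := h.hσ
  have hN : δ * ‖p - q‖ ≤ δ * (r * m (p - q)) := mul_le_mul_of_nonneg_left hr hδ.le
  have e0 : (Ψ p - Ψ q) 0 = Ψ p 0 - Ψ q 0 := rfl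
  have e1 : (Ψ p - Ψ q) 1 = Ψ p 1 - Ψ q 1 := rfl
  have e2 : (Ψ p - Ψ q) 2 = Ψ p 2 - Ψ q 2 := rfl
  have d0 : (p - q) 0 = p 0 - q 0 := rfl
  have d1 : (p - q) 1 = p 1 - q 1 := rfl
  have d2 : (p - q) 2 = p 2 - q 2 := rfl
  constructor
  · unfold m at hN ⊢
    rcases le_total |(p - q) 0| |(p - q) 2| with hle | hle
    · rw [max_eq_right hle] at hN ⊢
      refine le_trans ?_ (le_max_right _ _)
      rw [e2]
      rw [d2] at hN ⊢
      have h1 : |u * (p 2 - q 2)| ≤ |Ψ p 2 - Ψ q 2| + δ * ‖p - q‖ := by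
        calc |u * (p 2 - q 2)| = |(Ψ p 2 - Ψ q 2) - ((Ψ p 2 - Ψ q 2) - u * (p 2 - q 2))| := by
              congr 1; ring
          _ ≤ |Ψ p 2 - Ψ q 2| + |(Ψ p 2 - Ψ q 2) - u * (p 2 - q 2)| := abs_sub _ _
          _ ≤ _ := by linarith
      rw [abs_mul, abs_of_pos (by linarith : (0 : ℝ) < u)] at h1
      have h2 : A₀ * |p 2 - q 2| ≤ u * |p 2 - q 2| :=
        mul_le_mul_of_nonneg_right (by linarith) (abs_nonneg _)
      nlinarith
    · rw [max_eq_left hle] at hN ⊢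
      refine le_trans ?_ (le_max_left _ _)
      rw [e0]
      rw [d0] at hN ⊢
      have h1 : |t * (p 0 - q 0)| ≤ |Ψ p 0 - Ψ q 0| + δ * ‖p - q‖ := by
        calc |t * (p 0 - q 0)| = |(Ψ p 0 - Ψ q 0) - ((Ψ p 0 - Ψ q 0) - t * (p 0 - q 0))| := by
              congr 1; ring
          _ ≤ |Ψ p 0 - Ψ q 0| + |(Ψ p 0 - Ψ q 0) - t * (p 0 - q 0)| := abs_sub _ _
          _ ≤ _ := by linarith
      rw [abs_mul, abs_of_pos (by linarith : (0 : ℝ) < t)] at h1
      have h2 : A₀ * |p 0 - q 0| ≤ t * |p 0 - q 0| :=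
        mul_le_mul_of_nonneg_right (by linarith) (abs_nonneg _)
      nlinarith
  · rw [e1]
    have h1 : |Ψ p 1 - Ψ q 1| ≤ |s * (p 1 - q 1)| + δ * ‖p - q‖ := by
      calc |Ψ p 1 - Ψ q 1| = |s * (p 1 - q 1) + ((Ψ p 1 - Ψ q 1) - s * (p 1 - q 1))| := by
            congr 1; ring
        _ ≤ |s * (p 1 - q 1)| + |(Ψ p 1 - Ψ q 1) - s * (p 1 - q 1)| := abs_add_le _ _
        _ ≤ _ := by linarith
    rw [abs_mul] at h1
    have h2 : |s| * |p 1 - q 1| ≤ σ * ‖p - q‖ :=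
      mul_le_mul hs (abs_le_norm (p - q) 1) (abs_nonneg _) hσ
    have h3 : σ * ‖p - q‖ ≤ σ * (r * m (p - q)) := mul_le_mul_of_nonneg_left hr hσ
    linarith

theorem m_le_box {p q : E 3} (hp : p ∈ Box X a b Z) (hq : q ∈ Box X a b Z) :
    m (p - q) ≤ 2 * (X + Z) := by
  obtain ⟨p1, -, -, p2⟩ := hp
  obtain ⟨q1, -, -, q2⟩ := hq
  have hX : 0 ≤ X := le_trans (abs_nonneg _) p1
  have hZ : 0 ≤ Z := le_trans (abs_nonneg _) p2
  unfold m
  refine max_le ?_ ?_
  · have : |(p - q) 0| ≤ |p 0| + |q 0| := abs_sub _ _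
    linarith
  · have : |(p - q) 2| ≤ |p 2| + |q 2| := abs_sub _ _
    linarith

/-- the estimate of the cone for two points with all iterates in the box -/
theorem cone_m (h : LocalMap Ψ X a b Z A₀ A₁ σ U₀ U₁ δ) {α : ℝ} (hα : 0 < α) (hα1 : α ≤ 1)
    (hαδ : δ < α * (A₀ - 1)) {c c' : E 3} (hc : ∀ k : ℕ, Ψ^[k] c ∈ Box X a b Z)
    (hc' : ∀ k : ℕ, Ψ^[k] c' ∈ Box X a b Z) : m (c - c') ≤ α * |(c - c') 1| := by
  by_contra hcon
  push Not at hcon
  have hδ := h.hδ
  have hσ := h.hσ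
  have hσδ := h.hσδ
  set l := A₀ - δ * (1 / α) with hl
  have hl1 : 1 < l := by
    have h1 : δ * (1 / α) < A₀ - 1 := by
      rw [mul_one_div, div_lt_iff₀ hα]
      linarith
    linarith
  have key : ∀ k : ℕ, α * |(Ψ^[k] c - Ψ^[k] c') 1| < m (Ψ^[k] c - Ψ^[k] c') ∧
      l ^ k * m (c - c') ≤ m (Ψ^[k] c - Ψ^[k] c') := by
    intro k
    induction k with
    | zero => simpa using hcon
    | succ k ih =>
      obtain ⟨ih1, ih2⟩ := ih
      rw [Function.iterate_succ_apply', Function.iterate_succ_apply']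
      set w := Ψ^[k] c - Ψ^[k] c' with hw
      have hm0 : 0 ≤ m w := m_nonneg w
      have hmpos : 0 < m w := lt_of_le_of_lt (mul_nonneg hα.le (abs_nonneg _)) ih1
      have hr : ‖w‖ ≤ 1 / α * m w := by
        have h1 : m w ≤ 1 / α * m w := by
          have : 1 ≤ 1 / α := by rw [le_div_iff₀ hα]; linarith
          nlinarith
        have h2 : |w 1| ≤ 1 / α * m w := by
          rw [one_div, ← div_eq_inv_mul, le_div_iff₀ hα]
          linarith
        exact norm_le (by positivity) (le_trans (le_max_left _ _) h1) h2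
          (le_trans (le_max_right _ _) h1)
      obtain ⟨s1, s2⟩ := step h (hc k) (hc' k) hr
      rw [← hw, ← hl] at s1
      have s3 : m w < m (Ψ (Ψ^[k] c) - Ψ (Ψ^[k] c')) := by
        have : 1 * m w < l * m w := mul_lt_mul_of_pos_right hl1 hmpos
        linarith
      refine ⟨?_, ?_⟩
      · have h3 : α * |(Ψ (Ψ^[k] c) - Ψ (Ψ^[k] c')) 1| ≤ (σ + δ) * m w := by
          have := mul_le_mul_of_nonneg_left s2 hα.le
          have e : α * ((σ + δ) * (1 / α * m w)) = (σ + δ) * m w := by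
            field_simp
          rw [← hw, e] at this
          exact this
        have h4 : (σ + δ) * m w ≤ 1 * m w := mul_le_mul_of_nonneg_right hσδ.le hm0
        linarith
      · calc l ^ (k + 1) * m (c - c') = l * (l ^ k * m (c - c')) := by ring
          _ ≤ l * m w := mul_le_mul_of_nonneg_left ih2 (by linarith)
          _ ≤ _ := s1
  have hm : 0 < m (c - c') := lt_of_le_of_lt (mul_nonneg hα.le (abs_nonneg _)) hcon
  obtain ⟨k, hk⟩ := pow_unbounded_of_one_lt (2 * (X + Z) / m (c - c')) hl1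
  rw [div_lt_iff₀ hm] at hk
  have h1 := (key k).2
  have h2 := m_le_box (hc k) (hc' k)
  linarith

theorem delta_lt (h : LocalMap Ψ X a b Z A₀ A₁ σ U₀ U₁ δ) : δ < 1 * (A₀ - 1) := by
  have := h.hA₀
  linarith

/-- with `α = 1`: the norm is the middle component -/
theorem norm_eq (h : LocalMap Ψ X a b Z A₀ A₁ σ U₀ U₁ δ) {c c' : E 3}
    (hc : ∀ k : ℕ, Ψ^[k] c ∈ Box X a b Z) (hc' : ∀ k : ℕ, Ψ^[k] c' ∈ Box X a b Z) :
    ‖c - c'‖ = |(c - c') 1| := by
  have h1 := cone_m h one_pos le_rfl (delta_lt h) hc hc'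
  rw [one_mul] at h1
  exact le_antisymm (norm_le (abs_nonneg _) (le_trans (le_max_left _ _) h1) le_rfl
    (le_trans (le_max_right _ _) h1)) (abs_le_norm _ 1)

theorem contr (h : LocalMap Ψ X a b Z A₀ A₁ σ U₀ U₁ δ) {p q : E 3} (hp : p ∈ Box X a b Z)
    (hq : q ∈ Box X a b Z) : |(Ψ p - Ψ q) 1| ≤ (σ + δ) * ‖p - q‖ := by
  obtain ⟨-, ⟨s, hs, hs'⟩, -⟩ := h.lip p hp q hq
  have hσ := h.hσ
  have e1 : (Ψ p - Ψ q) 1 = Ψ p 1 - Ψ q 1 := rfl
  rw [e1]
  have h1 : |Ψ p 1 - Ψ q 1| ≤ |s * (p 1 - q 1)| + δ * ‖p - q‖ := by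
    calc |Ψ p 1 - Ψ q 1| = |s * (p 1 - q 1) + ((Ψ p 1 - Ψ q 1) - s * (p 1 - q 1))| := by
          congr 1; ring
      _ ≤ |s * (p 1 - q 1)| + |(Ψ p 1 - Ψ q 1) - s * (p 1 - q 1)| := abs_add_le _ _
      _ ≤ _ := by linarith
  rw [abs_mul] at h1
  have h2 : |s| * |p 1 - q 1| ≤ σ * ‖p - q‖ :=
    mul_le_mul hs (abs_le_norm (p - q) 1) (abs_nonneg _) hσ
  linarith

theorem m_cont : Continuous m :=
  ((continuous_apply 0).abs).max ((continuous_apply 2).abs)

theorem m_smul {c : ℝ} (hc : 0 ≤ c) (w : E 3) : m (c • w) = c * m w := by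
  unfold m
  rw [Pi.smul_apply, Pi.smul_apply, smul_eq_mul, smul_eq_mul, abs_mul, abs_mul, abs_of_nonneg hc,
    mul_max_of_nonneg _ _ hc]

/-- the derivative at a fixed point expands the cone `|w 1| ≤ m w` -/
theorem deriv_cone (h : LocalMap Ψ X a b Z A₀ A₁ σ U₀ U₁ δ) {p : E 3}
    (hp : Box X a b Z ∈ 𝓝 p) {D : E 3 →L[ℝ] E 3} (hD : HasFDerivAt Ψ D p) {v : E 3}
    (hv : |v 1| ≤ m v) : (A₀ - δ) * m v ≤ m (D v) ∧ |D v 1| ≤ (σ + δ) * m v := by
  have hc : Tendsto (fun n : ℕ => ‖((n : ℝ) + 1)‖) atTop atTop := by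
    have h1 : Tendsto (fun n : ℕ => ((n : ℝ) + 1)) atTop atTop :=
      tendsto_atTop_add_const_right _ _ tendsto_natCast_atTop_atTop
    exact tendsto_norm_atTop_atTop.comp h1
  have hlim := hD.lim v hc
  have hpB : p ∈ Box X a b Z := mem_of_mem_nhds hp
  have hinv : Tendsto (fun n : ℕ => p + ((n : ℝ) + 1)⁻¹ • v) atTop (𝓝 p) := by
    have h1 : Tendsto (fun n : ℕ => ((n : ℝ) + 1)⁻¹) atTop (𝓝 0) := by
      simpa using tendsto_one_div_add_atTop_nhds_zero_nat (𝕜 := ℝ)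
    have h2 := (h1.smul_const v).const_add p
    simpa using h2
  have hev : ∀ᶠ n : ℕ in atTop, (A₀ - δ) * m v ≤
      m (((n : ℝ) + 1) • (Ψ (p + ((n : ℝ) + 1)⁻¹ • v) - Ψ p)) ∧
      |(((n : ℝ) + 1) • (Ψ (p + ((n : ℝ) + 1)⁻¹ • v) - Ψ p)) 1| ≤ (σ + δ) * m v := by
    filter_upwards [hinv.eventually hp] with n hn
    have hpos : (0 : ℝ) < (n : ℝ) + 1 := by positivity
    have hw : p + ((n : ℝ) + 1)⁻¹ • v - p = ((n : ℝ) + 1)⁻¹ • v := by abel
    have hmw : m (p + ((n : ℝ) + 1)⁻¹ • v - p) = ((n : ℝ) + 1)⁻¹ * m v := by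
      rw [hw, m_smul (by positivity)]
    have hr : ‖p + ((n : ℝ) + 1)⁻¹ • v - p‖ ≤ 1 * m (p + ((n : ℝ) + 1)⁻¹ • v - p) := by
      rw [one_mul]
      refine norm_le (m_nonneg _) (le_max_left _ _) ?_ (le_max_right _ _)
      rw [hmw, hw, Pi.smul_apply, smul_eq_mul, abs_mul, abs_of_pos (by positivity)]
      exact mul_le_mul_of_nonneg_left hv (by positivity)
    obtain ⟨s1, s2⟩ := step h hn hpB hr
    rw [hmw, mul_one] at s1
    rw [hmw, one_mul] at s2
    constructor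
    · rw [m_smul hpos.le]
      have := mul_le_mul_of_nonneg_left s1 hpos.le
      have e : ((n : ℝ) + 1) * ((A₀ - δ) * (((n : ℝ) + 1)⁻¹ * m v)) = (A₀ - δ) * m v := by
        field_simp
      rw [e] at this
      exact this
    · rw [Pi.smul_apply, smul_eq_mul, abs_mul, abs_of_pos hpos]
      have := mul_le_mul_of_nonneg_left s2 hpos.le
      have e : ((n : ℝ) + 1) * ((σ + δ) * (((n : ℝ) + 1)⁻¹ * m v)) = (σ + δ) * m v := by
        field_simp
      rw [e] at this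
      exact this
  constructor
  · exact ge_of_tendsto ((m_cont.tendsto _).comp hlim) (hev.mono fun n hn => hn.1)
  · have h1 : Tendsto (fun w : E 3 => |w 1|) (𝓝 (D v)) (𝓝 |D v 1|) :=
      ((continuous_apply 1).abs).tendsto _
    exact le_of_tendsto (h1.comp hlim) (hev.mono fun n hn => hn.2)

end Loc

open Loc

theorem cone : S_Cone := by
  intro Ψ X a b Z A₀ A₁ σ U₀ U₁ δ h α hα hα1 hαδ c c' hc hc'
  have h1 := cone_m h hα hα1 hαδ hc hc'
  exact ⟨le_trans (le_max_left _ _) h1, le_trans (le_max_right _ _) h1⟩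

theorem conv : S_Conv := by
  intro Ψ X a b Z A₀ A₁ σ U₀ U₁ δ h c c' hc hc' k
  induction k with
  | zero => simp
  | succ k ih =>
    have hck1 : ∀ j : ℕ, Ψ^[j] (Ψ^[k + 1] c) ∈ Box X a b Z := fun j => by
      rw [← Function.iterate_add_apply]; exact hc _
    have hck1' : ∀ j : ℕ, Ψ^[j] (Ψ^[k + 1] c') ∈ Box X a b Z := fun j => by
      rw [← Function.iterate_add_apply]; exact hc' _
    rw [norm_eq h hck1 hck1', Function.iterate_succ_apply', Function.iterate_succ_apply']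
    have h1 := contr h (hc k) (hc' k)
    have hσδ : 0 ≤ σ + δ := by
      have := h.hσ
      have := h.hδ
      linarith
    calc _ ≤ (σ + δ) * ‖Ψ^[k] c - Ψ^[k] c'‖ := h1
      _ ≤ (σ + δ) * ((σ + δ) ^ k * ‖c - c'‖) := mul_le_mul_of_nonneg_left ih hσδ
      _ = _ := by ring

theorem exit' : S_Exit := by
  intro Ψ X a b Z A₀ A₁ σ U₀ U₁ δ h n p c hp hc hpc h0 h2
  have hδ := h.hδ
  have hσ := h.hσ
  have hσδ := h.hσδ
  have hA₀ := h.hA₀
  have hA := h.hA
  have hAU := h.hAU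
  -- forward invariance of the cone
  have fwd : ∀ k ≤ n, |(Ψ^[k] p - Ψ^[k] c) 1| ≤ m (Ψ^[k] p - Ψ^[k] c) := by
    intro k
    induction k with
    | zero =>
      intro _
      have : (p - c) 1 = 0 := by
        show p 1 - c 1 = 0
        rw [hpc, sub_self]
      simp only [Function.iterate_zero, id_eq]
      rw [this, abs_zero]
      exact m_nonneg _
    | succ k ih =>
      intro hk
      have ih' := ih (by omega)
      rw [Function.iterate_succ_apply', Function.iterate_succ_apply']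
      have hm0 := m_nonneg (Ψ^[k] p - Ψ^[k] c)
      have hr : ‖Ψ^[k] p - Ψ^[k] c‖ ≤ 1 * m (Ψ^[k] p - Ψ^[k] c) := by
        rw [one_mul]
        exact norm_le hm0 (le_max_left _ _) ih' (le_max_right _ _)
      obtain ⟨s1, s2⟩ := step h (hp k (by omega)) (hc k (by omega)) hr
      rw [one_mul] at s2
      nlinarith
  -- backward induction
  have bwd : ∀ j ≤ n, 0 < Ψ^[n - j] p 0 - Ψ^[n - j] c 0 ∧
      |Ψ^[n - j] p 2 - Ψ^[n - j] c 2| ≤ Ψ^[n - j] p 0 - Ψ^[n - j] c 0 := by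
    intro j
    induction j with
    | zero => intro _; exact ⟨h0, h2⟩
    | succ j ih =>
      intro hj
      obtain ⟨i0, i2⟩ := ih (by omega)
      obtain ⟨k, hk⟩ : ∃ k, n - (j + 1) = k := ⟨_, rfl⟩
      have hk1 : n - j = k + 1 := by omega
      rw [hk1, Function.iterate_succ_apply', Function.iterate_succ_apply'] at i0 i2
      rw [hk]
      have hkn : k < n := by omega
      have hf := fwd k hkn.le
      obtain ⟨⟨t, ht0, ht1, ht⟩, -, ⟨u, hu0, hu1, hu⟩⟩ := h.lip _ (hp k hkn) _ (hc k hkn)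
      set P := Ψ^[k] p
      set C := Ψ^[k] c
      have d0 : (P - C) 0 = P 0 - C 0 := rfl
      have d2 : (P - C) 2 = P 2 - C 2 := rfl
      have hN : ‖P - C‖ ≤ m (P - C) :=
        norm_le (m_nonneg _) (le_max_left _ _) hf (le_max_right _ _)
      have hN' : δ * ‖P - C‖ ≤ δ * m (P - C) := mul_le_mul_of_nonneg_left hN hδ.le
      have ht' := abs_le.1 (le_trans ht hN')
      have hu' := abs_le.1 (le_trans hu hN')
      have hle : |P 2 - C 2| ≤ |P 0 - C 0| := by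
        by_contra hcon
        push Not at hcon
        have hm : m (P - C) = |P 2 - C 2| := by
          unfold m
          rw [d0, d2, max_eq_right hcon.le]
        rw [hm] at ht' hu'
        have hpos : 0 < |P 2 - C 2| := lt_of_le_of_lt (abs_nonneg _) hcon
        -- upper bound of the component 0
        have e1 : Ψ P 0 - Ψ C 0 ≤ (A₁ + δ) * |P 2 - C 2| := by
          have h1 : t * (P 0 - C 0) ≤ t * |P 0 - C 0| :=
            mul_le_mul_of_nonneg_left (le_abs_self _) (by linarith)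
          have h2 : t * |P 0 - C 0| ≤ A₁ * |P 2 - C 2| :=
            mul_le_mul ht1 hcon.le (abs_nonneg _) (by linarith)
          linarith
        have e2 : (U₀ - δ) * |P 2 - C 2| ≤ |Ψ P 2 - Ψ C 2| := by
          have h1 : |u * (P 2 - C 2)| ≤ |Ψ P 2 - Ψ C 2| + δ * |P 2 - C 2| := by
            calc |u * (P 2 - C 2)| = |(Ψ P 2 - Ψ C 2) - ((Ψ P 2 - Ψ C 2) - u * (P 2 - C 2))| := by
                  congr 1; ring
              _ ≤ |Ψ P 2 - Ψ C 2| + |(Ψ P 2 - Ψ C 2) - u * (P 2 - C 2)| := abs_sub _ _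
              _ ≤ _ := by
                have := le_trans hu hN'
                rw [hm] at this
                linarith
          rw [abs_mul, abs_of_pos (by linarith : (0 : ℝ) < u)] at h1
          have h2 : U₀ * |P 2 - C 2| ≤ u * |P 2 - C 2| :=
            mul_le_mul_of_nonneg_right hu0 (abs_nonneg _)
          linarith
        have e3 : (A₁ + δ) * |P 2 - C 2| < (U₀ - δ) * |P 2 - C 2| :=
          mul_lt_mul_of_pos_right (by linarith) hpos
        linarith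
      have hm : m (P - C) = |P 0 - C 0| := by
        unfold m
        rw [d0, d2, max_eq_left hle]
      rw [hm] at ht'
      have hpos : 0 < P 0 - C 0 := by
        by_contra hcon
        push Not at hcon
        rw [abs_of_nonpos hcon] at ht'
        nlinarith
      refine ⟨hpos, ?_⟩
      rwa [abs_of_pos hpos] at hle
  have := bwd n le_rfl
  simpa using this

theorem grow : S_Grow := by
  intro Ψ X a b Z A₀ A₁ σ U₀ U₁ δ h p hp hfix hdiff v hv1 hlim
  have hδ := h.hδ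
  have hσ := h.hσ
  have hσδ := h.hσδ
  have hA₀ := h.hA₀
  have hD := hdiff.hasFDerivAt
  set D := fderiv ℝ Ψ p with hDdef
  have key : ∀ n : ℕ, |(D ^ n) v 1| ≤ m ((D ^ n) v) ∧ m v ≤ m ((D ^ n) v) := by
    intro n
    induction n with
    | zero =>
      simp only [pow_zero, ContinuousLinearMap.one_apply]
      rw [hv1, abs_zero]
      exact ⟨m_nonneg _, le_rfl⟩
    | succ n ih =>
      obtain ⟨i1, i2⟩ := ih
      rw [pow_succ', ContinuousLinearMap.mul_apply]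
      obtain ⟨s1, s2⟩ := deriv_cone h hp hD i1
      have hm0 := m_nonneg ((D ^ n) v)
      constructor
      · nlinarith
      · nlinarith
  have hit : ∀ n : ℕ, fderiv ℝ (Ψ^[n]) p v = (D ^ n) v := by
    intro n
    rw [(hD.iterate hfix n).fderiv]
  have hm : m v ≤ 0 := by
    have h1 : Tendsto (fun n : ℕ => m (fderiv ℝ (Ψ^[n]) p v)) atTop (𝓝 (m 0)) :=
      (m_cont.tendsto _).comp hlim
    have h0 : m (0 : E 3) = 0 := by simp [m]
    rw [h0] at h1
    refine ge_of_tendsto' h1 fun n => ?_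
    rw [hit n]
    exact (key n).2
  have e0 : v 0 = 0 := abs_nonpos_iff.1 (le_trans (le_max_left _ _) hm)
  have e2 : v 2 = 0 := abs_nonpos_iff.1 (le_trans (le_max_right _ _) hm)
  funext i
  fin_cases i
  · exact e0
  · exact hv1
  · exact e2

end HetCyc
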