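import Pool.Agent.HetCyc.Basic2

/-!
# The derivative of the model at `bt`
-/

namespace HetCyc

open Filter Topology Set Real

noncomputable section

namespace NearBAux

lemma k1_hd : HasDerivAt k1 0 (3 / 16) := by
  have h : DifferentiableAt ℝ k1 (3 / 16) :=
    ((contDiff_k1 (n := 1)).differentiable (by norm_num)) _
  have hm : IsLocalMax k1 (3 / 16) := Filter.Eventually.of_forall fun y => by
    rw [k1_b]
    exact k1_nonpos y
  have h2 := h.hasDerivAt
  rwa [hm.deriv_eq_zero] at h2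

lemma om2_b : om2 (3 / 16) = 0 := om2_eq_zero (by norm_num) (by norm_num)

lemma om2_hd : HasDerivAt om2 0 (3 / 16) := by
  have h : DifferentiableAt ℝ om2 (3 / 16) :=
    ((contDiff_om2 (n := 1)).differentiable (by norm_num)) _
  have hm : IsLocalMin om2 (3 / 16) := Filter.Eventually.of_forall fun y => by
    rw [om2_b]
    exact om2_nonneg y
  have h2 := h.hasDerivAt
  rwa [hm.deriv_eq_zero] at h2

lemma sin_hd : HasDerivAt (fun y : ℝ => Real.sin (2 * π * (y - 3 / 16))) (2 * π) (3 / 16) := by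
  have h1 : HasDerivAt (fun y : ℝ => 2 * π * (y - 3 / 16)) (2 * π) (3 / 16) := by
    have := ((hasDerivAt_id (3 / 16 : ℝ)).sub_const (3 / 16)).const_mul (2 * π)
    simpa using this
  have h2 := h1.sin
  simpa using h2

lemma k2_hd : HasDerivAt k2 kap (3 / 16) := by
  have h : DifferentiableAt ℝ om (3 / 16) :=
    ((contDiff_om (n := 1)).differentiable (by norm_num)) _
  have h1 := ((sin_hd.mul h.hasDerivAt).add om2_hd).const_mul (1 / 40)
  have h2 : HasDerivAt k2 (1 / 40 * (2 * π * om (3 / 16) +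
      Real.sin (2 * π * (3 / 16 - 3 / 16)) * deriv om (3 / 16) + 0)) (3 / 16) := h1
  have h3 : 1 / 40 * (2 * π * om (3 / 16) +
      Real.sin (2 * π * (3 / 16 - 3 / 16)) * deriv om (3 / 16) + 0) = kap := by
    unfold kap
    simp
    ring
  rwa [h3] at h2

lemma kap_pos : 0 < kap := by
  unfold kap
  have : 0 < om (3 / 16) := om_pos (by norm_num)
  positivity

lemma kap_le_one : kap ≤ 1 := by
  unfold kap
  have h1 : om (3 / 16) ≤ 1 := om_le_one _
  have h0 : 0 ≤ om (3 / 16) := om_nonneg _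
  have h2 := pi_bounds.2
  have h3 := Real.pi_pos
  nlinarith

lemma hh_nonneg (x z : ℝ) : 0 ≤ hh x z := by
  unfold hh
  have h1 := cc_nonneg (x - 2 / 25)
  have h2 : 0 ≤ ee (x - 2 / 25) := smoothTransition.nonneg _
  have h3 := cc_nonneg z
  have h4 : 0 ≤ ee z := smoothTransition.nonneg _
  positivity

lemma hh_b : hh 0 0 = 0 := by
  have h : ee (0 - 2 / 25) = 0 := by
    unfold ee
    apply smoothTransition.zero_of_nonpos
    have h1 : cs (0 - 2 / 25) ≤ cs (1 / 250) := by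
      have : (0 - 2 / 25 : ℝ) = -(2 / 25) := by norm_num
      rw [this, cs_neg]
      exact cs_le_cs (by norm_num) (by norm_num) (by norm_num)
    have h2 : cs (1 / 250) ≤ 1 := cs_le_one _
    apply div_nonpos_of_nonpos_of_nonneg <;> linarith
  unfold hh
  rw [h]
  ring

/-- The projections. -/
abbrev pr (i : Fin 3) : E 3 →L[ℝ] ℝ := ContinuousLinearMap.proj (R := ℝ) (φ := fun _ : Fin 3 => ℝ) i

lemma pr_hd (i : Fin 3) (p : E 3) : HasFDerivAt (fun q : E 3 => q i) (pr i) p :=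
  hasFDerivAt_apply i p

lemma lam_b : lam (3 / 16) = -(1 / 2) := by
  unfold lam
  rw [tau_Q (by rw [abs_of_pos] <;> norm_num)]
  ring

lemma mu_b : mu (3 / 16) = -(4 / 5) := by
  unfold mu
  rw [tau_Q (by rw [abs_of_pos] <;> norm_num)]
  ring

lemma bt_zero : bt 0 = 0 := rfl
lemma bt_one : bt 1 = 3 / 16 := rfl
lemma bt_two : bt 2 = 0 := rfl

lemma comp_hd {f : ℝ → ℝ} {f' : ℝ} {i : Fin 3} {p : E 3} (h : HasDerivAt f f' (p i)) :
    HasFDerivAt (fun q : E 3 => f (q i)) (f' • pr i) p :=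
  h.comp_hasFDerivAt p (pr_hd i p)

lemma fx_hd : HasFDerivAt (fun p : E 3 => ax (p 1) (p 0)) ((1 / 2 : ℝ) • pr 0) bt := by
  have hl : DifferentiableAt ℝ lam (3 / 16) :=
    ((contDiff_lam (n := 1)).differentiable (by norm_num)) _
  have h1 := (comp_hd (i := 1) (p := bt) hl.hasDerivAt).mul
    (comp_hd (i := 0) (p := bt) (hasDerivAt_sn 0))
  have h2 := (comp_hd (i := 1) (p := bt) k1_hd).mul
    (comp_hd (i := 0) (p := bt) (hasDerivAt_cc 0))
  have h3 := ((pr_hd 0 bt).add h1).add h2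
  refine HasFDerivAt.congr_fderiv h3 ?_
  ext v
  simp [bt_zero, bt_one, lam_b, k1_b, sn_zero, cs_zero]
  ring

lemma fz_hd : HasFDerivAt (fun p : E 3 => bz (p 1) (p 2)) (kap • pr 1 + (1 / 5 : ℝ) • pr 2) bt := by
  have hl : DifferentiableAt ℝ mu (3 / 16) :=
    ((contDiff_mu (n := 1)).differentiable (by norm_num)) _
  have h1 := (comp_hd (i := 1) (p := bt) hl.hasDerivAt).mul
    (comp_hd (i := 2) (p := bt) (hasDerivAt_sn 0))
  have h2 := (comp_hd (i := 1) (p := bt) k2_hd).mul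
    (comp_hd (i := 2) (p := bt) (hasDerivAt_cc 0))
  have h3 := ((pr_hd 2 bt).add h1).add h2
  refine HasFDerivAt.congr_fderiv h3 ?_
  ext v
  simp [bt_two, bt_one, mu_b, k2_b, sn_zero, cs_zero, cc_zero]
  ring

lemma fh_hd : HasFDerivAt (fun p : E 3 => hh (ax (p 1) (p 0)) (bz (p 1) (p 2)))
    (0 : E 3 →L[ℝ] ℝ) bt := by
  have h : DifferentiableAt ℝ (fun p : E 3 => hh (ax (p 1) (p 0)) (bz (p 1) (p 2))) bt :=
    ((contDiff_fh (n := 1)).differentiable (by norm_num)) _
  have hax : ax (bt 1) (bt 0) = 0 := by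
    rw [bt_zero, bt_one, ax_zero, k1_b]
  have hbz : bz (bt 1) (bt 2) = 0 := by
    rw [bt_two, bt_one]
    simp [bz, sn_zero, k2_b]
  have hm : IsLocalMin (fun p : E 3 => hh (ax (p 1) (p 0)) (bz (p 1) (p 2))) bt :=
    Filter.Eventually.of_forall fun p => by
      simp only
      rw [hax, hbz, hh_b]
      exact hh_nonneg _ _
  have h2 := h.hasFDerivAt
  rwa [hm.fderiv_eq_zero] at h2

lemma fy_hd : HasFDerivAt (fun p : E 3 => phi (p 1) + hh (ax (p 1) (p 0)) (bz (p 1) (p 2)))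
    ((1 + 4 / 5 * cs (3 / 16)) • pr 1) bt := by
  have h1 := (comp_hd (i := 1) (p := bt) (hasDerivAt_phi (3 / 16))).add fh_hd
  refine HasFDerivAt.congr_fderiv h1 ?_
  rw [add_zero]

/-- The derivative. -/
def LbL : E 3 →L[ℝ] E 3 := ContinuousLinearMap.pi
  ![(1 / 2 : ℝ) • pr 0, (1 + 4 / 5 * cs (3 / 16)) • pr 1, kap • pr 1 + (1 / 5 : ℝ) • pr 2]

lemma LbL_apply (v : E 3) : LbL v = Lb v := by
  unfold LbL Lb
  funext i
  fin_cases i
  · simp
    ring
  · simp
  · simp
    ring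

lemma fmap_hd : HasFDerivAt fmap LbL bt := by
  rw [hasFDerivAt_pi']
  intro i
  fin_cases i
  · refine HasFDerivAt.congr_fderiv fx_hd ?_
    ext v
    simp [LbL]
  · refine HasFDerivAt.congr_fderiv fy_hd ?_
    ext v
    simp [LbL]
  · refine HasFDerivAt.congr_fderiv fz_hd ?_
    ext v
    simp [LbL]

lemma fmap_strict : HasStrictFDerivAt fmap LbL bt := by
  have h := ((contDiff_fmap (n := 1)).contDiffAt (x := bt)).hasStrictFDerivAt (by norm_num)
  rwa [fmap_hd.fderiv] at h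

end NearBAux

open NearBAux in
theorem nearB : S_NearB := by
  refine ⟨kap_pos, kap_le_one, fun α hα => ?_⟩
  have h := fmap_strict.isLittleO.def hα
  rw [Metric.eventually_nhds_iff] at h
  obtain ⟨ρ, hρ, h3⟩ := h
  refine ⟨ρ / 2, by positivity, fun p q hp hq => ?_⟩
  have e : 2 * (ρ / 2) = ρ := by ring
  rw [e, ← dist_eq_norm] at hp hq
  have h4 := h3 (y := (p, q)) (by rw [Prod.dist_eq]; exact max_lt hp hq)
  simpa only [LbL_apply] using h4

end

end HetCyc
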