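import Pool.Agent.HetCyc.Stmts

/-!
# The order argument

`theorem order : S_Leaf → S_Cone → S_Exit → S_Order`.
-/

namespace HetCyc

namespace OrderAux

open Filter Topology Set

/-! ## elementary facts -/

lemma abs_apply_le (p : E 3) (i : Fin 3) : |p i| ≤ ‖p‖ := by
  simpa [Real.norm_eq_abs] using norm_le_pi_norm p i

lemma norm_le_of (p : E 3) {r : ℝ} (hr : 0 ≤ r) (h0 : |p 0| ≤ r) (h1 : |p 1| ≤ r)
    (h2 : |p 2| ≤ r) : ‖p‖ ≤ r := by
  rw [pi_norm_le_iff_of_nonneg hr]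
  intro i
  fin_cases i <;> simpa [Real.norm_eq_abs]

lemma abs_sn_sub_le (x y : ℝ) : |sn x - sn y| ≤ |x - y| := by
  have hpi : (0 : ℝ) < 2 * Real.pi := by positivity
  have h := Real.abs_sin_sub_sin_le (2 * Real.pi * x) (2 * Real.pi * y)
  have e : sn x - sn y =
      (Real.sin (2 * Real.pi * x) - Real.sin (2 * Real.pi * y)) / (2 * Real.pi) := by
    unfold sn; ring
  rw [e, abs_div, abs_of_pos hpi, div_le_iff₀ hpi]
  calc _ ≤ |2 * Real.pi * x - 2 * Real.pi * y| := h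
    _ = |x - y| * (2 * Real.pi) := by
      rw [← mul_sub, abs_mul, abs_of_pos hpi, mul_comm]

lemma phi_strictMono : StrictMono phi := by
  intro x y hxy
  have h := abs_sn_sub_le x y
  have h1 : |x - y| = y - x := by rw [abs_sub_comm, abs_of_pos (by linarith)]
  rw [h1] at h
  have h2 := abs_le.1 h
  unfold phi
  nlinarith [h2.1, h2.2]

lemma aP_strictMono : StrictMono aP := by
  intro x y hxy
  have h := abs_sn_sub_le x y
  have h1 : |x - y| = y - x := by rw [abs_sub_comm, abs_of_pos (by linarith)]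
  rw [h1] at h
  have h2 := abs_le.1 h
  unfold aP
  nlinarith [h2.1, h2.2]

lemma phi_zero : phi 0 = 0 := by simp [phi, sn]

lemma phi_half : phi (1 / 2) = 1 / 2 := by
  have : (2 : ℝ) * Real.pi * (1 / 2) = Real.pi := by ring
  simp only [phi, sn, this, Real.sin_pi]
  norm_num

lemma phi_b0 : (28 : ℝ) / 100 ≤ phi (3 / 16) := by
  have hpi : (0 : ℝ) < Real.pi := Real.pi_pos
  have h3 : Real.pi < 3.15 := Real.pi_lt_d2
  have h := Real.mul_le_sin (x := 2 * Real.pi * (3 / 16)) (by positivity) (by nlinarith)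
  have e : 2 / Real.pi * (2 * Real.pi * (3 / 16)) = 3 / 4 := by field_simp; norm_num
  rw [e] at h
  unfold phi sn
  have h4 : 3 / 4 / (2 * Real.pi) ≤ Real.sin (2 * Real.pi * (3 / 16)) / (2 * Real.pi) := by
    gcongr
  have h5 : (118 : ℝ) / 1000 ≤ 3 / 4 / (2 * Real.pi) := by
    rw [le_div_iff₀ (by positivity)]
    nlinarith
  linarith

lemma phi_iter_ge (j : ℕ) : (28 : ℝ) / 100 ≤ phi^[j + 1] (3 / 16) := by
  induction j with
  | zero => simpa using phi_b0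
  | succ j ih =>
    rw [Function.iterate_succ_apply']
    have : phi (3 / 16) ≤ phi (phi^[j + 1] (3 / 16)) :=
      phi_strictMono.monotone (by linarith)
    linarith [phi_b0]

lemma phi_iter_le (j : ℕ) : phi^[j] (3 / 16) ≤ 1 / 2 := by
  have h := (phi_strictMono.monotone.iterate j) (show (3 / 16 : ℝ) ≤ 1 / 2 by norm_num)
  have h2 : phi^[j] (1 / 2) = 1 / 2 := Function.iterate_fixed phi_half j
  linarith [h, h2]

lemma pre_le {y : ℝ} {j : ℕ} (h : phi^[j] y = 3 / 16) : y ≤ 3 / 16 := by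
  by_contra hlt
  push Not at hlt
  have h1 := (phi_strictMono.iterate j) hlt
  have h2 : (3 / 16 : ℝ) ≤ phi^[j] (3 / 16) := by
    rcases j with _ | j
    · simp
    · linarith [phi_iter_ge j]
  linarith

lemma pre_ge {y : ℝ} {j : ℕ} (h : phi^[j] y = 3 / 16) : 0 ≤ y := by
  by_contra hlt
  push Not at hlt
  have h1 := (phi_strictMono.iterate j) hlt
  have h2 : phi^[j] 0 = 0 := Function.iterate_fixed phi_zero j
  rw [h2, h] at h1
  norm_num at h1

lemma NP_y {ρ : ℝ} {p : E 3} (h : p ∈ NP ρ) : 28 / 100 - ρ < p 1 ∧ p 1 < 1 / 2 + ρ := by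
  obtain ⟨c, hc, hpc⟩ := h
  have h1 : |p 1 - c 1| < ρ := lt_of_le_of_lt (abs_apply_le (p - c) 1) hpc
  have h2 : (28 : ℝ) / 100 ≤ c 1 ∧ c 1 ≤ 1 / 2 := by
    rcases hc with ⟨-, h, -⟩ | ⟨j, -, h, -⟩ | ⟨j, -, h, -⟩
    · rw [h]; norm_num
    · rw [h]; norm_num
    · rw [h]; exact ⟨phi_iter_ge j, phi_iter_le _⟩
  have h3 := abs_lt.1 h1
  constructor <;> linarith [h3.1, h3.2, h2.1, h2.2]

lemma NQ_y {ρ : ℝ} {p : E 3} (h : p ∈ NQ ρ) : -ρ < p 1 ∧ p 1 < 3 / 16 + ρ := by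
  obtain ⟨c, hc, hpc⟩ := h
  have h1 : |p 1 - c 1| < ρ := lt_of_le_of_lt (abs_apply_le (p - c) 1) hpc
  have h2 : (0 : ℝ) ≤ c 1 ∧ c 1 ≤ 3 / 16 := by
    rcases hc with ⟨-, h, -⟩ | ⟨j, -, h, -⟩ | ⟨j, -, h, -⟩
    · rw [h]; norm_num
    · rw [h]; norm_num
    · exact ⟨pre_ge h, pre_le h⟩
  have h3 := abs_lt.1 h1
  constructor <;> linarith [h3.1, h3.2, h2.1, h2.2]

lemma not_NP_of_NQ {ρ : ℝ} (hρ : ρ ≤ 1 / 1000) {p : E 3} (h : p ∈ NQ ρ) : p ∉ NP ρ := by
  intro h'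
  have h1 := NP_y h'
  have h2 := NQ_y h
  linarith [h1.1, h2.2]

lemma continuous_aP : Continuous aP := by
  unfold aP sn
  fun_prop

lemma aP_xm : aP xm = 2 / 25 := by
  have h : ∃ x, aP x = 2 / 25 := by
    have h0 : aP 0 ≤ 2 / 25 := by simp only [aP, sn, mul_zero, Real.sin_zero]; norm_num
    have h1 : (2 : ℝ) / 25 ≤ aP (1 / 2) := by
      have : (2 : ℝ) * Real.pi * (1 / 2) = Real.pi := by ring
      simp only [aP, sn, this, Real.sin_pi]
      norm_num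
    obtain ⟨x, -, hx⟩ := intermediate_value_Icc (show (0 : ℝ) ≤ 1 / 2 by norm_num)
      continuous_aP.continuousOn ⟨h0, h1⟩
    exact ⟨x, hx⟩
  exact Function.invFun_eq h

lemma xm_gt : (53 : ℝ) / 1000 < xm := by
  by_contra h
  push Not at h
  have h1 := aP_strictMono.monotone h
  rw [aP_xm] at h1
  have h2 : |sn (53 / 1000) - sn 0| ≤ |53 / 1000 - 0| := abs_sn_sub_le _ _
  have h3 : sn 0 = 0 := by simp [sn]
  rw [h3, sub_zero, sub_zero, abs_of_pos (show (0 : ℝ) < 53 / 1000 by norm_num)] at h2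
  have h4 := (abs_le.1 h2).2
  unfold aP at h1
  linarith

lemma kap_le_one : kap ≤ 1 := by
  have h1 : om (3 / 16) ≤ 1 := by
    unfold om expNegInvGlue
    split_ifs with h
    · norm_num
    · push Not at h
      rw [Real.exp_le_one_iff]
      have := inv_pos.2 h
      linarith
  have h0 : 0 ≤ om (3 / 16) := expNegInvGlue.nonneg _
  have h3 : Real.pi < 3.15 := Real.pi_lt_d2
  have hpi : (0 : ℝ) < Real.pi := Real.pi_pos
  unfold kap
  have h4 : Real.pi / 20 ≤ 1 := by linarith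
  calc Real.pi / 20 * om (3 / 16) ≤ 1 * 1 := by
        apply mul_le_mul h4 h1 h0 (by norm_num)
    _ = 1 := by norm_num

/-! ## orbits -/

lemma iter_fwd {g : E 3 ≃ E 3} {u : ℤ → E 3} (hu : ∀ n, g (u n) = u (n + 1)) (n : ℤ) (k : ℕ) :
    (⇑g)^[k] (u n) = u (n + k) := by
  induction k with
  | zero => simp
  | succ k ih =>
    rw [Function.iterate_succ_apply', ih, hu]
    congr 1
    push_cast; ring

lemma iter_bwd {g : E 3 ≃ E 3} {u : ℤ → E 3} (hu : ∀ n, g (u n) = u (n + 1)) (n : ℤ) (k : ℕ) :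
    (⇑g.symm)^[k] (u n) = u (n - k) := by
  induction k with
  | zero => simp
  | succ k ih =>
    rw [Function.iterate_succ_apply', ih, Equiv.symm_apply_eq, hu]
    congr 1
    push_cast; ring

/-! ## the two orbits -/

variable {ρ : ℝ} {g : E 3 ≃ E 3}

lemma u0_near (hg : Good ρ g) {u : ℤ → E 3} (hu : IsKOrbit g u) {n : ℤ} (h0 : u n ∈ NQ ρ)
    (h1 : u (n + 1) ∈ NP ρ) : ‖u n - bt‖ < ρ := by
  rcases hg.passages.backP u hu n h1 with h | ⟨h, -⟩
  · exact absurd h (not_NP_of_NQ hg.hρ' h0)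
  · exact h

lemma u_bwd (hg : Good ρ g) {u : ℤ → E 3} (hu : IsKOrbit g u) (h : ∀ n ≤ 0, u n ∈ NQ ρ) :
    ∀ k : ℕ, (⇑g.symm)^[k] (u 0) ∈ BoxQ := by
  intro k
  rw [iter_bwd hu.step, zero_sub]
  have h1 : u (-(k : ℤ) - 1) ∈ NQ ρ := h _ (by omega)
  have h2 : u (-(k : ℤ) - 1 + 1) ∈ NQ ρ := h _ (by omega)
  have h3 := hg.passages.backQ u hu (-(k : ℤ) - 1) h2
  rw [sub_add_cancel] at h3
  rcases h3 with ⟨-, h4⟩ | ⟨h4, -, -⟩
  · exact h4
  · exfalso
    have h5 := NP_y h4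
    have h6 := NQ_y h1
    have h7 : (u (-(k : ℤ) - 1) + ey) 1 = u (-(k : ℤ) - 1) 1 + 1 := by
      simp [ey]
    rw [h7] at h5
    have := hg.hρ'
    linarith [h5.2, h6.1]

lemma v_fwd (hg : Good ρ g) {v : ℤ → E 3} (hv : IsKOrbit g v) (h : ∀ n, 0 ≤ n → v n ∈ NP ρ) :
    ∀ k : ℕ, (⇑g)^[k] (v 0) ∈ BoxP := by
  intro k
  rw [iter_fwd hv.step, zero_add]
  rcases hg.passages.stepP v hv k (h _ (by omega)) with ⟨-, h4⟩ | ⟨-, h4⟩
  · exact h4
  · exfalso
    have h5 := NQ_y h4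
    have h6 := NP_y (h (k + 1) (by omega))
    have h7 : (v ((k : ℤ) + 1) - ey) 1 = v ((k : ℤ) + 1) 1 - 1 := by
      simp [ey]
    rw [h7] at h5
    have := hg.hρ'
    linarith [h5.1, h6.2]

/-- the alternative at the first exit of the box of `P` -/
lemma exitP (hg : Good ρ g) {u : ℤ → E 3} (hu : IsKOrbit g u) (h1 : u 1 ∈ NP ρ) :
    (∀ n : ℕ, (⇑g)^[n] (u 1) ∈ BoxP) ∨
      ∃ n : ℕ, (∀ k < n, (⇑g)^[k] (u 1) ∈ BoxP) ∧ ‖(⇑g)^[n] (u 1) - Xm‖ < ρ := by
  classical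
  by_cases hall : ∀ n : ℕ, (⇑g)^[n] (u 1) ∈ BoxP
  · exact Or.inl hall
  · right
    push Not at hall
    obtain ⟨n, hn, hmin⟩ : ∃ n, (⇑g)^[n] (u 1) ∉ BoxP ∧ ∀ k < n, (⇑g)^[k] (u 1) ∈ BoxP :=
      ⟨Nat.find hall, Nat.find_spec hall, fun k hk => by
        have := Nat.find_min hall hk
        push Not at this
        exact this⟩
    refine ⟨n, hmin, ?_⟩
    have hNP : ∀ k ≤ n, u (1 + k) ∈ NP ρ := by
      intro k
      induction k with
      | zero => intro _; simpa using h1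
      | succ k ih =>
        intro hk
        have h2 := ih (by omega)
        rcases hg.passages.stepP u hu (1 + k) h2 with ⟨h3, -⟩ | ⟨h3, -⟩
        · have e : (1 : ℤ) + ((k + 1 : ℕ) : ℤ) = 1 + k + 1 := by push_cast; ring
          rw [e]; exact h3
        · exfalso
          have h4 := hmin k (by omega)
          rw [iter_fwd hu.step] at h4
          have h5 := h4.1
          have h6 : |u (1 + k) 0 - xm| < ρ := by
            have := abs_apply_le (u (1 + k) - Xm) 0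
            have h7 : (u (1 + k) - Xm) 0 = u (1 + k) 0 - xm := by simp [Xm]
            rw [h7] at this
            linarith
          have h8 := abs_lt.1 h6
          have h9 := abs_le.1 h5
          have := hg.hρ'
          have := xm_gt
          linarith [h8.1, h8.2, h9.1, h9.2]
    have h2 := hNP n le_rfl
    rw [iter_fwd hu.step] at hn ⊢
    rcases hg.passages.stepP u hu (1 + n) h2 with ⟨-, h3⟩ | ⟨h3, -⟩
    · exact absurd h3 hn
    · exact h3

/-- the alternative at the first exit of the box of `Q`, backwards in time -/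
lemma exitQ (hg : Good ρ g) {v : ℤ → E 3} (hv : IsKOrbit g v) (h1 : v (-1) ∈ NQ ρ) :
    (∀ n : ℕ, (⇑g.symm)^[n] (v (-1)) ∈ BoxQ) ∨
      ∃ n : ℕ, (∀ k < n, (⇑g.symm)^[k] (v (-1)) ∈ BoxQ) ∧
        |(⇑g.symm)^[n] (v (-1)) 0 - 2 / 25| ≤ 1 / 200 ∧
        |(⇑g.symm)^[n] (v (-1)) 2| ≤ 1 / 200 := by
  classical
  by_cases hall : ∀ n : ℕ, (⇑g.symm)^[n] (v (-1)) ∈ BoxQ
  · exact Or.inl hall
  · right
    push Not at hall
    obtain ⟨n, hn, hmin⟩ : ∃ n, (⇑g.symm)^[n] (v (-1)) ∉ BoxQ ∧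
        ∀ k < n, (⇑g.symm)^[k] (v (-1)) ∈ BoxQ :=
      ⟨Nat.find hall, Nat.find_spec hall, fun k hk => by
        have := Nat.find_min hall hk
        push Not at this
        exact this⟩
    refine ⟨n, hmin, ?_⟩
    have hNQ : ∀ k ≤ n, v (-1 - k) ∈ NQ ρ := by
      intro k
      induction k with
      | zero => intro _; simpa using h1
      | succ k ih =>
        intro hk
        have h2 := ih (by omega)
        have e : (-1 : ℤ) - k = (-1 - k - 1) + 1 := by ring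
        rw [e] at h2
        rcases hg.passages.backQ v hv (-1 - k - 1) h2 with ⟨h3, -⟩ | ⟨-, h3, -⟩
        · have e : (-1 : ℤ) - ((k + 1 : ℕ) : ℤ) = -1 - k - 1 := by push_cast; ring
          rw [e]; exact h3
        · exfalso
          have h4 := hmin k (by omega)
          rw [iter_bwd hv.step] at h4
          rw [sub_add_cancel] at h3
          have h9 := abs_le.1 h4.1
          have h8 := abs_le.1 h3
          linarith [h8.1, h8.2, h9.1, h9.2]
    have h2 := hNQ n le_rfl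
    rw [iter_bwd hv.step] at hn ⊢
    have e : (-1 : ℤ) - n = (-1 - n - 1) + 1 := by ring
    rw [e] at h2
    have h3 := hg.passages.backQ v hv (-1 - n - 1) h2
    rw [sub_add_cancel] at h3
    rcases h3 with ⟨-, h3⟩ | ⟨-, h3⟩
    · exact absurd h3 hn
    · exact h3

/-! ## the linear inequality -/

/-- the linear inequality of the order argument -/
lemma linear_ineq {κ t a b w1 w2 e0 e1 e2 V0 V1 V2 f0 f1 f2 T0 T1 T2 : ℝ}
    (hκ : 0 < κ) (hκ1 : κ ≤ 1) (ht : |t| ≤ 9 / 5)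
    (ha : 0 ≤ a) (hb : 0 ≤ b) (hw1 : |w1| ≤ a) (hw2 : |w2| ≤ b)
    (he0 : |e0| ≤ κ / 40 * b) (he1 : |e1| ≤ κ / 40 * b) (he2 : |e2| ≤ κ / 40 * b)
    (hV0 : |V0| ≤ κ / 40 * |V1|) (hV2 : |V2| ≤ κ / 40 * |V1|)
    (hf0 : |f0| ≤ κ / 40 * |V1|) (hf1 : |f1| ≤ κ / 40 * |V1|) (hf2 : |f2| ≤ κ / 40 * |V1|)
    (hT0 : |T0| ≤ κ / 40 * |T1|) (hT2 : |T2| ≤ κ / 40 * |T1|)
    (E0 : a + b / 2 + e0 = V0 / 2 + f0 + T0)
    (E1 : e1 = t * V1 + f1 + T1)
    (E2 : w1 + w2 / 5 + e2 = κ * V1 + V2 / 5 + f2 + T2) : a = 0 ∧ b = 0 := by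
  have hV := abs_nonneg V1
  have hT := abs_nonneg T1
  -- bound of `T1`
  have h1 : |T1| ≤ κ / 40 * b + 9 / 5 * |V1| + κ / 40 * |V1| := by
    have e : T1 = e1 - t * V1 - f1 := by linarith
    have h2 : |t * V1| ≤ 9 / 5 * |V1| := by rw [abs_mul]; gcongr
    calc |T1| = |e1 - t * V1 - f1| := by rw [← e]
      _ ≤ |e1 - t * V1| + |f1| := abs_sub _ _
      _ ≤ |e1| + |t * V1| + |f1| := by gcongr; exact abs_sub _ _
      _ ≤ _ := by linarith
  have hb' : κ / 40 * b ≤ b / 40 := by nlinarith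
  have hV' : κ / 40 * |V1| ≤ |V1| / 40 := by nlinarith
  have hT1 : |T1| ≤ b / 40 + 2 * |V1| := by linarith
  have hκT : κ / 40 * |T1| ≤ b / 1600 + κ / 20 * |V1| := by
    have : κ / 40 * |T1| ≤ κ / 40 * (b / 40 + 2 * |V1|) := by gcongr
    nlinarith
  -- bound of `κ |V1|`
  have h2 : κ * |V1| ≤ a + b / 5 + κ / 40 * b + κ / 200 * |V1| + κ / 40 * |V1| +
      κ / 40 * |T1| := by
    have e : κ * V1 = w1 + w2 / 5 + e2 - V2 / 5 - f2 - T2 := by linarith
    have h3 : κ * |V1| = |κ * V1| := by rw [abs_mul, abs_of_pos hκ]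
    rw [h3, e]
    have g1 := abs_le.1 hw1
    have g2 := abs_le.1 hw2
    have g3 := abs_le.1 he2
    have g4 := abs_le.1 hV2
    have g5 := abs_le.1 hf2
    have g6 := abs_le.1 hT2
    rw [abs_le]
    constructor <;> linarith [g1.1, g1.2, g2.1, g2.2, g3.1, g3.2, g4.1, g4.2, g5.1, g5.2, g6.1,
      g6.2]
  have hS : κ * |V1| ≤ 2 * (a + b) := by
    have : 0 ≤ κ * |V1| := by positivity
    nlinarith
  -- the first coordinate
  have h3 : a + b / 2 ≤ κ / 40 * b + κ / 80 * |V1| + κ / 40 * |V1| + κ / 40 * |T1| := by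
    have g1 := abs_le.1 he0
    have g2 := abs_le.1 hV0
    have g3 := abs_le.1 hf0
    have g4 := abs_le.1 hT0
    linarith [g1.1, g1.2, g2.1, g2.2, g3.1, g3.2, g4.1, g4.2]
  have h4 : a + b / 2 ≤ b / 40 + b / 1600 + (7 / 80) * (2 * (a + b)) := by
    have : κ / 80 * |V1| + κ / 40 * |V1| + κ / 20 * |V1| = 7 / 80 * (κ * |V1|) := by ring
    nlinarith
  constructor <;> linarith

/-- the data given by the first exit of the box of `P`: a point `c` of the local stable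
manifold, such that `w = u 1 - c` satisfies `0 ≤ w 0`, `w 1 = 0`, `|w 2| ≤ w 0`, and if `w 0 = 0`
then the forward orbit of `u 1` stays in `BoxP` -/
lemma dataP (hL : S_Leaf) (hC : S_Cone) (hE : S_Exit) (hg : Good ρ g) {u : ℤ → E 3}
    (hu : IsKOrbit g u) (h1 : u 1 ∈ NP ρ) :
    ∃ c : E 3, (∀ k : ℕ, (⇑g)^[k] c ∈ BoxP) ∧ c 1 = u 1 1 ∧ 0 ≤ u 1 0 - c 0 ∧
      |u 1 2 - c 2| ≤ u 1 0 - c 0 ∧ (u 1 0 - c 0 = 0 → ∀ n : ℕ, (⇑g)^[n] (u 1) ∈ BoxP) := by
  have hρ := hg.hρ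
  have hρ' := hg.hρ'
  have hκ : 0 < kap := by
    have := hg.locP.hδ
    by_contra hk
    push Not at hk
    nlinarith
  have hκ1 := kap_le_one
  have hδ : ρ * kap / 400 ≤ ρ / 400 := by
    have : ρ * kap ≤ ρ * 1 := by gcongr
    linarith
  have hex := exitP hg hu h1
  have hy : 3 / 10 ≤ u 1 1 ∧ u 1 1 ≤ 13 / 25 := by
    rcases hex with h | ⟨n, h, hn⟩
    · have := h 0
      exact ⟨this.2.1, this.2.2.1⟩
    · rcases n with _ | n
      · have h2 : |u 1 1 - 1 / 2| < ρ := by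
          have := abs_apply_le (u 1 - Xm) 1
          have h7 : (u 1 - Xm) 1 = u 1 1 - 1 / 2 := by simp [Xm]
          rw [h7] at this
          have h8 : ‖u 1 - Xm‖ < ρ := hn
          linarith
        have h3 := abs_lt.1 h2
        constructor <;> linarith [h3.1, h3.2]
      · have := h 0 (Nat.succ_pos n)
        exact ⟨this.2.1, this.2.2.1⟩
  obtain ⟨c, hc1, hc⟩ := hL g (1 / 20) (3 / 10) (13 / 25) (1 / 50) (27 / 20) (3 / 2) (4 / 5)
    (39 / 25) (9 / 5) (ρ * kap / 400) hg.locP ρ hρ (by linarith) (by linarith)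
    (by nlinarith) (u 1 1) hy.1 hy.2
  have hcP : ∀ k : ℕ, (⇑g)^[k] c ∈ BoxP := by
    intro k
    obtain ⟨b0, b1, b2, b3⟩ := hc k
    exact ⟨by linarith, b1, b2, by linarith⟩
  refine ⟨c, hcP, hc1, ?_⟩
  rcases hex with h | ⟨n, h, hn⟩
  · have := hC g (1 / 20) (3 / 10) (13 / 25) (1 / 50) (27 / 20) (3 / 2) (4 / 5)
      (39 / 25) (9 / 5) (ρ * kap / 400) hg.locP 1 one_pos le_rfl (by linarith) (u 1) c h hcP
    rw [hc1, sub_self, abs_zero, mul_zero] at this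
    have h0 : u 1 0 - c 0 = 0 := abs_nonpos_iff.1 this.1
    have h2 : u 1 2 - c 2 = 0 := abs_nonpos_iff.1 this.2
    rw [h0, h2]
    exact ⟨le_rfl, by simp, fun _ => h⟩
  · have hcn := hc n
    have h0 : |(⇑g)^[n] (u 1) 0 - xm| < ρ := by
      have := abs_apply_le ((⇑g)^[n] (u 1) - Xm) 0
      have h7 : ((⇑g)^[n] (u 1) - Xm) 0 = (⇑g)^[n] (u 1) 0 - xm := by simp [Xm]
      rw [h7] at this
      linarith
    have h2 : |(⇑g)^[n] (u 1) 2| < ρ := by
      have := abs_apply_le ((⇑g)^[n] (u 1) - Xm) 2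
      have h7 : ((⇑g)^[n] (u 1) - Xm) 2 = (⇑g)^[n] (u 1) 2 := by simp [Xm]
      rw [h7] at this
      linarith
    have a0 := abs_lt.1 h0
    have a2 := abs_lt.1 h2
    have b0 := abs_le.1 hcn.1
    have b2 := abs_le.1 hcn.2.2.2
    have hx := xm_gt
    have key := hE g (1 / 20) (3 / 10) (13 / 25) (1 / 50) (27 / 20) (3 / 2) (4 / 5)
      (39 / 25) (9 / 5) (ρ * kap / 400) hg.locP n (u 1) c h (fun k _ => hcP k) hc1.symm
      (by linarith [a0.1, b0.2])
      (by rw [abs_le]; constructor <;> linarith [a0.1, b0.2, a2.1, a2.2, b2.1, b2.2])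
    exact ⟨key.1.le, key.2, fun h => by linarith [key.1]⟩

/-- the data given by the first exit of the box of `Q`, backwards -/
lemma dataQ (hL : S_Leaf) (hC : S_Cone) (hE : S_Exit) (hg : Good ρ g) {v : ℤ → E 3}
    (hv : IsKOrbit g v) (h1 : v (-1) ∈ NQ ρ) (h2 : ‖v (-1) - bt‖ < ρ) :
    ∃ d : E 3, (∀ k : ℕ, (⇑g.symm)^[k] d ∈ BoxQ) ∧ ‖d - bt‖ < 2 * ρ ∧ d 1 = v (-1) 1 ∧
      0 ≤ v (-1) 0 - d 0 ∧ |v (-1) 2 - d 2| ≤ v (-1) 0 - d 0 ∧
      (v (-1) 0 - d 0 = 0 → ∀ n : ℕ, (⇑g.symm)^[n] (v (-1)) ∈ BoxQ) := by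
  have hρ := hg.hρ
  have hρ' := hg.hρ'
  have hκ : 0 < kap := by
    have := hg.locP.hδ
    by_contra hk
    push Not at hk
    nlinarith
  have hκ1 := kap_le_one
  have hδ : ρ * kap / 400 ≤ ρ / 400 := by
    have : ρ * kap ≤ ρ * 1 := by gcongr
    linarith
  have hex := exitQ hg hv h1
  have hy : |v (-1) 1 - 3 / 16| < ρ := by
    have := abs_apply_le (v (-1) - bt) 1
    have h7 : (v (-1) - bt) 1 = v (-1) 1 - 3 / 16 := by simp [bt]
    rw [h7] at this
    linarith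
  have hy' := abs_lt.1 hy
  obtain ⟨d, hd1, hd⟩ := hL g.symm (3 / 50) (-(1 / 50)) (77 / 400) (1 / 50) (3 / 2) 2 (4 / 5)
    (9 / 4) 5 (ρ * kap / 400) hg.locQ ρ hρ (by linarith) (by linarith)
    (by nlinarith) (v (-1) 1) (by linarith [hy'.1]) (by linarith [hy'.2])
  have hdQ : ∀ k : ℕ, (⇑g.symm)^[k] d ∈ BoxQ := by
    intro k
    obtain ⟨b0, b1, b2, b3⟩ := hd k
    exact ⟨by linarith, b1, b2, by linarith⟩
  have hdb : ‖d - bt‖ < 2 * ρ := by
    have h0 := hd 0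
    have : ‖d - bt‖ ≤ ρ := by
      apply norm_le_of _ hρ.le
      · have h7 : (d - bt) 0 = d 0 := by simp [bt]
        rw [h7]; exact h0.1
      · have h7 : (d - bt) 1 = v (-1) 1 - 3 / 16 := by simp [bt, hd1]
        rw [h7]; exact hy.le
      · have h7 : (d - bt) 2 = d 2 := by simp [bt]
        rw [h7]; exact h0.2.2.2
    linarith
  refine ⟨d, hdQ, hdb, hd1, ?_⟩
  rcases hex with h | ⟨n, h, hn0, hn2⟩
  · have := hC g.symm (3 / 50) (-(1 / 50)) (77 / 400) (1 / 50) (3 / 2) 2 (4 / 5)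
      (9 / 4) 5 (ρ * kap / 400) hg.locQ 1 one_pos le_rfl (by linarith) (v (-1)) d h hdQ
    rw [hd1, sub_self, abs_zero, mul_zero] at this
    have h0 : v (-1) 0 - d 0 = 0 := abs_nonpos_iff.1 this.1
    have h2 : v (-1) 2 - d 2 = 0 := abs_nonpos_iff.1 this.2
    rw [h0, h2]
    exact ⟨le_rfl, by simp, fun _ => h⟩
  · have hdn := hd n
    have a0 := abs_le.1 hn0
    have a2 := abs_le.1 hn2
    have b0 := abs_le.1 hdn.1
    have b2 := abs_le.1 hdn.2.2.2
    have key := hE g.symm (3 / 50) (-(1 / 50)) (77 / 400) (1 / 50) (3 / 2) 2 (4 / 5)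
      (9 / 4) 5 (ρ * kap / 400) hg.locQ n (v (-1)) d h (fun k _ => hdQ k) hd1.symm
      (by linarith [a0.1, b0.2])
      (by rw [abs_le]; constructor <;> linarith [a0.1, b0.2, a2.1, a2.2, b2.1, b2.2])
    exact ⟨key.1.le, key.2, fun h => by linarith [key.1]⟩

end OrderAux

open OrderAux in
/-- **The order argument.** -/
theorem order (hL : S_Leaf) (hC : S_Cone) (hE : S_Exit) : S_Order := by
  intro ρ g hg u v hu hu0 hu1 hv hv0 hv1
  have hρ := hg.hρ
  have hρ' := hg.hρ'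
  have hκ : 0 < kap := by
    have := hg.locP.hδ
    by_contra hk
    push Not at hk
    nlinarith
  have hκ1 := kap_le_one
  have hδ : ρ * kap / 400 ≤ kap / 400000 := by
    have : ρ * kap ≤ 1 / 1000 * kap := by gcongr
    linarith
  -- the points
  have hu0b : ‖u 0 - bt‖ < ρ := u0_near hg hu (hu0 0 le_rfl) (by simpa using hu1)
  have hv1b : ‖v (-1) - bt‖ < ρ := u0_near hg hv hv1 (by simpa using hv0 0 le_rfl)
  have hub := u_bwd hg hu hu0
  have hvf := v_fwd hg hv hv0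
  obtain ⟨c, hcP, hc1, ha, hw1, hgoal1⟩ := dataP hL hC hE hg hu hu1
  obtain ⟨d, hdQ, hdb, hd1, hb, hw2, hgoal2⟩ := dataQ hL hC hE hg hv hv1 hv1b
  have gu : g (u 0) = u 1 := by simpa using hu.step 0
  have gv : g (v (-1)) = v 0 := by simpa using hv.step (-1)
  -- cones
  have hα : 0 < kap / 40 := by positivity
  have cV := hC g.symm (3 / 50) (-(1 / 50)) (77 / 400) (1 / 50) (3 / 2) 2 (4 / 5)
      (9 / 4) 5 (ρ * kap / 400) hg.locQ (kap / 40) hα (by linarith) (by linarith) (u 0) d hub hdQ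
  have cT := hC g (1 / 20) (3 / 10) (13 / 25) (1 / 50) (27 / 20) (3 / 2) (4 / 5)
      (39 / 25) (9 / 5) (ρ * kap / 400) hg.locP (kap / 40) hα (by linarith) (by linarith)
      (v 0) c hvf hcP
  -- near `bt`
  have n1 := hg.nearb (v (-1)) d (by linarith) hdb
  have n2 := hg.nearb (u 0) d (by linarith) hdb
  have m1 : ‖v (-1) - d‖ ≤ v (-1) 0 - d 0 := by
    apply norm_le_of _ hb
    · rw [Pi.sub_apply, abs_of_nonneg hb]
    · rw [Pi.sub_apply, hd1, sub_self, abs_zero]; exact hb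
    · exact hw2
  have m2 : ‖u 0 - d‖ ≤ |u 0 1 - d 1| := by
    apply norm_le_of _ (abs_nonneg _)
    · have : kap / 40 * |u 0 1 - d 1| ≤ 1 * |u 0 1 - d 1| := by gcongr; linarith
      have h := cV.1
      simp only [Pi.sub_apply]
      linarith
    · simp only [Pi.sub_apply]; exact le_rfl
    · have : kap / 40 * |u 0 1 - d 1| ≤ 1 * |u 0 1 - d 1| := by gcongr; linarith
      have h := cV.2
      simp only [Pi.sub_apply]
      linarith
  have n1' : ‖(g (v (-1)) - g d) - Lb (v (-1) - d)‖ ≤ kap / 40 * (v (-1) 0 - d 0) :=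
    n1.trans (by gcongr)
  have n2' : ‖(g (u 0) - g d) - Lb (u 0 - d)‖ ≤ kap / 40 * |u 0 1 - d 1| :=
    n2.trans (by gcongr)
  set e := (g (v (-1)) - g d) - Lb (v (-1) - d) with he
  set f := (g (u 0) - g d) - Lb (u 0 - d) with hf
  have e0 := (abs_apply_le e 0).trans n1'
  have e1 := (abs_apply_le e 1).trans n1'
  have e2 := (abs_apply_le e 2).trans n1'
  have f0 := (abs_apply_le f 0).trans n2'
  have f1 := (abs_apply_le f 1).trans n2'
  have f2 := (abs_apply_le f 2).trans n2'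
  have ht : |1 + 4 / 5 * cs (3 / 16)| ≤ 9 / 5 := by
    have h1 := Real.cos_le_one (2 * Real.pi * (3 / 16))
    have h2 := Real.neg_one_le_cos (2 * Real.pi * (3 / 16))
    unfold cs
    rw [abs_le]
    constructor <;> linarith
  have EQ : ∀ i, (u 1 - c) i + Lb (v (-1) - d) i + e i = Lb (u 0 - d) i + f i + (v 0 - c) i := by
    intro i
    simp only [he, hf, gu, gv, Pi.sub_apply]
    ring
  have E0 := EQ 0
  have E1 := EQ 1
  have E2 := EQ 2
  have L0 : ∀ w : E 3, Lb w 0 = w 0 / 2 := fun w => rfl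
  have L1 : ∀ w : E 3, Lb w 1 = (1 + 4 / 5 * cs (3 / 16)) * w 1 := fun w => rfl
  have L2 : ∀ w : E 3, Lb w 2 = kap * w 1 + w 2 / 5 := fun w => rfl
  simp only [L0, L1, L2, Pi.sub_apply, hc1, hd1, sub_self, mul_zero, zero_add] at E0 E1 E2
  rw [hd1] at cV f0 f1 f2
  rw [hc1] at cT
  obtain ⟨ra, rb⟩ := linear_ineq hκ hκ1 ht ha hb hw1 hw2 e0 e1 e2 cV.1 cV.2 f0 f1 f2 cT.1 cT.2
    E0 E1 E2
  exact ⟨hgoal1 ra, hgoal2 rb⟩

end HetCyc
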