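import Pool.Agent.HetCyc.Stmts

/-!
# Module OrderMain: the consequences of the order argument
-/

namespace HetCyc

open Filter Topology Set

namespace OrderMainAux

lemma phi_strictMono : StrictMono phi := by
  have hpi := Real.pi_pos
  have hd : ∀ y : ℝ, HasDerivAt phi (1 + 4 / 5 * Real.cos (2 * Real.pi * y)) y := by
    intro y
    have h1 : HasDerivAt (fun t : ℝ => 2 * Real.pi * t) (2 * Real.pi) y := by
      simpa using (hasDerivAt_id y).const_mul (2 * Real.pi)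
    have h2 := ((h1.sin.div_const (2 * Real.pi)).const_mul (4 / 5)).const_add 0
    have h3 := (hasDerivAt_id y).add (((h1.sin.div_const (2 * Real.pi)).const_mul (4 / 5)))
    have h4 : HasDerivAt phi
        (1 + 4 / 5 * (Real.cos (2 * Real.pi * y) * (2 * Real.pi) / (2 * Real.pi))) y := h3
    have h5 : Real.cos (2 * Real.pi * y) * (2 * Real.pi) / (2 * Real.pi)
        = Real.cos (2 * Real.pi * y) := by field_simp
    rwa [h5] at h4
  refine strictMono_of_deriv_pos fun y => ?_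
  rw [(hd y).deriv]
  have := Real.neg_one_le_cos (2 * Real.pi * y)
  linarith

lemma phi_zero : phi 0 = 0 := by simp [phi, sn]

lemma phi_half : phi (1 / 2) = 1 / 2 := by
  have h : 2 * Real.pi * (1 / 2) = Real.pi := by ring
  simp only [phi, sn]
  rw [h]
  simp

lemma le_phi {t : ℝ} (h0 : 0 ≤ t) (h1 : t ≤ 1 / 2) : t ≤ phi t := by
  have hpi := Real.pi_pos
  have h2 : 0 ≤ Real.sin (2 * Real.pi * t) := by
    apply Real.sin_nonneg_of_nonneg_of_le_pi
    · positivity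
    · nlinarith
  have h3 : 0 ≤ sn t := by
    unfold sn
    positivity
  unfold phi
  linarith

lemma iter_mem {t : ℝ} (h0 : 0 ≤ t) (h1 : t ≤ 1 / 2) (j : ℕ) :
    t ≤ phi^[j] t ∧ phi^[j] t ≤ 1 / 2 := by
  induction j with
  | zero => exact ⟨le_refl _, h1⟩
  | succ j ih =>
    rw [Function.iterate_succ_apply']
    refine ⟨ih.1.trans (le_phi (h0.trans ih.1) ih.2), ?_⟩
    calc phi (phi^[j] t) ≤ phi (1 / 2) := phi_strictMono.monotone ih.2
      _ = 1 / 2 := phi_half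

lemma phi_gap : (3 / 16 : ℝ) + 1 / 100 ≤ phi (3 / 16) := by
  have hpi := Real.pi_pos
  have hpi2 := Real.pi_lt_d2
  have h1 : 2 / Real.pi * (2 * Real.pi * (3 / 16)) ≤ Real.sin (2 * Real.pi * (3 / 16)) := by
    apply Real.mul_le_sin
    · positivity
    · linarith
  have h2 : 2 / Real.pi * (2 * Real.pi * (3 / 16)) = 3 / 4 := by
    field_simp
    norm_num
  rw [h2] at h1
  have h3 : (1 : ℝ) / 80 ≤ sn (3 / 16) := by
    unfold sn
    rw [le_div_iff₀ (by positivity)]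
    linarith
  unfold phi
  linarith

lemma phi_mem : 0 ≤ phi (3 / 16) ∧ phi (3 / 16) ≤ 1 / 2 := by
  have h := iter_mem (t := 3 / 16) (by norm_num) (by norm_num) 1
  simp only [Function.iterate_one] at h
  exact ⟨by linarith [h.1], h.2⟩

lemma CP_y {p : E 3} (hp : p ∈ CP) : phi (3 / 16) ≤ p 1 ∧ p 1 ≤ 1 / 2 := by
  have hm := phi_mem
  rcases hp with ⟨_, h, _⟩ | ⟨_, _, h, _⟩ | ⟨j, _, h, _⟩
  · rw [h]; exact ⟨hm.2, le_refl _⟩
  · rw [h]; exact ⟨hm.2, le_refl _⟩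
  · rw [h, Function.iterate_succ_apply]
    exact iter_mem hm.1 hm.2 j

lemma CQ_y {p : E 3} (hp : p ∈ CQ) : 0 ≤ p 1 ∧ p 1 ≤ 3 / 16 := by
  rcases hp with ⟨_, h, _⟩ | ⟨_, _, h, _⟩ | ⟨j, _, h, _⟩
  · rw [h]; norm_num
  · rw [h]; norm_num
  · have hmono := phi_strictMono.monotone.iterate j
    constructor
    · by_contra hc
      push Not at hc
      have h1 := hmono hc.le
      have h2 : phi^[j] 0 = 0 := Function.iterate_fixed phi_zero j
      rw [h, h2] at h1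
      norm_num at h1
    · by_contra hc
      push Not at hc
      rcases le_or_gt (p 1) (1 / 2) with h3 | h3
      · have h1 := (iter_mem (by linarith) h3 j).1
        rw [h] at h1
        linarith
      · have h1 := hmono h3.le
        have h2 : phi^[j] (1 / 2) = 1 / 2 := Function.iterate_fixed phi_half j
        rw [h, h2] at h1
        norm_num at h1

lemma NP_y {ρ : ℝ} {p : E 3} (hp : p ∈ NP ρ) : 3 / 16 + 1 / 100 - ρ < p 1 ∧ p 1 < 1 / 2 + ρ := by
  obtain ⟨c, hc, h⟩ := hp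
  have h1 := norm_le_pi_norm (p - c) 1
  rw [Pi.sub_apply, Real.norm_eq_abs] at h1
  have h2 := abs_lt.1 (lt_of_le_of_lt h1 h)
  have h3 := CP_y hc
  have h4 := phi_gap
  constructor
  · linarith [h2.1, h3.1]
  · linarith [h2.2, h3.2]

lemma NQ_y {ρ : ℝ} {p : E 3} (hp : p ∈ NQ ρ) : -ρ < p 1 ∧ p 1 < 3 / 16 + ρ := by
  obtain ⟨c, hc, h⟩ := hp
  have h1 := norm_le_pi_norm (p - c) 1
  rw [Pi.sub_apply, Real.norm_eq_abs] at h1
  have h2 := abs_lt.1 (lt_of_le_of_lt h1 h)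
  have h3 := CQ_y hc
  constructor
  · linarith [h2.1, h3.1]
  · linarith [h2.2, h3.2]

lemma not_NP_NQ {ρ : ℝ} (hρ : ρ ≤ 1 / 1000) {p : E 3} (hp : p ∈ NP ρ) (hq : p ∈ NQ ρ) : False := by
  have h1 := NP_y hp
  have h2 := NQ_y hq
  linarith [h1.1, h2.2]

lemma coord {ρ : ℝ} {p q : E 3} (h : ‖p - q‖ ≤ ρ) (i : Fin 3) : |p i - q i| ≤ ρ := by
  have h1 := norm_le_pi_norm (p - q) i
  rw [Pi.sub_apply, Real.norm_eq_abs] at h1
  exact h1.trans h

lemma Pg_mem {ρ : ℝ} (hρ : ρ ≤ 1 / 1000) {Pg : E 3} (h : ‖Pg - Pt‖ ≤ ρ) : Pg ∈ BoxP := by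
  have h0 := coord h 0
  have h1 := coord h 1
  have h2 := coord h 2
  have e0 : Pt 0 = 0 := rfl
  have e1 : Pt 1 = 1 / 2 := rfl
  have e2 : Pt 2 = 0 := rfl
  rw [e0, sub_zero] at h0
  rw [e1] at h1
  rw [e2, sub_zero] at h2
  have h1' := abs_le.1 h1
  refine ⟨by linarith, by linarith [h1'.1], by linarith [h1'.2], by linarith⟩

lemma Qg_mem {ρ : ℝ} (hρ : ρ ≤ 1 / 1000) {Qg : E 3} (h : ‖Qg - Qt‖ ≤ ρ) : Qg ∈ BoxQ := by
  have h0 := coord h 0
  have h1 := coord h 1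
  have h2 := coord h 2
  have e0 : Qt 0 = 0 := rfl
  have e1 : Qt 1 = 0 := rfl
  have e2 : Qt 2 = 0 := rfl
  rw [e0, sub_zero] at h0
  rw [e1, sub_zero] at h1
  rw [e2, sub_zero] at h2
  have h1' := abs_le.1 h1
  refine ⟨by linarith, by linarith [h1'.1], by linarith [h1'.2], by linarith⟩

/-- a point whose forward orbit stays in the box and in a closed set: the fixed point of the box
belongs to the closed set -/
lemma fixed_mem (hC : S_Conv) {Ψ : E 3 → E 3} {X a b Z A₀ A₁ σ U₀ U₁ δ : ℝ}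
    (hL : LocalMap Ψ X a b Z A₀ A₁ σ U₀ U₁ δ) {c P : E 3} (hc : ∀ k : ℕ, Ψ^[k] c ∈ Box X a b Z)
    (hP : Ψ P = P) (hPB : P ∈ Box X a b Z) {S : Set (E 3)} (hS : IsClosed S)
    (hcS : ∀ k : ℕ, Ψ^[k] c ∈ S) : P ∈ S := by
  have hfix : ∀ k : ℕ, Ψ^[k] P = P := fun k => Function.iterate_fixed hP k
  have h1 := hC Ψ X a b Z A₀ A₁ σ U₀ U₁ δ hL c P hc (fun k => by rw [hfix k]; exact hPB)
  have hlt : σ + δ < 1 := hL.hσδ
  have h0 : 0 ≤ σ + δ := add_nonneg hL.hσ hL.hδ.le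
  have hlim : Tendsto (fun k : ℕ => (σ + δ) ^ k * ‖c - P‖) atTop (𝓝 0) := by
    simpa using (tendsto_pow_atTop_nhds_zero_of_lt_one h0 hlt).mul_const ‖c - P‖
  have ht : Tendsto (fun k : ℕ => Ψ^[k] c) atTop (𝓝 P) := by
    rw [tendsto_iff_norm_sub_tendsto_zero]
    refine squeeze_zero (fun k => norm_nonneg _) (fun k => ?_) hlim
    have := h1 k
    rwa [hfix k] at this
  exact hS.mem_of_tendsto ht (Eventually.of_forall hcS)

lemma iter_fwd {g : E 3 ≃ E 3} {u : ℤ → E 3} (h : ∀ n, g (u n) = u (n + 1)) (m : ℤ) (n : ℕ) :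
    (⇑g)^[n] (u m) = u (m + n) := by
  induction n with
  | zero => simp
  | succ n ih =>
    rw [Function.iterate_succ_apply', ih, h]
    congr 1
    push_cast
    ring

lemma iter_bwd {g : E 3 ≃ E 3} {u : ℤ → E 3} (h : ∀ n, g (u n) = u (n + 1)) (m : ℤ) (n : ℕ) :
    (⇑g.symm)^[n] (u m) = u (m - n) := by
  induction n with
  | zero => simp
  | succ n ih =>
    rw [Function.iterate_succ_apply', ih, Equiv.symm_apply_eq, h]
    congr 1
    push_cast
    ring

end OrderMainAux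

open OrderMainAux in
theorem orderMain (hU : S_ReachU) (hV : S_ReachV) (hO : S_Order) (hC : S_Conv) (hI : S_Index) :
    S_OrderMain := by
  intro ρ g hg Pg Qg hP hPt hQ hQt Λ Γ i j hΛ hΓ htΛ htΓ hij hPΛ hQΓ hW
  obtain ⟨u, hu, hu0, hu1, huΓ⟩ := hU ρ g hg Pg Qg hP hPt hQ hQt Λ Γ i j hΛ hΓ htΛ htΓ hij hPΛ hQΓ hW
  obtain ⟨v, hv, hv0, hv1, hvΛ⟩ := hV ρ g hg Pg Qg hP hPt hQ hQt Λ Γ i j hΛ hΓ htΛ htΓ hij hPΛ hQΓ hW
  obtain ⟨hfw, hbw⟩ := hO ρ g hg u v hu hu0 hu1 hv hv0 hv1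
  have hρ' := hg.hρ'
  have hPB := Pg_mem hρ' hPt
  have hQB := Qg_mem hρ' hQt
  have hΓ' : Γ = orb Qg := by
    rcases huΓ with h | h
    · exfalso
      have hPΓ : Pg ∈ Γ := by
        refine fixed_mem hC hg.locP (c := u 1) hfw hP hPB hΓ.closed (fun k => ?_)
        rw [iter_fwd hu.step]
        exact h _
      have h1 := hI ρ g hg Pg Qg hP hPt hQ hQt Γ j hΓ
      have h2 := h1.1 hPΓ
      have h3 := h1.2 hQΓ
      omega
    · exact h
  have hΛ' : Λ = orb Pg := by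
    rcases hvΛ with h | h
    · exfalso
      have hQs : g.symm Qg = Qg := by rw [Equiv.symm_apply_eq, hQ]
      have hQΛ : Qg ∈ Λ := by
        refine fixed_mem hC hg.locQ (c := v (-1)) hbw hQs hQB hΛ.closed (fun k => ?_)
        rw [iter_bwd hv.step]
        exact h _
      have h1 := hI ρ g hg Pg Qg hP hPt hQ hQt Λ i hΛ
      have h2 := h1.1 hPΛ
      have h3 := h1.2 hQΛ
      omega
    · exact h
  refine ⟨hΛ', hΓ', u 0, ?_, ?_, ?_⟩
  · rcases hg.passages.backP u hu 0 (by simpa using hu1) with h | h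
    · exact (not_NP_NQ hρ' h (hu0 0 le_rfl)).elim
    · exact h.1
  · intro n
    rw [iter_bwd hu.step]
    have hm : (0 : ℤ) - n - 1 ≤ 0 := by omega
    have hN : u ((0 : ℤ) - n - 1 + 1) ∈ NQ ρ := hu0 _ (by omega)
    have he : (0 : ℤ) - n - 1 + 1 = 0 - n := by ring
    rcases hg.passages.backQ u hu _ hN with h | h
    · rw [he] at h
      exact h.2
    · exfalso
      have h1 := (NP_y h.1).2
      have h2 := (NQ_y (hu0 _ hm)).1
      have h3 : ey 1 = 1 := rfl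
      rw [Pi.add_apply, h3] at h1
      linarith
  · intro n
    have h : g (u 0) = u 1 := by
      have := hu.step 0
      simpa using this
    rw [h]
    exact hfw n

end HetCyc
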