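import Pool.Agent.HetCyc.Basic2

/-!
# Passages of the orbits near the cycle (helper89)

`theorem passage : S_Compact → S_Passage`.
-/

namespace HetCyc

open Filter Topology Set Real

noncomputable section

namespace PassageAux

lemma abs_apply_lt {v : E 3} {r : ℝ} (h : ‖v‖ < r) (i : Fin 3) : |v i| < r :=
  lt_of_le_of_lt (norm_le_pi_norm v i) h

lemma sub_lt {p c : E 3} {r : ℝ} (h : ‖p - c‖ < r) (i : Fin 3) : |p i - c i| < r :=
  abs_apply_lt h i

lemma intVec_apply (k : Fin 3 → ℤ) (i : Fin 3) : (intVec k : E 3) i = (k i : ℝ) := rfl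

lemma ext3 {p q : E 3} (h0 : p 0 = q 0) (h1 : p 1 = q 1) (h2 : p 2 = q 2) : p = q := by
  ext i
  fin_cases i
  · exact h0
  · exact h1
  · exact h2

/-! ## positions -/

lemma aP_cont : Continuous aP := by
  unfold aP
  exact continuous_id.add (continuous_const.mul continuous_sn)

lemma aP_xm : aP xm = 2 / 25 := by
  have h : ∃ x, aP x = 2 / 25 := by
    have h1 : (2 / 25 : ℝ) ∈ Icc (aP 0) (aP (1 / 2)) :=
      ⟨by rw [aP_zero]; norm_num, by rw [aP_half]; norm_num⟩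
    obtain ⟨x, -, hx⟩ := intermediate_value_Icc (show (0 : ℝ) ≤ 1 / 2 by norm_num)
      aP_cont.continuousOn h1
    exact ⟨x, hx⟩
  exact Function.invFun_eq h

lemma xm_nonneg : 0 ≤ xm := by
  by_contra h
  push Not at h
  have h1 := strictMono_aP h
  rw [aP_xm, aP_zero] at h1
  norm_num at h1

/-- `aP x ≥ 27/20 * x` for small nonnegative `x` -/
lemma aP_ge {x : ℝ} (h0 : 0 ≤ x) (h1 : x ≤ 1 / 8) : 27 / 20 * x ≤ aP x := by
  obtain ⟨θ, h2, h3, h4⟩ := aP_sub (s := 0) (t := x) (by norm_num) (by rw [abs_of_nonneg h0]; exact h1)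
  rw [aP_zero, sub_zero, sub_zero] at h4
  rw [h4]
  exact mul_le_mul_of_nonneg_right h2 h0

lemma xm_le : xm ≤ 6 / 100 := by
  by_contra h
  push Not at h
  have h1 := strictMono_aP h
  rw [aP_xm] at h1
  have h2 := aP_ge (x := 6 / 100) (by norm_num) (by norm_num)
  linarith

/-- the backward orbit of `xm` -/
lemma pre_xm {x : ℝ} {j : ℕ} (h : aP^[j] x = xm) : 0 ≤ x ∧ x ≤ 6 / 100 ∧ (x ≤ 1 / 21 ∨ x = xm) := by
  induction j generalizing x with
  | zero =>
    have hx : x = xm := h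
    rw [hx]
    exact ⟨xm_nonneg, xm_le, Or.inr rfl⟩
  | succ j ih =>
    rw [Function.iterate_succ_apply] at h
    obtain ⟨h1, h2, -⟩ := ih h
    have h3 : 0 ≤ x := by
      by_contra h'
      push Not at h'
      have := strictMono_aP h'
      rw [aP_zero] at this
      linarith
    have h4 : x < 1 / 8 := by
      by_contra h'
      push Not at h'
      have h5 := strictMono_aP.monotone h'
      have h6 := aP_ge (x := 1 / 8) (by norm_num) le_rfl
      linarith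
    have h5 := aP_ge h3 h4.le
    refine ⟨h3, by linarith, Or.inl (by linarith)⟩

lemma phi_iter_ge (j : ℕ) : 304 / 1000 ≤ phi^[j + 1] (3 / 16) := by
  induction j with
  | zero => simpa using phi_b.1.le
  | succ j ih =>
    rw [Function.iterate_succ_apply']
    have : phi (3 / 16) ≤ phi (phi^[j + 1] (3 / 16)) :=
      strictMono_phi.monotone (by linarith)
    linarith [phi_b.1]

lemma phi_iter_le (j : ℕ) : phi^[j] (3 / 16) ≤ 1 / 2 := by
  have h := (strictMono_phi.monotone.iterate j) (show (3 / 16 : ℝ) ≤ 1 / 2 by norm_num)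
  have h2 : phi^[j] (1 / 2) = 1 / 2 := Function.iterate_fixed phi_half j
  linarith [h, h2]

lemma pre_ge {y : ℝ} {j : ℕ} (h : phi^[j] y = 3 / 16) : 0 ≤ y := by
  by_contra hlt
  push Not at hlt
  have h1 := (strictMono_phi.iterate j) hlt
  have h2 : phi^[j] 0 = 0 := Function.iterate_fixed phi_zero j
  rw [h2, h] at h1
  norm_num at h1

lemma pre_le {y : ℝ} {j : ℕ} (h : phi^[j] y = 3 / 16) : y ≤ 3 / 16 := by
  by_contra hlt
  push Not at hlt
  have h1 := (strictMono_phi.iterate j) hlt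
  have h2 : (3 / 16 : ℝ) ≤ phi^[j] (3 / 16) := by
    rcases j with _ | j
    · simp
    · linarith [phi_iter_ge j]
  linarith

lemma pre_succ_lt {y : ℝ} {j : ℕ} (h : phi^[j + 1] y = 3 / 16) : y < 1 / 8 := by
  rw [Function.iterate_succ_apply] at h
  have h1 := pre_le h
  by_contra hlt
  push Not at hlt
  have h2 := strictMono_phi.monotone hlt
  linarith [phi_eighth.1]

lemma aQ_le {x : ℝ} (h0 : 0 ≤ x) (h1 : x ≤ 1 / 8) : 0 ≤ aQ x ∧ aQ x ≤ 13 / 20 * x := by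
  obtain ⟨θ, h2, h3, h4⟩ := aQ_sub (s := 0) (t := x) (by norm_num) (by rw [abs_of_nonneg h0]; exact h1)
  rw [aQ_zero, sub_zero, sub_zero] at h4
  rw [h4]
  exact ⟨mul_nonneg (by linarith) h0, mul_le_mul_of_nonneg_right h3 h0⟩

lemma aQ_iter (j : ℕ) : 0 ≤ aQ^[j] (2 / 25) ∧ aQ^[j] (2 / 25) ≤ 2 / 25 := by
  induction j with
  | zero => simp; norm_num
  | succ j ih =>
    rw [Function.iterate_succ_apply']
    have := aQ_le ih.1 (by linarith)
    exact ⟨this.1, by linarith⟩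

lemma aQ_iter_succ (j : ℕ) : aQ^[j + 1] (2 / 25) ≤ 13 / 250 := by
  rw [Function.iterate_succ_apply']
  have h := aQ_iter j
  have := aQ_le h.1 (by linarith)
  linarith

lemma CP_pos {c : E 3} (h : c ∈ CP) :
    0 ≤ c 0 ∧ c 0 ≤ 6 / 100 ∧ 304 / 1000 ≤ c 1 ∧ c 1 ≤ 1 / 2 ∧ c 2 = 0 := by
  rcases h with ⟨h0, h1, h2⟩ | ⟨j, h0, h1, h2⟩ | ⟨j, h0, h1, h2⟩
  · rw [h0, h1, h2]; norm_num
  · obtain ⟨a, b, -⟩ := pre_xm h0
    rw [h1, h2]; refine ⟨a, b, by norm_num, by norm_num, rfl⟩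
  · rw [h0, h1, h2]
    exact ⟨le_rfl, by norm_num, phi_iter_ge j, phi_iter_le _, rfl⟩

lemma CQ_pos {c : E 3} (h : c ∈ CQ) :
    0 ≤ c 0 ∧ c 0 ≤ 2 / 25 ∧ 0 ≤ c 1 ∧ c 1 ≤ 3 / 16 ∧ c 2 = 0 := by
  rcases h with ⟨h0, h1, h2⟩ | ⟨j, h0, h1, h2⟩ | ⟨j, h0, h1, h2⟩
  · rw [h0, h1, h2]; norm_num
  · obtain ⟨a, b⟩ := aQ_iter j
    rw [h0, h1, h2]; refine ⟨a, b, by norm_num, by norm_num, rfl⟩
  · rw [h0, h2]
    exact ⟨le_rfl, by norm_num, pre_ge h1, pre_le h1, rfl⟩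

lemma Xt_mem : Xt ∈ CQ := Or.inr (Or.inl ⟨0, rfl, rfl, rfl⟩)
lemma bt_mem : bt ∈ CQ := Or.inr (Or.inr ⟨0, rfl, rfl, rfl⟩)
lemma Xm_mem : Xm ∈ CP := Or.inr (Or.inl ⟨0, rfl, rfl, rfl⟩)

/-! ## the cycle is invariant -/

lemma hh_small {x z : ℝ} (h0 : 0 ≤ x) (h1 : x ≤ 76 / 1000) : hh x z = 0 := by
  apply hh_eq_zero_x
  · rw [abs_of_nonneg h0]; linarith
  · rw [abs_of_nonpos (by linarith)]; linarith

lemma fmap_P {x y z : ℝ} (h1 : 3 / 10 ≤ y) (h2 : y ≤ 11 / 20) :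
    fmap ![x, y, z] = ![aP x, phi y + hh (aP x) (bP z), bP z] := by
  have e0 : ax y x = aP x := ax_P h1 (by linarith) x
  have e2 : bz y z = bP z := bz_P h1 h2 z
  show ![ax y x, phi y + hh (ax y x) (bz y z), bz y z] = _
  rw [e0, e2]

lemma fmap_Q {x y z : ℝ} (h1 : -(1 / 20) ≤ y) (h2 : y ≤ 1 / 8) :
    fmap ![x, y, z] = ![aQ x, phi y + hh (aQ x) (bQ z), bQ z] := by
  have e0 : ax y x = aQ x := ax_Q (by linarith) h2 x
  have e2 : bz y z = bQ z := bz_Q h1 h2 z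
  show ![ax y x, phi y + hh (ax y x) (bz y z), bz y z] = _
  rw [e0, e2]

lemma eq_vec (p : E 3) {x y z : ℝ} (h0 : p 0 = x) (h1 : p 1 = y) (h2 : p 2 = z) :
    p = ![x, y, z] := ext3 h0 h1 h2

lemma fmap_CP {c : E 3} (h : c ∈ CP) :
    (fmap c ∈ CP ∧ c 0 ≤ 1 / 21) ∨ (c = Xm ∧ fmap c = Xt + ey) := by
  rcases h with ⟨h0, h1, h2⟩ | ⟨j, h0, h1, h2⟩ | ⟨j, h0, h1, h2⟩
  · left
    have e : fmap c = ![0, 1 / 2, 0] := by
      rw [eq_vec c h0 h1 h2, fmap_P (by norm_num) (by norm_num), aP_zero, bP_zero, phi_half,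
        hh_small le_rfl (by norm_num), add_zero]
    rw [e, h0]
    exact ⟨Or.inl ⟨rfl, rfl, rfl⟩, by norm_num⟩
  · obtain ⟨a, b, hab⟩ := pre_xm h0
    have e : fmap c = ![aP (c 0), 1 / 2 + hh (aP (c 0)) 0, 0] := by
      rw [eq_vec c rfl h1 h2, fmap_P (by norm_num) (by norm_num), bP_zero, phi_half]
      rfl
    rcases hab with h' | h'
    · left
      refine ⟨?_, h'⟩
      rcases j with _ | j
      · have hc : c 0 = xm := h0
        exfalso
        have h3 := aP_xm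
        rw [← hc] at h3
        obtain ⟨θ, h4, h5, h6⟩ := aP_sub (s := 0) (t := c 0) (by norm_num)
          (by rw [abs_of_nonneg a]; linarith)
        rw [aP_zero, sub_zero, sub_zero, h3] at h6
        nlinarith
      · rw [Function.iterate_succ_apply] at h0
        obtain ⟨a', b', -⟩ := pre_xm h0
        rw [e, hh_small a' (by linarith), add_zero]
        exact Or.inr (Or.inl ⟨j, h0, rfl, rfl⟩)
    · right
      refine ⟨eq_vec c h' h1 h2, ?_⟩
      rw [e, h', aP_xm, hh_X]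
      apply ext3
      · show (2 / 25 : ℝ) = 2 / 25 + 0
        norm_num
      · show (1 / 2 + 1 / 2 : ℝ) = 0 + 1
        norm_num
      · show (0 : ℝ) = 0 + 0
        norm_num
  · left
    have g1 := phi_iter_ge j
    have g2 := phi_iter_le (j + 1)
    have e : fmap c = ![0, phi^[j + 2] (3 / 16), 0] := by
      rw [eq_vec c h0 h1 h2, fmap_P (by linarith) (by linarith), aP_zero, bP_zero,
        hh_small le_rfl (by norm_num), add_zero, ← Function.iterate_succ_apply' phi (j + 1)]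
    rw [e, h0]
    exact ⟨Or.inr (Or.inr ⟨j + 1, rfl, rfl, rfl⟩), by norm_num⟩

lemma fmap_bt : fmap bt = ![0, phi (3 / 16), 0] := by
  show ![ax (3 / 16) 0, phi (3 / 16) + hh (ax (3 / 16) 0) (bz (3 / 16) 0), bz (3 / 16) 0] = _
  rw [ax_zero, bz_zero, k1_b, k2_b, hh_small le_rfl (by norm_num), add_zero]

lemma fmap_CQ {c : E 3} (h : c ∈ CQ) :
    (fmap c ∈ CQ ∧ (fmap c) 0 ≤ 13 / 250) ∨ (c = bt ∧ fmap c ∈ CP) := by
  rcases h with ⟨h0, h1, h2⟩ | ⟨j, h0, h1, h2⟩ | ⟨j, h0, h1, h2⟩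
  · left
    have e : fmap c = ![0, 0, 0] := by
      rw [eq_vec c h0 h1 h2, fmap_Q (by norm_num) (by norm_num), aQ_zero, bQ_zero, phi_zero,
        hh_small le_rfl (by norm_num), add_zero]
    rw [e]
    exact ⟨Or.inl ⟨rfl, rfl, rfl⟩, by norm_num⟩
  · left
    have a := aQ_iter (j + 1)
    have b := aQ_iter_succ j
    have e : fmap c = ![aQ^[j + 1] (2 / 25), 0, 0] := by
      rw [eq_vec c h0 h1 h2, fmap_Q (by norm_num) (by norm_num), bQ_zero, phi_zero,
        ← Function.iterate_succ_apply' aQ j, hh_small a.1 (by linarith), add_zero]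
    rw [e]
    exact ⟨Or.inr (Or.inl ⟨j + 1, rfl, rfl, rfl⟩), b⟩
  · rcases j with _ | j
    · right
      have hc : c = bt := eq_vec c h0 h1 h2
      refine ⟨hc, ?_⟩
      rw [hc, fmap_bt]
      exact Or.inr (Or.inr ⟨0, rfl, rfl, rfl⟩)
    · left
      have a := pre_ge h1
      have b := pre_succ_lt h1
      have e : fmap c = ![0, phi (c 1), 0] := by
        rw [eq_vec c h0 rfl h2, fmap_Q (by show -(1 / 20) ≤ c 1; linarith) (by exact b.le),
          aQ_zero, bQ_zero, hh_small le_rfl (by norm_num), add_zero]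
        rfl
      rw [e]
      refine ⟨Or.inr (Or.inr ⟨j, rfl, ?_, rfl⟩), by norm_num⟩
      rw [Function.iterate_succ_apply] at h1
      exact h1

/-! ## separation -/

lemma int_zero {m : ℤ} (h : |(m : ℝ)| < 1) : m = 0 := by
  have h2 : |m| < 1 := by exact_mod_cast h
  exact Int.abs_lt_one_iff.mp h2

lemma sepPP {r s : ℝ} (hr : r ≤ 1 / 100) (hs : s ≤ 1 / 100) {p : E 3} {k : Fin 3 → ℤ}
    (h : p ∈ NP r) (h' : p + intVec k ∈ NP s) : k = 0 := by
  obtain ⟨c, hc, h⟩ := h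
  obtain ⟨d, hd, h'⟩ := h'
  obtain ⟨a0, a0', a1, a1', a2⟩ := CP_pos hc
  obtain ⟨b0, b0', b1, b1', b2⟩ := CP_pos hd
  have e0 := abs_lt.1 (sub_lt h 0)
  have e1 := abs_lt.1 (sub_lt h 1)
  have e2 := abs_lt.1 (sub_lt h 2)
  have f0 : |p 0 + (k 0 : ℝ) - d 0| < s := sub_lt h' 0
  have f1 : |p 1 + (k 1 : ℝ) - d 1| < s := sub_lt h' 1
  have f2 : |p 2 + (k 2 : ℝ) - d 2| < s := sub_lt h' 2
  rw [abs_lt] at f0 f1 f2
  funext i
  fin_cases i
  · apply int_zero; show |((k 0 : ℤ) : ℝ)| < 1; rw [abs_lt]; constructor <;> linarith [e0.1, e0.2, f0.1, f0.2]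
  · apply int_zero; show |((k 1 : ℤ) : ℝ)| < 1; rw [abs_lt]; constructor <;> linarith [e1.1, e1.2, f1.1, f1.2]
  · apply int_zero; show |((k 2 : ℤ) : ℝ)| < 1; rw [abs_lt]; constructor <;> linarith [e2.1, e2.2, f2.1, f2.2]

lemma sepQQ {r s : ℝ} (hr : r ≤ 1 / 100) (hs : s ≤ 1 / 100) {p : E 3} {k : Fin 3 → ℤ}
    (h : p ∈ NQ r) (h' : p + intVec k ∈ NQ s) : k = 0 := by
  obtain ⟨c, hc, h⟩ := h
  obtain ⟨d, hd, h'⟩ := h'
  obtain ⟨a0, a0', a1, a1', a2⟩ := CQ_pos hc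
  obtain ⟨b0, b0', b1, b1', b2⟩ := CQ_pos hd
  have e0 := abs_lt.1 (sub_lt h 0)
  have e1 := abs_lt.1 (sub_lt h 1)
  have e2 := abs_lt.1 (sub_lt h 2)
  have f0 : |p 0 + (k 0 : ℝ) - d 0| < s := sub_lt h' 0
  have f1 : |p 1 + (k 1 : ℝ) - d 1| < s := sub_lt h' 1
  have f2 : |p 2 + (k 2 : ℝ) - d 2| < s := sub_lt h' 2
  rw [abs_lt] at f0 f1 f2
  funext i
  fin_cases i
  · apply int_zero; show |((k 0 : ℤ) : ℝ)| < 1; rw [abs_lt]; constructor <;> linarith [e0.1, e0.2, f0.1, f0.2]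
  · apply int_zero; show |((k 1 : ℤ) : ℝ)| < 1; rw [abs_lt]; constructor <;> linarith [e1.1, e1.2, f1.1, f1.2]
  · apply int_zero; show |((k 2 : ℤ) : ℝ)| < 1; rw [abs_lt]; constructor <;> linarith [e2.1, e2.2, f2.1, f2.2]

/-- no integer translate of a point near `CP` is near `CQ` -/
lemma sepPQ {r s : ℝ} (hr : r ≤ 1 / 100) (hs : s ≤ 1 / 100) {p : E 3} {k : Fin 3 → ℤ}
    (h : p ∈ NP r) (h' : p + intVec k ∈ NQ s) : False := by
  obtain ⟨c, hc, h⟩ := h
  obtain ⟨d, hd, h'⟩ := h'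
  obtain ⟨a0, a0', a1, a1', a2⟩ := CP_pos hc
  obtain ⟨b0, b0', b1, b1', b2⟩ := CQ_pos hd
  have e1 := abs_lt.1 (sub_lt h 1)
  have f1 : |p 1 + (k 1 : ℝ) - d 1| < s := sub_lt h' 1
  rw [abs_lt] at f1
  have g1 : ((k 1 : ℤ) : ℝ) < 0 := by linarith [e1.1, f1.2]
  have g2 : (-1 : ℝ) < ((k 1 : ℤ) : ℝ) := by linarith [e1.2, f1.1]
  have g3 : k 1 < 0 := by exact_mod_cast g1
  have g4 : -1 < k 1 := by exact_mod_cast g2
  omega

lemma intVec_zero : (intVec (0 : Fin 3 → ℤ) : E 3) = 0 := by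
  ext i; simp [intVec]

lemma intVec_neg (k : Fin 3 → ℤ) : (intVec (-k) : E 3) = -intVec k := by
  ext i; simp [intVec]

lemma intVec_add (k l : Fin 3 → ℤ) : (intVec (k + l) : E 3) = intVec k + intVec l := by
  ext i; simp [intVec]

lemma sepQP {r s : ℝ} (hr : r ≤ 1 / 100) (hs : s ≤ 1 / 100) {p : E 3} {k : Fin 3 → ℤ}
    (h : p ∈ NQ r) (h' : p + intVec k ∈ NP s) : False := by
  refine sepPQ (k := -k) hs hr h' ?_
  rwa [intVec_neg, add_neg_cancel_right]

lemma ey_eq : ey = intVec ![0, 1, 0] := by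
  ext i
  fin_cases i <;> simp [ey, intVec]

/-! ## uniform continuity -/

lemma norm_le3 {v : E 3} {r : ℝ} (hr : 0 ≤ r) (h0 : |v 0| ≤ r) (h1 : |v 1| ≤ r)
    (h2 : |v 2| ≤ r) : ‖v‖ ≤ r := by
  rw [pi_norm_le_iff_of_nonneg hr]
  intro i
  fin_cases i
  · exact h0
  · exact h1
  · exact h2

lemma norm_le_one {c : E 3} (h : c ∈ CP ∪ CQ) : ‖c‖ ≤ 1 := by
  rcases h with h | h
  · obtain ⟨a0, a0', a1, a1', a2⟩ := CP_pos h
    apply norm_le3 zero_le_one
    · rw [abs_of_nonneg a0]; linarith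
    · rw [abs_of_nonneg (by linarith)]; linarith
    · rw [a2]; norm_num
  · obtain ⟨a0, a0', a1, a1', a2⟩ := CQ_pos h
    apply norm_le3 zero_le_one
    · rw [abs_of_nonneg a0]; linarith
    · rw [abs_of_nonneg (by linarith)]; linarith
    · rw [a2]; norm_num

lemma unif {η : ℝ} (hη : 0 < η) : ∃ r : ℝ, 0 < r ∧ ∀ c ∈ CP ∪ CQ, ∀ p : E 3, ‖p - c‖ < r →
    ‖fmap p - fmap c‖ < η := by
  have h := (isCompact_closedBall (0 : E 3) 2).uniformContinuousOn_of_continuous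
    continuous_fmap.continuousOn
  rw [Metric.uniformContinuousOn_iff] at h
  obtain ⟨r, hr, h⟩ := h η hη
  refine ⟨min r 1, lt_min hr one_pos, fun c hc p hp => ?_⟩
  have h1 := norm_le_one hc
  have h2 : ‖p‖ ≤ 2 := by
    have : ‖p‖ ≤ ‖p - c‖ + ‖c‖ := by
      simpa using norm_add_le (p - c) c
    have := lt_min_iff.1 hp
    linarith [this.2]
  have h3 := h p (by simpa using h2) c (by simpa using h1.trans one_le_two)
    (by rw [dist_eq_norm]; exact lt_of_lt_of_le hp (min_le_left _ _))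
  rwa [dist_eq_norm] at h3

/-- a step: the situation at time `n` determines the situation at time `n + 1` -/
inductive Step (ρ : ℝ) (p q : E 3) : Prop
  | pp : p ∈ NP ρ → q ∈ NP ρ → p ∈ BoxP → Step ρ p q
  | pq : p ∈ NP ρ → ‖p - Xm‖ < ρ → q - ey ∈ NQ ρ → |q 0 - 2 / 25| ≤ 1 / 200 → |q 2| ≤ 1 / 200 →
      Step ρ p q
  | qq : p ∈ NQ ρ → q ∈ NQ ρ → q ∈ BoxQ → Step ρ p q
  | qp : p ∈ NQ ρ → ‖p - bt‖ < ρ → q ∈ NP ρ → Step ρ p q

lemma step_of {ρ r η : ℝ} (hρ : ρ ≤ 1 / 1000) (hr : r ≤ ρ) (hη : η ≤ ρ) {p q c : E 3}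
    (hc : c ∈ CP ∪ CQ) (h1 : ‖p - c‖ < r) (h2 : ‖q - fmap c‖ < η) : Step ρ p q := by
  have d0 := abs_lt.1 (sub_lt h1 0)
  have d1 := abs_lt.1 (sub_lt h1 1)
  have d2 := abs_lt.1 (sub_lt h1 2)
  rcases hc with hc | hc
  · obtain ⟨a0, a0', a1, a1', a2⟩ := CP_pos hc
    rcases fmap_CP hc with ⟨h, h'⟩ | ⟨h, h'⟩
    · refine Step.pp ⟨c, hc, by linarith⟩ ⟨_, h, by linarith⟩ ⟨?_, ?_, ?_, ?_⟩
      · rw [abs_le]; constructor <;> linarith [d0.1, d0.2]
      · linarith [d1.1]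
      · linarith [d1.2]
      · rw [abs_le]; constructor <;> linarith [d2.1, d2.2]
    · rw [h'] at h2
      have e0 : |q 0 - (2 / 25 + 0)| < η := sub_lt h2 0
      have e2 : |q 2 - (0 + 0)| < η := sub_lt h2 2
      rw [add_zero] at e0 e2
      rw [sub_zero] at e2
      refine Step.pq ⟨c, hc, by linarith⟩ (by rw [← h]; linarith) ⟨Xt, Xt_mem, ?_⟩ (by linarith)
        (by linarith)
      have : q - ey - Xt = q - (Xt + ey) := by abel
      rw [this]; linarith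
  · rcases fmap_CQ hc with ⟨h, h'⟩ | ⟨h, h'⟩
    · obtain ⟨a0, a0', a1, a1', a2⟩ := CQ_pos h
      have e0 := abs_lt.1 (sub_lt h2 0)
      have e1 := abs_lt.1 (sub_lt h2 1)
      have e2 := abs_lt.1 (sub_lt h2 2)
      refine Step.qq ⟨c, hc, by linarith⟩ ⟨_, h, by linarith⟩ ⟨?_, ?_, ?_, ?_⟩
      · rw [abs_le]; constructor <;> linarith [e0.1, e0.2]
      · linarith [e1.1]
      · linarith [e1.2]
      · rw [abs_le]; constructor <;> linarith [e2.1, e2.2]
    · exact Step.qp ⟨c, hc, by linarith⟩ (by rw [← h]; linarith) ⟨_, h', by linarith⟩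

end PassageAux

open PassageAux

theorem passage (hC : S_Compact) : S_Passage := by
  refine ⟨1 / 1000, by norm_num, fun ρ hρ hρ' => ?_⟩
  obtain ⟨r, hr, hunif⟩ := unif (half_pos hρ)
  obtain ⟨ε, hε, hcomp⟩ := hC (min r ρ) (lt_min hr hρ)
  refine ⟨min ε (ρ / 2), lt_min hε (half_pos hρ), fun g hg => ?_⟩
  have hgε : LipClose ε g := ⟨hg.map_add, fun p => (hg.dist_le p).trans (min_le_left _ _),
    fun p q => (hg.lip p q).trans
      (mul_le_mul_of_nonneg_right (min_le_left _ _) (norm_nonneg _))⟩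
  have hρ100 : ρ ≤ 1 / 100 := by linarith
  -- every point of an orbit, up to an integer translation, is in the situation `Step`
  have key : ∀ u, IsKOrbit g u → ∀ n, ∃ k : Fin 3 → ℤ,
      Step ρ (u n + intVec k) (u (n + 1) + intVec k) := by
    intro u hu n
    obtain ⟨k, c, hc, h⟩ := hcomp g hgε u hu n
    refine ⟨k, step_of hρ' (min_le_right r ρ) le_rfl hc h ?_⟩
    have h1 : u (n + 1) + intVec k = g (u n + intVec k) := by
      rw [hg.map_add, hu.step]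
    have h2 := hunif c hc (u n + intVec k) (lt_of_lt_of_le h (min_le_left _ _))
    have h3 := (hg.dist_le (u n + intVec k)).trans (min_le_right _ _)
    rw [h1]
    have h4 : g (u n + intVec k) - fmap c =
        (g (u n + intVec k) - fmap (u n + intVec k)) + (fmap (u n + intVec k) - fmap c) := by abel
    rw [h4]
    refine lt_of_le_of_lt (norm_add_le _ _) ?_
    linarith
  refine ⟨?_, ?_, ?_, ?_, ?_⟩
  · intro u hu n
    obtain ⟨k, h⟩ := key u hu n
    refine ⟨k, ?_⟩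
    cases h with
    | pp h _ _ => exact Or.inl h
    | pq h _ _ _ _ => exact Or.inl h
    | qq h _ _ => exact Or.inr h
    | qp h _ _ => exact Or.inr h
  · intro u hu n hn
    obtain ⟨k, h⟩ := key u hu n
    cases h with
    | pp h1 h2 h3 =>
      have hk := sepPP hρ100 hρ100 hn h1
      subst hk
      rw [intVec_zero, add_zero] at h2 h3
      exact Or.inl ⟨h2, h3⟩
    | pq h1 h2 h3 _ _ =>
      have hk := sepPP hρ100 hρ100 hn h1
      subst hk
      rw [intVec_zero, add_zero] at h2 h3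
      exact Or.inr ⟨h2, h3⟩
    | qq h1 h2 h3 => exact (sepPQ hρ100 hρ100 hn h1).elim
    | qp h1 h2 h3 => exact (sepPQ hρ100 hρ100 hn h1).elim
  · intro u hu n hn
    obtain ⟨k, h⟩ := key u hu n
    cases h with
    | pp h1 h2 h3 => exact (sepQP hρ100 hρ100 hn h1).elim
    | pq h1 h2 h3 _ _ => exact (sepQP hρ100 hρ100 hn h1).elim
    | qq h1 h2 h3 =>
      have hk := sepQQ hρ100 hρ100 hn h1
      subst hk
      rw [intVec_zero, add_zero] at h2 h3
      exact Or.inl h2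
    | qp h1 h2 h3 =>
      have hk := sepQQ hρ100 hρ100 hn h1
      subst hk
      rw [intVec_zero, add_zero] at h2 h3
      exact Or.inr ⟨h2, h3⟩
  · intro u hu n hn
    obtain ⟨k, h⟩ := key u hu n
    cases h with
    | pp h1 h2 h3 =>
      have hk := sepPP hρ100 hρ100 hn h2
      subst hk
      rw [intVec_zero, add_zero] at h1
      exact Or.inl h1
    | pq h1 h2 h3 _ _ =>
      have e : u (n + 1) + intVec k - ey = u (n + 1) + intVec (k + -![0, 1, 0]) := by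
        rw [intVec_add, intVec_neg, ← ey_eq]; abel
      rw [e] at h3
      exact (sepPQ hρ100 hρ100 hn h3).elim
    | qq h1 h2 h3 => exact (sepPQ hρ100 hρ100 hn h2).elim
    | qp h1 h2 h3 =>
      have hk := sepPP hρ100 hρ100 hn h3
      subst hk
      rw [intVec_zero, add_zero] at h1 h2
      exact Or.inr ⟨h2, h1⟩
  · intro u hu n hn
    obtain ⟨k, h⟩ := key u hu n
    cases h with
    | pp h1 h2 h3 => exact (sepQP hρ100 hρ100 hn h2).elim
    | pq h1 h2 h3 h4 h5 =>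
      have e : u (n + 1) + intVec k - ey = u (n + 1) + intVec (k + -![0, 1, 0]) := by
        rw [intVec_add, intVec_neg, ← ey_eq]; abel
      rw [e] at h3
      have hk := sepQQ hρ100 hρ100 hn h3
      have hk' : k = ![0, 1, 0] := by
        rw [← sub_eq_add_neg, sub_eq_zero] at hk
        exact hk
      subst hk'
      rw [← ey_eq] at h1 h4 h5
      right
      refine ⟨h1, ?_, ?_⟩
      · have : (u (n + 1) + ey) 0 = u (n + 1) 0 := by
          show u (n + 1) 0 + 0 = u (n + 1) 0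
          rw [add_zero]
        rwa [this] at h4
      · have : (u (n + 1) + ey) 2 = u (n + 1) 2 := by
          show u (n + 1) 2 + 0 = u (n + 1) 2
          rw [add_zero]
        rwa [this] at h5
    | qq h1 h2 h3 =>
      have hk := sepQQ hρ100 hρ100 hn h2
      subst hk
      rw [intVec_zero, add_zero] at h1 h3
      exact Or.inl ⟨h1, h3⟩
    | qp h1 h2 h3 => exact (sepQP hρ100 hρ100 hn h3).elim

end

end HetCyc
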