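import Pool.Agent.HetCyc.Stmts

/-!
# Module ReachU

An orbit that leaves the side of `Q` for the first time.
-/

namespace HetCyc

namespace ReachU

open Filter Topology Set

/-! ## one-dimensional facts -/

theorem sn_zero : sn 0 = 0 := by simp [sn]

theorem sn_half : sn (1 / 2) = 0 := by
  have : (2 * Real.pi * (1 / 2) : ℝ) = Real.pi := by ring
  simp only [sn, this, Real.sin_pi, zero_div]

theorem sn_nonneg {t : ℝ} (h0 : 0 ≤ t) (h1 : t ≤ 1 / 2) : 0 ≤ sn t := by
  unfold sn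
  have hpi := Real.pi_pos
  apply div_nonneg _ (by positivity)
  apply Real.sin_nonneg_of_nonneg_of_le_pi (by positivity)
  nlinarith

theorem sn_lip (s t : ℝ) : |sn s - sn t| ≤ |s - t| := by
  unfold sn
  have hpi := Real.pi_pos
  rw [← sub_div, abs_div, abs_of_pos (show (0 : ℝ) < 2 * Real.pi by positivity), div_le_iff₀ (by positivity)]
  have h := Real.abs_sin_sub_sin_le (2 * Real.pi * s) (2 * Real.pi * t)
  calc _ ≤ |2 * Real.pi * s - 2 * Real.pi * t| := h
    _ = |s - t| * (2 * Real.pi) := by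
      rw [← mul_sub, abs_mul, abs_of_pos (show (0 : ℝ) < 2 * Real.pi by positivity)]; ring

theorem strictMono_aux {c : ℝ} (hc : |c| < 1) : StrictMono (fun x => x + c * sn x) := by
  intro x y hxy
  have h := sn_lip y x
  rw [abs_of_pos (sub_pos.2 hxy)] at h
  have h2 : |c * (sn y - sn x)| ≤ |c| * (y - x) := by
    rw [abs_mul]; exact mul_le_mul_of_nonneg_left h (abs_nonneg c)
  have h3 := neg_abs_le (c * (sn y - sn x))
  have h4 : |c| * (y - x) < 1 * (y - x) := mul_lt_mul_of_pos_right hc (sub_pos.2 hxy)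
  simp only
  nlinarith

theorem aP_mono : StrictMono aP := by
  have := strictMono_aux (c := 1 / 2) (by norm_num [abs_of_pos])
  exact this

theorem aQ_mono : StrictMono aQ := by
  have := strictMono_aux (c := -(1 / 2)) (by rw [abs_neg]; norm_num [abs_of_pos])
  have h : aQ = fun x => x + -(1 / 2) * sn x := by funext x; simp only [aQ]; ring
  rw [h]; exact this

theorem phi_mono : StrictMono phi := by
  have := strictMono_aux (c := 4 / 5) (by norm_num [abs_of_pos])
  exact this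

theorem aP_zero : aP 0 = 0 := by simp [aP, sn_zero]
theorem aQ_zero : aQ 0 = 0 := by simp [aQ, sn_zero]
theorem phi_zero : phi 0 = 0 := by simp [phi, sn_zero]
theorem aP_half : aP (1 / 2) = 1 / 2 := by simp only [aP, sn_half]; ring
theorem phi_half : phi (1 / 2) = 1 / 2 := by simp only [phi, sn_half]; ring

theorem aP_ge {x : ℝ} (h0 : 0 ≤ x) (h1 : x ≤ 1 / 2) : x ≤ aP x := by
  have := sn_nonneg h0 h1; unfold aP; linarith

theorem phi_ge {x : ℝ} (h0 : 0 ≤ x) (h1 : x ≤ 1 / 2) : x ≤ phi x := by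
  have := sn_nonneg h0 h1; unfold phi; linarith

theorem aQ_le {x : ℝ} (h0 : 0 ≤ x) (h1 : x ≤ 1 / 2) : aQ x ≤ x := by
  have := sn_nonneg h0 h1; unfold aQ; linarith

theorem aP_xm : aP xm = 2 / 25 := by
  have hc : Continuous aP := by unfold aP sn; fun_prop
  have h : (2 / 25 : ℝ) ∈ Icc (aP 0) (aP (1 / 2)) := by
    rw [aP_zero, aP_half]; constructor <;> norm_num
  obtain ⟨x, -, hx⟩ := intermediate_value_Icc (by norm_num : (0 : ℝ) ≤ 1 / 2) hc.continuousOn h
  exact Function.invFun_eq ⟨x, hx⟩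

theorem xm_pos : 0 < xm := by
  rw [← aP_mono.lt_iff_lt, aP_zero, aP_xm]; norm_num

theorem xm_le : xm ≤ 2 / 25 := by
  rw [← aP_mono.le_iff_le, aP_xm]
  exact aP_ge (by norm_num) (by norm_num)

theorem phi_b0 : 3 / 10 ≤ phi (3 / 16) := by
  unfold phi sn
  have h1 : (2 * Real.pi * (3 / 16) : ℝ) = Real.pi / 2 - Real.pi / 8 := by ring
  rw [h1, Real.sin_pi_div_two_sub, Real.cos_pi_div_eight]
  have hs2 : (1.41 : ℝ) ≤ √2 := by apply Real.le_sqrt_of_sq_le; norm_num
  have hs : (1.84 : ℝ) ≤ √(2 + √2) := by apply Real.le_sqrt_of_sq_le; nlinarith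
  have hpi : Real.pi < 3.15 := Real.pi_lt_d2
  have hpi0 := Real.pi_pos
  have h2 : (1.84 / 2) / (2 * 3.15) ≤ (√(2 + √2) / 2) / (2 * Real.pi) := by
    apply div_le_div₀ (by positivity) (by linarith) (by positivity) (by linarith)
  have h3 : (0.1125 / 0.8 : ℝ) ≤ (1.84 / 2) / (2 * 3.15) := by norm_num
  norm_num at h3 h2 ⊢
  linarith

theorem iter_le {f : ℝ → ℝ} (hf : Monotone f) {x : ℝ} (h : x ≤ f x) (n : ℕ) : x ≤ f^[n] x := by
  induction n with
  | zero => exact le_rfl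
  | succ n ih => rw [Function.iterate_succ_apply']; exact h.trans (hf ih)

theorem iter_fix {f : ℝ → ℝ} {x : ℝ} (h : f x = x) (n : ℕ) : f^[n] x = x :=
  Function.iterate_fixed h n

theorem CP_pos {p : E 3} (h : p ∈ CP) :
    0 ≤ p 0 ∧ p 0 ≤ 2 / 25 ∧ 3 / 10 ≤ p 1 ∧ p 1 ≤ 1 / 2 ∧ p 2 = 0 := by
  rcases h with ⟨h0, h1, h2⟩ | ⟨j, h0, h1, h2⟩ | ⟨j, h0, h1, h2⟩
  · rw [h0, h1]; norm_num [h2]
  · refine ⟨?_, ?_, by rw [h1]; norm_num, by rw [h1], h2⟩
    · by_contra hc
      push Not at hc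
      have := (aP_mono.iterate j) hc
      rw [h0, iter_fix aP_zero] at this
      exact absurd this (not_lt.2 xm_pos.le)
    · by_contra hc
      push Not at hc
      have h3 := (aP_mono.iterate j) (lt_of_le_of_lt xm_le hc)
      rw [h0] at h3
      have h4 := iter_le aP_mono.monotone (x := xm) (by rw [aP_xm]; exact xm_le) j
      exact absurd h3 (not_lt.2 h4)
  · refine ⟨by rw [h0], by rw [h0]; norm_num, ?_, ?_, h2⟩
    · rw [h1, Function.iterate_succ_apply]
      have h3 : phi (3 / 16) ≤ phi (phi (3 / 16)) :=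
        phi_mono.monotone (phi_ge (by norm_num) (by norm_num))
      exact phi_b0.trans (iter_le phi_mono.monotone h3 j)
    · rw [h1]
      have h3 := (phi_mono.iterate (j + 1)).monotone (show (3 / 16 : ℝ) ≤ 1 / 2 by norm_num)
      rwa [iter_fix phi_half] at h3

theorem aQ_iter (j : ℕ) : 0 ≤ aQ^[j] (2 / 25) ∧ aQ^[j] (2 / 25) ≤ 2 / 25 := by
  induction j with
  | zero => simp only [Function.iterate_zero, id_eq]; norm_num
  | succ j ih =>
    rw [Function.iterate_succ_apply']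
    constructor
    · have := aQ_mono.monotone ih.1; rwa [aQ_zero] at this
    · exact (aQ_le ih.1 (ih.2.trans (by norm_num))).trans ih.2

theorem CQ_pos {p : E 3} (h : p ∈ CQ) :
    0 ≤ p 0 ∧ p 0 ≤ 2 / 25 ∧ 0 ≤ p 1 ∧ p 1 ≤ 3 / 16 ∧ p 2 = 0 := by
  rcases h with ⟨h0, h1, h2⟩ | ⟨j, h0, h1, h2⟩ | ⟨j, h0, h1, h2⟩
  · rw [h0, h1]; norm_num [h2]
  · rw [h0, h1]
    exact ⟨(aQ_iter j).1, (aQ_iter j).2, le_rfl, by norm_num, h2⟩
  · refine ⟨by rw [h0], by rw [h0]; norm_num, ?_, ?_, h2⟩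
    · by_contra hc
      push Not at hc
      have := (phi_mono.iterate j) hc
      rw [h1, iter_fix phi_zero] at this
      norm_num at this
    · by_contra hc
      push Not at hc
      have h3 := (phi_mono.iterate j) hc
      rw [h1] at h3
      have h4 := iter_le phi_mono.monotone (x := 3 / 16)
        (phi_ge (by norm_num) (by norm_num)) j
      exact absurd h3 (not_lt.2 h4)

/-! ## closed boxes containing `NP`, `NQ` -/

def BP' : Set (E 3) := {p | -(1 / 1000) ≤ p 0 ∧ p 0 ≤ 81 / 1000 ∧ 299 / 1000 ≤ p 1 ∧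
  p 1 ≤ 501 / 1000 ∧ -(1 / 1000) ≤ p 2 ∧ p 2 ≤ 1 / 1000}

def BQ' : Set (E 3) := {p | -(1 / 1000) ≤ p 0 ∧ p 0 ≤ 81 / 1000 ∧ -(1 / 1000) ≤ p 1 ∧
  p 1 ≤ 189 / 1000 ∧ -(1 / 1000) ≤ p 2 ∧ p 2 ≤ 1 / 1000}

theorem isClosed_BP' : IsClosed BP' := by
  unfold BP'
  simp only [setOf_and]
  refine IsClosed.inter ?_ (IsClosed.inter ?_ (IsClosed.inter ?_ (IsClosed.inter ?_
    (IsClosed.inter ?_ ?_)))) <;>
  first
    | exact isClosed_le continuous_const (continuous_apply _)
    | exact isClosed_le (continuous_apply _) continuous_const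

theorem isClosed_BQ' : IsClosed BQ' := by
  unfold BQ'
  simp only [setOf_and]
  refine IsClosed.inter ?_ (IsClosed.inter ?_ (IsClosed.inter ?_ (IsClosed.inter ?_
    (IsClosed.inter ?_ ?_)))) <;>
  first
    | exact isClosed_le continuous_const (continuous_apply _)
    | exact isClosed_le (continuous_apply _) continuous_const

theorem coord_lt {p c : E 3} {ρ : ℝ} (h : ‖p - c‖ < ρ) (i : Fin 3) : |p i - c i| < ρ := by
  have := norm_le_pi_norm (p - c) i
  rw [Pi.sub_apply, Real.norm_eq_abs] at this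
  exact lt_of_le_of_lt this h

theorem coord_le {p c : E 3} {ρ : ℝ} (h : ‖p - c‖ ≤ ρ) (i : Fin 3) : |p i - c i| ≤ ρ := by
  have := norm_le_pi_norm (p - c) i
  rw [Pi.sub_apply, Real.norm_eq_abs] at this
  exact this.trans h

theorem NP_sub {ρ : ℝ} (hρ : ρ ≤ 1 / 1000) {p : E 3} (h : p ∈ NP ρ) : p ∈ BP' := by
  obtain ⟨c, hc, hpc⟩ := h
  have h0 := abs_lt.1 (coord_lt hpc 0)
  have h1 := abs_lt.1 (coord_lt hpc 1)
  have h2 := abs_lt.1 (coord_lt hpc 2)
  obtain ⟨c0, c0', c1, c1', c2⟩ := CP_pos hc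
  unfold BP'
  simp only [mem_setOf_eq]
  refine ⟨?_, ?_, ?_, ?_, ?_, ?_⟩ <;> linarith [h0.1, h0.2, h1.1, h1.2, h2.1, h2.2]

theorem NQ_sub {ρ : ℝ} (hρ : ρ ≤ 1 / 1000) {p : E 3} (h : p ∈ NQ ρ) : p ∈ BQ' := by
  obtain ⟨c, hc, hpc⟩ := h
  have h0 := abs_lt.1 (coord_lt hpc 0)
  have h1 := abs_lt.1 (coord_lt hpc 1)
  have h2 := abs_lt.1 (coord_lt hpc 2)
  obtain ⟨c0, c0', c1, c1', c2⟩ := CQ_pos hc
  unfold BQ'
  simp only [mem_setOf_eq]
  refine ⟨?_, ?_, ?_, ?_, ?_, ?_⟩ <;> linarith [h0.1, h0.2, h1.1, h1.2, h2.1, h2.2]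

theorem int_zero {a b : ℝ} {k : ℤ} (h : |a| < 1 / 2) (h2 : |b| < 1 / 2) (h3 : a + k = b) :
    k = 0 := by
  have h4 : |(k : ℝ)| < 1 := by
    have : (k : ℝ) = b - a := by linarith
    rw [this]
    calc |b - a| ≤ |b| + |a| := abs_sub b a
      _ < 1 := by linarith
  have h5 : |k| < 1 := by exact_mod_cast h4
  exact Int.abs_lt_one_iff.1 h5

theorem sepQP {p : E 3} {k : Fin 3 → ℤ} (h : p ∈ BQ') (h2 : p + intVec k ∈ BP') : False := by
  obtain ⟨-, -, a1, a2, -, -⟩ := h
  obtain ⟨-, -, b1, b2, -, -⟩ := h2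
  simp only [Pi.add_apply, intVec] at b1 b2
  have h3 : (0 : ℝ) < (k 1 : ℝ) := by linarith
  have h4 : ((k 1 : ℤ) : ℝ) < 1 := by linarith
  have h5 : 0 < k 1 := by exact_mod_cast h3
  have h6 : k 1 < 1 := by exact_mod_cast h4
  omega

theorem intVec_zero : intVec (0 : Fin 3 → ℤ) = 0 := by
  funext i; simp [intVec]

theorem sepQQ {p : E 3} {k : Fin 3 → ℤ} (h : p ∈ BQ') (h2 : p + intVec k ∈ BQ') : k = 0 := by
  obtain ⟨a0, a0', a1, a1', a2, a2'⟩ := h
  obtain ⟨b0, b0', b1, b1', b2, b2'⟩ := h2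
  simp only [Pi.add_apply, intVec] at b0 b0' b1 b1' b2 b2'
  funext i
  fin_cases i
  · exact int_zero (a := p 0) (b := p 0 + k 0) (abs_lt.2 ⟨by linarith, by linarith⟩)
      (abs_lt.2 ⟨by linarith, by linarith⟩) rfl
  · exact int_zero (a := p 1) (b := p 1 + k 1) (abs_lt.2 ⟨by linarith, by linarith⟩)
      (abs_lt.2 ⟨by linarith, by linarith⟩) rfl
  · exact int_zero (a := p 2) (b := p 2 + k 2) (abs_lt.2 ⟨by linarith, by linarith⟩)
      (abs_lt.2 ⟨by linarith, by linarith⟩) rfl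

theorem sepPP {p : E 3} {k : Fin 3 → ℤ} (h : p ∈ BP') (h2 : p + intVec k ∈ BP') : k = 0 := by
  obtain ⟨a0, a0', a1, a1', a2, a2'⟩ := h
  obtain ⟨b0, b0', b1, b1', b2, b2'⟩ := h2
  simp only [Pi.add_apply, intVec] at b0 b0' b1 b1' b2 b2'
  funext i
  fin_cases i
  · exact int_zero (a := p 0) (b := p 0 + k 0) (abs_lt.2 ⟨by linarith, by linarith⟩)
      (abs_lt.2 ⟨by linarith, by linarith⟩) rfl
  · have h3 : |((k 1 : ℤ) : ℝ)| < 1 := abs_lt.2 ⟨by linarith, by linarith⟩
    have h5 : |k 1| < 1 := by exact_mod_cast h3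
    exact Int.abs_lt_one_iff.1 h5
  · exact int_zero (a := p 2) (b := p 2 + k 2) (abs_lt.2 ⟨by linarith, by linarith⟩)
      (abs_lt.2 ⟨by linarith, by linarith⟩) rfl

theorem sepPQ {p : E 3} {k : Fin 3 → ℤ} (h : p ∈ BP') (h2 : p + intVec k ∈ BQ') : False := by
  obtain ⟨-, -, a1, a2, -, -⟩ := h
  obtain ⟨-, -, b1, b2, -, -⟩ := h2
  simp only [Pi.add_apply, intVec] at b1 b2
  have h3 : (-1 : ℝ) < (k 1 : ℝ) := by linarith
  have h4 : ((k 1 : ℤ) : ℝ) < 0 := by linarith
  have h5 : -1 < k 1 := by exact_mod_cast h3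
  have h6 : k 1 < 0 := by exact_mod_cast h4
  omega

/-! ## full orbits -/

def orbF (g : Equiv.Perm (E 3)) (p : E 3) (n : ℤ) : E 3 := (g ^ n) p

theorem orbF_step (g : Equiv.Perm (E 3)) (p : E 3) (n : ℤ) :
    g (orbF g p n) = orbF g p (n + 1) := by
  unfold orbF
  rw [add_comm, zpow_add, zpow_one]; rfl

theorem orbF_zero (g : Equiv.Perm (E 3)) (p : E 3) : orbF g p 0 = p := by simp [orbF]

theorem orbF_add (g : Equiv.Perm (E 3)) (p : E 3) (m n : ℤ) :
    orbF g (orbF g p m) n = orbF g p (m + n) := by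
  unfold orbF
  rw [add_comm, zpow_add]; rfl

theorem orbF_nat (g : Equiv.Perm (E 3)) (p : E 3) (n : ℕ) : orbF g p n = (⇑g)^[n] p := by
  unfold orbF
  rw [zpow_natCast, ← Equiv.Perm.iterate_eq_pow]

theorem orbF_neg (g : Equiv.Perm (E 3)) (p : E 3) (n : ℕ) :
    orbF g p (-n) = (⇑g.symm)^[n] p := by
  unfold orbF
  rw [zpow_neg, ← inv_zpow, zpow_natCast, ← Equiv.Perm.iterate_eq_pow]; rfl

theorem symm_add {g : E 3 ≃ E 3} (h : ∀ p k, g (p + intVec k) = g p + intVec k) (p : E 3)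
    (k : Fin 3 → ℤ) : g.symm (p + intVec k) = g.symm p + intVec k := by
  rw [Equiv.symm_apply_eq, h, Equiv.apply_symm_apply]

theorem iter_add {f : E 3 → E 3} (h : ∀ p k, f (p + intVec k) = f p + intVec k) (n : ℕ)
    (p : E 3) (k : Fin 3 → ℤ) : f^[n] (p + intVec k) = f^[n] p + intVec k := by
  induction n with
  | zero => rfl
  | succ n ih => rw [Function.iterate_succ_apply', Function.iterate_succ_apply', ih, h]

theorem orb_cont {g : Equiv.Perm (E 3)} (h1 : Continuous g) (h2 : Continuous g.symm) (n : ℤ) :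
    Continuous fun p => orbF g p n := by
  rcases n.eq_nat_or_neg with ⟨m, rfl | rfl⟩
  · simp only [orbF_nat]; exact h1.iterate m
  · simp only [orbF_neg]; exact h2.iterate m

theorem orbF_mem {g : Equiv.Perm (E 3)} {Γ : Set (E 3)} (hg : g '' Γ = Γ) {p : E 3}
    (hp : p ∈ Γ) (n : ℤ) : orbF g p n ∈ Γ := by
  have h1 : ∀ q ∈ Γ, g q ∈ Γ := fun q hq => hg ▸ mem_image_of_mem _ hq
  have h2 : ∀ q ∈ Γ, g.symm q ∈ Γ := by
    intro q hq
    rw [← hg] at hq
    obtain ⟨r, hr, rfl⟩ := hq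
    rwa [Equiv.symm_apply_apply]
  rcases n.eq_nat_or_neg with ⟨m, rfl | rfl⟩
  · rw [orbF_nat]
    induction m with
    | zero => exact hp
    | succ m ih => rw [Function.iterate_succ_apply']; exact h1 _ ih
  · rw [orbF_neg]
    induction m with
    | zero => exact hp
    | succ m ih => rw [Function.iterate_succ_apply']; exact h2 _ ih

theorem orbF_fix {g : Equiv.Perm (E 3)} {p : E 3} (h : g p = p) (n : ℤ) : orbF g p n = p := by
  have h2 : g.symm p = p := by rw [Equiv.symm_apply_eq, h]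
  rcases n.eq_nat_or_neg with ⟨m, rfl | rfl⟩
  · rw [orbF_nat]; exact Function.iterate_fixed h m
  · rw [orbF_neg]; exact Function.iterate_fixed h2 m

theorem korbit_eq {g : Equiv.Perm (E 3)} {u : ℤ → E 3} (h : ∀ n, g (u n) = u (n + 1)) (n : ℤ) :
    u n = orbF g (u 0) n := by
  have h2 : ∀ m : ℤ, ∀ j : ℕ, u (m + j) = (⇑g)^[j] (u m) := by
    intro m j
    induction j with
    | zero => simp
    | succ j ih =>
      rw [Function.iterate_succ_apply', ← ih, h]; congr 1; push_cast; ring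
  rcases n.eq_nat_or_neg with ⟨m, rfl | rfl⟩
  · rw [orbF_nat, ← h2 0 m, zero_add]
  · rw [orbF_neg]
    have h3 := h2 (-m) m
    rw [neg_add_cancel] at h3
    rw [h3]
    have h4 : Function.LeftInverse (⇑g.symm)^[m] (⇑g)^[m] :=
      Function.LeftInverse.iterate g.symm_apply_apply m
    rw [h4]

theorem cs_add_int (t : ℝ) (k : ℤ) : cs (t + k) = cs t := by
  unfold cs
  rw [show 2 * Real.pi * (t + k) = 2 * Real.pi * t + k * (2 * Real.pi) by ring,
    Real.cos_add_int_mul_two_pi]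

theorem KK_add {p : E 3} (h : p ∈ KK) (k : Fin 3 → ℤ) : p + intVec k ∈ KK := by
  obtain ⟨h1, h2⟩ := h
  constructor
  · intro hc
    apply h1
    simpa only [TT, Far, mem_setOf_eq, Pi.add_apply, intVec, cs_add_int] using hc
  · intro hc
    apply h2
    simpa only [RR, Far, mem_setOf_eq, Pi.add_apply, intVec, cs_add_int] using hc

theorem korbit_shift {g : E 3 → E 3} {u : ℤ → E 3} (h : IsKOrbit g u) (m : ℤ) :
    IsKOrbit g (fun n => u (n + m)) :=
  ⟨fun n => by simp only [h.step]; congr 1; ring, fun n => h.mem _⟩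

theorem korbit_add {g : E 3 → E 3} {u : ℤ → E 3} (h : IsKOrbit g u)
    (hg : ∀ p k, g (p + intVec k) = g p + intVec k) (k : Fin 3 → ℤ) :
    IsKOrbit g (fun n => u n + intVec k) :=
  ⟨fun n => by simp only [hg, h.step], fun n => KK_add (h.mem _) k⟩

/-! ## using the passages -/

section

variable {ρ : ℝ} {g : E 3 ≃ E 3} (G : Good ρ g)

include G

theorem mem_NQ {u : ℤ → E 3} (hu : IsKOrbit g u) {n : ℤ} (h : u n ∈ BQ') : u n ∈ NQ ρ := by
  obtain ⟨k, hk | hk⟩ := G.passages.code u hu n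
  · exact (sepQP h (NP_sub G.hρ' hk)).elim
  · have := sepQQ h (NQ_sub G.hρ' hk)
    rwa [this, intVec_zero, add_zero] at hk

theorem mem_NP {u : ℤ → E 3} (hu : IsKOrbit g u) {n : ℤ} (h : u n ∈ BP') : u n ∈ NP ρ := by
  obtain ⟨k, hk | hk⟩ := G.passages.code u hu n
  · have := sepPP h (NP_sub G.hρ' hk)
    rwa [this, intVec_zero, add_zero] at hk
  · exact (sepPQ h (NQ_sub G.hρ' hk)).elim

theorem near_NQ {Qg : E 3} (hQ : ‖Qg - Qt‖ ≤ ρ) {u : ℤ → E 3} (hu : IsKOrbit g u) {n : ℤ}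
    (h : ‖u n - Qg‖ < 1 / 1000) : u n ∈ NQ ρ := by
  have hρ := G.hρ'
  have a : ∀ i, |u n i| ≤ 1 / 500 := by
    intro i
    have h1 := coord_lt h i
    have h2 := coord_le hQ i
    have h3 : Qt i = 0 := by fin_cases i <;> rfl
    rw [h3, sub_zero] at h2
    calc |u n i| = |(u n i - Qg i) + Qg i| := by ring_nf
      _ ≤ |u n i - Qg i| + |Qg i| := abs_add_le _ _
      _ ≤ 1 / 500 := by linarith
  have a0 := abs_le.1 (a 0)
  have a1 := abs_le.1 (a 1)
  have a2 := abs_le.1 (a 2)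
  obtain ⟨k, hk | hk⟩ := G.passages.code u hu n
  · exfalso
    have hk' := NP_sub G.hρ' hk
    obtain ⟨-, -, b1, b2, -, -⟩ := hk'
    simp only [Pi.add_apply, intVec] at b1 b2
    have h3 : (0 : ℝ) < (k 1 : ℝ) := by linarith [a1.1, a1.2]
    have h4 : ((k 1 : ℤ) : ℝ) < 1 := by linarith [a1.1, a1.2]
    have h5 : 0 < k 1 := by exact_mod_cast h3
    have h6 : k 1 < 1 := by exact_mod_cast h4
    omega
  · obtain ⟨b0, b0', b1, b1', b2, b2'⟩ := NQ_sub G.hρ' hk
    simp only [Pi.add_apply, intVec] at b0 b0' b1 b1' b2 b2'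
    have hk0 : k = 0 := by
      funext i
      fin_cases i
      · exact int_zero (a := u n 0) (b := u n 0 + k 0)
          (abs_lt.2 ⟨by linarith [a0.1], by linarith [a0.2]⟩)
          (abs_lt.2 ⟨by linarith, by linarith⟩) rfl
      · exact int_zero (a := u n 1) (b := u n 1 + k 1)
          (abs_lt.2 ⟨by linarith [a1.1], by linarith [a1.2]⟩)
          (abs_lt.2 ⟨by linarith, by linarith⟩) rfl
      · exact int_zero (a := u n 2) (b := u n 2 + k 2)
          (abs_lt.2 ⟨by linarith [a2.1], by linarith [a2.2]⟩)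
          (abs_lt.2 ⟨by linarith, by linarith⟩) rfl
    rwa [hk0, intVec_zero, add_zero] at hk

theorem boxQ {u : ℤ → E 3} (hu : IsKOrbit g u) (h : ∀ n, u n ∈ NQ ρ) (n : ℤ) :
    u n ∈ BoxQ := by
  have h1 := G.passages.backQ u hu (n - 1)
  rw [sub_add_cancel] at h1
  rcases h1 (h n) with h2 | h2
  · exact h2.2
  · exfalso
    have h3 := NP_sub G.hρ' h2.1
    have h4 := NQ_sub G.hρ' (h (n - 1))
    have h5 : ey = intVec ![0, 1, 0] := by
      funext i; fin_cases i <;> simp [ey, intVec]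
    rw [h5] at h3
    exact sepQP h4 h3

theorem Qg_box {Qg : E 3} (hQ : ‖Qg - Qt‖ ≤ ρ) : Qg ∈ BoxQ := by
  have hρ := G.hρ'
  have a : ∀ i, |Qg i| ≤ 1 / 1000 := by
    intro i
    have h2 := coord_le hQ i
    have h3 : Qt i = 0 := by fin_cases i <;> rfl
    rw [h3, sub_zero] at h2
    linarith
  have a0 := a 0
  have a1 := abs_le.1 (a 1)
  have a2 := a 2
  refine ⟨by linarith, by linarith [a1.1], by linarith [a1.2], by linarith⟩

theorem constQ (hV : S_Conv) {Qg : E 3} (hf : g Qg = Qg) (hQ : ‖Qg - Qt‖ ≤ ρ)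
    {u : ℤ → E 3} (hu : IsKOrbit g u) (h : ∀ n, u n ∈ NQ ρ) (n : ℤ) : u n = Qg := by
  have hb := boxQ G hu h
  have hs : g.symm Qg = Qg := by rw [Equiv.symm_apply_eq, hf]
  have hback : ∀ (m : ℤ) (k : ℕ), (⇑g.symm)^[k] (u (m + k)) = u m := by
    intro m k
    rw [← orbF_neg, korbit_eq hu.step (m + k), orbF_add, korbit_eq hu.step m]
    congr 1; ring
  have hmem : ∀ (m : ℤ) (k : ℕ), (⇑g.symm)^[k] (u m) ∈ Box (3 / 50) (-(1 / 50)) (77 / 400) (1 / 50) := by
    intro m k
    have := hback (m - k) k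
    rw [sub_add_cancel] at this
    rw [this]; exact hb _
  have hmemQ : ∀ k : ℕ, (⇑g.symm)^[k] Qg ∈ Box (3 / 50) (-(1 / 50)) (77 / 400) (1 / 50) := by
    intro k
    rw [Function.iterate_fixed hs]; exact Qg_box G hQ
  have hlt : 4 / 5 + ρ * kap / 400 < 1 := G.locQ.hσδ
  have hδ : 0 < ρ * kap / 400 := G.locQ.hδ
  have hbd : ∀ m, ‖u m - Qg‖ ≤ 1 := by
    intro m
    rw [pi_norm_le_iff_of_nonneg (by norm_num)]
    obtain ⟨c0, c1, c1', c2⟩ := hb m
    obtain ⟨d0, d1, d1', d2⟩ := Qg_box G hQ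
    have c0' := abs_le.1 c0
    have c2' := abs_le.1 c2
    have d0' := abs_le.1 d0
    have d2' := abs_le.1 d2
    intro i
    rw [Pi.sub_apply, Real.norm_eq_abs, abs_le]
    fin_cases i
    · constructor
      · show -1 ≤ u m 0 - Qg 0
        linarith [c0'.1, c0'.2, d0'.1, d0'.2]
      · show u m 0 - Qg 0 ≤ 1
        linarith [c0'.1, c0'.2, d0'.1, d0'.2]
    · constructor
      · show -1 ≤ u m 1 - Qg 1
        linarith
      · show u m 1 - Qg 1 ≤ 1
        linarith
    · constructor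
      · show -1 ≤ u m 2 - Qg 2
        linarith [c2'.1, c2'.2, d2'.1, d2'.2]
      · show u m 2 - Qg 2 ≤ 1
        linarith [c2'.1, c2'.2, d2'.1, d2'.2]
  have key : ∀ k : ℕ, ‖u n - Qg‖ ≤ (4 / 5 + ρ * kap / 400) ^ k := by
    intro k
    have h1 := hV _ _ _ _ _ _ _ _ _ _ _ G.locQ (u (n + k)) Qg (hmem _) hmemQ k
    rw [hback, Function.iterate_fixed hs] at h1
    calc _ ≤ _ := h1
      _ ≤ (4 / 5 + ρ * kap / 400) ^ k * 1 :=
        mul_le_mul_of_nonneg_left (hbd _) (pow_nonneg (by linarith) k)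
      _ = _ := mul_one _
  have hlim : Tendsto (fun k : ℕ => (4 / 5 + ρ * kap / 400) ^ k) atTop (𝓝 0) :=
    tendsto_pow_atTop_nhds_zero_of_lt_one (by linarith) hlt
  have h0 : ‖u n - Qg‖ ≤ 0 := ge_of_tendsto' hlim key
  exact sub_eq_zero.1 (norm_le_zero_iff.1 h0)

/-- the first exit -/
theorem firstExit {u : ℤ → E 3} (hu : IsKOrbit g u) (h1 : ∃ N : ℤ, ∀ n ≤ N, u n ∈ NQ ρ)
    (h2 : ∃ n, u n ∉ NQ ρ) : ∃ m, (∀ n ≤ m, u n ∈ NQ ρ) ∧ u (m + 1) ∈ NP ρ := by
  obtain ⟨N, hN⟩ := h1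
  obtain ⟨m, hm, hm2⟩ := Int.exists_least_of_bdd (P := fun n => u n ∉ NQ ρ)
    ⟨N, fun z hz => by by_contra hc; exact hz (hN z (by omega))⟩ h2
  have h3 : ∀ n ≤ m - 1, u n ∈ NQ ρ := by
    intro n hn
    by_contra hc
    have := hm2 n hc
    omega
  refine ⟨m - 1, h3, ?_⟩
  rcases G.passages.stepQ u hu (m - 1) (h3 _ le_rfl) with h4 | h4
  · rw [sub_add_cancel] at h4; exact absurd h4 hm
  · exact h4.2

end

theorem intVec_neg (k : Fin 3 → ℤ) : intVec (-k) = -intVec k := by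
  funext i; simp [intVec]

theorem isOpen_NP (ρ : ℝ) : IsOpen (NP ρ) := by
  have : NP ρ = ⋃ c ∈ CP, {p | ‖p - c‖ < ρ} := by
    ext p; simp [NP]
  rw [this]
  exact isOpen_biUnion fun c _ => isOpen_lt (by fun_prop) continuous_const

end ReachU

open ReachU Filter Topology Set in
theorem reachU (hK : S_InK) (_hC : S_Cone) (hV : S_Conv) (hI : S_Index) : S_ReachU := by
  intro ρ g G Pg Qg hPf hP hQf hQ Λ Γ i j hΛ hΓ tΛ tΓ _hij hPΛ hQΓ hne
  obtain ⟨hΛK, hΓK, hKo⟩ := hK ρ g G Pg Qg hPf hP hQf hQ Λ Γ hΛ.invariant hΓ.invariant tΛ tΓ hPΛ hQΓ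
  have hadd := G.diffeo.map_add
  have hcont : Continuous g := G.diffeo.contDiff.continuous
  have hcont' : Continuous g.symm := G.diffeo.contDiff_symm.continuous
  have hρ := G.hρ
  have hρ' := G.hρ'
  have hkΓ : ∀ p ∈ Γ, IsKOrbit g (orbF g p) := fun p hp =>
    ⟨orbF_step g p, fun n => hΓK (orbF_mem hΓ.invariant hp n)⟩
  by_cases hcase : Γ = orb Qg
  · -- case A
    obtain ⟨p0, hp0⟩ := hne
    have hu := hKo p0 (orbF g p0) hp0 (orbF_zero g p0) (orbF_step g p0)
    obtain ⟨⟨q, hq, hlim⟩, ⟨q', hq', hlim'⟩⟩ := hp0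
    rw [hcase] at hq
    obtain ⟨k, rfl⟩ := hq
    -- translate
    have hw := korbit_add hu hadd (-k)
    set w : ℤ → E 3 := fun n => orbF g p0 n + intVec (-k) with hwdef
    have hs : g.symm Qg = Qg := by rw [Equiv.symm_apply_eq, hQf]
    have hlim2 : Tendsto (fun n : ℕ => w (-n) - Qg) atTop (𝓝 0) := by
      refine hlim.congr fun n => ?_
      rw [hwdef]
      simp only
      rw [orbF_neg, iter_add (symm_add hadd), Function.iterate_fixed hs, intVec_neg]
      abel
    have hlim3 : ∀ᶠ n : ℕ in atTop, ‖w (-n) - Qg‖ < 1 / 1000 := by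
      have := hlim2.norm
      rw [norm_zero] at this
      exact this.eventually (gt_mem_nhds (by norm_num))
    obtain ⟨N, hN⟩ := eventually_atTop.1 hlim3
    have h1 : ∃ N : ℤ, ∀ n ≤ N, w n ∈ NQ ρ := by
      refine ⟨-N, fun n hn => near_NQ G hQ hw ?_⟩
      have := hN (n.natAbs) (by omega)
      have h2 : -((n.natAbs : ℕ) : ℤ) = n := by omega
      rwa [h2] at this
    by_cases h2 : ∃ n, w n ∉ NQ ρ
    · obtain ⟨m, hm1, hm2⟩ := firstExit G hw h1 h2
      refine ⟨fun n => w (n + m), korbit_shift hw m, fun n hn => hm1 _ (by omega), ?_, Or.inr hcase⟩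
      show w (1 + m) ∈ NP ρ
      rw [add_comm]; exact hm2
    · exfalso
      push Not at h2
      have h3 := constQ G hV hQf hQ hw h2 0
      simp only [hwdef, orbF_zero] at h3
      have h4 : p0 = Qg + intVec k := by
        rw [← h3, intVec_neg]; abel
      have hfix : g p0 = p0 := by rw [h4, hadd, hQf]
      have h5 : Tendsto (fun n : ℕ => (⇑g)^[n] q') atTop (𝓝 p0) := by
        have h6 : Tendsto (fun n : ℕ => p0 - ((⇑g)^[n] p0 - (⇑g)^[n] q')) atTop (𝓝 (p0 - 0)) :=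
          tendsto_const_nhds.sub hlim'
        rw [sub_zero] at h6
        refine h6.congr fun n => ?_
        rw [Function.iterate_fixed hfix]; abel
      have h7 : p0 ∈ Λ := by
        refine hΛ.closed.mem_of_tendsto h5 (Eventually.of_forall fun n => ?_)
        rw [← orbF_nat]
        exact orbF_mem hΛ.invariant hq' n
      have h8 : Qg ∈ Λ := by
        have := hΛ.periodic p0 h7 (-k)
        rwa [h4, intVec_neg, add_neg_cancel_right] at this
      obtain ⟨i1, i2⟩ := hI ρ g G Pg Qg hPf hP hQf hQ Λ i hΛ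
      have := i1 hPΛ
      have := i2 h8
      omega
  · -- case B
    have hsub : orb Qg ⊆ Γ := by
      rintro q ⟨k, rfl⟩
      exact hΓ.periodic Qg hQΓ k
    obtain ⟨γ, hγ, hγ2⟩ : ∃ γ ∈ Γ, γ ∉ orb Qg := by
      by_contra hc
      push Not at hc
      exact hcase (Subset.antisymm hc hsub)
    -- some point of `Γ` in `NP`
    have hex : ∃ x ∈ Γ, x ∈ NP ρ := by
      by_contra hc
      push Not at hc
      obtain ⟨k, hk | hk⟩ := G.passages.code _ (hkΓ γ hγ) 0
      · rw [orbF_zero] at hk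
        exact hc _ (hΓ.periodic _ hγ k) hk
      rw [orbF_zero] at hk
      have hγk := hΓ.periodic _ hγ k
      have hu := hkΓ _ hγk
      have hall : ∀ n, orbF g (γ + intVec k) n ∈ NQ ρ := by
        intro n
        induction n using Int.induction_on with
        | zero => rwa [orbF_zero]
        | succ n ih =>
          rcases G.passages.stepQ _ hu _ ih with h | h
          · exact h
          · exact absurd h.2 (hc _ (orbF_mem hΓ.invariant hγk _))
        | pred n ih =>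
          have h1 := G.passages.backQ _ hu (-(n : ℤ) - 1)
          rw [sub_add_cancel] at h1
          rcases h1 ih with h | h
          · exact h.1
          · exfalso
            have h5 : ey = intVec ![0, 1, 0] := by
              funext i; fin_cases i <;> simp [ey, intVec]
            rw [h5] at h
            exact hc _ (hΓ.periodic _ (orbF_mem hΓ.invariant hγk _) _) h.1
      have h3 := constQ G hV hQf hQ hu hall 0
      rw [orbF_zero] at h3
      apply hγ2
      refine ⟨-k, ?_⟩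
      rw [← h3, intVec_neg, add_neg_cancel_right]
    obtain ⟨x, hx, hxP⟩ := hex
    -- transitivity
    have hseq : ∀ m : ℕ, ∃ (p : E 3) (e : ℕ), p ∈ Γ ∧ ‖p - Qg‖ < 1 / ((m : ℝ) + 1001) ∧
        (∀ j : ℕ, j ≤ e → orbF g p j ∈ NQ ρ) ∧ orbF g p (e + 1 : ℕ) ∈ NP ρ ∧
        ‖orbF g p e - bt‖ < ρ := by
      intro m
      have hpos : (0 : ℝ) < 1 / ((m : ℝ) + 1001) := by positivity
      obtain ⟨p, ⟨hpU, hpΓ⟩, n, k, hnk⟩ := tΓ {p | ‖p - Qg‖ < 1 / ((m : ℝ) + 1001)} (NP ρ)
        (isOpen_lt (by fun_prop) continuous_const) (isOpen_NP ρ)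
        ⟨Qg, by simpa using hpos, hQΓ⟩ ⟨x, hxP, hx⟩
      have hu := hkΓ p hpΓ
      have h0 : orbF g p 0 ∈ NQ ρ := by
        refine near_NQ G hQ hu ?_
        rw [orbF_zero]
        refine lt_of_lt_of_le hpU ?_
        apply one_div_le_one_div_of_le (by norm_num)
        have : (0 : ℝ) ≤ m := Nat.cast_nonneg m
        linarith
      have hn : orbF g p n ∉ NQ ρ := by
        intro hc
        rw [orbF_nat] at hc
        exact sepQP (NQ_sub hρ' hc) (NP_sub hρ' hnk)
      classical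
      have hexi : ∃ n : ℕ, orbF g p n ∉ NQ ρ := ⟨n, hn⟩
      set a := Nat.find hexi with ha
      have ha1 : orbF g p a ∉ NQ ρ := Nat.find_spec hexi
      have ha0 : a ≠ 0 := by
        intro hc
        rw [hc] at ha1
        exact ha1 h0
      have hlt : ∀ j : ℕ, j ≤ a - 1 → orbF g p j ∈ NQ ρ := by
        intro j hj
        by_contra hc
        exact Nat.find_min hexi (show j < a by omega) hc
      have hst := G.passages.stepQ _ hu ((a - 1 : ℕ) : ℤ) (hlt _ le_rfl)
      have hcast : (((a - 1 : ℕ) : ℤ) + 1) = ((a : ℕ) : ℤ) := by omega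
      rw [hcast] at hst
      rcases hst with h | h
      · exact absurd h ha1
      · refine ⟨p, a - 1, hpΓ, hpU, hlt, ?_, h.1⟩
        have : a - 1 + 1 = a := by omega
        rw [this]; exact h.2
    choose p e hpΓ hpQ hpj hpe hpb using hseq
    have hplim : Tendsto p atTop (𝓝 Qg) := by
      rw [tendsto_iff_norm_sub_tendsto_zero]
      refine squeeze_zero (fun m => norm_nonneg _) (fun m => (hpQ m).le) ?_
      have h1 : Tendsto (fun m : ℕ => (m : ℝ) + 1001) atTop atTop :=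
        tendsto_atTop_add_const_right _ _ tendsto_natCast_atTop_atTop
      exact Tendsto.div_atTop tendsto_const_nhds h1
    have hQb : ρ < ‖Qg - bt‖ := by
      have h1 := coord_le hQ 1
      have h2 : Qt 1 = 0 := rfl
      rw [h2, sub_zero] at h1
      have h3 := norm_le_pi_norm (Qg - bt) 1
      rw [Pi.sub_apply, Real.norm_eq_abs] at h3
      have h4 : bt 1 = 3 / 16 := rfl
      rw [h4] at h3
      have h5 := abs_le.1 h1
      have h6 : -(Qg 1 - 3 / 16) ≤ |Qg 1 - 3 / 16| := neg_le_abs _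
      linarith [h5.1, h5.2]
    have hene : ∀ j : ℕ, ∀ᶠ m in atTop, e m ≠ j := by
      intro j
      have h1 : Tendsto (fun m => orbF g (p m) j) atTop (𝓝 (orbF g Qg j)) :=
        ((orb_cont hcont hcont' j).tendsto Qg).comp hplim
      rw [orbF_fix hQf] at h1
      have h2 : Tendsto (fun m => ‖orbF g (p m) j - bt‖) atTop (𝓝 ‖Qg - bt‖) :=
        (h1.sub tendsto_const_nhds).norm
      filter_upwards [h2.eventually (lt_mem_nhds hQb)] with m hm hc
      have := hpb m
      rw [hc] at this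
      linarith
    have helim : ∀ J : ℕ, ∀ᶠ m in atTop, J ≤ e m := by
      intro J
      induction J with
      | zero => exact Eventually.of_forall fun m => Nat.zero_le _
      | succ J ih =>
        filter_upwards [ih, hene J] with m h1 h2
        omega
    obtain ⟨y, -, s, hs, hy⟩ := (isCompact_closedBall bt ρ).tendsto_subseq
      (x := fun m => orbF g (p m) (e m)) (fun m => by
        rw [mem_closedBall_iff_norm]; exact (hpb m).le)
    have hyΓ : y ∈ Γ := hΓ.closed.mem_of_tendsto hy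
      (Eventually.of_forall fun m => orbF_mem hΓ.invariant (hpΓ _) _)
    have hyo := hkΓ y hyΓ
    have hconv : ∀ n : ℤ, Tendsto (fun m => orbF g (p (s m)) (e (s m) + n)) atTop
        (𝓝 (orbF g y n)) := by
      intro n
      have := ((orb_cont hcont hcont' n).tendsto y).comp hy
      refine this.congr fun m => ?_
      simp only [Function.comp_apply, orbF_add]
    refine ⟨orbF g y, hyo, ?_, ?_, Or.inl fun n => orbF_mem hΓ.invariant hyΓ n⟩
    · intro n hn
      apply mem_NQ G hyo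
      refine isClosed_BQ'.mem_of_tendsto (hconv n) ?_
      filter_upwards [hs.tendsto_atTop.eventually (helim n.natAbs)] with m hm
      have h1 := hpj (s m) (e (s m) - n.natAbs) (by omega)
      have h2 : ((e (s m) - n.natAbs : ℕ) : ℤ) = (e (s m) : ℤ) + n := by omega
      rw [h2] at h1
      exact NQ_sub hρ' h1
    · apply mem_NP G hyo
      refine isClosed_BP'.mem_of_tendsto (hconv 1) (Eventually.of_forall fun m => ?_)
      have h1 := hpe (s m)
      push_cast at h1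
      exact NP_sub hρ' h1

end HetCyc
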