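import Pool.Agent.HetCyc.ReachPos

/-!
# Module HC_ReachV (helper80)
-/

namespace HetCyc

open Filter Topology Set

namespace ReachV

open ReachAbs ReachPos

theorem Ws_add {g : E 3 ≃ E 3} (hadd : ∀ p k, g (p + intVec k) = g p + intVec k) {Λ : Set (E 3)}
    (hper : ∀ p ∈ Λ, ∀ k, p + intVec k ∈ Λ) {p : E 3} (hp : p ∈ Ws g Λ) (k : Fin 3 → ℤ) :
    p + intVec k ∈ Ws g Λ := by
  obtain ⟨q, hq, h⟩ := hp
  refine ⟨q + intVec k, hper q hq k, ?_⟩
  have : (fun n : ℕ => (⇑g)^[n] (p + intVec k) - (⇑g)^[n] (q + intVec k)) =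
      fun n : ℕ => (⇑g)^[n] p - (⇑g)^[n] q := by
    funext n
    rw [iter_add hadd, iter_add hadd, add_sub_add_right_eq_sub]
  rw [this]; exact h

theorem orbZ_K {g : E 3 ≃ E 3} {Λ : Set (E 3)} (hinv : g '' Λ = Λ) (hK : Λ ⊆ KK) {x : E 3}
    (hx : x ∈ Λ) : IsKOrbit g (orbZ g x) :=
  ⟨orbZ_step g x, fun n => hK (orbZ_mem hinv hx n)⟩

theorem shift_K {g : E 3 → E 3} {u : ℤ → E 3} (hu : IsKOrbit g u) (m : ℤ) :
    IsKOrbit g (fun n => u (n + m)) := by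
  refine ⟨fun n => ?_, fun n => hu.mem _⟩
  show g (u (n + m)) = u (n + 1 + m)
  rw [hu.step, add_right_comm]

theorem Box_bdd {p q : E 3} (hp : p ∈ BoxP) (hq : q ∈ BoxP) : ‖p - q‖ ≤ 1 := by
  obtain ⟨a0, a1, a1', a2⟩ := hp
  obtain ⟨b0, b1, b1', b2⟩ := hq
  rw [abs_le] at a0 a2 b0 b2
  refine (pi_norm_le_iff_of_nonneg (by norm_num)).mpr fun i => ?_
  rw [Real.norm_eq_abs, Pi.sub_apply, abs_le]
  fin_cases i
  · show -1 ≤ p 0 - q 0 ∧ p 0 - q 0 ≤ 1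
    constructor <;> linarith [a0.1, a0.2, b0.1, b0.2]
  · show -1 ≤ p 1 - q 1 ∧ p 1 - q 1 ≤ 1
    constructor <;> linarith
  · show -1 ≤ p 2 - q 2 ∧ p 2 - q 2 ≤ 1
    constructor <;> linarith [a2.1, a2.2, b2.1, b2.2]

theorem near_BoxP {p : E 3} (h : ‖p - Pt‖ ≤ 1 / 1000) : p ∈ BoxP := by
  have d0 := coord_lt (h.trans_lt (by norm_num : (1 / 1000 : ℝ) < 1 / 500)) 0
  have d1 := coord_lt (h.trans_lt (by norm_num : (1 / 1000 : ℝ) < 1 / 500)) 1
  have d2 := coord_lt (h.trans_lt (by norm_num : (1 / 1000 : ℝ) < 1 / 500)) 2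
  simp [Pt] at d0 d1 d2
  refine ⟨abs_le.mpr ⟨by linarith, by linarith⟩, by linarith, by linarith,
    abs_le.mpr ⟨by linarith, by linarith⟩⟩

theorem ey_eq : ey = intVec ![0, 1, 0] := by
  ext i; fin_cases i <;> simp [ey, intVec]

/-- an orbit that stays on the side of `P` is the fixed point -/
theorem uniqP (hV : S_Conv) {ρ : ℝ} {g : E 3 ≃ E 3} (G : Good ρ g) {Pg : E 3} (hfix : g Pg = Pg)
    (hn : ‖Pg - Pt‖ ≤ ρ) {u : ℤ → E 3} (hu : IsKOrbit g u) (h : ∀ n, u n ∈ NP ρ) (n : ℤ) :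
    u n = Pg := by
  have hbox : ∀ n, u n ∈ BoxP := by
    intro n
    rcases G.passages.stepP u hu n (h n) with h1 | h1
    · exact h1.2
    · exfalso
      refine SQ_SP (u (n + 1) - ey) ![0, 1, 0] (NQ_sub G.hρ' h1.2) ?_
      rw [← ey_eq, sub_add_cancel]
      exact NP_sub G.hρ' (h (n + 1))
  have hPit : ∀ k : ℕ, (⇑g)^[k] Pg = Pg := fun k => Function.iterate_fixed hfix k
  have hPbox : Pg ∈ BoxP := near_BoxP (hn.trans G.hρ')
  have hσ := G.locP.hσδ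
  have hσ0 := G.locP.hσ
  have hδ0 := G.locP.hδ
  set θ : ℝ := 4 / 5 + ρ * kap / 400 with hθ
  have key : ∀ m : ℕ, ‖u n - Pg‖ ≤ θ ^ m := by
    intro m
    have h1 := hV _ _ _ _ _ _ _ _ _ _ _ G.locP (u (n - m)) Pg (fun k => by
      rw [← (orbit_eq hu.step (n - m) k).1]; exact hbox _) (fun k => by
      rw [hPit]; exact hPbox) m
    rw [← (orbit_eq hu.step (n - m) m).1, sub_add_cancel, hPit] at h1
    refine h1.trans ?_
    have h2 := Box_bdd (hbox (n - m)) hPbox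
    calc θ ^ m * ‖u (n - m) - Pg‖ ≤ θ ^ m * 1 :=
          mul_le_mul_of_nonneg_left h2 (pow_nonneg (by linarith) _)
      _ = θ ^ m := mul_one _
  have hlim : Tendsto (fun m : ℕ => θ ^ m) atTop (𝓝 0) :=
    tendsto_pow_atTop_nhds_zero_of_lt_one (by linarith) hσ
  have h0 : ‖u n - Pg‖ ≤ 0 := ge_of_tendsto' hlim key
  exact sub_eq_zero.mp (norm_le_zero_iff.mp h0)

end ReachV

open ReachAbs ReachPos ReachV in
theorem reachV (hK : S_InK) (_hC : S_Cone) (hV : S_Conv) (hI : S_Index) : S_ReachV := by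
  intro ρ g G Pg Qg hPfix hPn hQfix hQn Λ Γ i j hΛ hΓ htΛ htΓ hij hPΛ hQΓ hne
  obtain ⟨hΛK, hΓK, horb⟩ := hK ρ g G Pg Qg hPfix hPn hQfix hQn Λ Γ hΛ.invariant hΓ.invariant
    htΛ htΓ hPΛ hQΓ
  have hadd := G.diffeo.map_add
  have hS := sepPQ G.hρ'
  have hcode : ∀ x ∈ Λ, ∃ k, x + intVec k ∈ NP ρ ∨ x + intVec k ∈ NQ ρ := by
    intro x hx
    have := G.passages.code _ (orbZ_K hΛ.invariant hΛK hx) 0
    rwa [orbZ_zero] at this
  have hPN : Pg ∈ NP ρ := hS.memN (hcode Pg hPΛ) (near_Pt (hPn.trans G.hρ'))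
  have hback : ∀ x ∈ Λ, g x ∈ NP ρ → x ∈ NP ρ ∨ x ∈ NQ ρ := by
    intro x hx h
    have h1 := G.passages.backP _ (orbZ_K hΛ.invariant hΛK hx) 0 (by
      rw [← orbZ_step, orbZ_zero]; exact h)
    rw [orbZ_zero] at h1
    exact h1.imp_right And.right
  have huniq : ∀ x ∈ Λ, (∀ n : ℤ, orbZ g x n ∈ NP ρ) → x = Pg := by
    intro x hx h
    have := uniqP hV G hPfix hPn (orbZ_K hΛ.invariant hΛK hx) h 0
    rwa [orbZ_zero] at this
  rcases reach_abs G.diffeo.contDiff.continuous G.diffeo.contDiff_symm.continuous hadd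
    hΛ.closed hΛ.periodic hΛ.invariant htΛ hPΛ hPfix hS hPN hcode hback huniq with
    hΛP | ⟨x, hxΛ, hxN, hxM⟩
  swap
  · refine ⟨orbZ g x, orbZ_K hΛ.invariant hΛK hxΛ, ?_, ?_, Or.inl (orbZ_mem hΛ.invariant hxΛ)⟩
    · intro n hn
      obtain ⟨m, rfl⟩ := Int.eq_ofNat_of_zero_le hn
      rw [orbZ_nat]; exact hxN m
    · have := orbZ_neg g x 1
      rw [Function.iterate_one] at this
      rw [show (-1 : ℤ) = -((1 : ℕ) : ℤ) by norm_num, this]
      exact hxM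
  -- the case `Λ = orb Pg`
  obtain ⟨p0, hp0u, hp0s⟩ := hne
  obtain ⟨q, hq, hqlim⟩ := id hp0s
  obtain ⟨k, rfl⟩ : ∃ k, q = Pg + intVec k := by rw [hΛP] at hq; exact hq
  set p1 : E 3 := p0 + intVec (-k) with hp1
  have hp1u : p1 ∈ Wu g Γ := Ws_add (symm_add hadd) hΓ.periodic hp0u (-k)
  have hp1s : p1 ∈ Ws g Λ := Ws_add hadd hΛ.periodic hp0s (-k)
  have hu : IsKOrbit g (orbZ g p1) := horb p1 _ ⟨hp1u, hp1s⟩ (orbZ_zero g p1) (orbZ_step g p1)
  have hPit : ∀ k : ℕ, (⇑g)^[k] Pg = Pg := fun k => Function.iterate_fixed hPfix k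
  have hlim : Tendsto (fun n : ℕ => orbZ g p1 n) atTop (𝓝 Pg) := by
    rw [← tendsto_sub_nhds_zero_iff]
    refine hqlim.congr fun n => ?_
    rw [orbZ_nat, hp1, iter_add hadd, iter_add hadd, hPit, intVec_neg]
    abel
  rcases reach_orbit hS.No hPN hlim (fun n h => (G.passages.backP _ hu n h).imp_right And.right)
    with hall | ⟨m, hm1, hm2⟩
  · exfalso
    have hp1P : p1 = Pg := by
      have := uniqP hV G hPfix hPn hu hall 0
      rwa [orbZ_zero] at this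
    rw [hp1P] at hp1u
    obtain ⟨q', hq', hlim'⟩ := hp1u
    have hPs : g.symm Pg = Pg := by rw [Equiv.symm_apply_eq, hPfix]
    have hPit' : ∀ k : ℕ, (⇑g.symm)^[k] Pg = Pg := fun k => Function.iterate_fixed hPs k
    have h2 : Tendsto (fun n : ℕ => (⇑g.symm)^[n] q') atTop (𝓝 Pg) := by
      have h3 := (tendsto_const_nhds (x := Pg)).sub hlim'
      simp only [hPit', sub_sub_cancel, sub_zero] at h3
      exact h3
    have hPΓ : Pg ∈ Γ := hΓ.closed.mem_of_tendsto h2 (Eventually.of_forall fun n =>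
      mem_iter (inv_bwd hΓ.invariant) n q' hq')
    have h4 := hI ρ g G Pg Qg hPfix hPn hQfix hQn Γ j hΓ
    have h5 := h4.1 hPΓ
    have h6 := h4.2 hQΓ
    omega
  · refine ⟨fun n => orbZ g p1 (n + m), shift_K hu m, ?_, ?_, Or.inr hΛP⟩
    · intro n hn; exact hm1 _ (by omega)
    · show orbZ g p1 (-1 + m) ∈ NQ ρ
      rw [neg_add_eq_sub]; exact hm2

end HetCyc
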