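import Pool.Agent.HetCyc.Stmts

/-!
# Module Shear: the perturbations `g' = S_e ∘ g`, `S_e (x, y, z) = (x + e B(y), y, z)`
-/

namespace HetCyc

namespace Shear

open Filter Topology Set

noncomputable section

/-- the value `phi (3/16)` -/
def y0 : ℝ := phi (3 / 16)

lemma y0_ge : 3 / 10 ≤ y0 := by
  have h1 : Real.sin (2 * Real.pi * (3 / 16)) = Real.cos (Real.pi / 8) := by
    rw [← Real.cos_pi_div_two_sub]
    congr 1
    ring
  have h2 : (1.14 : ℝ) ≤ √2 := by
    apply Real.le_sqrt_of_sq_le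
    norm_num
  have h3 : (1.772 : ℝ) ≤ √(2 + √2) := by
    apply Real.le_sqrt_of_sq_le
    nlinarith
  have hpi : Real.pi < 3.15 := Real.pi_lt_d2
  have hpi0 : 0 < Real.pi := Real.pi_pos
  unfold y0 phi sn
  rw [h1, Real.cos_pi_div_eight]
  have : 9 / 80 ≤ 4 / 5 * (√(2 + √2) / 2 / (2 * Real.pi)) := by
    rw [div_div, mul_div_assoc', le_div_iff₀ (by positivity)]
    nlinarith
  linarith

lemma y0_le : y0 ≤ 321 / 1000 := by
  have hpi : 3.14 < Real.pi := Real.pi_gt_d2
  have hs : Real.sin (2 * Real.pi * (3 / 16)) ≤ 1 := Real.sin_le_one _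
  unfold y0 phi sn
  have : Real.sin (2 * Real.pi * (3 / 16)) / (2 * Real.pi) ≤ 1 / 6 := by
    rw [div_le_iff₀ (by positivity)]
    nlinarith
  linarith

lemma cs_add_int (t : ℝ) (k : ℤ) : cs (t + k) = cs t := by
  unfold cs
  rw [mul_add, show 2 * Real.pi * (k : ℝ) = (k : ℝ) * (2 * Real.pi) by ring,
    Real.cos_add_int_mul_two_pi]

lemma cs_abs (t : ℝ) : cs |t| = cs t := by
  unfold cs
  rcases abs_cases t with h | h
  · rw [h.1]
  · rw [h.1, mul_neg, Real.cos_neg]

lemma cs_anti {s t : ℝ} (hs : 0 ≤ s) (hst : s ≤ t) (ht : t ≤ 1 / 2) : cs t ≤ cs s := by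
  unfold cs
  have hpi : 0 < Real.pi := Real.pi_pos
  apply Real.cos_le_cos_of_nonneg_of_le_pi
  · positivity
  · nlinarith
  · nlinarith

lemma cs_lt : cs (1 / 20) < cs (1 / 200) := by
  unfold cs
  have hpi : 0 < Real.pi := Real.pi_pos
  apply Real.cos_lt_cos_of_nonneg_of_le_pi
  · positivity
  · nlinarith
  · nlinarith

/-- the bump function in the direction `y` -/
def B (y : ℝ) : ℝ :=
  Real.smoothTransition ((cs (y - y0) - cs (1 / 20)) / (cs (1 / 200) - cs (1 / 20)))

lemma B_contDiff (n : ℕ∞) : ContDiff ℝ n B := by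
  unfold B
  apply (Real.smoothTransition.contDiff (n := n)).comp
  apply ContDiff.div_const
  apply ContDiff.sub _ contDiff_const
  unfold cs
  exact Real.contDiff_cos.comp (contDiff_const.mul (contDiff_id.sub contDiff_const))

lemma B_add_int (y : ℝ) (k : ℤ) : B (y + k) = B y := by
  unfold B
  rw [show y + k - y0 = (y - y0) + k by ring, cs_add_int]

lemma B_one {y : ℝ} (h : |y - y0| ≤ 1 / 200) : B y = 1 := by
  unfold B
  apply Real.smoothTransition.one_of_one_le
  have h1 := cs_lt
  rw [le_div_iff₀ (by linarith)]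
  have h2 : cs (1 / 200) ≤ cs (y - y0) := by
    rw [← cs_abs (y - y0)]
    exact cs_anti (abs_nonneg _) h (by norm_num)
  linarith

lemma B_zero {y : ℝ} (h : cs (y - y0) ≤ cs (1 / 20)) : B y = 0 := by
  unfold B
  apply Real.smoothTransition.zero_of_nonpos
  have h1 := cs_lt
  apply div_nonpos_of_nonpos_of_nonneg
  · linarith
  · linarith

lemma B_zero_right {y : ℝ} (h1 : 2 / 5 ≤ y) (h2 : y ≤ 3 / 5) : B y = 0 := by
  apply B_zero
  have := y0_ge
  have := y0_le
  exact cs_anti (by norm_num) (by linarith) (by linarith)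

lemma B_zero_left {y : ℝ} (h1 : -(1 / 10) ≤ y) (h2 : y ≤ 1 / 4) : B y = 0 := by
  apply B_zero
  have := y0_ge
  have := y0_le
  rw [← cs_abs (y - y0), abs_of_nonpos (by linarith)]
  exact cs_anti (by norm_num) (by linarith) (by linarith)

/-- the direction of `x` -/
def e0 : E 3 := ![1, 0, 0]

/-- the shear -/
def S (e : ℝ) : E 3 ≃ E 3 where
  toFun p := p + (e * B (p 1)) • e0
  invFun p := p - (e * B (p 1)) • e0
  left_inv p := by
    have : (p + (e * B (p 1)) • e0) 1 = p 1 := by simp [e0]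
    simp only [this]
    simp
  right_inv p := by
    have : (p - (e * B (p 1)) • e0) 1 = p 1 := by simp [e0]
    simp only [this]
    simp

lemma S_apply (e : ℝ) (p : E 3) : S e p = p + (e * B (p 1)) • e0 := rfl
lemma S_symm_apply (e : ℝ) (p : E 3) : (S e).symm p = p - (e * B (p 1)) • e0 := rfl

lemma B1_contDiff (n : ℕ∞) : ContDiff ℝ n (fun p : E 3 => B (p 1)) :=
  (B_contDiff n).comp (contDiff_apply ℝ ℝ (1 : Fin 3))

lemma S_torus (e : ℝ) (r : ℕ∞) : IsTorusDiffeo r (S e) where
  contDiff := by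
    show ContDiff ℝ r (fun p : E 3 => p + (e * B (p 1)) • e0)
    exact contDiff_id.add ((contDiff_const.mul (B1_contDiff r)).smul contDiff_const)
  contDiff_symm := by
    show ContDiff ℝ r (fun p : E 3 => p - (e * B (p 1)) • e0)
    exact contDiff_id.sub ((contDiff_const.mul (B1_contDiff r)).smul contDiff_const)
  map_add p k := by
    simp only [S_apply, intVec, Pi.add_apply, B_add_int]
    abel

lemma trans_torus {r : ℕ∞} {g h : E 3 ≃ E 3} (hg : IsTorusDiffeo r g) (hh : IsTorusDiffeo r h) :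
    IsTorusDiffeo r (g.trans h) where
  contDiff := hh.contDiff.comp hg.contDiff
  contDiff_symm := hg.contDiff_symm.comp hh.contDiff_symm
  map_add p k := by
    simp only [Equiv.trans_apply, hg.map_add, hh.map_add]

/-- every point is an integer translate of a point of the unit cube -/
lemma exists_cube (p : E 3) : ∃ q ∈ Icc (0 : E 3) 1, ∃ k : Fin 3 → ℤ, p = q + intVec k := by
  refine ⟨fun i => Int.fract (p i), ⟨?_, ?_⟩, fun i => ⌊p i⌋, ?_⟩
  · intro i
    exact Int.fract_nonneg _
  · intro i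
    exact (Int.fract_lt_one _).le
  · funext i
    simp [intVec]

/-- a continuous periodic function is bounded -/
lemma bounded_of_periodic {V : Type*} [NormedAddCommGroup V] {F : E 3 → V} (hF : Continuous F)
    (hp : ∀ p k, F (p + intVec k) = F p) : ∃ M : ℝ, 0 ≤ M ∧ ∀ p, ‖F p‖ ≤ M := by
  have hc : IsCompact (Icc (0 : E 3) 1) := isCompact_Icc
  obtain ⟨M, hM⟩ := hc.exists_bound_of_continuousOn hF.continuousOn
  refine ⟨M, ?_, ?_⟩
  · exact (norm_nonneg _).trans (hM 0 (left_mem_Icc.mpr (by intro i; simp)))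
  · intro p
    obtain ⟨q, hq, k, rfl⟩ := exists_cube p
    rw [hp]
    exact hM q hq

/-- all derivatives of order at most `k` of a periodic `C^r` function are bounded -/
lemma derivs_bounded {r : ℕ∞} {F : E 3 → E 3} (hF : ContDiff ℝ r F)
    (hp : ∀ p k, F (p + intVec k) = F p) (k : ℕ) (hk : (k : ℕ∞) ≤ r) :
    ∃ M : ℝ, 0 ≤ M ∧ ∀ j : ℕ, j ≤ k → ∀ p, ‖iteratedFDeriv ℝ j F p‖ ≤ M := by
  have key : ∀ j : ℕ, j ≤ k → ∃ M : ℝ, 0 ≤ M ∧ ∀ p, ‖iteratedFDeriv ℝ j F p‖ ≤ M := by
    intro j hj
    apply bounded_of_periodic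
    · apply hF.continuous_iteratedFDeriv
      have : (j : ℕ∞) ≤ r := le_trans (by exact_mod_cast hj) hk
      exact_mod_cast this
    · intro p m
      rw [← iteratedFDeriv_comp_add_right]
      congr 1
      funext z
      exact hp z m
  choose! M hM0 hM using key
  refine ⟨∑ j ∈ Finset.range (k + 1), M j, ?_, ?_⟩
  · apply Finset.sum_nonneg
    intro j hj
    exact hM0 j (by simpa [Nat.lt_succ_iff] using hj)
  · intro j hj p
    refine (hM j hj p).trans ?_
    apply Finset.single_le_sum (f := M)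
    · intro i hi
      exact hM0 i (by simpa [Nat.lt_succ_iff] using hi)
    · simpa [Nat.lt_succ_iff] using hj

end

end Shear

open Shear in
theorem shear : S_Shear := by
  intro r g hr hg k ε hk hε
  set F : E 3 → E 3 := fun q => B (g q 1) • e0 with hFdef
  have hF : ContDiff ℝ r F := by
    have h1 : ContDiff ℝ r (fun q : E 3 => B (g q 1)) := (B1_contDiff r).comp hg.contDiff
    exact h1.smul contDiff_const
  have hFp : ∀ p k, F (p + intVec k) = F p := by
    intro p k
    simp only [hFdef, hg.map_add, Pi.add_apply, intVec, B_add_int]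
  obtain ⟨M, hM0, hM⟩ := derivs_bounded hF hFp k hk
  set e : ℝ := ε / (2 * (M + 1)) with he
  have he0 : 0 < e := by positivity
  refine ⟨e, g.trans (S e), he0.ne', trans_torus hg (S_torus e r), ?_, ?_, ?_, ?_⟩
  · intro j hj p
    have h1 : (fun q => (g.trans (S e)) q - g q) = fun q => e • F q := by
      funext q
      simp only [Equiv.trans_apply, S_apply, hFdef, add_sub_cancel_left, smul_smul]
    rw [h1]
    have h2 : iteratedFDeriv ℝ j (fun q => e • F q) p = e • iteratedFDeriv ℝ j F p := by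
      change iteratedFDeriv ℝ j (e • F) p = _
      apply iteratedFDeriv_const_smul_apply
      have : (j : ℕ∞) ≤ r := le_trans (by exact_mod_cast hj) hk
      exact (hF.of_le (by exact_mod_cast this)).contDiffAt
    rw [h2, norm_smul, Real.norm_of_nonneg he0.le]
    have h3 := hM j hj p
    calc e * ‖iteratedFDeriv ℝ j F p‖ ≤ e * M := by gcongr
      _ < ε := by
        rw [he, div_mul_eq_mul_div, div_lt_iff₀ (by positivity)]
        nlinarith
  · intro p hp
    rw [Equiv.trans_apply, S_apply, B_one hp]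
    congr 1
    ext i
    fin_cases i <;> simp [e0]
  · intro p h1 h2
    rw [Equiv.trans_apply, S_apply, B_zero_right h1 h2]
    simp
  · intro p h1 h2
    rw [Equiv.symm_trans_apply, S_symm_apply, B_zero_left h1 h2]
    simp

end HetCyc
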