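import Pool.Agent.HetCyc.Basic2

/-!
# Module Trap: the two trapping regions
-/

namespace HetCyc

open Filter Topology Set

namespace TrapAux

/-- translate a point into the box `[-1/2, 1/2]^3` -/
lemma exists_box (p : E 3) : ∃ k : Fin 3 → ℤ, ∀ i, |(p + intVec k) i| ≤ 1 / 2 := by
  refine ⟨fun i => -round (p i), fun i => ?_⟩
  have := abs_sub_round (p i)
  simpa [intVec, sub_eq_add_neg] using this

/-- the box -/
def box : Set (E 3) := Metric.closedBall 0 (1 / 2)

lemma mem_box {p : E 3} (h : ∀ i, |p i| ≤ 1 / 2) : p ∈ box := by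
  unfold box
  rw [mem_closedBall_zero_iff, pi_norm_le_iff_of_nonneg (by norm_num)]
  intro i
  rw [Real.norm_eq_abs]
  exact h i

lemma isCompact_box : IsCompact box := isCompact_closedBall _ _

/-- a closed periodic set that is mapped into an open periodic set -/
lemma margin {A U : Set (E 3)} (hA : IsClosed A) (hU : IsOpen U)
    (hAp : ∀ p k, p ∈ A → p + intVec k ∈ A) (hUp : ∀ p k, p + intVec k ∈ U → p ∈ U)
    (h : ∀ p ∈ A, fmap p ∈ U) :
    ∃ ε : ℝ, 0 < ε ∧ ∀ p ∈ A, ∀ q, ‖q - fmap p‖ < ε → q ∈ U := by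
  have hc : IsCompact (fmap '' (A ∩ box)) :=
    (isCompact_box.inter_left hA).image continuous_fmap
  have hsub : fmap '' (A ∩ box) ⊆ U := by
    rintro _ ⟨p, hp, rfl⟩
    exact h p hp.1
  obtain ⟨ε, hε, hε'⟩ := hc.exists_thickening_subset_open hU hsub
  refine ⟨ε, hε, fun p hp q hq => ?_⟩
  obtain ⟨k, hk⟩ := exists_box p
  apply hUp q k
  apply hε'
  rw [Metric.mem_thickening_iff]
  refine ⟨fmap (p + intVec k), ⟨_, ⟨hAp p k hp, mem_box hk⟩, rfl⟩, ?_⟩
  rw [fmap_add_int, dist_eq_norm]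
  rwa [add_sub_add_right_eq_sub]

/-- not strict version of `Far` -/
def FarC (p : E 3) : Prop := cs (p 0) ≤ cs (21 / 250) ∨ cs (p 2) ≤ cs (1 / 250)

lemma farC_add (p : E 3) (k : Fin 3 → ℤ) : FarC (p + intVec k) ↔ FarC p := by
  unfold FarC
  simp only [Pi.add_apply, intVec, cs_add_int]

lemma far_add (p : E 3) (k : Fin 3 → ℤ) : Far (p + intVec k) ↔ Far p := by
  unfold Far
  simp only [Pi.add_apply, intVec, cs_add_int]

lemma TT_add (p : E 3) (k : Fin 3 → ℤ) : p + intVec k ∈ TT ↔ p ∈ TT := by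
  unfold TT
  simp only [mem_ofPred_eq, far_add]
  simp only [Pi.add_apply, intVec, cs_add_int]

lemma RR_add (p : E 3) (k : Fin 3 → ℤ) : p + intVec k ∈ RR ↔ p ∈ RR := by
  unfold RR
  simp only [mem_ofPred_eq, far_add]
  simp only [Pi.add_apply, intVec, cs_add_int]

/-- closure of `TT` -/
def TTc : Set (E 3) := {p | cs (p 1) ≤ -cs (1 / 20) ∧ FarC p}

/-- closure of `RR` -/
def RRc : Set (E 3) := {p | cs (1 / 20) ≤ cs (p 1) ∧ FarC p}

lemma TTc_add (p : E 3) (k : Fin 3 → ℤ) : p + intVec k ∈ TTc ↔ p ∈ TTc := by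
  unfold TTc
  simp only [mem_ofPred_eq, farC_add]
  simp only [Pi.add_apply, intVec, cs_add_int]

lemma RRc_add (p : E 3) (k : Fin 3 → ℤ) : p + intVec k ∈ RRc ↔ p ∈ RRc := by
  unfold RRc
  simp only [mem_ofPred_eq, farC_add]
  simp only [Pi.add_apply, intVec, cs_add_int]

lemma continuous_csi (i : Fin 3) : Continuous fun p : E 3 => cs (p i) :=
  continuous_cs.comp (continuous_apply i)

lemma isOpen_far : IsOpen {p : E 3 | Far p} :=
  (isOpen_lt (continuous_csi 0) continuous_const).union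
    (isOpen_lt (continuous_csi 2) continuous_const)

lemma isClosed_farC : IsClosed {p : E 3 | FarC p} :=
  (isClosed_le (continuous_csi 0) continuous_const).union
    (isClosed_le (continuous_csi 2) continuous_const)

lemma isOpen_TT : IsOpen TT :=
  (isOpen_lt (continuous_csi 1) continuous_const).inter isOpen_far

lemma isOpen_RR : IsOpen RR :=
  (isOpen_lt continuous_const (continuous_csi 1)).inter isOpen_far

lemma isClosed_TTc : IsClosed TTc :=
  (isClosed_le (continuous_csi 1) continuous_const).inter isClosed_farC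

lemma isClosed_RRc : IsClosed RRc :=
  (isClosed_le continuous_const (continuous_csi 1)).inter isClosed_farC

lemma TT_sub (p : E 3) (h : p ∈ TT) : p ∈ TTc :=
  ⟨h.1.le, h.2.imp le_of_lt le_of_lt⟩

lemma RR_sub (p : E 3) (h : p ∈ RR) : p ∈ RRc :=
  ⟨h.1.le, h.2.imp le_of_lt le_of_lt⟩

lemma cs_sub_half (t : ℝ) : cs (t - 1 / 2) = -cs t := by
  unfold cs
  rw [show 2 * Real.pi * (t - 1 / 2) = 2 * Real.pi * t - Real.pi by ring, Real.cos_sub_pi]

lemma cs_add_half (t : ℝ) : cs (t + 1 / 2) = -cs t := by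
  unfold cs
  rw [show 2 * Real.pi * (t + 1 / 2) = 2 * Real.pi * t + Real.pi by ring, Real.cos_add_pi]

/-- `aP`, `bP` push away from `0` -/
lemma push {f : ℝ → ℝ} (hf : StrictMono f) (hn : ∀ x, f (-x) = -f x) {a : ℝ} (ha : a < f a)
    {x : ℝ} (hx : a ≤ |x|) : a < |f x| := by
  rcases abs_cases x with ⟨h, h0⟩ | ⟨h, h0⟩
  · rw [h] at hx
    have := hf.monotone hx
    exact lt_of_lt_of_le ha (this.trans (le_abs_self _))
  · rw [h] at hx
    have := hf.monotone hx
    rw [hn] at this
    exact lt_of_lt_of_le ha (this.trans (neg_le_abs _))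

/-- `aQ`, `bQ` pull towards `0` -/
lemma pull {f : ℝ → ℝ} (hf : StrictMono f) (hn : ∀ x, f (-x) = -f x) {a : ℝ} (ha : f a < a)
    {x : ℝ} (hx : |x| ≤ a) : |f x| < a := by
  rw [abs_le] at hx
  rw [abs_lt]
  constructor
  · have := hf.monotone hx.1
    rw [hn] at this
    linarith
  · exact lt_of_le_of_lt (hf.monotone hx.2) ha

lemma abs_ge {t a : ℝ} (ht : |t| ≤ 1 / 2) (ha : 0 ≤ a) (ha' : a ≤ 1 / 2) (h : cs t ≤ cs a) :
    a ≤ |t| := by
  by_contra h'
  push Not at h'
  exact absurd ((cs_lt_iff' ht ha ha').mpr h') (not_lt.mpr h)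

lemma far_x {x : ℝ} (h : 21 / 250 ≤ |x|) : 1 / 250 ≤ |x - 2 / 25| := by
  rcases abs_cases x with ⟨h1, h0⟩ | ⟨h1, h0⟩
  · rw [h1] at h
    exact le_trans (by linarith) (le_abs_self _)
  · rw [h1] at h
    exact le_trans (by linarith) (neg_le_abs _)

lemma mapT_box {p : E 3} (hb : ∀ i, |p i| ≤ 1 / 2) (hp : p ∈ TTc) : fmap p ∈ TT := by
  -- the coordinate `y`, moved into `[0, 1]`
  obtain ⟨y, l, hy, h1, h2⟩ : ∃ (y : ℝ) (l : ℤ), p 1 = y + l ∧ 9 / 20 ≤ y ∧ y ≤ 11 / 20 := by
    have hb1 := hb 1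
    have h := hp.1
    rcases le_total 0 (p 1) with h0 | h0
    · refine ⟨p 1, 0, by simp, ?_⟩
      rw [abs_le] at hb1
      have h3 : |p 1 - 1 / 2| ≤ 1 / 2 := by rw [abs_le]; constructor <;> linarith
      have h4 : cs (1 / 20) ≤ cs (p 1 - 1 / 2) := by rw [cs_sub_half]; linarith
      rw [cs_le_iff h3 (by norm_num) (by norm_num), abs_le] at h4
      constructor <;> linarith
    · refine ⟨p 1 + 1, -1, by push_cast; ring, ?_⟩
      rw [abs_le] at hb1
      have h3 : |p 1 + 1 / 2| ≤ 1 / 2 := by rw [abs_le]; constructor <;> linarith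
      have h4 : cs (1 / 20) ≤ cs (p 1 + 1 / 2) := by rw [cs_add_half]; linarith
      rw [cs_le_iff h3 (by norm_num) (by norm_num), abs_le] at h4
      constructor <;> linarith
  have eax : ax (p 1) (p 0) = aP (p 0) := by
    have := ax_add_int y (p 0) l 0
    simp only [Int.cast_zero, add_zero] at this
    rw [hy, this, ax_P (by linarith) (by linarith)]
  have ebz : bz (p 1) (p 2) = bP (p 2) := by
    have := bz_add_int y (p 2) l 0
    simp only [Int.cast_zero, add_zero] at this
    rw [hy, this, bz_P (by linarith) (by linarith)]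
  have bx : |aP (p 0)| ≤ 1 / 2 := by
    rw [← eax]; exact abs_ax_le (hb 0)
  have bz' : |bP (p 2)| ≤ 1 / 2 := by
    rw [← ebz]; exact abs_bz_le (hb 2)
  have pa : (21 / 250 : ℝ) < aP (21 / 250) := by
    unfold aP
    linarith [sn_pos (show (0 : ℝ) < 21 / 250 by norm_num) (by norm_num)]
  have pb : (1 / 250 : ℝ) < bP (1 / 250) := by
    unfold bP
    linarith [sn_pos (show (0 : ℝ) < 1 / 250 by norm_num) (by norm_num)]
  have hphi : |phi y - 1 / 2| < 1 / 20 := by
    rcases lt_trichotomy y (1 / 2) with h | h | h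
    · obtain ⟨a1, a2⟩ := phi_gt (by linarith) h
      rw [abs_lt]; constructor <;> linarith
    · rw [h, phi_half]; norm_num
    · obtain ⟨a1, a2⟩ := phi_lt h (by linarith)
      rw [abs_lt]; constructor <;> linarith
  have key : (21 / 250 < |aP (p 0)|) ∨ (1 / 250 < |bP (p 2)|) := by
    rcases hp.2 with h | h
    · left
      exact push strictMono_aP aP_neg pa (abs_ge (hb 0) (by norm_num) (by norm_num) h)
    · right
      exact push strictMono_bP bP_neg pb (abs_ge (hb 2) (by norm_num) (by norm_num) h)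
  have hh0 : hh (ax (p 1) (p 0)) (bz (p 1) (p 2)) = 0 := by
    rw [eax, ebz]
    rcases key with h | h
    · exact hh_eq_zero_x bx (far_x h.le)
    · exact hh_eq_zero_z bz' h.le
  refine ⟨?_, ?_⟩
  · rw [fmap_one, hh0, add_zero, hy, phi_add_int, cs_add_int]
    have h3 : cs (1 / 20) < cs (phi y - 1 / 2) := by
      rw [cs_lt_iff' (by linarith) (by norm_num) (by norm_num)]
      exact hphi
    rw [cs_sub_half] at h3
    linarith
  · rcases key with h | h
    · left
      rw [fmap_zero, eax, cs_lt_iff bx (by norm_num) (by norm_num)]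
      exact h
    · right
      rw [fmap_two, ebz, cs_lt_iff bz' (by norm_num) (by norm_num)]
      exact h

lemma mapT (p : E 3) (hp : p ∈ TTc) : fmap p ∈ TT := by
  obtain ⟨k, hk⟩ := exists_box p
  have := mapT_box hk ((TTc_add p k).2 hp)
  rw [fmap_add_int] at this
  exact (TT_add _ k).1 this

lemma phi_neg (y : ℝ) : phi (-y) = -phi y := by
  unfold phi; rw [sn_neg]; ring

lemma mapR_box {p : E 3} (hb : ∀ i, |p i| ≤ 1 / 2) (hp : fmap p ∈ RRc) : p ∈ RR := by
  have bx : |ax (p 1) (p 0)| ≤ 1 / 2 := abs_ax_le (hb 0)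
  have bz' : |bz (p 1) (p 2)| ≤ 1 / 2 := abs_bz_le (hb 2)
  have key : (21 / 250 ≤ |ax (p 1) (p 0)|) ∨ (1 / 250 ≤ |bz (p 1) (p 2)|) := by
    rcases hp.2 with h | h
    · left
      rw [fmap_zero] at h
      exact abs_ge bx (by norm_num) (by norm_num) h
    · right
      rw [fmap_two] at h
      exact abs_ge bz' (by norm_num) (by norm_num) h
  have hh0 : hh (ax (p 1) (p 0)) (bz (p 1) (p 2)) = 0 := by
    rcases key with h | h
    · exact hh_eq_zero_x bx (far_x h)
    · exact hh_eq_zero_z bz' h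
  have h1 : cs (1 / 20) ≤ cs (phi (p 1)) := by
    have := hp.1
    rw [fmap_one, hh0, add_zero] at this
    exact this
  have bphi : |phi (p 1)| ≤ 1 / 2 := by
    have hb1 := hb 1
    rw [abs_le] at hb1 ⊢
    have a1 := strictMono_phi.monotone hb1.1
    have a2 := strictMono_phi.monotone hb1.2
    rw [phi_half] at a2
    rw [phi_neg, phi_half] at a1
    exact ⟨a1, a2⟩
  rw [cs_le_iff bphi (by norm_num) (by norm_num)] at h1
  have hy : |p 1| < 1 / 20 := by
    by_contra h'
    push Not at h'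
    have pa : (1 / 20 : ℝ) < phi (1 / 20) := (phi_gt (by norm_num) (by norm_num)).1
    have := push strictMono_phi phi_neg pa h'
    linarith
  have hy' := abs_lt.1 hy
  have eax : ax (p 1) (p 0) = aQ (p 0) := ax_Q (by linarith) (by linarith) _
  have ebz : bz (p 1) (p 2) = bQ (p 2) := bz_Q (by linarith) (by linarith) _
  refine ⟨?_, ?_⟩
  · rw [cs_lt_iff' (hb 1) (by norm_num) (by norm_num)]
    exact hy
  · rcases key with h | h
    · left
      rw [cs_lt_iff (hb 0) (by norm_num) (by norm_num)]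
      by_contra h'
      push Not at h'
      have pa : aQ (21 / 250) < 21 / 250 := by
        unfold aQ
        linarith [sn_pos (show (0 : ℝ) < 21 / 250 by norm_num) (by norm_num)]
      have := pull strictMono_aQ aQ_neg pa h'
      rw [eax] at h
      linarith
    · right
      rw [cs_lt_iff (hb 2) (by norm_num) (by norm_num)]
      by_contra h'
      push Not at h'
      have pa : bQ (1 / 250) < 1 / 250 := by
        unfold bQ
        linarith [sn_pos (show (0 : ℝ) < 1 / 250 by norm_num) (by norm_num)]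
      have := pull strictMono_bQ bQ_neg pa h'
      rw [ebz] at h
      linarith

lemma mapR (p : E 3) (hp : fmap p ∈ RRc) : p ∈ RR := by
  obtain ⟨k, hk⟩ := exists_box p
  have : fmap (p + intVec k) ∈ RRc := by
    rw [fmap_add_int]
    exact (RRc_add _ k).2 hp
  exact (RR_add _ k).1 (mapR_box hk this)

end TrapAux

open TrapAux

theorem trap : S_Trap := by
  obtain ⟨ε₁, h1, h1'⟩ := margin isClosed_TTc isOpen_TT (fun p k h => (TTc_add p k).2 h)
    (fun p k h => (TT_add p k).1 h) mapT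
  obtain ⟨ε₂, h2, h2'⟩ := margin (A := RRᶜ) (U := RRcᶜ) isOpen_RR.isClosed_compl
    isClosed_RRc.isOpen_compl (fun p k h h' => h ((RR_add p k).1 h'))
    (fun p k h h' => h ((RRc_add p k).2 h')) (fun p h h' => h (mapR p h'))
  refine ⟨min ε₁ ε₂, lt_min h1 h2, ?_, ?_⟩
  · intro p hp q hq
    exact h1' p (TT_sub p hp) q (hq.trans_le (min_le_left _ _))
  · intro p hp q hq hqR
    exact h2' p hp q (hq.trans_le (min_le_right _ _)) (RR_sub q hqR)

end HetCyc
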