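import Pool.Agent.HetCyc.Stmts

/-!
# Two connections of `g` and of the sheared `g'` are impossible
-/

namespace HetCyc

open Filter Topology Set

namespace UniqueAux

lemma kap_le_one : kap ≤ 1 := by
  unfold kap om
  have h1 : expNegInvGlue (cs (3 / 16 - 3 / 16) - Real.cos (Real.pi / 8)) ≤ 1 := by
    unfold expNegInvGlue
    split_ifs with h
    · norm_num
    · rw [← Real.exp_zero]
      apply Real.exp_le_exp.mpr
      push Not at h
      have := inv_pos.mpr h
      linarith
  have h0 : 0 ≤ expNegInvGlue (cs (3 / 16 - 3 / 16) - Real.cos (Real.pi / 8)) :=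
    expNegInvGlue.nonneg _
  have hpi : Real.pi / 20 ≤ 1 := by linarith [Real.pi_le_four]
  have hpi0 : 0 ≤ Real.pi / 20 := by positivity
  calc Real.pi / 20 * expNegInvGlue (cs (3 / 16 - 3 / 16) - Real.cos (Real.pi / 8))
      ≤ 1 * 1 := mul_le_mul hpi h1 h0 (by norm_num)
    _ = 1 := by norm_num

lemma kap_pos {ρ : ℝ} {g : E 3 ≃ E 3} (h : Good ρ g) : 0 < kap := by
  have h1 := h.locP.hδ
  have h2 := h.hρ
  by_contra hk
  push Not at hk
  have : ρ * kap ≤ 0 := mul_nonpos_of_nonneg_of_nonpos h2.le hk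
  linarith

lemma cs_le_one (t : ℝ) : cs t ≤ 1 := Real.cos_le_one _

lemma neg_one_le_cs (t : ℝ) : -1 ≤ cs t := Real.neg_one_le_cos _

end UniqueAux

open UniqueAux in
theorem unique (hC : S_Cone) : S_Unique := by
  intro ρ g hg e q q' hq hq' hQ hQ' hP hP'
  have hk0 : 0 < kap := kap_pos hg
  have hk1 : kap ≤ 1 := kap_le_one
  have hρ := hg.hρ
  have hρ' := hg.hρ'
  have hρk : ρ * kap ≤ 1 / 1000 * kap := mul_le_mul_of_nonneg_right hρ' hk0.le
  -- the two cone estimates
  have hcP := hC _ _ _ _ _ _ _ _ _ _ _ hg.locP (kap / 40) (by positivity) (by linarith)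
    (by linarith) (g q) (g q' + ![e, 0, 0]) hP hP'
  have hcQ := hC _ _ _ _ _ _ _ _ _ _ _ hg.locQ (kap / 40) (by positivity) (by linarith)
    (by linarith) q q' hQ hQ'
  -- the derivative at `bt`
  have hn := hg.nearb q q' (by linarith) (by linarith)
  have hv1 : ‖q - q'‖ ≤ |q 1 - q' 1| := by
    rw [pi_norm_le_iff_of_nonneg (abs_nonneg _)]
    intro i
    have hle : kap / 40 * |q 1 - q' 1| ≤ |q 1 - q' 1| := by
      have := abs_nonneg (q 1 - q' 1)
      nlinarith
    fin_cases i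
    · simpa using hcQ.1.trans hle
    · simp
    · simpa using hcQ.2.trans hle
  have hn' : ‖(g q - g q') - Lb (q - q')‖ ≤ kap / 40 * |q 1 - q' 1| :=
    hn.trans (mul_le_mul_of_nonneg_left hv1 (by positivity))
  have c0 := (norm_le_pi_norm ((g q - g q') - Lb (q - q')) 0).trans hn'
  have c1 := (norm_le_pi_norm ((g q - g q') - Lb (q - q')) 1).trans hn'
  have c2 := (norm_le_pi_norm ((g q - g q') - Lb (q - q')) 2).trans hn'
  simp only [Lb, Pi.sub_apply, Real.norm_eq_abs, Matrix.cons_val_zero, Matrix.cons_val_one,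
    Matrix.cons_val] at c0 c1 c2
  obtain ⟨p0, p2⟩ := hcP
  obtain ⟨q0, q2⟩ := hcQ
  simp only [Pi.add_apply, Matrix.cons_val_zero, Matrix.cons_val_one,
    Matrix.cons_val, add_zero] at p0 p2
  have hcs := cs_le_one (3 / 16)
  have hcs' := neg_one_le_cs (3 / 16)
  set C := cs (3 / 16) with hCdef
  set v0 := q 0 - q' 0
  set v1 := q 1 - q' 1
  set v2 := q 2 - q' 2
  -- the first component
  have t1 : |g q 1 - g q' 1| ≤ (9 / 5 + kap / 40) * |v1| := by
    have e1 : g q 1 - g q' 1 = (g q 1 - g q' 1 - (1 + 4 / 5 * C) * v1) + (1 + 4 / 5 * C) * v1 := by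
      ring
    rw [e1]
    refine (abs_add_le _ _).trans ?_
    rw [abs_mul, abs_of_nonneg (show (0 : ℝ) ≤ 1 + 4 / 5 * C by linarith)]
    have : (1 + 4 / 5 * C) * |v1| ≤ 9 / 5 * |v1| :=
      mul_le_mul_of_nonneg_right (by linarith) (abs_nonneg _)
    linarith
  -- the second component
  have t2 : kap * |v1| ≤ kap / 40 * ((9 / 5 + kap / 40) * |v1|) + kap / 40 * |v1| +
      (kap / 40 * |v1|) / 5 := by
    have e2 : kap * v1 = (g q 2 - g q' 2) - (g q 2 - g q' 2 - (kap * v1 + v2 / 5)) - v2 / 5 := by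
      ring
    have e3 : kap * |v1| = |kap * v1| := by rw [abs_mul, abs_of_pos hk0]
    rw [e3, e2]
    refine (abs_sub _ _).trans ?_
    have h5 : |v2 / 5| ≤ (kap / 40 * |v1|) / 5 := by
      rw [abs_div, abs_of_pos (show (0 : ℝ) < 5 by norm_num)]
      linarith
    have h6 : |(g q 2 - g q' 2) - (g q 2 - g q' 2 - (kap * v1 + v2 / 5))| ≤
        kap / 40 * ((9 / 5 + kap / 40) * |v1|) + kap / 40 * |v1| := by
      refine (abs_sub _ _).trans ?_
      have := p2.trans (mul_le_mul_of_nonneg_left t1 (by positivity : (0:ℝ) ≤ kap / 40))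
      linarith
    linarith
  have hv : |v1| = 0 := by
    by_contra hne
    have hpos : 0 < |v1| := lt_of_le_of_ne (abs_nonneg _) (Ne.symm hne)
    have : kap / 40 * ((9 / 5 + kap / 40) * |v1|) + kap / 40 * |v1| +
      (kap / 40 * |v1|) / 5 < kap * |v1| := by
      have hkv : 0 < kap * |v1| := mul_pos hk0 hpos
      have : kap * kap * |v1| ≤ kap * |v1| := by
        have := mul_le_mul_of_nonneg_right hk1 hkv.le
        linarith
      nlinarith
    linarith
  have hgq1 : |g q 1 - g q' 1| ≤ 0 := by rw [hv] at t1; linarith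
  have hgq1' : |g q 1 - g q' 1| = 0 := le_antisymm hgq1 (abs_nonneg _)
  rw [hgq1'] at p0
  rw [hv] at c0 q0
  have hv0 : v0 = 0 := by
    have : |v0| ≤ 0 := by linarith
    exact abs_eq_zero.mp (le_antisymm this (abs_nonneg _))
  rw [hv0] at c0
  have h7 : g q 0 - g q' 0 = 0 := by
    have : |g q 0 - g q' 0 - 0 / 2| ≤ 0 := by linarith
    have := abs_eq_zero.mp (le_antisymm this (abs_nonneg _))
    linarith
  have h8 : g q 0 - (g q' 0 + e) = 0 := by
    have : |g q 0 - (g q' 0 + e)| ≤ 0 := by linarith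
    exact abs_eq_zero.mp (le_antisymm this (abs_nonneg _))
  linarith

end HetCyc
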