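import Pool.Agent.HetCyc.Local
import Pool.Agent.HetCyc.Leaf
import Pool.Agent.HetCyc.Fix
import Pool.Agent.HetCyc.Compact
import Pool.Agent.HetCyc.InK
import Pool.Agent.HetCyc.ReachU
import Pool.Agent.HetCyc.ReachV
import Pool.Agent.HetCyc.Order
import Pool.Agent.HetCyc.OrderMain
import Pool.Agent.HetCyc.Index
import Pool.Agent.HetCyc.Shear
import Pool.Agent.HetCyc.Unique
import Pool.Agent.HetCyc.Close
import Pool.Agent.HetCyc.GoodEx
import Pool.Agent.HetCyc.Final
import Pool.Agent.HetCyc.Basic2
import Pool.Agent.HetCyc.Diffeo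
import Pool.Agent.HetCyc.CycleHyp
import Pool.Agent.HetCyc.CycleTan
import Pool.Agent.HetCyc.Trap
import Pool.Agent.HetCyc.Global
import Pool.Agent.HetCyc.Passage
import Pool.Agent.HetCyc.InstP
import Pool.Agent.HetCyc.InstQ
import Pool.Agent.HetCyc.NearB

namespace HetCyc

theorem main_of (hDiffeo : S_Diffeo) (hHyp : S_CycleHyp) (hTan : S_CycleTan) (hTrap : S_Trap)
    (hGlobal : S_Global) (hPass : S_Compact → S_Passage) (hInstP : S_InstP) (hInstQ : S_InstQ)
    (hNearB : S_NearB) : MainStmt := by
  have hIndex : S_Index := index grow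
  have hU : S_ReachU := reachU inK cone conv hIndex
  have hV : S_ReachV := reachV inK cone conv hIndex
  have hOrder : S_OrderMain := orderMain hU hV (order leaf cone exit') conv hIndex
  have hGood : S_GoodEx := goodEx hTrap (hPass (compact hGlobal)) hInstP hInstQ hNearB
  exact final hDiffeo hHyp hTan hNearB hGood fix hOrder shear (unique cone) close

/-- The answer. -/
theorem main : MainStmt :=
  main_of diffeo cycleHyp cycleTan trap global passage instP instQ nearB

end HetCyc
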