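import Pool.Agent.HetCyc.Defs

/-!
# The explicit diffeomorphism of the 3-torus and the statements of the modules

Coordinates: `p 0 = x` (center: contracting at `Q`, expanding at `P`), `p 1 = y` (the circle
direction, source at `y = 0`, sink at `y = 1/2`), `p 2 = z` (strong stable at `Q`, strong unstable
at `P`).
-/

namespace HetCyc

open Filter Topology Set

noncomputable section

/-- `sin (2 π t) / (2 π)`. -/
def sn (t : ℝ) : ℝ := Real.sin (2 * Real.pi * t) / (2 * Real.pi)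

/-- `cos (2 π t)`. -/
def cs (t : ℝ) : ℝ := Real.cos (2 * Real.pi * t)

/-- `(1 + cos (2 π t)) / 2`. -/
def cc (t : ℝ) : ℝ := (1 + cs t) / 2

/-- the circle map in the direction `y` -/
def phi (y : ℝ) : ℝ := y + 4 / 5 * sn y

/-- `0` iff `cs y ≥ 1/4` (type `Q`), `1` iff `cs y ≤ -1/4` (type `P`) -/
def tau (y : ℝ) : ℝ := Real.smoothTransition (1 / 2 - 2 * cs y)

def lam (y : ℝ) : ℝ := -(1 / 2) + tau y

def mu (y : ℝ) : ℝ := -(4 / 5) + 8 / 5 * tau y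

/-- positive iff `|y - 3/16| < 1/16` modulo `1` -/
def om (y : ℝ) : ℝ := expNegInvGlue (cs (y - 3 / 16) - Real.cos (Real.pi / 8))

/-- `1` iff `cs (y - 3/4) ≥ 11/20`, `0` iff `cs (y - 3/4) ≤ 7/20` -/
def om2 (y : ℝ) : ℝ := Real.smoothTransition (5 * (cs (y - 3 / 4) - 7 / 20))

def k1 (y : ℝ) : ℝ := -(1 / 20) * (1 - cs (y - 3 / 16)) * om y

def k2 (y : ℝ) : ℝ := 1 / 40 * (Real.sin (2 * Real.pi * (y - 3 / 16)) * om y + om2 y)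

/-- a bump: `1` iff `t` is an integer, positive iff `|t| < 1/250` modulo `1` -/
def ee (t : ℝ) : ℝ := Real.smoothTransition ((cs t - cs (1 / 250)) / (1 - cs (1 / 250)))

/-- the lift function: `0 ≤ hh ≤ 1/2`, with `hh = 1/2` only at `(2/25, 0)` modulo `1` -/
def hh (x z : ℝ) : ℝ := 1 / 2 * ((cc (x - 2 / 25) * ee (x - 2 / 25)) * (cc z * ee z))

/-- the circle map in the direction `x`, depending on `y` -/
def ax (y x : ℝ) : ℝ := x + lam y * sn x + k1 y * cc x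

/-- the circle map in the direction `z`, depending on `y` -/
def bz (y z : ℝ) : ℝ := z + mu y * sn z + k2 y * cc z

/-- the diffeomorphism -/
def fmap (p : E 3) : E 3 :=
  ![ax (p 1) (p 0), phi (p 1) + hh (ax (p 1) (p 0)) (bz (p 1) (p 2)), bz (p 1) (p 2)]

def aP (x : ℝ) : ℝ := x + 1 / 2 * sn x
def aQ (x : ℝ) : ℝ := x - 1 / 2 * sn x
def bP (z : ℝ) : ℝ := z + 4 / 5 * sn z
def bQ (z : ℝ) : ℝ := z - 4 / 5 * sn z

/-- the saddle of index 1 -/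
def Pt : E 3 := ![0, 1 / 2, 0]
/-- the saddle of index 2 -/
def Qt : E 3 := ![0, 0, 0]
/-- the point of `W^u(Q) ∩ W^s(P)` -/
def bt : E 3 := ![0, 3 / 16, 0]
/-- the tangency (in the copy of `Q` at `y = 0`) -/
def Xt : E 3 := ![2 / 25, 0, 0]
/-- the first coordinate of the preimage of the tangency -/
def xm : ℝ := Function.invFun aP (2 / 25)
/-- the preimage of `Xt + ey` -/
def Xm : E 3 := ![xm, 1 / 2, 0]
def ey : E 3 := ![0, 1, 0]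

/-- the part of the cycle near `P`: `P`, the preimages of the tangency, the images of `bt` -/
def CP : Set (E 3) :=
  {p | (p 0 = 0 ∧ p 1 = 1 / 2 ∧ p 2 = 0) ∨
    (∃ j : ℕ, aP^[j] (p 0) = xm ∧ p 1 = 1 / 2 ∧ p 2 = 0) ∨
    (∃ j : ℕ, p 0 = 0 ∧ p 1 = phi^[j + 1] (3 / 16) ∧ p 2 = 0)}

/-- the part of the cycle near `Q`: `Q`, the tangency and its images, `bt` and its preimages -/
def CQ : Set (E 3) :=
  {p | (p 0 = 0 ∧ p 1 = 0 ∧ p 2 = 0) ∨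
    (∃ j : ℕ, p 0 = aQ^[j] (2 / 25) ∧ p 1 = 0 ∧ p 2 = 0) ∨
    (∃ j : ℕ, p 0 = 0 ∧ phi^[j] (p 1) = 3 / 16 ∧ p 2 = 0)}

/-- `(x, z)` outside of the rectangle `|x| ≤ 21/250`, `|z| ≤ 1/250` (modulo `1`) -/
def Far (p : E 3) : Prop := cs (p 0) < cs (21 / 250) ∨ cs (p 2) < cs (1 / 250)

/-- the trapping region: `|y - 1/2| < 1/20` and `Far` -/
def TT : Set (E 3) := {p | cs (p 1) < - cs (1 / 20) ∧ Far p}

/-- the repelling region: `|y| < 1/20` and `Far` -/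
def RR : Set (E 3) := {p | cs (1 / 20) < cs (p 1) ∧ Far p}

def KK : Set (E 3) := {p | p ∉ TT ∧ p ∉ RR}

/-- boxes -/
def Box (X a b Z : ℝ) : Set (E 3) := {p | |p 0| ≤ X ∧ a ≤ p 1 ∧ p 1 ≤ b ∧ |p 2| ≤ Z}

def BoxP : Set (E 3) := Box (1 / 20) (3 / 10) (13 / 25) (1 / 50)
def BoxQ : Set (E 3) := Box (3 / 50) (-(1 / 50)) (77 / 400) (1 / 50)
/-- thin boxes (around the local stable manifold of `P`, the local unstable manifold of `Q`) -/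
def ThinP (ρ : ℝ) : Set (E 3) := Box ρ (3 / 10) (13 / 25) ρ
def ThinQ (ρ : ℝ) : Set (E 3) := Box ρ (-(1 / 50)) (77 / 400) ρ

/-- the third component of the derivative of the orbit of `W^u(Q)` at `bt` : `k2' (3/16)` -/
def kap : ℝ := Real.pi / 20 * om (3 / 16)

/-- the derivative of `fmap` at `bt` -/
def Lb (v : E 3) : E 3 := ![v 0 / 2, (1 + 4 / 5 * cs (3 / 16)) * v 1, kap * v 1 + v 2 / 5]

/-! ## closeness, full orbits, neighbourhoods of the cycle -/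

/-- `g` commutes with integer translations and is `ε`-close to `fmap` in the `C^0` and in the
Lipschitz sense -/
structure LipClose (ε : ℝ) (g : E 3 ≃ E 3) : Prop where
  map_add : ∀ p k, g (p + intVec k) = g p + intVec k
  dist_le : ∀ p, ‖g p - fmap p‖ ≤ ε
  lip : ∀ p q, ‖(g p - fmap p) - (g q - fmap q)‖ ≤ ε * ‖p - q‖

/-- a full orbit of `g` in `KK` -/
structure IsKOrbit (g : E 3 → E 3) (u : ℤ → E 3) : Prop where
  step : ∀ n, g (u n) = u (n + 1)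
  mem : ∀ n, u n ∈ KK

def NP (ρ : ℝ) : Set (E 3) := {p | ∃ c ∈ CP, ‖p - c‖ < ρ}
def NQ (ρ : ℝ) : Set (E 3) := {p | ∃ c ∈ CQ, ‖p - c‖ < ρ}

/-- The hypothesis of the local lemma: a map that is `δ`-close, in the sense of difference
quotients, to a product of a weak expansion in `p 0`, a contraction in `p 1` and a strong expansion
in `p 2`, on a box. -/
structure LocalMap (Ψ : E 3 → E 3) (X a b Z A₀ A₁ σ U₀ U₁ δ : ℝ) : Prop where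
  hX : 0 < X
  hab : a < b
  hZ : 0 < Z
  hδ : 0 < δ
  hA₀ : 1 + δ < A₀
  hA : A₀ ≤ A₁
  hAU : A₁ + 2 * δ < U₀
  hU : U₀ ≤ U₁
  hσ : 0 ≤ σ
  hσδ : σ + δ < 1
  lip : ∀ p ∈ Box X a b Z, ∀ q ∈ Box X a b Z,
    (∃ t, A₀ ≤ t ∧ t ≤ A₁ ∧ |(Ψ p 0 - Ψ q 0) - t * (p 0 - q 0)| ≤ δ * ‖p - q‖) ∧
    (∃ t, |t| ≤ σ ∧ |(Ψ p 1 - Ψ q 1) - t * (p 1 - q 1)| ≤ δ * ‖p - q‖) ∧
    (∃ t, U₀ ≤ t ∧ t ≤ U₁ ∧ |(Ψ p 2 - Ψ q 2) - t * (p 2 - q 2)| ≤ δ * ‖p - q‖)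
  center₀ : ∀ p ∈ Box X a b Z, p 0 = 0 → |Ψ p 0| ≤ δ
  center₂ : ∀ p ∈ Box X a b Z, p 2 = 0 → |Ψ p 2| ≤ δ
  maps : ∀ p ∈ Box X a b Z, a ≤ Ψ p 1 ∧ Ψ p 1 ≤ b

/-- The passages of the full orbits in `KK`: they stay near the cycle, and change the side only
near `Xm` (from `NP` to `NQ + ey`) and near `bt` (from `NQ` to `NP`). -/
structure Passages (ρ : ℝ) (g : E 3 ≃ E 3) : Prop where
  code : ∀ u, IsKOrbit g u → ∀ n, ∃ k, u n + intVec k ∈ NP ρ ∨ u n + intVec k ∈ NQ ρ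
  stepP : ∀ u, IsKOrbit g u → ∀ n, u n ∈ NP ρ →
    (u (n + 1) ∈ NP ρ ∧ u n ∈ BoxP) ∨ (‖u n - Xm‖ < ρ ∧ u (n + 1) - ey ∈ NQ ρ)
  stepQ : ∀ u, IsKOrbit g u → ∀ n, u n ∈ NQ ρ →
    u (n + 1) ∈ NQ ρ ∨ (‖u n - bt‖ < ρ ∧ u (n + 1) ∈ NP ρ)
  backP : ∀ u, IsKOrbit g u → ∀ n, u (n + 1) ∈ NP ρ →
    u n ∈ NP ρ ∨ (‖u n - bt‖ < ρ ∧ u n ∈ NQ ρ)
  backQ : ∀ u, IsKOrbit g u → ∀ n, u (n + 1) ∈ NQ ρ →
    (u n ∈ NQ ρ ∧ u (n + 1) ∈ BoxQ) ∨
      (u n + ey ∈ NP ρ ∧ |u (n + 1) 0 - 2 / 25| ≤ 1 / 200 ∧ |u (n + 1) 2| ≤ 1 / 200)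

/-- All properties of a diffeomorphism `g` close to `fmap` that are used in the order argument. -/
structure Good (ρ : ℝ) (g : E 3 ≃ E 3) : Prop where
  hρ : 0 < ρ
  hρ' : ρ ≤ 1 / 1000
  diffeo : IsTorusDiffeo 1 g
  close : LipClose (ρ / 100) g
  -- trapping
  trapT : ∀ p ∈ TT, ∀ q, ‖q - g p‖ < ρ → q ∈ TT
  trapR : ∀ p ∉ RR, ∀ q, ‖q - g p‖ < ρ → q ∉ RR
  passages : Passages ρ g
  -- local dynamics
  locP : LocalMap g (1 / 20) (3 / 10) (13 / 25) (1 / 50)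
    (27 / 20) (3 / 2) (4 / 5) (39 / 25) (9 / 5) (ρ * kap / 400)
  locQ : LocalMap g.symm (3 / 50) (-(1 / 50)) (77 / 400) (1 / 50)
    (3 / 2) 2 (4 / 5) (9 / 4) 5 (ρ * kap / 400)
  nearb : ∀ p q, ‖p - bt‖ < 2 * ρ → ‖q - bt‖ < 2 * ρ →
    ‖(g p - g q) - Lb (p - q)‖ ≤ kap / 40 * ‖p - q‖

end

end HetCyc
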