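import Pool.Agent.HetCyc.Stmts

/-!
# Abstract reach lemmas (helper80), for both time directions
-/

namespace HetCyc

open Filter Topology Set

namespace ReachAbs

theorem symm_add {g : E 3 ≃ E 3} (hadd : ∀ p k, g (p + intVec k) = g p + intVec k) (p : E 3)
    (k : Fin 3 → ℤ) : g.symm (p + intVec k) = g.symm p + intVec k := by
  apply g.injective
  rw [hadd]; simp

theorem iter_add {g : E 3 → E 3} (hadd : ∀ p k, g (p + intVec k) = g p + intVec k) (n : ℕ)
    (p : E 3) (k : Fin 3 → ℤ) : g^[n] (p + intVec k) = g^[n] p + intVec k := by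
  induction n generalizing p with
  | zero => rfl
  | succ n ih => rw [Function.iterate_succ_apply, Function.iterate_succ_apply, hadd, ih]

theorem intVec_neg (k : Fin 3 → ℤ) : intVec (-k) = -intVec k := by
  ext i; simp [intVec]

theorem intVec_zero : intVec (0 : Fin 3 → ℤ) = 0 := by
  ext i; simp [intVec]

theorem mem_iter {g : E 3 → E 3} {Λ : Set (E 3)} (h : ∀ x ∈ Λ, g x ∈ Λ) (n : ℕ) :
    ∀ x ∈ Λ, g^[n] x ∈ Λ := by
  induction n with
  | zero => intro x hx; exact hx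
  | succ n ih => intro x hx; rw [Function.iterate_succ_apply]; exact ih _ (h x hx)

theorem inv_fwd {g : E 3 ≃ E 3} {Λ : Set (E 3)} (hinv : g '' Λ = Λ) : ∀ x ∈ Λ, g x ∈ Λ := by
  intro x hx; rw [← hinv]; exact ⟨x, hx, rfl⟩

theorem inv_bwd {g : E 3 ≃ E 3} {Λ : Set (E 3)} (hinv : g '' Λ = Λ) : ∀ x ∈ Λ, g.symm x ∈ Λ := by
  intro x hx
  rw [← hinv] at hx
  obtain ⟨y, hy, rfl⟩ := hx
  simpa using hy

theorem inv_symm {g : E 3 ≃ E 3} {Λ : Set (E 3)} (hinv : g '' Λ = Λ) : g.symm '' Λ = Λ := by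
  ext x; constructor
  · rintro ⟨y, hy, rfl⟩; exact inv_bwd hinv y hy
  · intro hx; exact ⟨g x, inv_fwd hinv x hx, by simp⟩

theorem iter_symm_iter (g : E 3 ≃ E 3) (n : ℕ) (p : E 3) : (⇑g.symm)^[n] ((⇑g)^[n] p) = p :=
  (Function.LeftInverse.iterate g.symm_apply_apply n) p

theorem iter_iter_symm (g : E 3 ≃ E 3) (n : ℕ) (p : E 3) : (⇑g)^[n] ((⇑g.symm)^[n] p) = p :=
  (Function.LeftInverse.iterate g.apply_symm_apply n) p

/-- transitivity in the past -/
theorem trans_symm {g : E 3 ≃ E 3} (hadd : ∀ p k, g (p + intVec k) = g p + intVec k)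
    {Λ : Set (E 3)} (hper : ∀ p ∈ Λ, ∀ k, p + intVec k ∈ Λ) (hinv : g '' Λ = Λ)
    (htr : IsTransitive g Λ) : IsTransitive g.symm Λ := by
  intro U V hU hV hUΛ hVΛ
  obtain ⟨p, hp, n, k, h⟩ := htr V U hV hU hVΛ hUΛ
  refine ⟨(⇑g)^[n] p + intVec k, ⟨h, hper _ (mem_iter (inv_fwd hinv) n p hp.2) k⟩, n, -k, ?_⟩
  rw [iter_add (symm_add hadd), iter_symm_iter, intVec_neg, add_neg_cancel_right]
  exact hp.1

/-- the full orbit of `x` -/
def orbZ (g : E 3 ≃ E 3) (x : E 3) (n : ℤ) : E 3 := ((g : Equiv.Perm (E 3)) ^ n) x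

theorem orbZ_step (g : E 3 ≃ E 3) (x : E 3) (n : ℤ) : g (orbZ g x n) = orbZ g x (n + 1) := by
  unfold orbZ
  rw [zpow_add_one, (Commute.zpow_self (g : Equiv.Perm (E 3)) n).eq]
  rfl

theorem orbZ_zero (g : E 3 ≃ E 3) (x : E 3) : orbZ g x 0 = x := by simp [orbZ]

theorem orbZ_nat (g : E 3 ≃ E 3) (x : E 3) (n : ℕ) : orbZ g x n = (⇑g)^[n] x := by
  induction n with
  | zero => simp [orbZ]
  | succ n ih =>
    rw [Function.iterate_succ_apply', ← ih, orbZ_step]; push_cast; rfl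

theorem orbZ_neg (g : E 3 ≃ E 3) (x : E 3) (n : ℕ) : orbZ g x (-(n : ℤ)) = (⇑g.symm)^[n] x := by
  induction n with
  | zero => simp [orbZ]
  | succ n ih =>
    rw [Function.iterate_succ_apply', ← ih]
    apply g.injective
    rw [orbZ_step]
    simp

/-- a full orbit is determined by one point -/
theorem orbit_eq {g : E 3 ≃ E 3} {u : ℤ → E 3} (hu : ∀ n, g (u n) = u (n + 1)) (m : ℤ) (n : ℕ) :
    u (m + n) = (⇑g)^[n] (u m) ∧ u (m - n) = (⇑g.symm)^[n] (u m) := by
  induction n with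
  | zero => simp
  | succ n ih =>
    constructor
    · rw [Function.iterate_succ_apply', ← ih.1, hu]; push_cast; ring_nf
    · rw [Function.iterate_succ_apply', ← ih.2]
      apply g.injective
      rw [hu]
      simp only [Nat.cast_add, Nat.cast_one, g.apply_symm_apply]
      congr 1; ring

theorem orbZ_mem {g : E 3 ≃ E 3} {Λ : Set (E 3)} (hinv : g '' Λ = Λ) {x : E 3} (hx : x ∈ Λ)
    (n : ℤ) : orbZ g x n ∈ Λ := by
  rcases Int.eq_nat_or_neg n with ⟨m, rfl | rfl⟩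
  · rw [orbZ_nat]; exact mem_iter (inv_fwd hinv) m x hx
  · rw [orbZ_neg]; exact mem_iter (inv_bwd hinv) m x hx

/-- the first entrance of an orbit in `N` for good -/
theorem entrance {u : ℤ → E 3} {N : Set (E 3)} (h1 : ∃ m : ℤ, ∀ n, m ≤ n → u n ∈ N)
    (h2 : ∃ n, u n ∉ N) : ∃ m : ℤ, (∀ n, m ≤ n → u n ∈ N) ∧ u (m - 1) ∉ N := by
  obtain ⟨m, hm⟩ := h1
  obtain ⟨n, hn⟩ := h2
  have hex : ∃ s : ℕ, u (m - s) ∉ N := by
    have : n ≤ m := by
      by_contra hc
      exact hn (hm n (by omega))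
    refine ⟨(m - n).toNat, ?_⟩
    have : m - ((m - n).toNat : ℤ) = n := by omega
    rwa [this]
  classical
  have hs := Nat.find_spec hex
  have hmin : ∀ s < Nat.find hex, u (m - s) ∈ N := fun s hs => not_not.mp (Nat.find_min hex hs)
  have hpos : 0 < Nat.find hex := by
    rcases Nat.eq_zero_or_pos (Nat.find hex) with h0 | h0
    · rw [h0] at hs; simp at hs; exact absurd (hm m le_rfl) hs
    · exact h0
  refine ⟨m - Nat.find hex + 1, ?_, ?_⟩
  · intro n' hn'
    rcases le_or_gt m n' with h | h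
    · exact hm n' h
    · have := hmin (m - n').toNat (by omega)
      have h3 : m - ((m - n').toNat : ℤ) = n' := by omega
      rwa [h3] at this
  · have h3 : m - (Nat.find hex : ℤ) + 1 - 1 = m - Nat.find hex := by ring
    rw [h3]; exact hs

/-- separation hypotheses -/
structure Sep (N M SN SM : Set (E 3)) : Prop where
  No : IsOpen N
  Mo : IsOpen M
  NS : N ⊆ SN
  MS : M ⊆ SM
  cN : IsCompact SN
  cM : IsClosed SM
  NN : ∀ x k, x ∈ SN → x + intVec k ∈ SN → k = 0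
  MM : ∀ x k, x ∈ SM → x + intVec k ∈ SM → k = 0
  NM : ∀ x k, x ∈ SN → x + intVec k ∈ SM → False

theorem Sep.memN {N M SN SM : Set (E 3)} (h : Sep N M SN SM) {x : E 3}
    (hc : ∃ k, x + intVec k ∈ N ∨ x + intVec k ∈ M) (hx : x ∈ SN) : x ∈ N := by
  obtain ⟨k, hk | hk⟩ := hc
  · have := h.NN x k hx (h.NS hk)
    rw [this, intVec_zero, add_zero] at hk
    exact hk
  · exact (h.NM x k hx (h.MS hk)).elim

theorem Sep.memM {N M SN SM : Set (E 3)} (h : Sep N M SN SM) {x : E 3}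
    (hc : ∃ k, x + intVec k ∈ N ∨ x + intVec k ∈ M) (hx : x ∈ SM) : x ∈ M := by
  obtain ⟨k, hk | hk⟩ := hc
  · exfalso
    refine h.NM (x + intVec k) (-k) (h.NS hk) ?_
    rw [intVec_neg, add_neg_cancel_right]; exact hx
  · have := h.MM x k hx (h.MS hk)
    rw [this, intVec_zero, add_zero] at hk
    exact hk

theorem Sep.not_both {N M SN SM : Set (E 3)} (h : Sep N M SN SM) {x : E 3} (k : Fin 3 → ℤ)
    (hx : x ∈ M) : x + intVec k ∉ N := by
  intro hN
  refine h.NM (x + intVec k) (-k) (h.NS hN) ?_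
  rw [intVec_neg, add_neg_cancel_right]; exact h.MS hx

/-- the reach lemma: a point of `Λ` whose forward orbit stays in `N` and that comes from `M` -/
theorem reach_abs {g : E 3 ≃ E 3} (hg : Continuous g) (hgs : Continuous g.symm)
    (hadd : ∀ p k, g (p + intVec k) = g p + intVec k)
    {Λ N M SN SM : Set (E 3)} {P : E 3}
    (hcl : IsClosed Λ) (hper : ∀ p ∈ Λ, ∀ k, p + intVec k ∈ Λ) (hinv : g '' Λ = Λ)
    (htr : IsTransitive g Λ) (hP : P ∈ Λ) (hfix : g P = P)
    (hS : Sep N M SN SM) (hPN : P ∈ N)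
    (hcode : ∀ x ∈ Λ, ∃ k, x + intVec k ∈ N ∨ x + intVec k ∈ M)
    (hback : ∀ x ∈ Λ, g x ∈ N → x ∈ N ∨ x ∈ M)
    (huniq : ∀ x ∈ Λ, (∀ n : ℤ, orbZ g x n ∈ N) → x = P) :
    Λ = orb P ∨ ∃ x ∈ Λ, (∀ s : ℕ, (⇑g)^[s] x ∈ N) ∧ g.symm x ∈ M := by
  classical
  by_cases hM : (M ∩ Λ).Nonempty
  swap
  · left
    have hnM : ∀ x ∈ Λ, x ∉ M := fun x hx h => hM ⟨x, h, hx⟩
    have hb : ∀ x ∈ Λ, g x ∈ N → x ∈ N := fun x hx h =>
      (hback x hx h).resolve_right (hnM x hx)
    have hf : ∀ x ∈ Λ, x ∈ N → g x ∈ N := by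
      intro x hx hxN
      obtain ⟨k, hk⟩ := hcode (g x) (inv_fwd hinv x hx)
      have hk : g x + intVec k ∈ N := hk.resolve_right (hnM _ (hper _ (inv_fwd hinv x hx) k))
      rw [← hadd] at hk
      have h1 := hb _ (hper x hx k) hk
      have h2 := hS.NN x k (hS.NS hxN) (hS.NS h1)
      rw [h2, intVec_zero, add_zero] at hk
      exact hk
    have hall : ∀ x ∈ Λ, x ∈ N → ∀ n : ℤ, orbZ g x n ∈ N := by
      intro x hx hxN n
      rcases Int.eq_nat_or_neg n with ⟨m, rfl | rfl⟩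
      · rw [orbZ_nat]
        induction m with
        | zero => exact hxN
        | succ m ih =>
          rw [Function.iterate_succ_apply']
          exact hf _ (mem_iter (inv_fwd hinv) m x hx) ih
      · rw [orbZ_neg]
        induction m with
        | zero => exact hxN
        | succ m ih =>
          rw [Function.iterate_succ_apply']
          apply hb _ (inv_bwd hinv _ (mem_iter (inv_bwd hinv) m x hx))
          rw [g.apply_symm_apply]; exact ih
    ext x; constructor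
    · intro hx
      obtain ⟨k, hk⟩ := hcode x hx
      have hk : x + intVec k ∈ N := hk.resolve_right (hnM _ (hper _ hx k))
      have := huniq _ (hper x hx k) (hall _ (hper x hx k) hk)
      exact ⟨-k, by rw [← this, intVec_neg, add_neg_cancel_right]⟩
    · rintro ⟨k, rfl⟩; exact hper P hP k
  right
  -- the sets `A t`
  let A : ℕ → Set (E 3) := fun t => {x | x ∈ Λ ∧ g.symm x ∈ SM ∧ ∀ s ≤ t, (⇑g)^[s] x ∈ SN}
  have hAcl : ∀ t, IsClosed (A t) := by
    intro t
    have h1 : IsClosed {x : E 3 | g.symm x ∈ SM} := hS.cM.preimage hgs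
    have h2 : IsClosed {x : E 3 | ∀ s ≤ t, (⇑g)^[s] x ∈ SN} := by
      have : {x : E 3 | ∀ s ≤ t, (⇑g)^[s] x ∈ SN} = ⋂ s : ℕ, ⋂ _ : s ≤ t, (⇑g)^[s] ⁻¹' SN := by
        ext x; simp
      rw [this]
      exact isClosed_iInter fun s => isClosed_iInter fun _ =>
        hS.cN.isClosed.preimage (hg.iterate s)
    exact hcl.inter (h1.inter h2)
  have hA0 : IsCompact (A 0) :=
    hS.cN.of_isClosed_subset (hAcl 0) (fun x hx => by simpa using hx.2.2 0 le_rfl)
  have hAd : ∀ t, A (t + 1) ⊆ A t := fun t x hx => ⟨hx.1, hx.2.1, fun s hs => hx.2.2 s (by omega)⟩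
  have hAn : ∀ t, (A t).Nonempty := by
    intro t
    let V : Set (E 3) := {q | ∀ s ≤ t + 1, (⇑g.symm)^[s] q ∈ N}
    have hV : IsOpen V := by
      have : V = ⋂ s ∈ Finset.range (t + 2), (⇑g.symm)^[s] ⁻¹' N := by
        ext x; simp [V, Nat.lt_succ_iff]
      rw [this]
      exact isOpen_biInter_finset fun s _ => hS.No.preimage (hgs.iterate s)
    have hPs : ∀ s : ℕ, (⇑g.symm)^[s] P = P := by
      intro s
      have : g.symm P = P := by rw [Equiv.symm_apply_eq, hfix]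
      exact Function.iterate_fixed this s
    have hPV : P ∈ V := fun s _ => by rw [hPs]; exact hPN
    obtain ⟨p, ⟨hpM, hpΛ⟩, n, k, hq⟩ := htr M V hS.Mo hV hM ⟨P, hPV, hP⟩
    set q := (⇑g)^[n] p + intVec k with hqdef
    have hqΛ : q ∈ Λ := hper _ (mem_iter (inv_fwd hinv) n p hpΛ) k
    have hex : ∃ s : ℕ, (⇑g.symm)^[s] q ∉ N := by
      refine ⟨n, ?_⟩
      rw [hqdef, iter_add (symm_add hadd), iter_symm_iter]
      exact hS.not_both k hpM
    have hs := Nat.find_spec hex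
    have hmin : ∀ s < Nat.find hex, (⇑g.symm)^[s] q ∈ N := fun s hs =>
      not_not.mp (Nat.find_min hex hs)
    have hbig : t + 1 < Nat.find hex := by
      by_contra hc
      exact hs (hq _ (by omega))
    obtain ⟨s0, hs0⟩ : ∃ s0, Nat.find hex = s0 + 1 := ⟨Nat.find hex - 1, by omega⟩
    rw [hs0] at hs hmin hbig
    have hxΛ : (⇑g.symm)^[s0] q ∈ Λ := mem_iter (inv_bwd hinv) s0 q hqΛ
    refine ⟨(⇑g.symm)^[s0] q, hxΛ, ?_, ?_⟩
    · rw [← Function.iterate_succ_apply' (f := ⇑g.symm)]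
      apply hS.MS
      have hΛ' : (⇑g.symm)^[s0 + 1] q ∈ Λ := mem_iter (inv_bwd hinv) _ q hqΛ
      refine (hback _ hΛ' ?_).resolve_left hs
      rw [Function.iterate_succ_apply', g.apply_symm_apply]
      exact hmin s0 (by omega)
    · intro s hs'
      have : (⇑g.symm)^[s0] q = (⇑g.symm)^[s] ((⇑g.symm)^[s0 - s] q) := by
        rw [← Function.iterate_add_apply]; congr 1; omega
      rw [this, iter_iter_symm]
      exact hS.NS (hmin _ (by omega))
  obtain ⟨x, hx⟩ := IsCompact.nonempty_iInter_of_sequence_nonempty_isCompact_isClosed A hAd hAn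
    hA0 hAcl
  rw [mem_iInter] at hx
  have hxΛ := (hx 0).1
  refine ⟨x, hxΛ, ?_, ?_⟩
  · intro s
    exact hS.memN (hcode _ (mem_iter (inv_fwd hinv) s x hxΛ)) ((hx s).2.2 s le_rfl)
  · exact hS.memM (hcode _ (inv_bwd hinv x hxΛ)) (hx 0).2.1

/-- the case of an orbit that converges to `P`: either it is always in `N` or it comes from `M` -/
theorem reach_orbit {u : ℤ → E 3} {N M : Set (E 3)} {P : E 3}
    (hNo : IsOpen N) (hPN : P ∈ N)
    (hlim : Tendsto (fun n : ℕ => u n) atTop (𝓝 P))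
    (hback : ∀ n, u (n + 1) ∈ N → u n ∈ N ∨ u n ∈ M) :
    (∀ n, u n ∈ N) ∨ ∃ m : ℤ, (∀ n, m ≤ n → u n ∈ N) ∧ u (m - 1) ∈ M := by
  by_cases h : ∀ n, u n ∈ N
  · exact Or.inl h
  right
  push Not at h
  have h1 : ∃ m : ℤ, ∀ n, m ≤ n → u n ∈ N := by
    have := hlim.eventually (hNo.mem_nhds hPN)
    rw [eventually_atTop] at this
    obtain ⟨m, hm⟩ := this
    refine ⟨m, fun n hn => ?_⟩
    have h2 := hm n.toNat (by omega)
    have h3 : ((n.toNat : ℕ) : ℤ) = n := by omega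
    rwa [h3] at h2
  obtain ⟨m, hm1, hm2⟩ := entrance h1 h
  refine ⟨m, hm1, (hback (m - 1) ?_).resolve_left hm2⟩
  rw [sub_add_cancel]; exact hm1 m le_rfl

end ReachAbs

end HetCyc
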