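import Pool.Agent.HetCyc.ReachAbs

/-!
# Positions of `NP`, `NQ` (helper80)
-/

namespace HetCyc

open Filter Topology Set

namespace ReachPos

theorem sn_zero : sn 0 = 0 := by simp [sn]

theorem sn_half : sn (1 / 2) = 0 := by
  have : 2 * Real.pi * (1 / 2) = Real.pi := by ring
  unfold sn
  rw [this, Real.sin_pi, zero_div]

theorem sn_lip (s t : ℝ) : |sn s - sn t| ≤ |s - t| := by
  have hpi : 0 < 2 * Real.pi := by positivity
  have h := Real.abs_sin_sub_sin_le (2 * Real.pi * s) (2 * Real.pi * t)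
  have e1 : sn s - sn t = (Real.sin (2 * Real.pi * s) - Real.sin (2 * Real.pi * t)) /
      (2 * Real.pi) := by unfold sn; ring
  have e2 : 2 * Real.pi * s - 2 * Real.pi * t = 2 * Real.pi * (s - t) := by ring
  rw [e1, abs_div, abs_of_pos hpi, div_le_iff₀ hpi]
  rw [e2, abs_mul, abs_of_pos hpi] at h
  linarith

theorem sn_nonneg {t : ℝ} (h0 : 0 ≤ t) (h1 : t ≤ 1 / 2) : 0 ≤ sn t := by
  unfold sn
  apply div_nonneg
  · apply Real.sin_nonneg_of_nonneg_of_le_pi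
    · positivity
    · nlinarith [Real.pi_pos]
  · positivity

theorem sn_le {t : ℝ} (h0 : 0 ≤ t) : sn t ≤ t := by
  have := sn_lip t 0
  rw [sn_zero, sub_zero, sub_zero, abs_of_nonneg h0] at this
  exact (le_abs_self _).trans this

theorem mono_add (c : ℝ) (hc : |c| < 1) {s t : ℝ} (h : s < t) : s + c * sn s < t + c * sn t := by
  have h1 := sn_lip t s
  rw [abs_of_pos (sub_pos.mpr h)] at h1
  have h2 : |c * (sn t - sn s)| < t - s := by
    rw [abs_mul]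
    calc |c| * |sn t - sn s| ≤ |c| * (t - s) := mul_le_mul_of_nonneg_left h1 (abs_nonneg _)
      _ < 1 * (t - s) := mul_lt_mul_of_pos_right hc (sub_pos.mpr h)
      _ = t - s := one_mul _
  have h3 := (abs_lt.mp h2).1
  nlinarith

theorem phi_lt {s t : ℝ} (h : s < t) : phi s < phi t := by
  unfold phi; exact mono_add (4 / 5) (by rw [abs_of_pos] <;> norm_num) h

theorem aP_lt {s t : ℝ} (h : s < t) : aP s < aP t := by
  unfold aP; exact mono_add (1 / 2) (by rw [abs_of_pos] <;> norm_num) h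

theorem phi_zero : phi 0 = 0 := by simp [phi, sn_zero]
theorem phi_half : phi (1 / 2) = 1 / 2 := by simp only [phi, sn_half]; norm_num
theorem aP_zero : aP 0 = 0 := by simp [aP, sn_zero]
theorem aP_half : aP (1 / 2) = 1 / 2 := by simp only [aP, sn_half]; norm_num

theorem phi_ge {y : ℝ} (h0 : 0 ≤ y) (h1 : y ≤ 1 / 2) : y ≤ phi y := by
  have := sn_nonneg h0 h1
  unfold phi; linarith

theorem aP_ge {y : ℝ} (h0 : 0 ≤ y) (h1 : y ≤ 1 / 2) : y ≤ aP y := by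
  have := sn_nonneg h0 h1
  unfold aP; linarith

/-- backward invariance of `[0, B]` for an increasing map with fixed points `0`, `1/2` -/
theorem back_inv {f : ℝ → ℝ} (hlt : ∀ s t, s < t → f s < f t) (h0 : f 0 = 0)
    (h1 : f (1 / 2) = 1 / 2) (hge : ∀ y, 0 ≤ y → y ≤ 1 / 2 → y ≤ f y) {B : ℝ}
    (hB : B ≤ 1 / 2) (j : ℕ) : ∀ y, 0 ≤ f^[j] y → f^[j] y ≤ B → 0 ≤ y ∧ y ≤ B := by
  induction j with
  | zero => intro y a b; exact ⟨a, b⟩
  | succ j ih =>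
    intro y a b
    rw [Function.iterate_succ_apply] at a b
    obtain ⟨a', b'⟩ := ih _ a b
    have ha : 0 ≤ y := by
      by_contra hc
      have := hlt y 0 (not_le.mp hc)
      rw [h0] at this; linarith
    have hb : y ≤ 1 / 2 := by
      by_contra hc
      have := hlt _ _ (not_le.mp hc)
      rw [h1] at this; linarith
    exact ⟨ha, (hge y ha hb).trans b'⟩

theorem phi_back (j : ℕ) (y : ℝ) (h : phi^[j] y = 3 / 16) : 0 ≤ y ∧ y ≤ 3 / 16 :=
  back_inv (fun _ _ h => phi_lt h) phi_zero phi_half (fun _ => phi_ge) (by norm_num) j y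
    (by rw [h]; norm_num) (by rw [h])

theorem aP_xm : aP xm = 2 / 25 := by
  unfold xm
  apply Function.invFun_eq
  have hc : Continuous aP := by unfold aP sn; fun_prop
  have := intermediate_value_Icc (a := 0) (b := 1 / 2) (by norm_num) (f := aP) hc.continuousOn
  rw [aP_zero, aP_half] at this
  obtain ⟨x, -, hx⟩ := this (⟨by norm_num, by norm_num⟩ : (2 / 25 : ℝ) ∈ Icc 0 (1 / 2))
  exact ⟨x, hx⟩

theorem xm_mem : 0 ≤ xm ∧ xm ≤ 2 / 25 :=
  back_inv (f := aP) (fun _ _ h => aP_lt h) aP_zero aP_half (fun _ => aP_ge) (by norm_num) 1 xm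
    (by rw [Function.iterate_one, aP_xm]; norm_num) (by rw [Function.iterate_one, aP_xm])

theorem aP_back (j : ℕ) (x : ℝ) (h : aP^[j] x = xm) : 0 ≤ x ∧ x ≤ 2 / 25 :=
  back_inv (fun _ _ h => aP_lt h) aP_zero aP_half (fun _ => aP_ge) (by norm_num) j x
    (by rw [h]; exact xm_mem.1) (by rw [h]; exact xm_mem.2)

theorem aQ_iter (j : ℕ) : 0 ≤ aQ^[j] (2 / 25) ∧ aQ^[j] (2 / 25) ≤ 2 / 25 := by
  induction j with
  | zero => norm_num
  | succ j ih =>
    rw [Function.iterate_succ_apply']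
    obtain ⟨a, b⟩ := ih
    generalize aQ^[j] (2 / 25) = t at a b
    have h1 := sn_le a
    have h2 := sn_nonneg a (by linarith)
    unfold aQ
    constructor <;> linarith

theorem phi_b : 3 / 10 ≤ phi (3 / 16) := by
  unfold phi sn
  have h1 : 2 * Real.pi * (3 / 16) = Real.pi / 2 - Real.pi / 8 := by ring
  rw [h1, Real.sin_pi_div_two_sub, Real.cos_pi_div_eight]
  have h2 : (1.41 : ℝ) ≤ √2 := Real.le_sqrt_of_sq_le (by norm_num)
  have h3 : (1.84 : ℝ) ≤ √(2 + √2) := Real.le_sqrt_of_sq_le (by nlinarith)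
  have h4 := Real.pi_lt_d2
  have h5 : (0.14 : ℝ) + 1/1000 ≤ √(2 + √2) / 2 / (2 * Real.pi) := by
    rw [le_div_iff₀ (by positivity)]
    nlinarith
  linarith

theorem phi_fwd (j : ℕ) : 3 / 10 ≤ phi^[j + 1] (3 / 16) ∧ phi^[j + 1] (3 / 16) ≤ 1 / 2 := by
  induction j with
  | zero =>
    rw [zero_add, Function.iterate_one]
    refine ⟨phi_b, ?_⟩
    have := phi_lt (show (3 / 16 : ℝ) < 1 / 2 by norm_num)
    rw [phi_half] at this; exact this.le
  | succ j ih =>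
    rw [Function.iterate_succ_apply' phi (j + 1)]
    obtain ⟨a, b⟩ := ih
    refine ⟨a.trans (phi_ge (by linarith) b), ?_⟩
    rcases b.lt_or_eq with h | h
    · have := phi_lt h
      rw [phi_half] at this; exact this.le
    · rw [h, phi_half]

theorem CP_pos {c : E 3} (h : c ∈ CP) :
    (0 ≤ c 0 ∧ c 0 ≤ 2 / 25) ∧ (3 / 10 ≤ c 1 ∧ c 1 ≤ 1 / 2) ∧ c 2 = 0 := by
  rcases h with ⟨h0, h1, h2⟩ | ⟨j, h0, h1, h2⟩ | ⟨j, h0, h1, h2⟩
  · rw [h0, h1, h2]; norm_num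
  · refine ⟨aP_back j _ h0, ?_, h2⟩
    rw [h1]; norm_num
  · refine ⟨by rw [h0]; norm_num, ?_, h2⟩
    rw [h1]; exact phi_fwd j

theorem CQ_pos {c : E 3} (h : c ∈ CQ) :
    (0 ≤ c 0 ∧ c 0 ≤ 2 / 25) ∧ (0 ≤ c 1 ∧ c 1 ≤ 3 / 16) ∧ c 2 = 0 := by
  rcases h with ⟨h0, h1, h2⟩ | ⟨j, h0, h1, h2⟩ | ⟨j, h0, h1, h2⟩
  · rw [h0, h1, h2]; norm_num
  · refine ⟨by rw [h0]; exact aQ_iter j, ?_, h2⟩
    rw [h1]; norm_num
  · refine ⟨by rw [h0]; norm_num, phi_back j _ h1, h2⟩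

/-- closed boxes around `NP ρ`, `NQ ρ` -/
def SP : Set (E 3) := Box (1 / 10) (29 / 100) (51 / 100) (1 / 100)
def SQ : Set (E 3) := Box (1 / 10) (-(1 / 100)) (19 / 100) (1 / 100)

theorem coord_lt {p c : E 3} {ρ : ℝ} (h : ‖p - c‖ < ρ) (i : Fin 3) :
    -ρ < p i - c i ∧ p i - c i < ρ := by
  have := (norm_le_pi_norm (p - c) i).trans_lt h
  rw [Real.norm_eq_abs, Pi.sub_apply] at this
  exact abs_lt.mp this

theorem NP_sub {ρ : ℝ} (hρ : ρ ≤ 1 / 1000) : NP ρ ⊆ SP := by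
  rintro p ⟨c, hc, h⟩
  obtain ⟨⟨a0, b0⟩, ⟨a1, b1⟩, h2⟩ := CP_pos hc
  have d0 := coord_lt h 0
  have d1 := coord_lt h 1
  have d2 := coord_lt h 2
  refine ⟨abs_le.mpr ⟨by linarith, by linarith⟩, by linarith, by linarith,
    abs_le.mpr ⟨by linarith, by linarith⟩⟩

theorem NQ_sub {ρ : ℝ} (hρ : ρ ≤ 1 / 1000) : NQ ρ ⊆ SQ := by
  rintro p ⟨c, hc, h⟩
  obtain ⟨⟨a0, b0⟩, ⟨a1, b1⟩, h2⟩ := CQ_pos hc
  have d0 := coord_lt h 0
  have d1 := coord_lt h 1
  have d2 := coord_lt h 2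
  refine ⟨abs_le.mpr ⟨by linarith, by linarith⟩, by linarith, by linarith,
    abs_le.mpr ⟨by linarith, by linarith⟩⟩

theorem isOpen_nbhd (C : Set (E 3)) (ρ : ℝ) : IsOpen {p : E 3 | ∃ c ∈ C, ‖p - c‖ < ρ} := by
  have : {p : E 3 | ∃ c ∈ C, ‖p - c‖ < ρ} = ⋃ c ∈ C, Metric.ball c ρ := by
    ext p; simp [dist_eq_norm]
  rw [this]
  exact isOpen_biUnion fun _ _ => Metric.isOpen_ball

theorem isCompact_Box (X a b Z : ℝ) : IsCompact (Box X a b Z) := by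
  have : Box X a b Z = Icc ![-X, a, -Z] ![X, b, Z] := by
    ext p
    simp only [Box, Set.mem_ofPred_eq, mem_Icc, Pi.le_def, Fin.forall_fin_succ, abs_le]
    simp
    tauto
  rw [this]
  exact isCompact_Icc

theorem int_zero {k : ℤ} (h : |(k : ℝ)| < 1) : k = 0 := by
  have h1 : |k| < 1 := by exact_mod_cast h
  exact Int.abs_lt_one_iff.mp h1

theorem box_box {X a b Z : ℝ} (hX : X < 1 / 2) (hab : b - a < 1) (hZ : Z < 1 / 2) (x : E 3)
    (k : Fin 3 → ℤ) (h1 : x ∈ Box X a b Z) (h2 : x + intVec k ∈ Box X a b Z) : k = 0 := by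
  obtain ⟨p0, p1, p1', p2⟩ := h1
  obtain ⟨q0, q1, q1', q2⟩ := h2
  simp only [Pi.add_apply, intVec] at q0 q1 q1' q2
  rw [abs_le] at p0 p2 q0 q2
  have k0 : k 0 = 0 := int_zero (abs_lt.mpr ⟨by linarith [p0.1, p0.2, q0.1, q0.2],
    by linarith [p0.1, p0.2, q0.1, q0.2]⟩)
  have k1 : k 1 = 0 := int_zero (abs_lt.mpr ⟨by linarith, by linarith⟩)
  have k2 : k 2 = 0 := int_zero (abs_lt.mpr ⟨by linarith [p2.1, p2.2, q2.1, q2.2],
    by linarith [p2.1, p2.2, q2.1, q2.2]⟩)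
  ext i
  fin_cases i <;> simp [k0, k1, k2]

theorem SP_SQ (x : E 3) (k : Fin 3 → ℤ) (h1 : x ∈ SP) (h2 : x + intVec k ∈ SQ) : False := by
  obtain ⟨-, p1, p1', -⟩ := h1
  obtain ⟨-, q1, q1', -⟩ := h2
  simp only [Pi.add_apply, intVec] at q1 q1'
  have h3 : (k 1 : ℝ) < 0 := by linarith
  have h4 : (-1 : ℝ) < k 1 := by linarith
  have h5 : k 1 < 0 := by exact_mod_cast h3
  have h6 : -1 < k 1 := by exact_mod_cast h4
  omega

theorem SQ_SP (x : E 3) (k : Fin 3 → ℤ) (h1 : x ∈ SQ) (h2 : x + intVec k ∈ SP) : False := by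
  refine SP_SQ (x + intVec k) (-k) h2 ?_
  rw [ReachAbs.intVec_neg, add_neg_cancel_right]; exact h1

theorem sepPQ {ρ : ℝ} (hρ : ρ ≤ 1 / 1000) : ReachAbs.Sep (NP ρ) (NQ ρ) SP SQ where
  No := isOpen_nbhd CP ρ
  Mo := isOpen_nbhd CQ ρ
  NS := NP_sub hρ
  MS := NQ_sub hρ
  cN := isCompact_Box _ _ _ _
  cM := (isCompact_Box _ _ _ _).isClosed
  NN := box_box (by norm_num) (by norm_num) (by norm_num)
  MM := box_box (by norm_num) (by norm_num) (by norm_num)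
  NM := SP_SQ

theorem sepQP {ρ : ℝ} (hρ : ρ ≤ 1 / 1000) : ReachAbs.Sep (NQ ρ) (NP ρ) SQ SP where
  No := isOpen_nbhd CQ ρ
  Mo := isOpen_nbhd CP ρ
  NS := NQ_sub hρ
  MS := NP_sub hρ
  cN := isCompact_Box _ _ _ _
  cM := (isCompact_Box _ _ _ _).isClosed
  NN := box_box (by norm_num) (by norm_num) (by norm_num)
  MM := box_box (by norm_num) (by norm_num) (by norm_num)
  NM := SQ_SP

theorem near_Pt {p : E 3} (h : ‖p - Pt‖ ≤ 1 / 1000) : p ∈ SP := by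
  have d0 := coord_lt (h.trans_lt (by norm_num : (1 / 1000 : ℝ) < 1 / 500)) 0
  have d1 := coord_lt (h.trans_lt (by norm_num : (1 / 1000 : ℝ) < 1 / 500)) 1
  have d2 := coord_lt (h.trans_lt (by norm_num : (1 / 1000 : ℝ) < 1 / 500)) 2
  simp [Pt] at d0 d1 d2
  refine ⟨abs_le.mpr ⟨by linarith, by linarith⟩, by linarith, by linarith,
    abs_le.mpr ⟨by linarith, by linarith⟩⟩

theorem near_Qt {p : E 3} (h : ‖p - Qt‖ ≤ 1 / 1000) : p ∈ SQ := by
  have d0 := coord_lt (h.trans_lt (by norm_num : (1 / 1000 : ℝ) < 1 / 500)) 0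
  have d1 := coord_lt (h.trans_lt (by norm_num : (1 / 1000 : ℝ) < 1 / 500)) 1
  have d2 := coord_lt (h.trans_lt (by norm_num : (1 / 1000 : ℝ) < 1 / 500)) 2
  simp [Qt] at d0 d1 d2
  refine ⟨abs_le.mpr ⟨by linarith, by linarith⟩, by linarith, by linarith,
    abs_le.mpr ⟨by linarith, by linarith⟩⟩

end ReachPos

end HetCyc
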