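import Pool.Agent.HetCyc.Model

/-!
# Statements of the modules

Every module `X` proves `theorem X : S_X` for its statements; other statements may be assumed as
hypotheses. Paper proof: `/team-store/MP_4ecd89_proof51.md`.
-/

namespace HetCyc

open Filter Topology Set

/-! ## the model -/

/-- (module Diffeo) -/
def S_Diffeo : Prop := ∃ F : E 3 ≃ E 3, IsTorusDiffeo ⊤ F ∧ ∀ p, F p = fmap p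

/-- (module CycleHyp) `P` and `Q` are hyperbolic fixed points, of index 1 and 2 -/
def S_CycleHyp : Prop := ∀ F : E 3 ≃ E 3, IsTorusDiffeo ⊤ F → (∀ p, F p = fmap p) →
  F Pt = Pt ∧ F Qt = Qt ∧ IsHypSet F (orb Pt) 1 ∧ IsHypSet F (orb Qt) 2 ∧
    IsTransitive F (orb Pt) ∧ IsTransitive F (orb Qt)

/-- (module CycleTan) the connecting points and the tangency `Xt + ey`, where
`T W^u(P) = T W^s(Q)` is spanned by the directions of `x` and `z` -/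
def S_CycleTan : Prop := ∀ F : E 3 ≃ E 3, IsTorusDiffeo ⊤ F → (∀ p, F p = fmap p) →
  bt ∈ Wu F (orb Qt) ∩ Ws F (orb Pt) ∧ IsHetTangency F (orb Pt) (orb Qt) 1 2 (Xt + ey)

/-- (module Trap) -/
def S_Trap : Prop := ∃ ε : ℝ, 0 < ε ∧ (∀ p ∈ TT, ∀ q, ‖q - fmap p‖ < ε → q ∈ TT) ∧
  (∀ p ∉ RR, ∀ q, ‖q - fmap p‖ < ε → q ∉ RR)

/-- (module Global) the maximal invariant set of `fmap` in `KK` is the cycle -/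
def S_Global : Prop := ∀ u, IsKOrbit fmap u → ∀ n, ∃ k, u n + intVec k ∈ CP ∪ CQ

/-- (module Compact; from `S_Global`) -/
def S_Compact : Prop := ∀ ρ : ℝ, 0 < ρ → ∃ ε : ℝ, 0 < ε ∧ ∀ g : E 3 ≃ E 3, LipClose ε g →
  ∀ u, IsKOrbit g u → ∀ n, ∃ k, ∃ c ∈ CP ∪ CQ, ‖u n + intVec k - c‖ < ρ

/-- (module Passage; from `S_Compact`) -/
def S_Passage : Prop := ∃ ρ₀ : ℝ, 0 < ρ₀ ∧ ∀ ρ : ℝ, 0 < ρ → ρ ≤ ρ₀ →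
  ∃ ε : ℝ, 0 < ε ∧ ∀ g : E 3 ≃ E 3, LipClose ε g → Passages ρ g

/-- (module InstP) -/
def S_InstP : Prop := ∀ δ : ℝ, 0 < δ → δ ≤ 1 / 1000 → ∃ ε : ℝ, 0 < ε ∧
  ∀ g : E 3 ≃ E 3, LipClose ε g → LocalMap g (1 / 20) (3 / 10) (13 / 25) (1 / 50)
    (27 / 20) (3 / 2) (4 / 5) (39 / 25) (9 / 5) δ

/-- (module InstQ) -/
def S_InstQ : Prop := ∀ δ : ℝ, 0 < δ → δ ≤ 1 / 1000 → ∃ ε : ℝ, 0 < ε ∧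
  ∀ g : E 3 ≃ E 3, LipClose ε g → LocalMap g.symm (3 / 50) (-(1 / 50)) (77 / 400) (1 / 50)
    (3 / 2) 2 (4 / 5) (9 / 4) 5 δ

/-- (module NearB) -/
def S_NearB : Prop := 0 < kap ∧ kap ≤ 1 ∧ ∀ α : ℝ, 0 < α → ∃ ρ : ℝ, 0 < ρ ∧
  ∀ p q : E 3, ‖p - bt‖ < 2 * ρ → ‖q - bt‖ < 2 * ρ →
    ‖(fmap p - fmap q) - Lb (p - q)‖ ≤ α * ‖p - q‖

/-- (module GoodEx; from Trap, Passage, InstP, InstQ, NearB) -/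
def S_GoodEx : Prop := ∃ ρ : ℝ, 0 < ρ ∧ ∃ ε : ℝ, 0 < ε ∧
  ∀ g : E 3 ≃ E 3, IsTorusDiffeo 1 g → LipClose ε g → Good ρ g

/-! ## the local lemmas -/

/-- (module Leaf) points of the local stable manifold -/
def S_Leaf : Prop := ∀ (Ψ : E 3 → E 3) (X a b Z A₀ A₁ σ U₀ U₁ δ : ℝ),
  LocalMap Ψ X a b Z A₀ A₁ σ U₀ U₁ δ → ∀ ρ : ℝ, 0 < ρ → ρ ≤ X → ρ ≤ Z →
    δ ≤ ρ * (A₀ - 1 - δ) → ∀ y : ℝ, a ≤ y → y ≤ b →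
      ∃ c : E 3, c 1 = y ∧ ∀ k : ℕ, Ψ^[k] c ∈ Box ρ a b ρ

/-- (module Local) the local stable manifold is a thin curve -/
def S_Cone : Prop := ∀ (Ψ : E 3 → E 3) (X a b Z A₀ A₁ σ U₀ U₁ δ : ℝ),
  LocalMap Ψ X a b Z A₀ A₁ σ U₀ U₁ δ → ∀ α : ℝ, 0 < α → α ≤ 1 → δ < α * (A₀ - 1) →
    ∀ c c' : E 3, (∀ k : ℕ, Ψ^[k] c ∈ Box X a b Z) → (∀ k : ℕ, Ψ^[k] c' ∈ Box X a b Z) →
      |c 0 - c' 0| ≤ α * |c 1 - c' 1| ∧ |c 2 - c' 2| ≤ α * |c 1 - c' 1|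

/-- (module Local) forward orbits in the local stable manifold are asymptotic, uniformly -/
def S_Conv : Prop := ∀ (Ψ : E 3 → E 3) (X a b Z A₀ A₁ σ U₀ U₁ δ : ℝ),
  LocalMap Ψ X a b Z A₀ A₁ σ U₀ U₁ δ →
    ∀ c c' : E 3, (∀ k : ℕ, Ψ^[k] c ∈ Box X a b Z) → (∀ k : ℕ, Ψ^[k] c' ∈ Box X a b Z) →
      ∀ k : ℕ, ‖Ψ^[k] c - Ψ^[k] c'‖ ≤ (σ + δ) ^ k * ‖c - c'‖

/-- (module Local) the exit lemma -/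
def S_Exit : Prop := ∀ (Ψ : E 3 → E 3) (X a b Z A₀ A₁ σ U₀ U₁ δ : ℝ),
  LocalMap Ψ X a b Z A₀ A₁ σ U₀ U₁ δ → ∀ (n : ℕ) (p c : E 3),
    (∀ k < n, Ψ^[k] p ∈ Box X a b Z) → (∀ k < n, Ψ^[k] c ∈ Box X a b Z) → p 1 = c 1 →
    0 < Ψ^[n] p 0 - Ψ^[n] c 0 → |Ψ^[n] p 2 - Ψ^[n] c 2| ≤ Ψ^[n] p 0 - Ψ^[n] c 0 →
      0 < p 0 - c 0 ∧ |p 2 - c 2| ≤ p 0 - c 0

/-- (module Local) no vector with `v 1 = 0` is contracted at a fixed point inside the box -/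
def S_Grow : Prop := ∀ (Ψ : E 3 → E 3) (X a b Z A₀ A₁ σ U₀ U₁ δ : ℝ),
  LocalMap Ψ X a b Z A₀ A₁ σ U₀ U₁ δ → ∀ p : E 3, Box X a b Z ∈ 𝓝 p → Ψ p = p →
    DifferentiableAt ℝ Ψ p → ∀ v : E 3, v 1 = 0 →
      Tendsto (fun n : ℕ => fderiv ℝ (Ψ^[n]) p v) atTop (𝓝 0) → v = 0

/-- (module Fix; continuations of the two saddles) -/
def S_Fix : Prop := ∀ (ρ : ℝ) (g : E 3 ≃ E 3), Good ρ g →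
  (∃ Pg, g Pg = Pg ∧ ‖Pg - Pt‖ ≤ ρ ∧ ∀ q ∈ BoxP, g q = q → q = Pg) ∧
  (∃ Qg, g Qg = Qg ∧ ‖Qg - Qt‖ ≤ ρ ∧ ∀ q ∈ BoxQ, g q = q → q = Qg)

/-! ## the order argument -/

/-- (module Index; from `S_Grow`) -/
def S_Index : Prop := ∀ (ρ : ℝ) (g : E 3 ≃ E 3), Good ρ g → ∀ Pg Qg, g Pg = Pg →
  ‖Pg - Pt‖ ≤ ρ → g Qg = Qg → ‖Qg - Qt‖ ≤ ρ → ∀ (Λ : Set (E 3)) (i : ℕ), IsHypSet g Λ i →
    (Pg ∈ Λ → i ≤ 1) ∧ (Qg ∈ Λ → 2 ≤ i)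

/-- (module InK) the sets of a cycle and the connecting orbit lie in `KK` -/
def S_InK : Prop := ∀ (ρ : ℝ) (g : E 3 ≃ E 3), Good ρ g → ∀ Pg Qg, g Pg = Pg →
  ‖Pg - Pt‖ ≤ ρ → g Qg = Qg → ‖Qg - Qt‖ ≤ ρ → ∀ (Λ Γ : Set (E 3)),
    g '' Λ = Λ → g '' Γ = Γ → IsTransitive g Λ → IsTransitive g Γ → Pg ∈ Λ → Qg ∈ Γ →
      Λ ⊆ KK ∧ Γ ⊆ KK ∧ ∀ (p : E 3) (u : ℤ → E 3), p ∈ Wu g Γ ∩ Ws g Λ → u 0 = p →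
        (∀ n, g (u n) = u (n + 1)) → IsKOrbit g u

/-- (module ReachU; from `S_InK`, `S_Cone`, `S_Conv`, `S_Index`) an orbit that leaves the side of
`Q` for the first time -/
def S_ReachU : Prop := ∀ (ρ : ℝ) (g : E 3 ≃ E 3), Good ρ g → ∀ Pg Qg, g Pg = Pg →
  ‖Pg - Pt‖ ≤ ρ → g Qg = Qg → ‖Qg - Qt‖ ≤ ρ → ∀ (Λ Γ : Set (E 3)) (i j : ℕ),
    IsHypSet g Λ i → IsHypSet g Γ j → IsTransitive g Λ → IsTransitive g Γ → i ≠ j →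
    Pg ∈ Λ → Qg ∈ Γ → (Wu g Γ ∩ Ws g Λ).Nonempty →
      ∃ u, IsKOrbit g u ∧ (∀ n ≤ 0, u n ∈ NQ ρ) ∧ u 1 ∈ NP ρ ∧ ((∀ n, u n ∈ Γ) ∨ Γ = orb Qg)

/-- (module ReachV; from `S_InK`, `S_Cone`, `S_Conv`, `S_Index`) an orbit that enters the side of
`P` for the last time -/
def S_ReachV : Prop := ∀ (ρ : ℝ) (g : E 3 ≃ E 3), Good ρ g → ∀ Pg Qg, g Pg = Pg →
  ‖Pg - Pt‖ ≤ ρ → g Qg = Qg → ‖Qg - Qt‖ ≤ ρ → ∀ (Λ Γ : Set (E 3)) (i j : ℕ),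
    IsHypSet g Λ i → IsHypSet g Γ j → IsTransitive g Λ → IsTransitive g Γ → i ≠ j →
    Pg ∈ Λ → Qg ∈ Γ → (Wu g Γ ∩ Ws g Λ).Nonempty →
      ∃ v, IsKOrbit g v ∧ (∀ n, 0 ≤ n → v n ∈ NP ρ) ∧ v (-1) ∈ NQ ρ ∧
        ((∀ n, v n ∈ Λ) ∨ Λ = orb Pg)

/-- (module Order; from `S_Leaf`, `S_Cone`, `S_Exit`) -/
def S_Order : Prop := ∀ (ρ : ℝ) (g : E 3 ≃ E 3), Good ρ g → ∀ u v : ℤ → E 3,
  IsKOrbit g u → (∀ n ≤ 0, u n ∈ NQ ρ) → u 1 ∈ NP ρ →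
  IsKOrbit g v → (∀ n, 0 ≤ n → v n ∈ NP ρ) → v (-1) ∈ NQ ρ →
    (∀ n : ℕ, (⇑g)^[n] (u 1) ∈ BoxP) ∧ (∀ n : ℕ, (⇑g.symm)^[n] (v (-1)) ∈ BoxQ)

/-- (module OrderMain; from `S_ReachU`, `S_ReachV`, `S_Order`, `S_Conv`, `S_Index`) -/
def S_OrderMain : Prop := ∀ (ρ : ℝ) (g : E 3 ≃ E 3), Good ρ g → ∀ Pg Qg, g Pg = Pg →
  ‖Pg - Pt‖ ≤ ρ → g Qg = Qg → ‖Qg - Qt‖ ≤ ρ → ∀ (Λ Γ : Set (E 3)) (i j : ℕ),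
    IsHypSet g Λ i → IsHypSet g Γ j → IsTransitive g Λ → IsTransitive g Γ → i ≠ j →
    Pg ∈ Λ → Qg ∈ Γ → (Wu g Γ ∩ Ws g Λ).Nonempty →
      Λ = orb Pg ∧ Γ = orb Qg ∧ ∃ q : E 3, ‖q - bt‖ < ρ ∧
        (∀ n : ℕ, (⇑g.symm)^[n] q ∈ BoxQ) ∧ (∀ n : ℕ, (⇑g)^[n] (g q) ∈ BoxP)

/-- (module Shear) the perturbations `g' = (x, y, z) ↦ (x + e B(y), y, z)` after `g` -/
def S_Shear : Prop := ∀ (r : ℕ∞) (g : E 3 ≃ E 3), 1 ≤ r → IsTorusDiffeo r g →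
  ∀ (k : ℕ) (ε : ℝ), (k : ℕ∞) ≤ r → 0 < ε → ∃ (e : ℝ) (g' : E 3 ≃ E 3), e ≠ 0 ∧
    IsTorusDiffeo r g' ∧ CkClose k ε g g' ∧
    (∀ p, |g p 1 - phi (3 / 16)| ≤ 1 / 200 → g' p = g p + ![e, 0, 0]) ∧
    (∀ p, 2 / 5 ≤ g p 1 → g p 1 ≤ 3 / 5 → g' p = g p) ∧
    (∀ p : E 3, -(1 / 10) ≤ p 1 → p 1 ≤ 1 / 4 → g'.symm p = g.symm p)

/-- (module Unique; from `S_Cone`) two connections of `g` and of the sheared `g'` are impossible -/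
def S_Unique : Prop := ∀ (ρ : ℝ) (g : E 3 ≃ E 3), Good ρ g → ∀ (e : ℝ) (q q' : E 3),
  ‖q - bt‖ < ρ → ‖q' - bt‖ < ρ → (∀ n : ℕ, (⇑g.symm)^[n] q ∈ BoxQ) →
  (∀ n : ℕ, (⇑g.symm)^[n] q' ∈ BoxQ) → (∀ n : ℕ, (⇑g)^[n] (g q) ∈ BoxP) →
  (∀ n : ℕ, (⇑g)^[n] (g q' + ![e, 0, 0]) ∈ BoxP) → e = 0

/-- (module Close) -/
def S_Close : Prop := ∀ (F g g' : E 3 ≃ E 3) (ε : ℝ), (∀ p, F p = fmap p) →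
  IsTorusDiffeo ⊤ F → IsTorusDiffeo 1 g → IsTorusDiffeo 1 g' →
  (CkClose 1 ε F g → LipClose ε g) ∧
  (CkClose 1 (ε / 2) F g → CkClose 1 (ε / 2) g g' → CkClose 1 ε F g') ∧
  (0 < ε → ∀ k : ℕ, CkClose k ε g g)

/-- (module Final; from everything) -/
def S_Final : Prop := MainStmt

end HetCyc
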